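import Pool.Agent.Lib.MP_6adaea_nt.T.Base

/-!
Elements that can be approximated by Laurent polynomials in a uniformiser.
-/

set_option linter.unusedSectionVars false

namespace Pool.Agent.Lib.MP_6adaea_nt.T
open Matrix Polynomial G U Module

variable {kb E : Type} [Field kb] [Field E] [Algebra kb E] {V : QVal E} {ϖ x : E}

variable (kb) in
/-- `x` is a limit of Laurent polynomials in `ϖ` -/
def Ap (V : QVal E) (ϖ x : E) : Prop :=
  ∀ N : ℕ, ∃ (m : ℕ) (f : kb[X]), V.Ge (x - aeval ϖ f / ϖ ^ m) N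

theorem ap_ne (hϖ : V.ord ϖ = 1) : ϖ ≠ 0 := by
  rintro rfl
  simp at hϖ

theorem ap_sub (hϖ : V.ord ϖ = 1) (h : Ap kb V ϖ x) (c : kb) :
    Ap kb V ϖ (x - algebraMap kb E c) := fun N => by
  obtain ⟨m, f, hf⟩ := h N
  refine ⟨m, f - C c * X ^ m, ?_⟩
  have := ap_ne hϖ
  convert hf using 1
  simp only [map_sub, map_mul, aeval_C, map_pow, aeval_X]
  field_simp
  ring

theorem Ap.mul_zpow (hϖ : V.ord ϖ = 1) (h : Ap kb V ϖ x) (n : ℤ) : Ap kb V ϖ (x * ϖ ^ n) := by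
  intro N
  have h0 := ap_ne hϖ
  obtain ⟨a, b, rfl⟩ : ∃ a b : ℕ, n = a - b := ⟨n.toNat, (-n).toNat, by omega⟩
  obtain ⟨m, f, hf⟩ := h (N + b)
  refine ⟨m + b, f * X ^ a, ?_⟩
  have h1 := hf.mul (V.ge_ord (ϖ ^ ((a : ℤ) - b)))
  rw [QVal.ord_zpow, hϖ] at h1
  have h2 : x * ϖ ^ ((a : ℤ) - b) - aeval ϖ (f * X ^ a) / ϖ ^ (m + b) =
      (x - aeval ϖ f / ϖ ^ m) * ϖ ^ ((a : ℤ) - b) := by
    rw [zpow_sub₀ h0, zpow_natCast, zpow_natCast, map_mul, map_pow, aeval_X]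
    field_simp
    ring
  rw [h2]
  refine h1.mono ?_
  push_cast
  have : (0 : ℚ) ≤ a := Nat.cast_nonneg a
  linarith

/-- `QVal.ord_aeval`, `ord_eq_of_sub` -/
theorem Ap.int (hres : V.HasRes kb) (hϖ : V.ord ϖ = 1) (h : Ap kb V ϖ x) :
    ∃ n : ℤ, V.ord x = n := by
  by_cases hx : x = 0
  · exact ⟨0, by simp [hx]⟩
  obtain ⟨N, hN⟩ := exists_nat_gt (V.ord x)
  obtain ⟨m, f, hf⟩ := h N
  have h1 := (hf.gt hN).neg
  rw [neg_sub] at h1
  obtain ⟨h2, h3⟩ := QVal.ord_eq_of_sub hx h1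
  have hf0 : f ≠ 0 := by
    rintro rfl
    simp at h2
  obtain ⟨h4, h5⟩ := V.ord_aeval hres.const (π := ϖ) (by rw [hϖ]; exact one_pos) hf0
  refine ⟨(f.natTrailingDegree : ℤ) - m, ?_⟩
  rw [← h3, V.ord_div h4 (pow_ne_zero _ (ap_ne hϖ)), h5, QVal.ord_pow, hϖ]
  push_cast
  ring

theorem ap_const (hres : V.HasRes kb) (hϖ : V.ord ϖ = 1) (h : Ap kb V ϖ x) (h0 : V.Ge x 0) :
    ∃ c : kb, V.Ge (x - algebraMap kb E c) 1 := by
  obtain ⟨c, hc⟩ := hres.res x h0
  obtain ⟨n, hn⟩ := (ap_sub hϖ h c).int hres hϖ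
  refine ⟨c, hc.imp id fun h1 => ?_⟩
  rw [hn] at h1 ⊢
  have h2 : (0 : ℤ) < n := by exact_mod_cast h1
  exact_mod_cast h2

/-- induction on `N`: `x = c + ϖ * x'` with `x'` integral (`Ap.int` for `x - c`) -/
theorem Ap.poly (hres : V.HasRes kb) (hϖ : V.ord ϖ = 1) (h : Ap kb V ϖ x) (h0 : V.Ge x 0)
    (N : ℕ) : ∃ f : kb[X], f.natDegree ≤ N ∧ V.Ge (x - aeval ϖ f) (N + 1) := by
  induction N generalizing x with
  | zero =>
    obtain ⟨c, hc⟩ := ap_const hres hϖ h h0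
    exact ⟨C c, by simp, by simpa using hc⟩
  | succ N ih =>
    obtain ⟨c, hc⟩ := ap_const hres hϖ h h0
    have h1 := ap_ne hϖ
    have h2 : V.Ge ((x - algebraMap kb E c) * ϖ ^ (-1 : ℤ)) 0 := by
      have := hc.mul (V.ge_ord (ϖ ^ (-1 : ℤ)))
      rw [QVal.ord_zpow, hϖ] at this
      simpa using this
    obtain ⟨f, hf1, hf2⟩ := ih ((ap_sub hϖ h c).mul_zpow hϖ (-1)) h2
    refine ⟨C c + f * X, ?_, ?_⟩
    · refine (natDegree_add_le _ _).trans (max_le (by simp) (natDegree_mul_le.trans ?_))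
      rw [natDegree_X]
      omega
    · have h3 := hf2.mul (V.ge_ord ϖ)
      rw [hϖ] at h3
      convert h3 using 1
      · simp only [map_add, map_mul, aeval_C, aeval_X, _root_.zpow_neg, zpow_one]
        field_simp
        ring
      · push_cast
        ring

/-- `QVal.eq_zero_of_ge` -/
theorem Ap.fix (h : Ap kb V ϖ x) (σ : E →+* E) (h1 : ∀ c, σ (algebraMap kb E c) = algebraMap kb E c)
    (h2 : σ ϖ = ϖ) (h3 : ∀ z, V.ord (σ z) = V.ord z) : σ x = x := by
  let τ : E →ₐ[kb] E := { σ with commutes' := h1 }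
  rw [← sub_eq_zero]
  refine QVal.eq_zero_of_ge (V := V) fun N => ?_
  obtain ⟨m, f, hf⟩ := h N
  have h4 : σ (aeval ϖ f) = aeval ϖ f := by
    have h5 := aeval_algHom_apply τ ϖ f
    have h6 : τ ϖ = ϖ := h2
    rw [h6] at h5
    exact h5.symm
  have h5 : V.Ge (σ (x - aeval ϖ f / ϖ ^ m)) N :=
    hf.imp (fun e => by rw [e, map_zero]) fun e => by rwa [h3]
  rw [map_sub, map_div₀, map_pow, h4, h2] at h5
  simpa using h5.sub hf

theorem hasRes_scale (hres : V.HasRes kb) {c : ℚ} (hc : 0 < c) : (V.scale c hc.le).HasRes kb := by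
  refine ⟨fun a => by simp [hres.const], fun x hx => ?_⟩
  obtain ⟨a, ha⟩ := hres.res x (hx.imp id fun h => nonneg_of_mul_nonneg_right h hc)
  exact ⟨a, ha.imp id fun h => mul_pos hc h⟩

theorem ap_common (σ : E → E) (S : Finset E) (h : ∀ x ∈ S, ∃ n, 0 < n ∧ σ^[n] x = x) :
    ∃ n, 0 < n ∧ ∀ x ∈ S, σ^[n] x = x := by
  classical
  induction S using Finset.induction_on with
  | empty => exact ⟨1, one_pos, by simp⟩
  | insert a S _ ih =>
    obtain ⟨n, hn, h1⟩ := ih fun x hx => h x (Finset.mem_insert_of_mem hx)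
    obtain ⟨m, hm, h2⟩ := h a (Finset.mem_insert_self _ _)
    refine ⟨n * m, Nat.mul_pos hn hm, fun x hx => ?_⟩
    rcases Finset.mem_insert.1 hx with rfl | hx
    · exact Function.IsPeriodicPt.const_mul h2 n
    · exact Function.IsPeriodicPt.mul_const (h1 x hx) m

theorem ap_two (σ : E → E) {x y : E} (hx : ∃ n, 0 < n ∧ σ^[n] x = x)
    (hy : ∃ n, 0 < n ∧ σ^[n] y = y) : ∃ n, 0 < n ∧ σ^[n] x = x ∧ σ^[n] y = y := by
  obtain ⟨n, hn, h1⟩ := hx
  obtain ⟨m, hm, h2⟩ := hy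
  exact ⟨n * m, Nat.mul_pos hn hm, Function.IsPeriodicPt.mul_const h1 m,
    Function.IsPeriodicPt.const_mul h2 n⟩

theorem ap_adjoin (σ : E →+* E) (h1 : σ ϖ = ϖ)
    (h2 : ∀ c : kb, ∃ n, 0 < n ∧ σ^[n] (algebraMap kb E c) = algebraMap kb E c) {y : E}
    (hy : y ∈ IntermediateField.adjoin kb {ϖ}) : ∃ n, 0 < n ∧ σ^[n] y = y := by
  induction hy using IntermediateField.adjoin_induction with
  | mem x hx =>
    rw [Set.mem_singleton_iff.1 hx]
    exact ⟨1, one_pos, h1⟩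
  | algebraMap c => exact h2 c
  | add x y _ _ hx hy =>
    obtain ⟨n, hn, e1, e2⟩ := ap_two σ hx hy
    rw [← RingHom.coe_pow] at e1 e2
    exact ⟨n, hn, by rw [← RingHom.coe_pow, map_add, e1, e2]⟩
  | inv x _ hx =>
    obtain ⟨n, hn, e1⟩ := hx
    rw [← RingHom.coe_pow] at e1
    exact ⟨n, hn, by rw [← RingHom.coe_pow, map_inv₀, e1]⟩
  | mul x y _ _ hx hy =>
    obtain ⟨n, hn, e1, e2⟩ := ap_two σ hx hy
    rw [← RingHom.coe_pow] at e1 e2
    exact ⟨n, hn, by rw [← RingHom.coe_pow, map_mul, e1, e2]⟩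

theorem ap_root (τ : E →+* E) {p : E[X]} (hp : p ≠ 0) (h : p.map τ = p) (hx : p.IsRoot x) :
    ∃ n, 0 < n ∧ τ^[n] x = x := by
  classical
  have h1 : ∀ i : ℕ, τ^[i] x ∈ (p.roots.toFinset : Set E) := by
    intro i
    rw [Finset.mem_coe, Multiset.mem_toFinset, mem_roots hp]
    induction i with
    | zero => exact hx
    | succ i ih =>
      rw [Function.iterate_succ_apply', ← h]
      exact ih.map
  obtain ⟨a, b, hab, e⟩ := Set.Finite.exists_lt_map_eq_of_forall_mem h1 (Finset.finite_toSet _)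
  obtain ⟨c, rfl⟩ := Nat.exists_eq_add_of_lt hab
  refine ⟨c + 1, Nat.succ_pos c, (τ.injective.iterate a) ?_⟩
  rw [← Function.iterate_add_apply, ← add_assoc]
  exact e.symm

/-- `x` is a root of a nonzero polynomial whose coefficients are polynomials in `ϖ` over `kb`; some
iterate of `σ` fixes these coefficients and therefore permutes the finitely many roots -/
theorem exists_period [Algebra.IsAlgebraic (IntermediateField.adjoin kb {ϖ}) E] (σ : E →+* E)
    (h1 : σ ϖ = ϖ) (h2 : ∀ c : kb, ∃ n, 0 < n ∧ σ^[n] (algebraMap kb E c) = algebraMap kb E c)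
    (S : Finset E) : ∃ n, 0 < n ∧ ∀ x ∈ S, σ^[n] x = x := by
  classical
  refine ap_common σ S fun x _ => ?_
  obtain ⟨p, hp, hx⟩ := Algebra.IsAlgebraic.isAlgebraic (R := IntermediateField.adjoin kb {ϖ}) x
  let q := p.map (algebraMap (IntermediateField.adjoin kb {ϖ}) E)
  have hq : q ≠ 0 := Polynomial.map_ne_zero hp
  obtain ⟨n, hn, h3⟩ := ap_common σ q.coeffs fun y hy => by
    obtain ⟨i, -, rfl⟩ := mem_coeffs_iff.1 hy
    rw [coeff_map]
    exact ap_adjoin σ h1 h2 (p.coeff i).2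
  have h4 : q.map (σ ^ n) = q := by
    ext i
    rw [coeff_map]
    by_cases h0 : q.coeff i = 0
    · rw [h0, map_zero]
    · rw [RingHom.coe_pow]
      exact h3 _ (coeff_mem_coeffs h0)
  obtain ⟨m, hm, h5⟩ := ap_root (x := x) (σ ^ n) hq h4 (by rwa [IsRoot, eval_map_algebraMap])
  refine ⟨n * m, Nat.mul_pos hn hm, ?_⟩
  rwa [RingHom.coe_pow, ← Function.iterate_mul] at h5

/-- a root of `X ^ n - 1` lies in `kb`; `HasRes.eq_of_gt` -/
theorem eq_one_of_pow [IsAlgClosed kb] (hres : V.HasRes kb) {n : ℕ} (hn : n ≠ 0) (h : x ^ n = 1)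
    (h1 : V.Gt (x - 1) 0) : x = 1 := by
  have hi : IsIntegral kb x := IsIntegral.of_pow (Nat.pos_of_ne_zero hn) (h ▸ isIntegral_one)
  obtain ⟨c, rfl⟩ := minpoly.mem_range_of_degree_eq_one kb x
    (IsAlgClosed.degree_eq_one_of_irreducible kb (minpoly.irreducible hi))
  rw [hres.eq_of_gt (c := c) (d := 1) (by rwa [map_one]), map_one]

/-- divide any root by its residue -/
theorem exists_root_one [IsAlgClosed E] (hres : V.HasRes kb) {n : ℕ} (hn : n ≠ 0)
    (h1 : V.Gt (x - 1) 0) : ∃ κ, κ ^ n = x ∧ V.Gt (κ - 1) 0 := by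
  obtain ⟨y, hy⟩ := IsAlgClosed.exists_pow_nat_eq x (Nat.pos_of_ne_zero hn)
  obtain ⟨h2, h3⟩ := QVal.ord_eq_of_sub (V := V) (f := 1) (g := x) one_ne_zero (by simpa using h1)
  have h4 : V.ord y = 0 := by
    rw [← hy, QVal.ord_pow, QVal.ord_one] at h3
    exact (mul_eq_zero.1 h3).resolve_left (by exact_mod_cast hn)
  have h5 : V.Ge y 0 := QVal.Ge.of_le h4.ge
  have h6 : V.res kb y ^ n = 1 := by
    rw [← hres.res_pow h5, hy]
    exact hres.res_eq (by rwa [map_one])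
  have h7 : algebraMap kb E (V.res kb y) ≠ 0 := by
    intro e
    rw [(map_eq_zero _).1 e, zero_pow hn] at h6
    exact zero_ne_one h6
  refine ⟨y / algebraMap kb E (V.res kb y), by rw [div_pow, ← map_pow, h6, map_one, div_one, hy], ?_⟩
  rw [div_sub_one h7, QVal.gt_div_iff h7, hres.const, add_zero]
  exact hres.gt_res h5

section K
variable {K : Type} [Field K] [Algebra kb K] [Algebra K E] [IsScalarTower kb K E] [IsAlgClosed kb]
  [IsFF kb K] {v : Place kb K} {π : K} {n : ℕ}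

/-- `Place.exists_laurent`, `Polynomial.expand` -/
theorem ap_of_over (hV : V.Over v) (hπ : v.ord π = 1) (hn : 0 < n)
    (h : ϖ ^ n = algebraMap K E π) (y : K) :
    Ap kb (V.scale n (Nat.cast_nonneg n)) ϖ (algebraMap K E y) := by
  intro N
  obtain ⟨m, f, hf⟩ := v.exists_laurent hπ y N
  refine ⟨n * m, expand kb n f, ?_⟩
  have h1 := hV.ge_iff.2 hf
  rw [map_sub, map_div₀, map_pow, ← aeval_algebraMap_apply, ← h] at h1
  rw [expand_aeval, pow_mul]
  refine h1.imp id fun h2 => ?_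
  rw [QVal.scale_ord]
  have h3 : (1 : ℚ) ≤ n := by exact_mod_cast hn
  have h4 : (0 : ℚ) ≤ N := Nat.cast_nonneg N
  push_cast at h2
  nlinarith

/-- `IsFF.finite_adjoin` for `π` -/
theorem alg_of_pow [Algebra.IsAlgebraic K E] (hπ : v.ord π = 1) (h : ϖ ^ n = algebraMap K E π) :
    Algebra.IsAlgebraic (IntermediateField.adjoin kb {ϖ}) E := by
  have h1 := IsFF.finite_adjoin (v.transcendental (t := π) (by rw [hπ]; exact one_ne_zero))
  have h2 : ∀ a : IntermediateField.adjoin kb {π},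
      algebraMap K E a ∈ IntermediateField.adjoin kb {ϖ} := fun a => by
    have h3 : IntermediateField.adjoin kb {π} ≤
        (IntermediateField.adjoin kb {ϖ}).comap (IsScalarTower.toAlgHom kb K E) := by
      rw [IntermediateField.adjoin_simple_le_iff]
      change algebraMap K E π ∈ IntermediateField.adjoin kb {ϖ}
      rw [← h]
      exact pow_mem (IntermediateField.mem_adjoin_simple_self kb ϖ) n
    exact h3 a.2
  let φ : IntermediateField.adjoin kb {π} →+* IntermediateField.adjoin kb {ϖ} :=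
    ((algebraMap K E).comp (algebraMap (IntermediateField.adjoin kb {π}) K)).codRestrict _ h2
  have h4 : Algebra.IsAlgebraic (IntermediateField.adjoin kb {π}) E :=
    Algebra.IsAlgebraic.trans _ K E
  refine ⟨fun z => ?_⟩
  obtain ⟨p, hp, hz⟩ := h4.isAlgebraic z
  refine ⟨p.map φ, Polynomial.map_ne_zero hp, ?_⟩
  rw [aeval_def, eval₂_map]
  exact hz

/-- `AlgEquiv.restrictNormal` -/
theorem restrict_aut {Ω : Type} [Field Ω] [Algebra K Ω] [Algebra Ω E] [IsScalarTower K Ω E]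
    [Normal K Ω] (σ : E ≃+* E) (h : ∀ y : K, σ (algebraMap K E y) = algebraMap K E y) :
    ∃ τ : Ω ≃ₐ[K] Ω, ∀ z, algebraMap Ω E (τ z) = σ (algebraMap Ω E z) := by
  let σ' : E ≃ₐ[K] E := { σ with commutes' := h }
  exact ⟨σ'.restrictNormal Ω, fun z => σ'.restrictNormal_commutes Ω z⟩

end K

end Pool.Agent.Lib.MP_6adaea_nt.T
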