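import Pool.Agent.Lib.MP_6adaea_nt.U.Valu
import Pool.Agent.Lib.MP_6adaea_nt.U.FFun
import Pool.Agent.Lib.MP_6adaea_nt.G.Tors
import Pool.Agent.Lib.MP_6adaea_nt.G.Rep

/-!
Drinfeld modules over a valued field: normalisation, discs, valuations of torsion points.
-/

set_option linter.unusedSectionVars false

namespace Pool.Agent.Lib.MP_6adaea_nt.T
open Matrix Polynomial G U

/-- the common denominator -/
def n0 (q r : ℕ) : ℕ := ∏ i ∈ Finset.Icc 1 r, (q ^ i - 1)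

/-- rational numbers whose denominator is a power of `p` -/
def Zp (p : ℕ) (m : ℚ) : Prop := ∃ (a : ℕ) (n : ℤ), p ^ a * m = n

theorem n0_pos {q : ℕ} (hq : 1 < q) (r : ℕ) : 0 < n0 q r := by
  unfold n0
  refine Finset.prod_pos fun i hi => ?_
  have h1 : 1 ≤ i := (Finset.mem_Icc.mp hi).1
  have h2 : 1 < q ^ i := Nat.one_lt_pow (by omega) hq
  omega

theorem dvd_n0 {q r i : ℕ} (hi : i ∈ Finset.Icc 1 r) : q ^ i - 1 ∣ n0 q r :=
  Finset.dvd_prod_of_mem _ hi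

/-- each factor is `-1` in `F` -/
theorem n0_ne (k F : Type) [Field k] [Finite k] [Field F] [Algebra k F] (r : ℕ) :
    ((n0 (Nat.card k) r : ℕ) : F) ≠ 0 := by
  have hq : 1 < Nat.card k := Finite.one_lt_card
  have h0 : ((Nat.card k : ℕ) : F) = 0 := by
    have := Fintype.ofFinite k
    rw [← map_natCast (algebraMap k F), Nat.card_eq_fintype_card, FiniteField.cast_card_eq_zero,
      map_zero]
  unfold n0
  rw [Nat.cast_prod]
  refine Finset.prod_ne_zero_iff.mpr fun i hi => ?_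
  have h1 : 1 ≤ i := (Finset.mem_Icc.mp hi).1
  have h2 : 1 ≤ Nat.card k ^ i := Nat.one_le_pow _ _ (by omega)
  rw [Nat.cast_sub h2, Nat.cast_pow, h0, zero_pow (by omega)]
  simp

theorem Zp.int (p : ℕ) (n : ℤ) : Zp p n := ⟨0, n, by simp⟩

theorem Zp.add {p : ℕ} {a b : ℚ} (ha : Zp p a) (hb : Zp p b) : Zp p (a + b) := by
  obtain ⟨c, m, hm⟩ := ha
  obtain ⟨d, n, hn⟩ := hb
  refine ⟨c + d, p ^ d * m + p ^ c * n, ?_⟩
  push_cast
  rw [← hm, ← hn]
  ring

theorem Zp.neg {p : ℕ} {a : ℚ} (ha : Zp p a) : Zp p (-a) := by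
  obtain ⟨c, m, hm⟩ := ha
  refine ⟨c, -m, ?_⟩
  push_cast
  rw [← hm]
  ring

theorem Zp.int_mul {p : ℕ} {a : ℚ} (ha : Zp p a) (n : ℤ) : Zp p (n * a) := by
  obtain ⟨c, m, hm⟩ := ha
  refine ⟨c, n * m, ?_⟩
  push_cast
  rw [← hm]
  ring

theorem Zp.of_pow_mul {p e : ℕ} {a : ℚ} (ha : Zp p (p ^ e * a)) : Zp p a := by
  obtain ⟨c, m, hm⟩ := ha
  refine ⟨c + e, m, ?_⟩
  rw [← hm]
  ring

section gen
variable {k Ω : Type} [Field k] [Finite k] [Field Ω] [Algebra k Ω]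

/-- nonzero elements of a finite field are roots of unity -/
theorem ord_k (V : QVal Ω) (c : k) : V.ord (algebraMap k Ω c) = 0 := by
  by_cases hc : c = 0
  · simp [hc]
  have := Fintype.ofFinite k
  have hq : 1 < Fintype.card k := Fintype.one_lt_card
  refine V.ord_of_pow_eq_one (n := Fintype.card k - 1) (by omega) ?_
  rw [← map_pow, FiniteField.pow_card_sub_one_eq_one c hc, map_one]

theorem ge_smul {V : QVal Ω} {x : Ω} {m : ℚ} (c : k) (h : V.Ge x m) : V.Ge (c • x) m := by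
  rw [Algebra.smul_def]
  exact (QVal.Ge.of_le (ord_k V c).ge).mul₀ h

theorem gt_smul {V : QVal Ω} {x : Ω} {m : ℚ} (c : k) (h : V.Gt x m) : V.Gt (c • x) m := by
  rw [Algebra.smul_def]
  exact (QVal.Ge.of_le (ord_k V c).ge).mul_gt₀ h

variable (k) in
/-- the closed disc -/
def dG (V : QVal Ω) (m : ℚ) : Submodule k Ω where
  carrier := {x | V.Ge x m}
  add_mem' := QVal.Ge.add
  zero_mem' := V.ge_zero m
  smul_mem' c _ h := ge_smul c h

variable (k) in
/-- the open disc -/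
def dS (V : QVal Ω) (m : ℚ) : Submodule k Ω where
  carrier := {x | V.Gt x m}
  add_mem' := QVal.Gt.add
  zero_mem' := V.gt_zero m
  smul_mem' c _ h := gt_smul c h

@[simp] theorem mem_dG {V : QVal Ω} {m : ℚ} {x : Ω} : x ∈ dG k V m ↔ V.Ge x m := Iff.rfl

@[simp] theorem mem_dS {V : QVal Ω} {m : ℚ} {x : Ω} : x ∈ dS k V m ↔ V.Gt x m := Iff.rfl

/-- the torsion module -/
noncomputable def tors (φ : Ω →ₗ[k] Ω) (a : k[X]) : Submodule k Ω := LinearMap.ker (aeval φ a)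

@[simp] theorem mem_tors {φ : Ω →ₗ[k] Ω} {a : k[X]} {x : Ω} :
    x ∈ tors φ a ↔ aeval φ a x = 0 := Iff.rfl

theorem aeval_mem_tors {φ : Ω →ₗ[k] Ω} {a : k[X]} {x : Ω} (h : x ∈ tors φ a) (b : k[X]) :
    aeval φ b x ∈ tors φ a := by
  rw [mem_tors, ← Module.End.mul_apply, ← map_mul, mul_comm, map_mul, Module.End.mul_apply,
    mem_tors.mp h, map_zero]

theorem phi_mem_tors {φ : Ω →ₗ[k] Ω} {a : k[X]} {x : Ω} (h : x ∈ tors φ a) : φ x ∈ tors φ a := by
  simpa only [aeval_X] using aeval_mem_tors h X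

variable (k) in
/-- `γ` is the minimum of `ord (g i) / (q ^ i - 1)` -/
structure Nm (V : QVal Ω) (r : ℕ) (g : ℕ → Ω) (γ : ℚ) : Prop where
  ge : ∀ i ∈ Finset.Icc 1 r, V.Ge (g i) (((Nat.card k : ℚ) ^ i - 1) * γ)
  eq : ∃ i ∈ Finset.Icc 1 r, g i ≠ 0 ∧ V.ord (g i) = ((Nat.card k : ℚ) ^ i - 1) * γ

/-- the points of the formal group -/
def Dp (V : QVal Ω) (θ : Ω) (γ : ℚ) (x : Ω) : Prop := V.Ge θ 0 ∧ V.Gt x (-γ)

variable {θ : Ω} {r : ℕ} {g : ℕ → Ω} {φ : Ω →ₗ[k] Ω} {V : QVal Ω} {γ : ℚ}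

/-- the roots of the nonzero polynomial of `exists_poly` -/
theorem tors_finite (hφ : IsDr θ r g φ) (hr : 0 < r) (hg : g r ≠ 0) {a : k[X]} (ha : a ≠ 0) :
    (tors φ a : Set Ω).Finite ∧
      Nat.card (tors φ a) ≤ Nat.card k ^ (r * a.natDegree) := by
  classical
  obtain ⟨Φ, h1, h2, -⟩ := G.exists_poly hφ hr hg ha
  have hq : 1 < Nat.card k := Finite.one_lt_card
  have h0 : Φ ≠ 0 := by
    rintro rfl
    rw [natDegree_zero] at h2
    exact absurd h2.symm (pow_ne_zero _ (by omega))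
  have hs : (tors φ a : Set Ω) = (Φ.roots.toFinset : Set Ω) := by
    ext y
    simp only [SetLike.mem_coe, mem_tors, Multiset.mem_toFinset, mem_roots h0, IsRoot.def, h1]
  refine ⟨hs ▸ Finset.finite_toSet _, ?_⟩
  have h3 : Nat.card (tors φ a) = Φ.roots.toFinset.card := by
    rw [← Set.ncard_coe_finset, ← hs, ← Nat.card_coe_set_eq]
    rfl
  rw [h3, ← h2]
  exact (Multiset.toFinset_card_le _).trans (card_roots' Φ)

variable (k V) in
theorem exists_nm (hr : 0 < r) (hg : g r ≠ 0) : ∃ γ, Nm k V r g γ := by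
  classical
  have hq : 1 < Nat.card k := Finite.one_lt_card
  have hpos : ∀ i ∈ Finset.Icc 1 r, (0 : ℚ) < (Nat.card k : ℚ) ^ i - 1 := fun i hi => by
    have h1 : 1 ≤ i := (Finset.mem_Icc.mp hi).1
    have h2 : (1 : ℚ) < (Nat.card k : ℚ) ^ i :=
      one_lt_pow₀ (by exact_mod_cast hq) (by omega)
    linarith
  obtain ⟨j, hj, hmin⟩ := Finset.exists_min_image ((Finset.Icc 1 r).filter fun i => g i ≠ 0)
    (fun i => V.ord (g i) / ((Nat.card k : ℚ) ^ i - 1))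
    ⟨r, Finset.mem_filter.mpr ⟨Finset.mem_Icc.mpr ⟨hr, le_rfl⟩, hg⟩⟩
  obtain ⟨hj1, hj2⟩ := Finset.mem_filter.mp hj
  refine ⟨V.ord (g j) / ((Nat.card k : ℚ) ^ j - 1), fun i hi => ?_, j, hj1, hj2, ?_⟩
  · by_cases h0 : g i = 0
    · exact Or.inl h0
    · have := hmin i (Finset.mem_filter.mpr ⟨hi, h0⟩)
      rw [le_div_iff₀ (hpos i hi), mul_comm] at this
      exact Or.inr this
  · rw [mul_div_cancel₀ _ (hpos j hj1).ne']

theorem Nm.int (h : Nm k V r g γ) (hg : ∀ i, ∃ n : ℤ, V.ord (g i) = n) :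
    ∃ n : ℤ, (n0 (Nat.card k) r : ℚ) * γ = n := by
  obtain ⟨i, hi, -, h2⟩ := h.eq
  obtain ⟨n, hn⟩ := hg i
  obtain ⟨c, hc⟩ := dvd_n0 (q := Nat.card k) hi
  have hq : 1 < Nat.card k := Finite.one_lt_card
  have h3 : 1 ≤ Nat.card k ^ i := Nat.one_le_pow _ _ (by omega)
  refine ⟨c * n, ?_⟩
  rw [hc]
  push_cast [Nat.cast_sub h3]
  rw [← hn, h2]
  ring

theorem base_pos {i : ℕ} (hi : i ∈ Finset.Icc 1 r) : (0 : ℚ) < (Nat.card k : ℚ) ^ i - 1 := by
  have hq : 1 < Nat.card k := Finite.one_lt_card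
  have h1 : 1 ≤ i := (Finset.mem_Icc.mp hi).1
  have h2 : (1 : ℚ) < (Nat.card k : ℚ) ^ i := one_lt_pow₀ (by exact_mod_cast hq) (by omega)
  linarith

theorem base_lin (h : Nm k V r g γ) (hφ : IsDr θ r g φ) {m : ℚ} (hm : -γ < m)
    {x : Ω} (hx : V.Ge x m) : V.Gt (φ x - θ * x) m := by
  rw [hφ x, add_sub_cancel_left]
  refine QVal.Gt.sum fun i hi => ?_
  refine ((h.ge i hi).mul (hx.pow _)).gt ?_
  have h1 := base_pos (k := k) hi
  push_cast
  nlinarith

/-- `ord (g i * x ^ q ^ i) ≥ (q ^ i - 1) * γ + q ^ i * m = m + (q ^ i - 1) * (m + γ)` -/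
theorem Nm.phi_ge (h : Nm k V r g γ) (hφ : IsDr θ r g φ) (hθ : V.Ge θ 0) {m : ℚ} (hm : -γ ≤ m)
    {x : Ω} (hx : V.Ge x m) : V.Ge (φ x) m := by
  rw [hφ x]
  refine (hθ.mul₀ hx).add (QVal.Ge.sum fun i hi => ?_)
  refine ((h.ge i hi).mul (hx.pow _)).mono ?_
  have h1 := base_pos (k := k) hi
  push_cast
  nlinarith

theorem Nm.aeval_ge (h : Nm k V r g γ) (hφ : IsDr θ r g φ) (hθ : V.Ge θ 0) {m : ℚ} (hm : -γ ≤ m)
    {x : Ω} (hx : V.Ge x m) (b : k[X]) : V.Ge (aeval φ b x) m := by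
  induction b using Polynomial.induction_on with
  | C c => simpa using ge_smul c hx
  | add a b ha hb => simpa using ha.add hb
  | monomial n c ih =>
    rw [pow_succ', mul_left_comm, map_mul, aeval_X, Module.End.mul_apply]
    exact h.phi_ge hφ hθ hm ih

/-- use `Gt.exists_ge` -/
theorem Nm.aeval_gt (h : Nm k V r g γ) (hφ : IsDr θ r g φ) (hθ : V.Ge θ 0) {m : ℚ} (hm : -γ ≤ m)
    {x : Ω} (hx : V.Gt x m) (b : k[X]) : V.Gt (aeval φ b x) m := by
  obtain ⟨m', h1, h2⟩ := hx.exists_ge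
  exact (h.aeval_ge hφ hθ (hm.trans h1.le) h2 b).gt h1

theorem ge_aeval (hθ : V.Ge θ 0) (b : k[X]) : V.Ge (aeval θ b) 0 := by
  induction b using Polynomial.induction_on with
  | C c => simpa using QVal.Ge.of_le (ord_k V c).ge
  | add a b ha hb => simpa using ha.add hb
  | monomial n c ih =>
    rw [pow_succ', mul_left_comm, map_mul, aeval_X]
    exact hθ.mul₀ ih

/-- on the formal group `φ_b` is multiplication by `b θ` to first order (induction on `b`) -/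
theorem Nm.lin (h : Nm k V r g γ) (hφ : IsDr θ r g φ) (hθ : V.Ge θ 0) {m : ℚ} (hm : -γ < m)
    {x : Ω} (hx : V.Ge x m) (b : k[X]) : V.Gt (aeval φ b x - aeval θ b * x) m := by
  induction b using Polynomial.induction_on with
  | C c => simp [Algebra.smul_def]
  | add a b ha hb =>
    have := ha.add hb
    rw [map_add, map_add, LinearMap.add_apply]
    convert this using 1
    ring
  | monomial n c ih =>
    rw [pow_succ', mul_left_comm, map_mul (aeval φ) X, map_mul (aeval θ) X, aeval_X, aeval_X,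
      Module.End.mul_apply]
    have h1 := h.aeval_ge hφ hθ hm.le hx (C c * X ^ n)
    have h2 := (base_lin h hφ hm h1).add (hθ.mul_gt₀ ih)
    convert h2 using 1
    ring

theorem Nm.eq_zero (h : Nm k V r g γ) (hφ : IsDr θ r g φ) {b : k[X]} (hb : ¬V.Gt (aeval θ b) 0)
    {x : Ω} (hx : x ∈ tors φ b) (hD : Dp V θ γ x) : x = 0 := by
  by_contra h0
  obtain ⟨hθ, hD⟩ := hD
  have h1 := h.lin hφ hθ (hD.lt h0) (V.ge_ord x) b
  rw [mem_tors.mp hx, zero_sub] at h1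
  have h2 := h1.neg
  rw [neg_neg, QVal.gt_mul_iff h0, sub_self] at h2
  exact hb h2

end gen

end Pool.Agent.Lib.MP_6adaea_nt.T
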