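import Pool.Agent.Lib.MP_6adaea_nt.T.Moore2
import Pool.Agent.Lib.MP_6adaea_nt.T.Ap

/-!
The reduction of the deformation equation.
-/

set_option linter.unusedSectionVars false

namespace Pool.Agent.Lib.MP_6adaea_nt.T
open Matrix Polynomial G U Module

variable {kb E : Type} [Field kb] [Field E] [Algebra kb E] {s : ℕ}

variable (kb) in
/-- the hypotheses of the wild case -/
structure Wild (V : QVal E) (ϖ : E) (Q D : ℕ) (a y : Fin (s + 2) → E) : Prop where
  res : V.HasRes kb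
  unif : V.ord ϖ = 1
  rel : Rel Q a y
  det : (moore Q y).det ≠ 0
  int : ∀ j, V.Ge (y j) 0
  ap : ∀ l, Ap kb V ϖ (a l)
  pos : ∀ l, V.Gt (a l) 0
  ne0 : a 0 ≠ 0
  ne1 : a 1 ≠ 0
  lt : V.ord (a 1) < V.ord (a 0)
  le : V.ord (a 0) ≤ D
  big : D + 1 < Q

variable (kb) in
/-- homomorphisms that preserve the constants and the valuation -/
def Pres (V : QVal E) (ι : E →+* E) : Prop :=
  (∀ c, ι (algebraMap kb E c) = algebraMap kb E c) ∧ ∀ z, V.ord (ι z) = V.ord z

/-- `Bb` is the reduction of `B` -/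
def Red (V : QVal E) {n : Type} (B : Matrix n n E) (Bb : Matrix n n kb) : Prop :=
  ∀ i j, V.Gt (B i j - algebraMap kb E (Bb i j)) 0

variable {V : QVal E} {ϖ : E} {Q D : ℕ} {a y : Fin (s + 2) → E}
  (p : ℕ) [Fact p.Prime] [CharP E p] {f : ℕ} (hQ : Q = p ^ f)
include hQ

omit hQ in
theorem dl0_adj (h : Wild kb V ϖ Q D a y) (i j : Fin (s + 2)) :
    V.Ge ((moore Q y).adjugate i j) 0 := by
  let M : Matrix (Fin (s + 2)) (Fin (s + 2)) V.O :=
    Matrix.of fun l j => ⟨y j ^ Q ^ (l : ℕ), (h.int j).pow₀ _⟩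
  have e : moore Q y = V.O.subtype.mapMatrix M := rfl
  rw [e, ← RingHom.map_adjugate]
  exact (M.adjugate i j).2

/-- `(Q - 1) * ord det = ord (a 0) ≤ D < Q - 1` (`moore_det`) and the adjugate is integral -/
theorem Wild.inv_gt (h : Wild kb V ϖ Q D a y) (i j : Fin (s + 2)) :
    V.Gt ((moore Q y)⁻¹ i j) (-1) := by
  have e := congrArg V.ord (moore_det p hQ h.rel)
  have h1 : ((-1 : E) ^ (s + 2)) ≠ 0 := pow_ne_zero _ (neg_ne_zero.mpr one_ne_zero)
  rw [V.ord_pow, V.ord_mul (mul_ne_zero h1 h.ne0) h.det, V.ord_mul h1 h.ne0, V.ord_pow,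
    V.ord_neg, V.ord_one] at e
  have hb : (D : ℚ) + 1 < Q := by exact_mod_cast h.big
  have hl := h.le
  have hD : (0 : ℚ) ≤ D := Nat.cast_nonneg D
  have hd : V.ord (moore Q y).det < 1 := by
    by_contra hc
    push Not at hc
    nlinarith
  rw [Matrix.inv_def, Ring.inverse_eq_inv', Matrix.smul_apply, smul_eq_mul]
  have h2 : V.Gt ((moore Q y).det)⁻¹ (-1) := QVal.Gt.of_lt (by rw [V.ord_inv]; linarith)
  simpa using h2.mul_ge (dl0_adj h i j)

/-- Let `η` be an entry of minimal order of the column `0` of the inverse; `ord η ≤ 0` because the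
Moore matrix is integral. In `moore_xi` the term `(moore Q y)⁻¹ j 1` has order `> -1`, while
`a 1 / a 0 * η` has order `≤ -1` (`Ap.int`). Divide by `a 1 / a 0 * η` and reduce; the coordinate
with value `1` shows that the residue of `- η ^ (Q - 1) * a 0 / a 1` is `1`. -/
theorem Wild.exists_xi (h : Wild kb V ϖ Q D a y) : ∃ (η : E) (ξ : Fin (s + 2) → kb), η ≠ 0 ∧
    -1 < V.ord η ∧ V.ord η ≤ 0 ∧ ξ ≠ 0 ∧ (∀ i, ξ i ^ Q = ξ i) ∧
    ∀ i, V.Gt ((moore Q y)⁻¹ i 0 / η - algebraMap kb E (ξ i)) 0 := by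
  classical
  have hu : IsUnit (moore Q y).det := h.det.isUnit
  have h00 : ∑ j, y j * (moore Q y)⁻¹ j 0 = 1 := by
    have := congrFun (congrFun (Matrix.mul_nonsing_inv _ hu) 0) 0
    simpa [Matrix.mul_apply, moore] using this
  set x : Fin (s + 2) → E := fun j => (moore Q y)⁻¹ j 0 with hx
  have hng : ∃ j, ¬V.Gt (x j) 0 := by
    by_contra hc
    push Not at hc
    have : V.Gt (∑ j, y j * x j) 0 := QVal.Gt.sum fun j _ => (h.int j).mul_gt₀ (hc j)
    rw [h00] at this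
    simpa using this.lt one_ne_zero
  obtain ⟨j1, hj1⟩ := hng
  obtain ⟨hj1, hj1'⟩ := QVal.not_gt_iff.mp hj1
  obtain ⟨j0, hj0, hmin⟩ := Finset.exists_min_image (Finset.univ.filter fun j => x j ≠ 0)
    (fun j => V.ord (x j)) ⟨j1, by simpa using hj1⟩
  have h0 : x j0 ≠ 0 := by simpa using hj0
  have hle : V.ord (x j0) ≤ 0 := (hmin j1 (by simpa using hj1)).trans hj1'
  have hint : ∀ j, V.Ge (x j / x j0) 0 := fun j => by
    rw [QVal.ge_div_iff h0, zero_add]
    by_cases hj : x j = 0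
    · exact Or.inl hj
    · exact QVal.Ge.of_le (hmin j (by simpa using hj))
  obtain ⟨n0, hn0⟩ := (h.ap 0).int h.res h.unif
  obtain ⟨n1, hn1⟩ := (h.ap 1).int h.res h.unif
  have hlt : V.ord (a 1) + 1 ≤ V.ord (a 0) := by
    have := h.lt
    rw [hn0, hn1] at this ⊢
    exact_mod_cast this
  have hw : a 1 / a 0 * x j0 ≠ 0 := mul_ne_zero (div_ne_zero h.ne1 h.ne0) h0
  have hwo : V.ord (a 1 / a 0 * x j0) ≤ -1 := by
    rw [V.ord_mul (div_ne_zero h.ne1 h.ne0) h0, V.ord_div h.ne1 h.ne0]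
    linarith
  set c : E := -(x j0 ^ Q) / (a 1 / a 0 * x j0) with hc
  have key : ∀ j, V.Gt (c * (x j / x j0) ^ Q - x j / x j0) 0 := fun j => by
    have e := moore_xi p hQ h.rel h.det h.ne0 j
    have e2 : c * (x j / x j0) ^ Q - x j / x j0 =
        -((moore Q y)⁻¹ j 1) / (a 1 / a 0 * x j0) := by
      have e3 : (moore Q y)⁻¹ j 1 = x j ^ Q + a 1 / a 0 * x j := by
        rw [hx]
        simp only
        rw [e]
        ring
      have := h.ne0
      have := h.ne1
      rw [e3, hc, div_pow]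
      field_simp
      ring
    rw [e2, QVal.gt_div_iff hw, zero_add]
    exact (h.inv_gt p hQ j 1).neg.mono hwo
  have hc1 : V.Gt (c - 1) 0 := by simpa [div_self h0] using key j0
  refine ⟨x j0, fun j => V.res kb (x j / x j0), h0, (h.inv_gt p hQ j0 0).lt h0, hle, ?_, ?_,
    fun j => h.res.gt_res (hint j)⟩
  · intro hz
    have := congrFun hz j0
    simp [div_self h0, h.res.res_one] at this
  · intro j
    rw [← h.res.res_pow (hint j), h.res.res_eq_iff ((hint j).pow₀ Q) (hint j)]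
    have e : (x j / x j0) ^ Q - x j / x j0 =
        (c * (x j / x j0) ^ Q - x j / x j0) - (x j / x j0) ^ Q * (c - 1) := by ring
    rw [e]
    exact (key j).sub (((hint j).pow₀ Q).mul_gt₀ hc1)

end Pool.Agent.Lib.MP_6adaea_nt.T
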