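import Pool.Agent.Lib.MP_6adaea_nt.T.DL0

/-!
The reduction of the deformation equation, second part.
-/

set_option linter.unusedSectionVars false

namespace Pool.Agent.Lib.MP_6adaea_nt.T
open Matrix Polynomial G U Module

variable {kb E : Type} [Field kb] [Field E] [Algebra kb E] {s : ℕ}
  {V : QVal E} {ϖ : E} {Q D : ℕ} {a y : Fin (s + 2) → E}

section red

/-- `x` has the residue `c` -/
def DLa_Rd (V : QVal E) (x : E) (c : kb) : Prop := V.Gt (x - algebraMap kb E c) 0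

variable (hr : V.HasRes kb) {x x' : E} {c c' : kb}

theorem DLa_Rd.const (c : kb) : DLa_Rd V (algebraMap kb E c) c := by
  rw [DLa_Rd, sub_self]; exact V.gt_zero 0

theorem DLa_Rd.add (h : DLa_Rd V x c) (h' : DLa_Rd V x' c') : DLa_Rd V (x + x') (c + c') := by
  rw [DLa_Rd, map_add, add_sub_add_comm]; exact QVal.Gt.add h h'

theorem DLa_Rd.of_sub (h : DLa_Rd V x c) (h' : V.Gt (x' - x) 0) : DLa_Rd V x' c := by
  have := QVal.Gt.add h' h
  rwa [sub_add_sub_cancel] at this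

theorem DLa_Rd.sum {ι : Type} {S : Finset ι} {x : ι → E} {c : ι → kb}
    (h : ∀ i ∈ S, DLa_Rd V (x i) (c i)) : DLa_Rd V (∑ i ∈ S, x i) (∑ i ∈ S, c i) := by
  rw [DLa_Rd, map_sum, ← Finset.sum_sub_distrib]; exact QVal.Gt.sum h

include hr

theorem DLa_Rd.ge (h : DLa_Rd V x c) : V.Ge x 0 := by
  simpa using (QVal.Gt.ge h).add (hr.ge_const c)

theorem DLa_Rd.mul (h : DLa_Rd V x c) (h' : DLa_Rd V x' c') : DLa_Rd V (x * x') (c * c') := by
  have h1 := ((h.ge hr).mul_gt₀ h').add ((hr.ge_const c').mul_gt₀ h)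
  rw [DLa_Rd, map_mul]
  convert h1 using 1
  ring

theorem DLa_Rd.prod {ι : Type} {S : Finset ι} {x : ι → E} {c : ι → kb}
    (h : ∀ i ∈ S, DLa_Rd V (x i) (c i)) : DLa_Rd V (∏ i ∈ S, x i) (∏ i ∈ S, c i) := by
  classical
  induction S using Finset.induction_on with
  | empty => simpa using DLa_Rd.const (V := V) (1 : kb)
  | insert i S hi ih =>
    rw [Finset.prod_insert hi, Finset.prod_insert hi]
    exact (h i (Finset.mem_insert_self _ _)).mul hr
      (ih fun j hj => h j (Finset.mem_insert_of_mem hj))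

theorem DLa_Rd.pow (h : DLa_Rd V x c) (n : ℕ) : DLa_Rd V (x ^ n) (c ^ n) := by
  simpa using DLa_Rd.prod hr (S := Finset.range n) fun _ _ => h

theorem DLa_Rd.unique (h : DLa_Rd V x c) (h' : DLa_Rd V x c') : c = c' := by
  refine hr.eq_of_gt ?_
  have := QVal.Gt.sub h' h
  rwa [sub_sub_sub_cancel_left] at this

theorem DLa_Rd.ne_zero (h : DLa_Rd V x c) (h0 : x ≠ 0) (h1 : V.ord x = 0) : c ≠ 0 := by
  rintro rfl
  rw [DLa_Rd, map_zero, sub_zero] at h
  exact absurd (h.lt h0) (by rw [h1]; exact lt_irrefl _)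

theorem DLa_det {n : Type} [Fintype n] [DecidableEq n] {B : Matrix n n E} {Bb : Matrix n n kb}
    (h : ∀ i j, DLa_Rd V (B i j) (Bb i j)) : DLa_Rd V B.det Bb.det := by
  rw [det_apply', det_apply']
  refine DLa_Rd.sum fun σ _ => DLa_Rd.mul hr ?_ (DLa_Rd.prod hr fun i _ => h _ _)
  simpa only [map_intCast] using DLa_Rd.const (V := V) (((Equiv.Perm.sign σ : ℤˣ) : ℤ) : kb)

/-- reduction of the equation -/
theorem DLa_reduce {n : Type} [Fintype n] [DecidableEq n] (hQ : 1 < Q) {B M : Matrix n n E}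
    {Mb : Matrix n n kb} (h : B.map (· ^ Q) = B + M * B) (hM : ∀ i j, DLa_Rd V (M i j) (Mb i j))
    (h0 : B.det ≠ 0) (h1 : V.ord B.det = 0) :
    ∃ Bb : Matrix n n kb, Bb.det ≠ 0 ∧ Red V B Bb ∧ Bb.map (· ^ Q) = (1 + Mb) * Bb := by
  have h2 := int_of_frob hQ h fun i j => (hM i j).ge hr
  have h3 : ∀ i j, DLa_Rd V (B i j) (B.map (V.res kb) i j) := fun i j => hr.gt_res (h2 i j)
  refine ⟨B.map (V.res kb), (DLa_det hr h3).ne_zero hr h0 h1, h3, Matrix.ext fun i j => ?_⟩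
  have h4 : B i j ^ Q = B i j + ∑ l, M i l * B l j := congrFun (congrFun h i) j
  have h5 := (h3 i j).pow hr Q
  rw [h4] at h5
  rw [Matrix.add_mul, Matrix.one_mul]
  exact h5.unique hr ((h3 i j).add (DLa_Rd.sum fun l _ => (hM i l).mul hr (h3 l j)))

end red

section tay

/-- a term of the Taylor expansion -/
noncomputable def DLa_T (ϖ : E) (j : ℕ) (g : kb[X]) : E := aeval ϖ (X ^ j * hasseDeriv j g)

theorem DLa_coeff (j m : ℕ) (g : kb[X]) :
    (X ^ j * hasseDeriv j g).coeff m = (m.choose j : kb) * g.coeff m := by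
  rw [coeff_X_pow_mul']
  split_ifs with h
  · rw [hasseDeriv_coeff, Nat.sub_add_cancel h]
  · rw [Nat.choose_eq_zero_of_lt (not_le.1 h), Nat.cast_zero, zero_mul]

theorem DLa_taylor (ϖ w : E) {g : kb[X]} (hg : g.natDegree ≤ D) :
    aeval (ϖ * (1 + w)) g - aeval ϖ g = ∑ j ∈ Finset.Icc 1 D, w ^ j * DLa_T ϖ j g := by
  have h1 : ∀ j, hasseDeriv j (g.map (algebraMap kb E)) =
      (hasseDeriv j g).map (algebraMap kb E) := fun j => by
    ext n
    simp only [hasseDeriv_coeff, coeff_map, map_mul, map_natCast]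
  have h2 : (taylor ϖ (g.map (algebraMap kb E))).natDegree < D + 1 := by
    rw [natDegree_taylor]
    exact Nat.lt_succ_of_le (natDegree_map_le.trans hg)
  rw [← eval_map_algebraMap, show ϖ * (1 + w) = ϖ * w + ϖ by ring, ← taylor_eval,
    eval_eq_sum_range' h2, Finset.sum_range_succ', ← Finset.Ico_add_one_right_eq_Icc,
    Finset.sum_Ico_eq_sum_range]
  simp only [taylor_coeff, h1, eval_map_algebraMap, hasseDeriv_zero', pow_zero, mul_one,
    add_sub_cancel_right, Nat.add_sub_cancel, add_comm 1, DLa_T, map_mul, map_pow, aeval_X]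
  exact Finset.sum_congr rfl fun j _ => by ring

variable (hr : V.HasRes kb) (hu : V.ord ϖ = 1)
include hr hu

theorem DLa_T_ge (j : ℕ) (g : kb[X]) : V.Ge (DLa_T ϖ j g) g.natTrailingDegree := by
  by_cases h : X ^ j * hasseDeriv j g = 0
  · rw [DLa_T, h, map_zero]; exact V.ge_zero _
  · refine QVal.Ge.of_le ?_
    rw [DLa_T, (V.ord_aeval hr.const (by rw [hu]; exact one_pos) h).2, hu, mul_one, Nat.cast_le]
    exact le_natTrailingDegree h fun m hm => by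
      rw [DLa_coeff, coeff_eq_zero_of_lt_natTrailingDegree hm, mul_zero]

theorem DLa_T_le {g : kb[X]} (hg : g ≠ 0) : DLa_T ϖ g.natTrailingDegree g ≠ 0 ∧
    V.ord (DLa_T ϖ g.natTrailingDegree g) ≤ g.natTrailingDegree := by
  have h1 : (X ^ g.natTrailingDegree * hasseDeriv g.natTrailingDegree g).coeff
      g.natTrailingDegree ≠ 0 := by
    rw [DLa_coeff, Nat.choose_self, Nat.cast_one, one_mul]
    exact trailingCoeff_eq_zero.not.2 hg
  have h2 := V.ord_aeval hr.const (π := ϖ) (by rw [hu]; exact one_pos)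
    (f := X ^ g.natTrailingDegree * hasseDeriv g.natTrailingDegree g)
    (fun h => h1 (by rw [h, coeff_zero]))
  refine ⟨h2.1, ?_⟩
  rw [DLa_T, h2.2, hu, mul_one, Nat.cast_le]
  exact natTrailingDegree_le_of_ne_zero h1

theorem DLa_trail {x : E} (h0 : x ≠ 0) (h1 : V.ord x ≤ D) {g : kb[X]}
    (h : V.Ge (x - aeval ϖ g) (D + 1)) : g ≠ 0 ∧ (g.natTrailingDegree : ℚ) = V.ord x := by
  have h2 := QVal.ord_eq_of_sub (V := V) (g := aeval ϖ g) h0
    (by rw [← neg_sub]; exact (h.gt (by linarith)).neg)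
  have h3 : g ≠ 0 := fun e => h2.1 (by rw [e, map_zero])
  refine ⟨h3, ?_⟩
  rw [← h2.2, (V.ord_aeval hr.const (by rw [hu]; exact one_pos) h3).2, hu, mul_one]

end tay

/-- the choice of the slope -/
theorem DLa_slope {n : Type} [Fintype n] (Λ : ℕ → n → E)
    (h : ∃ j ∈ Finset.Icc 1 D, ∃ i, ¬V.Ge (Λ j i) 0) : ∃ u : ℚ, 0 < u ∧ ∀ s0 : E, s0 ≠ 0 →
      V.ord s0 = u → (∀ j ∈ Finset.Icc 1 D, ∀ i, V.Ge (s0 ^ j * Λ j i) 0) ∧
        ∃ j ∈ Finset.Icc 1 D, ∃ i, s0 ^ j * Λ j i ≠ 0 ∧ V.ord (s0 ^ j * Λ j i) = 0 := by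
  classical
  obtain ⟨j0, hj0, i0, h0⟩ := h
  obtain ⟨h1, h2⟩ := QVal.not_ge_iff.1 h0
  obtain ⟨⟨j1, i1⟩, h3, h4⟩ := Finset.exists_max_image
    ((Finset.Icc 1 D ×ˢ Finset.univ).filter fun q : ℕ × n => Λ q.1 q.2 ≠ 0)
    (fun q => -V.ord (Λ q.1 q.2) / q.1) ⟨(j0, i0), by simp only [Finset.mem_filter,
      Finset.mem_product, Finset.mem_univ, and_true]; exact ⟨hj0, h1⟩⟩
  simp only [Finset.mem_filter, Finset.mem_product, Finset.mem_univ, and_true, Prod.forall] at h3 h4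
  have hp : ∀ j ∈ Finset.Icc 1 D, (0 : ℚ) < j := fun j hj =>
    Nat.cast_pos.2 (Finset.mem_Icc.1 hj).1
  refine ⟨-V.ord (Λ j1 i1) / j1, ?_, fun s0 hs hs' => ⟨fun j hj i => ?_, j1, h3.1, i1,
    mul_ne_zero (pow_ne_zero _ hs) h3.2, ?_⟩⟩
  · exact (div_pos (by linarith) (hp j0 hj0)).trans_le (h4 j0 i0 ⟨hj0, h1⟩)
  · by_cases h5 : Λ j i = 0
    · rw [h5, mul_zero]; exact V.ge_zero _
    · have h6 := h4 j i ⟨hj, h5⟩
      rw [div_le_iff₀ (hp j hj)] at h6
      refine QVal.Ge.of_le ?_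
      rw [V.ord_mul (pow_ne_zero _ hs) h5, QVal.ord_pow, hs']
      linarith
  · rw [V.ord_mul (pow_ne_zero _ hs) h3.2, QVal.ord_pow, hs', mul_div_cancel₀ _ (hp j1 h3.1).ne']
    ring

/-- the deformation of one coefficient -/
theorem DLa_delta {x a0 η w : E} {g : kb[X]} (hg : g.natDegree ≤ D)
    (hx : V.Ge (x - aeval ϖ g) (D + 1)) (h0 : a0 ≠ 0) (h1 : V.ord a0 ≤ D) (h2 : -1 < V.ord η)
    {ι : E →+* E} (hι : Pres kb V ι) (hw : ι ϖ = ϖ * (1 + w)) :
    V.Gt (η * ((ι x - x) / a0) - ∑ j ∈ Finset.Icc 1 D, w ^ j * (η * DLa_T ϖ j g / a0)) 0 := by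
  have h3 : ι (aeval ϖ g) = aeval (ϖ * (1 + w)) g := by
    rw [← hw, aeval_def, aeval_def, hom_eval₂]
    congr 1
    exact RingHom.ext hι.1
  have h4 : V.Ge (ι (x - aeval ϖ g)) (D + 1) := by
    rcases hx with h | h
    · rw [h, map_zero]; exact V.ge_zero _
    · exact QVal.Ge.of_le (by rw [hι.2]; exact h)
  have h5 := (QVal.Gt.of_lt h2).mul_ge (h4.sub hx)
  have h6 : η * ((ι x - x) / a0) - ∑ j ∈ Finset.Icc 1 D, w ^ j * (η * DLa_T ϖ j g / a0) =
      η * (ι (x - aeval ϖ g) - (x - aeval ϖ g)) / a0 := by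
    have h7 : ∑ j ∈ Finset.Icc 1 D, w ^ j * (η * DLa_T ϖ j g / a0) =
        η * (aeval (ϖ * (1 + w)) g - aeval ϖ g) / a0 := by
      rw [DLa_taylor ϖ w hg, Finset.mul_sum, Finset.sum_div]
      exact Finset.sum_congr rfl fun j _ => by ring
    rw [h7, map_sub, h3]
    ring
  rw [h6, QVal.gt_div_iff h0]
  exact h5.mono (by linarith)

variable (p : ℕ) [Fact p.Prime] [CharP E p] {f : ℕ} (hQ : Q = p ^ f)
include hQ

/-- Take `f l` from `Ap.poly` with `N = D` and put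
`Λ j = (fun l => η * ϖ ^ j * aeval ϖ (hasseDeriv j (f l)) / a 0) ᵥ* moore Q y`. Not all `Λ j`,
`1 ≤ j ≤ D`, are integral: for `j = ord (a 1)` the entry `l = 1` of `Λ j ᵥ* (moore Q y)⁻¹` has
order `ord η + ord (a 1) - ord (a 0) ≤ -1` (the coefficients of `f 1` below `j` vanish), compare
with `inv_gt`. Let `u` be the maximum of `- ord (Λ j i) / j` over nonzero entries, `lam j i` the
residue of `s0 ^ j * Λ j i`. `Λ j ⬝ᵥ (column 0 / η) = ϖ ^ j * aeval ϖ (hasseDeriv j (f 0)) / a 0`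
is integral. By Taylor's formula (`Polynomial.taylor_coeff`, `aeval_add`-type expansion)
`η * (ι (a l) - a l) / a 0 ≡ ∑ j, (t * s0) ^ j * η * ϖ ^ j * … / a 0` up to order `> 0`. Then
`moore_def`, `int_of_frob`; the determinant `ι det / det` has order zero; reduce with
`HasRes.resHom`. -/
theorem Wild.data (h : Wild kb V ϖ Q D a y) : ∃ u : ℚ, 0 < u ∧ ∀ s0 : E, s0 ≠ 0 → V.ord s0 = u →
    ∃ (ξ : Fin (s + 2) → kb) (lam : ℕ → Fin (s + 2) → kb), ξ ≠ 0 ∧ (∀ i, ξ i ^ Q = ξ i) ∧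
      (∀ j, lam j ⬝ᵥ ξ = 0) ∧ (∃ j ∈ Finset.Icc 1 D, lam j ≠ 0) ∧
      ∀ (t : kb) (ι : E →+* E), Pres kb V ι → ι ϖ = ϖ * (1 + algebraMap kb E t * s0) →
        ∃ Bb : Matrix (Fin (s + 2)) (Fin (s + 2)) kb, Bb.det ≠ 0 ∧
          Red V ((moore Q y)⁻¹ * (moore Q y).map ι) Bb ∧
          Bb.map (· ^ Q) = (1 + vecMulVec ξ (∑ j ∈ Finset.Icc 1 D, t ^ j • lam j)) * Bb := by
  classical
  have hr := h.res
  obtain ⟨η, ξ, e0, e1, e2, e3, e4, e5⟩ := h.exists_xi p hQ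
  choose g g1 g2 using fun l => (h.ap l).poly hr h.unif (h.pos l).ge D
  obtain ⟨-, t0⟩ := DLa_trail hr h.unif h.ne0 h.le (g2 0)
  obtain ⟨g3, t1⟩ := DLa_trail hr h.unif h.ne1 (h.lt.le.trans h.le) (g2 1)
  have n1 : (g 1).natTrailingDegree + 1 ≤ (g 0).natTrailingDegree := by
    have := h.lt
    rw [← t0, ← t1] at this
    exact_mod_cast this
  have n2 : (g 0).natTrailingDegree ≤ D := by
    have := h.le
    rw [← t0] at this
    exact_mod_cast this
  have n3 : 0 < (g 1).natTrailingDegree := by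
    have := (h.pos 1).lt h.ne1
    rw [← t1] at this
    exact_mod_cast this
  have hX : ∀ l i, V.Ge (moore Q y l i) 0 := fun l i => (h.int i).pow₀ _
  obtain ⟨Λ, hΛ⟩ : ∃ Λ : ℕ → Fin (s + 2) → E,
      ∀ j, Λ j = (fun l => η * DLa_T ϖ j (g l) / a 0) ᵥ* moore Q y := ⟨_, fun _ => rfl⟩
  have hinv : ∀ j l, ∑ i, Λ j i * (moore Q y)⁻¹ i l = η * DLa_T ϖ j (g l) / a 0 := fun j l => by
    have : Λ j ᵥ* (moore Q y)⁻¹ = fun l => η * DLa_T ϖ j (g l) / a 0 := by
      rw [hΛ, vecMul_vecMul, mul_nonsing_inv _ (Ne.isUnit h.det), vecMul_one]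
    exact congrFun this l
  obtain ⟨u, hu, hs⟩ := DLa_slope (V := V) (D := D) Λ (by
    refine ⟨(g 1).natTrailingDegree, Finset.mem_Icc.2 ⟨n3, by omega⟩, ?_⟩
    by_contra hc
    push Not at hc
    have h1 : V.Gt (∑ i, Λ (g 1).natTrailingDegree i * (moore Q y)⁻¹ i 1) (-1) :=
      QVal.Gt.sum fun i _ => (hc i).mul_gt₀ (h.inv_gt p hQ i 1)
    obtain ⟨h2, h3⟩ := DLa_T_le hr h.unif g3
    rw [hinv, QVal.gt_div_iff h.ne0, QVal.gt_iff (mul_ne_zero e0 h2), V.ord_mul e0 h2, ← t0] at h1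
    have h4 : ((g 1).natTrailingDegree : ℚ) + 1 ≤ (g 0).natTrailingDegree := by exact_mod_cast n1
    linarith)
  refine ⟨u, hu, fun s0 hs0 hs1 => ?_⟩
  obtain ⟨k1, j1, hj1, i1, k2, k3⟩ := hs s0 hs0 hs1
  obtain ⟨lam, hl, hl'⟩ : ∃ lam : ℕ → Fin (s + 2) → kb,
      (∀ j ∈ Finset.Icc 1 D, ∀ i, DLa_Rd V (s0 ^ j * Λ j i) (lam j i)) ∧
        ∀ j ∉ Finset.Icc 1 D, lam j = 0 :=
    ⟨fun j => if j ∈ Finset.Icc 1 D then fun i => V.res kb (s0 ^ j * Λ j i) else 0,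
      fun j hj i => by simp only [if_pos hj]; exact hr.gt_res (k1 j hj i),
      fun j hj => if_neg hj⟩
  refine ⟨ξ, lam, e3, e4, fun j => ?_,
    ⟨j1, hj1, fun e => (hl j1 hj1 i1).ne_zero hr k2 k3 (congrFun e i1)⟩, fun t ι hι hϖ => ?_⟩
  · by_cases hj : j ∈ Finset.Icc 1 D
    · have h1 : DLa_Rd V (∑ i, s0 ^ j * Λ j i * ((moore Q y)⁻¹ i 0 / η)) (lam j ⬝ᵥ ξ) :=
        DLa_Rd.sum fun i _ => (hl j hj i).mul hr (e5 i)
      have h2 : ∑ i, s0 ^ j * Λ j i * ((moore Q y)⁻¹ i 0 / η) =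
          s0 ^ j * (DLa_T ϖ j (g 0) / a 0) := by
        have h3 : ∑ i, s0 ^ j * Λ j i * ((moore Q y)⁻¹ i 0 / η) =
            s0 ^ j / η * ∑ i, Λ j i * (moore Q y)⁻¹ i 0 := by
          rw [Finset.mul_sum]
          exact Finset.sum_congr rfl fun i _ => by ring
        rw [h3, hinv]
        field_simp
      refine h1.unique hr ?_
      rw [DLa_Rd, map_zero, sub_zero, h2]
      have h4 : V.Ge (DLa_T ϖ j (g 0) / a 0) 0 := by
        rw [QVal.ge_div_iff h.ne0, zero_add, ← t0]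
        exact DLa_T_ge hr h.unif j _
      have h5 : V.Gt (s0 ^ j) 0 := QVal.Gt.of_lt (by
        rw [QVal.ord_pow, hs1]
        exact mul_pos (Nat.cast_pos.2 (Finset.mem_Icc.1 hj).1) hu)
      simpa only [add_zero] using h5.mul_ge h4
    · rw [hl' j hj, zero_dotProduct]
  · have hd : ((moore Q y)⁻¹ * (moore Q y).map ι).det = ι (moore Q y).det / (moore Q y).det := by
      rw [det_mul, det_nonsing_inv, Ring.inverse_eq_inv', RingHom.map_det, div_eq_inv_mul]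
      rfl
    have hd' : ι (moore Q y).det ≠ 0 := (_root_.map_ne_zero ι).2 h.det
    refine DLa_reduce hr (by have := h.big; omega) (moore_def p hQ h.rel h.det h.ne0 ι)
      (fun i l => ?_) (by rw [hd]; exact div_ne_zero hd' h.det)
      (by rw [hd, V.ord_div hd' h.det, hι.2, sub_self])
    have h1 : DLa_Rd V (∑ j ∈ Finset.Icc 1 D, algebraMap kb E t ^ j * (s0 ^ j * Λ j l))
        ((∑ j ∈ Finset.Icc 1 D, t ^ j • lam j) l) := by
      rw [Finset.sum_apply]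
      exact DLa_Rd.sum fun j hj => ((DLa_Rd.const t).pow hr j).mul hr (hl j hj l)
    have h2 : V.Gt (η * ((fun m => (ι (a m) - a m) / a 0) ᵥ* moore Q y) l -
        ∑ j ∈ Finset.Icc 1 D, algebraMap kb E t ^ j * (s0 ^ j * Λ j l)) 0 := by
      have h3 : η * ((fun m => (ι (a m) - a m) / a 0) ᵥ* moore Q y) l -
          ∑ j ∈ Finset.Icc 1 D, algebraMap kb E t ^ j * (s0 ^ j * Λ j l) =
          ∑ m, moore Q y m l * (η * ((ι (a m) - a m) / a 0) - ∑ j ∈ Finset.Icc 1 D,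
            (algebraMap kb E t * s0) ^ j * (η * DLa_T ϖ j (g m) / a 0)) := by
        simp only [hΛ, vecMul, dotProduct, Finset.mul_sum, mul_sub, Finset.sum_sub_distrib]
        rw [Finset.sum_comm]
        congr 1
        · exact Finset.sum_congr rfl fun m _ => by ring
        · exact Finset.sum_congr rfl fun m _ => Finset.sum_congr rfl fun j _ => by ring
      rw [h3]
      exact QVal.Gt.sum fun m _ =>
        (hX m l).mul_gt₀ (DLa_delta (g1 m) (g2 m) h.ne0 h.le e1 hι hϖ)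
    have h4 := DLa_Rd.mul hr (e5 i) (h1.of_sub h2)
    rw [vecMulVec_apply, vecMulVec_apply]
    convert h4 using 1
    field_simp

end Pool.Agent.Lib.MP_6adaea_nt.T
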