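import Pool.Agent.Lib.MP_6adaea_nt.T.DLa

/-!
The wild curve.
-/

set_option linter.unusedSectionVars false

namespace Pool.Agent.Lib.MP_6adaea_nt.T
open Matrix Polynomial G U Module

variable {kb E : Type} [Field kb] [Field E] [Algebra kb E] {s : ℕ} [IsAlgClosed kb]
  {V : QVal E} {ϖ : E} {Q D : ℕ} {a y : Fin (s + 2) → E}
  (p : ℕ) [Fact p.Prime] [CharP E p] [CharP kb p] {f : ℕ} (hQ : Q = p ^ f)
include hQ

omit [CharP E p] in
theorem DLb_frob (n : ℕ) : ∃ φ : kb →+* kb, ∀ x, φ x = x ^ Q ^ n :=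
  ⟨iterateFrobenius kb p (f * n), fun x => by rw [iterateFrobenius_def, hQ, ← pow_mul]⟩

omit hQ in
theorem DLb_fix {R : Type} [Monoid R] {x : R} (h : x ^ Q = x) (n : ℕ) : x ^ Q ^ n = x := by
  induction n with
  | zero => rw [pow_zero, pow_one]
  | succ n ih => rw [pow_succ, pow_mul, ih, h]

omit [CharP E p] in
theorem DLb_dot {r : ℕ} {ξ lam : Fin r → kb} (h1 : ∀ i, ξ i ^ Q = ξ i) (h2 : lam ⬝ᵥ ξ = 0)
    (n : ℕ) : (fun l => lam l ^ Q ^ n) ⬝ᵥ ξ = 0 := by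
  obtain ⟨φ, hφ⟩ := DLb_frob (kb := kb) p hQ n
  have h := congrArg φ h2
  rw [map_zero, dotProduct, map_sum] at h
  rw [← h, dotProduct]
  exact Finset.sum_congr rfl fun l _ => by rw [map_mul, hφ, hφ, DLb_fix (h1 l)]

omit hQ in
theorem DLb_red (hres : V.HasRes kb) {n : Type} [Fintype n] {B : Matrix n n E}
    {Bb R R' : Matrix n n kb} (hB : Red V B Bb) {τ : E →+* E} (hτ : ∀ z, V.ord (τ z) = V.ord z)
    {φ : kb → kb} (hφ : ∀ c, τ (algebraMap kb E c) = algebraMap kb E (φ c))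
    (h : R.map (algebraMap kb E) * B.map τ = B * R'.map (algebraMap kb E)) :
    R * Bb.map φ = Bb * R' := by
  ext i j
  refine hres.eq_of_gt ?_
  have h1 : ∀ l, V.Gt (τ (B l j) - algebraMap kb E (φ (Bb l j))) 0 := fun l => by
    rw [← hφ, ← map_sub]
    exact (hB l j).imp (fun e => by rw [e, map_zero]) fun e => by rwa [hτ]
  have h2 := (QVal.Gt.sum (s := Finset.univ) fun l _ =>
    (hres.ge_const (R' l j)).mul_gt₀ (hB i l)).sub
    (QVal.Gt.sum (s := Finset.univ) fun l _ => (hres.ge_const (R i l)).mul_gt₀ (h1 l))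
  have h3 := congrFun (congrFun h i) j
  simp only [Matrix.mul_apply, map_apply] at h3
  convert h2 using 1
  simp only [Matrix.mul_apply, map_apply, map_sum, map_mul, mul_sub, Finset.sum_sub_distrib, h3,
    mul_comm]
  ring

omit hQ in
theorem DLb_mat {n : Type} [Fintype n] [DecidableEq n] {A : Matrix n n E} (hA : A.det ≠ 0)
    {ι τ σ : E →+* E} (hι : ∀ c, ι (algebraMap kb E c) = algebraMap kb E c)
    {R R' : Matrix n n kb} (h1 : A.map τ = A * R.map (algebraMap kb E))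
    (h2 : A.map σ = A * R'.map (algebraMap kb E)) (h : ∀ i j, τ (ι (A i j)) = ι (σ (A i j))) :
    R.map (algebraMap kb E) * (A⁻¹ * A.map ι).map τ =
      A⁻¹ * A.map ι * R'.map (algebraMap kb E) := by
  have h3 : A.map ι = A * (A⁻¹ * A.map ι) := (mul_nonsing_inv_cancel_left _ _ hA.isUnit).symm
  have h4 : (A.map ι).map τ = (A.map σ).map ι := Matrix.ext h
  have h5 : (R'.map (algebraMap kb E)).map ι = R'.map (algebraMap kb E) :=
    Matrix.ext fun i j => hι _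
  rw [h2, Matrix.map_mul, h5] at h4
  rw [Matrix.mul_assoc, ← h4]
  conv_rhs => rw [h3, Matrix.map_mul, h1, Matrix.mul_assoc,
    nonsing_inv_mul_cancel_left _ _ hA.isUnit]

omit hQ in
theorem DLb_kappa (hres : V.HasRes kb) {κ : E} {b : ℕ} (hb : 0 < b) (h1 : V.Gt (κ - 1) 0)
    {σ : E →+* E} (hσ : ∀ z, V.ord (σ z) = V.ord z) (h : σ (κ ^ b) = κ ^ b) : σ κ = κ := by
  obtain ⟨h0, h2⟩ := QVal.ord_eq_of_sub (V := V) (g := κ) one_ne_zero (by rwa [QVal.ord_one])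
  rw [← div_eq_one_iff_eq h0]
  refine eq_one_of_pow hres hb.ne' (by rw [div_pow, ← map_pow, h, div_self (pow_ne_zero _ h0)]) ?_
  rw [div_sub_one h0, QVal.gt_div_iff h0, h2, QVal.ord_one, add_zero]
  have h3 : V.Gt (σ (κ - 1)) 0 := h1.imp (fun e => by rw [e, map_zero]) fun e => by rwa [hσ]
  have h4 := h3.sub h1
  rwa [map_sub, map_one, sub_sub_sub_cancel_right] at h4

omit hQ in
theorem DLb_iter (σ : E ≃+* E) (n : ℕ) : ∃ τ : E ≃+* E, ∀ z, τ z = σ^[n] z := by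
  induction n with
  | zero => exact ⟨RingEquiv.refl E, fun _ => rfl⟩
  | succ n ih =>
    obtain ⟨τ, h⟩ := ih
    exact ⟨τ.trans σ, fun z => by rw [Function.iterate_succ_apply', ← h, RingEquiv.trans_apply]⟩

/-- `Ap.fix` and `moore_def` show that the entries satisfy `x ^ Q = x`, so they lie in `kb` -/
theorem Wild.exists_mat (h : Wild kb V ϖ Q D a y) {σ : E →+* E} (hσ : Pres kb V σ)
    (h1 : σ ϖ = ϖ) : ∃ R : Matrix (Fin (s + 2)) (Fin (s + 2)) kb, (∀ i j, R i j ^ Q = R i j) ∧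
      (moore Q y).map σ = moore Q y * R.map (algebraMap kb E) := by
  have hQ1 : 1 < Q := by
    have := h.big
    omega
  have h2 := moore_def p hQ h.rel h.det h.ne0 σ
  have h3 : (fun l => (σ (a l) - a l) / a 0) = 0 := funext fun l => by
    rw [(h.ap l).fix σ hσ.1 h1 hσ.2, sub_self, zero_div, Pi.zero_apply]
  rw [h3, zero_vecMul, vecMulVec_zero, Matrix.zero_mul, add_zero] at h2
  have h4 : ∀ i j, ∃ c : kb, algebraMap kb E c = ((moore Q y)⁻¹ * (moore Q y).map σ) i j :=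
    fun i j => minpoly.mem_range_of_degree_eq_one kb _ (IsAlgClosed.degree_eq_one_of_irreducible kb
      (minpoly.irreducible (IsAlgebraic.isIntegral ⟨X ^ Q - X,
        FiniteField.X_pow_card_sub_X_ne_zero kb hQ1, by
          rw [map_sub, map_pow, aeval_X, sub_eq_zero]
          exact congrFun (congrFun h2 i) j⟩)))
  choose R hR using h4
  refine ⟨Matrix.of R, fun i j => (algebraMap kb E).injective ?_, ?_⟩
  · rw [map_pow, of_apply, hR]
    exact congrFun (congrFun h2 i) j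
  · rw [show (Matrix.of R).map (algebraMap kb E) = (moore Q y)⁻¹ * (moore Q y).map σ from
      Matrix.ext hR, mul_nonsing_inv_cancel_left _ _ h.det.isUnit]

/-- Let `Γ` be the set of automorphisms that preserve `kb`, `V`, `ϖ₂`, and `𝓡` the finite set of
their matrices (`exists_mat`). Let `F₀` be an automorphism with `F₀ ϖ₂ = ϖ₂` that preserves `V` and
acts on `kb` by `c ↦ c ^ Q` (`QVal.exists_aut_rat`; `E` is algebraic over `kb⟮ϖ₂⟯`), and `F` an
iterate that fixes all `y j` (`exists_period`), hence the Moore matrix `X`. For `t` take `κ` from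
`exists_root_one` with `κ ^ b = 1 + t * ϖ₂ ^ c` and `ι` with `ι ϖ₂ = ϖ₂ * κ`. Every `σ ∈ Γ` fixes
`κ` (`eq_one_of_pow`), so `ι⁻¹ σ ι ∈ Γ`, and `σ B = R(σ)⁻¹ * B * R(ι⁻¹ σ ι)` for
`B = X⁻¹ * ι X`; reduction (`HasRes.gt_sub`) gives `R(σ) * Bb = Bb * R(ι⁻¹ σ ι)`. So conjugation
with `Bb` maps `𝓡` injectively, hence bijectively, to itself. If `t ^ Q ^ n = t` then `F κ = κ`,
`σ' = ι⁻¹ F ι F⁻¹ ∈ Γ` and `F B = B * R(σ')`; reduction gives `Bb ^ (Q ^ n) = Bb * R(σ')`. -/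
theorem Wild.group [IsAlgClosed E] [Algebra.IsAlgebraic (IntermediateField.adjoin kb {ϖ}) E]
    (hkb : ∀ c : kb, ∃ n, 0 < n ∧ c ^ Q ^ n = c) (h : Wild kb V ϖ Q D a y) {ϖ₂ : E} {b c : ℕ}
    (hb : 0 < b) (hc : 0 < c) (h2 : ϖ₂ ^ b = ϖ) (N : kb → Matrix (Fin (s + 2)) (Fin (s + 2)) kb)
    (hN : ∀ (t : kb) (ι : E →+* E), Pres kb V ι → ι ϖ = ϖ * (1 + algebraMap kb E t * ϖ₂ ^ c) →
      ∃ Bb : Matrix (Fin (s + 2)) (Fin (s + 2)) kb, Bb.det ≠ 0 ∧
        Red V ((moore Q y)⁻¹ * (moore Q y).map ι) Bb ∧ Bb.map (· ^ Q) = N t * Bb) :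
    ∃ n, 0 < n ∧ ∀ t : kb, t ^ Q ^ n = t →
      ∃ (Bb R : Matrix (Fin (s + 2)) (Fin (s + 2)) kb) (σ : E ≃+* E), Bb.det ≠ 0 ∧
        Bb.map (· ^ Q) = N t * Bb ∧ Bb.map (· ^ Q ^ n) = R * Bb ∧ Pres kb V σ ∧ σ ϖ = ϖ ∧
        (moore Q y).map σ = moore Q y * R.map (algebraMap kb E) := by
  classical
  have hQ1 : 1 < Q := by
    have := h.big
    omega
  have hk := h.res.const
  have hϖ : 0 < V.ord ϖ := by
    rw [h.unif]
    exact one_pos
  have hϖ₂ : 0 < V.ord ϖ₂ := by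
    rw [← h2, QVal.ord_pow] at hϖ
    exact (pos_iff_pos_of_mul_pos hϖ).1 (Nat.cast_pos.2 hb)
  have h0 : ϖ₂ ≠ 0 := fun e => by simp [e] at hϖ₂
  have := aut_basis (π := ϖ) (π' := ϖ₂) (fun ⟨f, hf, h0⟩ => (V.ord_aeval hk hϖ hf).1 h0)
    fun ⟨f, hf, h0⟩ => (V.ord_aeval hk hϖ₂ hf).1 h0
  obtain ⟨F₀, a1, a2, a3⟩ := V.exists_aut_rat hk hϖ₂ rfl (iterateFrobeniusEquiv kb p f)
  have a4 : ∀ n c, F₀^[n] (algebraMap kb E c) = algebraMap kb E (c ^ Q ^ n) := fun n c => by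
    induction n with
    | zero => simp
    | succ n ih =>
      rw [Function.iterate_succ_apply', ih, a2, iterateFrobeniusEquiv_def, ← hQ, ← pow_mul,
        pow_succ]
  obtain ⟨n, hn, a5⟩ := exists_period (kb := kb) (ϖ := ϖ₂) (F₀ : E →+* E) a1
    (fun c => (hkb c).imp fun n hn => ⟨hn.1, (a4 n c).trans (by rw [hn.2])⟩) (Finset.univ.image y)
  obtain ⟨F, hF⟩ := DLb_iter F₀ n
  have b1 : F ϖ₂ = ϖ₂ := (hF _).trans (Function.iterate_fixed a1 n)
  have b2 : ∀ c, F (algebraMap kb E c) = algebraMap kb E (c ^ Q ^ n) := fun c =>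
    (hF _).trans (a4 n c)
  have b3 : ∀ z, V.ord (F z) = V.ord z := fun z => by
    rw [hF]
    generalize n = m
    induction m with
    | zero => rfl
    | succ m ih => rw [Function.iterate_succ_apply', a3, ih]
  have b4 : ∀ i j, F (moore Q y i j) = moore Q y i j := fun i j => by
    rw [moore, of_apply, map_pow, hF]
    exact congrArg (· ^ _) (a5 _ (Finset.mem_image_of_mem y (Finset.mem_univ j)))
  refine ⟨n, hn, fun t ht => ?_⟩
  obtain ⟨κ, c1, c2⟩ := exists_root_one (x := 1 + algebraMap kb E t * ϖ₂ ^ c) h.res hb.ne' (by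
    rw [add_sub_cancel_left]
    refine (h.res.ge_const t).mul_gt₀ (QVal.Gt.of_lt ?_)
    rw [QVal.ord_pow]
    exact mul_pos (Nat.cast_pos.2 hc) hϖ₂)
  obtain ⟨c3, c4⟩ := QVal.ord_eq_of_sub (V := V) (g := κ) one_ne_zero (by rwa [QVal.ord_one])
  obtain ⟨ι, d1, d2, d3⟩ := V.exists_aut_rat hk hϖ₂ (π' := ϖ₂ * κ)
    (by rw [V.ord_mul h0 c3, c4, QVal.ord_one, add_zero]) (RingEquiv.refl kb)
  have d4 : ∀ z, V.ord (ι.symm z) = V.ord z := fun z => by rw [← d3, ι.apply_symm_apply]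
  have d5 : ∀ c, ι.symm (algebraMap kb E c) = algebraMap kb E c := fun c =>
    ι.symm_apply_eq.2 (d2 c).symm
  have d6 : ι.symm (ϖ₂ * κ) = ϖ₂ := ι.symm_apply_eq.2 d1.symm
  obtain ⟨Bb, e1, e2, e3⟩ := hN t (ι : E →+* E) ⟨d2, d3⟩ (by
    rw [RingHom.coe_coe, ← h2, map_pow, d1, mul_pow, c1])
  let S : Set (Matrix (Fin (s + 2)) (Fin (s + 2)) kb) := {R | (∀ i j, R i j ^ Q = R i j) ∧
    ∃ σ : E ≃+* E, Pres kb V σ ∧ σ ϖ₂ = ϖ₂ ∧
      (moore Q y).map σ = moore Q y * R.map (algebraMap kb E)}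
  have hS : S.Finite := by
    have h3 : {c : kb | c ^ Q = c}.Finite := by
      have h4 : (X ^ Q - X : kb[X]) ≠ 0 := FiniteField.X_pow_card_sub_X_ne_zero kb hQ1
      refine (X ^ Q - X : kb[X]).roots.toFinset.finite_toSet.subset fun c hc => ?_
      rw [Finset.mem_coe, Multiset.mem_toFinset, mem_roots h4, IsRoot, eval_sub, eval_pow, eval_X,
        sub_eq_zero]
      exact hc
    exact (Set.Finite.pi' fun _ => Set.Finite.pi' fun _ => h3).subset fun _ hR => hR.1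
  have hmem : ∀ σ : E ≃+* E, Pres kb V σ → σ ϖ₂ = ϖ₂ →
      ∃ R ∈ S, (moore Q y).map σ = moore Q y * R.map (algebraMap kb E) := fun σ h3 h4 => by
    obtain ⟨R, h5, h6⟩ := h.exists_mat p hQ h3 (by rw [RingHom.coe_coe, ← h2, map_pow, h4])
    exact ⟨R, ⟨h5, σ, h3, h4, h6⟩, h6⟩
  have hbij : Set.BijOn (fun R => Bb⁻¹ * R * Bb) S S := by
    refine (hS.injOn_iff_bijOn_of_mapsTo ?_).1 fun R _ R' _ e => ?_
    · rintro R ⟨-, σ, h3, h4, h5⟩
      have h6 : σ κ = κ := DLb_kappa h.res hb c2 (σ := σ) h3.2 (by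
        rw [c1, map_add, map_one, map_mul, map_pow, h3.1, RingHom.coe_coe, h4])
      obtain ⟨R', h7, h8⟩ := hmem ((ι.trans σ).trans ι.symm)
        ⟨fun c => (congrArg ι.symm ((congrArg σ (d2 c)).trans (h3.1 c))).trans (d5 c),
          fun z => (d4 _).trans ((h3.2 _).trans (d3 z))⟩ (by
          rw [RingEquiv.trans_apply, RingEquiv.trans_apply, d1, map_mul, h4, h6, d6])
      have h9 := DLb_red h.res e2 (τ := σ) h3.2 (φ := id) h3.1
        (DLb_mat h.det (ι := ι) (τ := σ) (σ := (ι.trans σ).trans ι.symm) d2 h5 h8 fun i j =>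
          (ι.apply_symm_apply _).symm)
      rw [Matrix.map_id] at h9
      change Bb⁻¹ * R * Bb ∈ S
      rwa [Matrix.mul_assoc, h9, nonsing_inv_mul_cancel_left _ _ e1.isUnit]
    · have h3 := congrArg (fun M => Bb * M * Bb⁻¹) e
      simpa only [Matrix.mul_assoc, mul_nonsing_inv _ e1.isUnit, Matrix.mul_one,
        mul_nonsing_inv_cancel_left _ _ e1.isUnit] using h3
  have f1 : F κ = κ := DLb_kappa h.res hb c2 (σ := F) b3 (by
    rw [c1, RingHom.coe_coe, map_add, map_one, map_mul, map_pow, b2, ht, b1])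
  obtain ⟨R', g1, g2⟩ := hmem (((F.symm.trans ι).trans F).trans ι.symm) ⟨fun c => by
      obtain ⟨c', rfl⟩ := IsAlgClosed.exists_pow_nat_eq c (pow_pos (by omega : 0 < Q) n)
      change ι.symm (F (ι (F.symm _))) = _
      rw [← b2, F.symm_apply_apply, d2, RingEquiv.refl_apply, b2, d5],
    fun z => (d4 _).trans ((b3 _).trans ((d3 _).trans (by
      change V.ord (F.symm z) = _
      rw [← b3, F.apply_symm_apply])))⟩ (by
    change ι.symm (F (ι (F.symm _))) = _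
    rw [F.symm_apply_eq.2 b1.symm, d1, map_mul, b1, f1, d6])
  have g3 := DLb_red h.res e2 (τ := F) b3 (φ := (· ^ Q ^ n)) b2
    (DLb_mat h.det (ι := ι) (τ := F) (σ := ((F.symm.trans ι).trans F).trans ι.symm) (R := 1) d2
      (by
        rw [Matrix.map_one _ (map_zero _) (map_one _), Matrix.mul_one]
        exact Matrix.ext b4) g2 fun i j => by
      change F (ι _) = ι (ι.symm (F (ι (F.symm _))))
      rw [ι.apply_symm_apply, F.symm_apply_eq.2 (b4 i j).symm])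
  obtain ⟨R, ⟨-, σ, g4, g5, g6⟩, rfl⟩ := hbij.surjOn g1
  refine ⟨Bb, R, σ, e1, e3, ?_, g4, by rw [← h2, map_pow, g5], g6⟩
  simpa only [Matrix.one_mul, Matrix.mul_assoc, mul_nonsing_inv_cancel_left _ _ e1.isUnit] using g3

omit [CharP E p] in
/-- induction on `n` -/
theorem frob_iter {r : ℕ} {ξ lam : Fin r → kb} (h1 : ∀ i, ξ i ^ Q = ξ i) (h2 : lam ⬝ᵥ ξ = 0)
    {B : Matrix (Fin r) (Fin r) kb} (h : B.map (· ^ Q) = (1 + vecMulVec ξ lam) * B) (n : ℕ) :
    B.map (· ^ Q ^ n) =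
      (1 + vecMulVec ξ fun l => ∑ i ∈ Finset.range n, lam l ^ Q ^ i) * B := by
  induction n with
  | zero =>
    have h3 : (fun l => ∑ i ∈ Finset.range 0, lam l ^ Q ^ i) = 0 := rfl
    rw [h3, vecMulVec_zero, add_zero, Matrix.one_mul]
    ext i j
    simp
  | succ n ih =>
    obtain ⟨φ, hφ⟩ := DLb_frob (kb := kb) p hQ n
    have h3 : B.map (· ^ Q ^ (n + 1)) = (B.map (· ^ Q)).map φ := by
      ext i j
      rw [map_apply, map_apply, map_apply, hφ, ← pow_mul, pow_succ']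
    have h4 : B.map φ = B.map (· ^ Q ^ n) := Matrix.ext fun i j => hφ _
    have h5 : (1 + vecMulVec ξ lam).map φ = 1 + vecMulVec ξ fun l => lam l ^ Q ^ n := by
      rw [Matrix.map_add _ (map_add φ), Matrix.map_one _ (map_zero φ) (map_one φ)]
      congr 1
      ext i j
      rw [map_apply, vecMulVec_apply, vecMulVec_apply, map_mul, hφ, hφ, DLb_fix (h1 i)]
    rw [h3, h, Matrix.map_mul, h4, ih, h5, ← Matrix.mul_assoc]
    congr 1
    rw [Matrix.add_mul, Matrix.one_mul, Matrix.mul_add, Matrix.mul_one, vecMulVec_mul_vecMulVec,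
      DLb_dot p hQ h1 h2, zero_smul, vecMulVec_zero, add_zero, add_assoc, ← vecMulVec_add]
    congr 2
    ext l
    rw [Finset.sum_range_succ, Pi.add_apply]

omit [CharP E p] in
/-- the polynomial `∑ i < n, C (m ^ Q ^ i) * X ^ (j * Q ^ i)` is nonzero of degree `< Q ^ n`, and
`X ^ Q ^ n - X` has `Q ^ n` distinct roots -/
theorem exists_beta {j n : ℕ} (hj : 0 < j) (hj' : j < Q) (hn : 0 < n) {m : kb} (hm : m ≠ 0) :
    ∃ β : kb, β ^ Q ^ n = β ∧ ∑ i ∈ Finset.range n, (β ^ j * m) ^ Q ^ i ≠ 0 := by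
  classical
  by_contra h0
  push Not at h0
  have hQ1 : 1 < Q := by omega
  have hq : 1 < Q ^ n := Nat.one_lt_pow hn.ne' hQ1
  have hs : (X ^ Q ^ n - X : kb[X]).Separable := galois_poly_separable p _ (by
    refine dvd_pow (hQ ▸ dvd_pow_self p fun e => ?_) hn.ne'
    rw [e, pow_zero] at hQ
    omega)
  have h1 : (∑ i ∈ Finset.range n, monomial (j * Q ^ i) (m ^ Q ^ i) : kb[X]) = 0 := by
    refine eq_zero_of_natDegree_lt_card_of_eval_eq_zero' _ (X ^ Q ^ n - X : kb[X]).roots.toFinset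
      (fun β hβ => ?_) ?_
    · rw [Multiset.mem_toFinset, mem_roots hs.ne_zero, IsRoot, eval_sub, eval_pow, eval_X,
        sub_eq_zero] at hβ
      rw [← h0 β hβ, eval_finsetSum]
      exact Finset.sum_congr rfl fun i _ => by rw [eval_monomial, mul_pow, ← pow_mul, mul_comm]
    · rw [Multiset.toFinset_card_of_nodup (nodup_roots hs), IsAlgClosed.card_roots_eq_natDegree,
        FiniteField.X_pow_card_sub_X_natDegree_eq kb hq]
      refine lt_of_le_of_lt (natDegree_sum_le_of_forall_le _ _ fun i hi =>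
        (natDegree_monomial_le _).trans (Nat.le_sub_one_of_lt ?_)) (Nat.sub_one_lt (by omega))
      calc j * Q ^ i < Q * Q ^ i := Nat.mul_lt_mul_of_pos_right hj' (pow_pos (by omega) i)
        _ = Q ^ (i + 1) := (pow_succ' Q i).symm
        _ ≤ Q ^ n := Nat.pow_le_pow_right (by omega) (Finset.mem_range.1 hi)
  have h2 := congrArg (fun g : kb[X] => g.coeff j) h1
  simp only [finsetSum_coeff, coeff_zero] at h2
  rw [Finset.sum_eq_single_of_mem 0 (Finset.mem_range.2 hn) fun i _ hi => by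
    rw [coeff_monomial, if_neg]
    have := Nat.one_lt_pow hi hQ1
    nlinarith] at h2
  simp [hm] at h2

/-- DL. Write `u = c / b`, take `ϖ₂` with `ϖ₂ ^ b = ϖ`, `s0 = ϖ₂ ^ c`; `Wild.data`, `Wild.group`,
`frob_iter`, `exists_beta`;
`c = 1 + vecMulVec (C ∘ ξ) (∑ j ∈ Icc 1 D, C (∑ i < n, (β ^ j * lam j l) ^ Q ^ i) * X ^ j)`. -/
theorem Wild.curve [IsAlgClosed E] [Algebra.IsAlgebraic (IntermediateField.adjoin kb {ϖ}) E]
    (hkb : ∀ c : kb, ∃ n, 0 < n ∧ c ^ Q ^ n = c) (h : Wild kb V ϖ Q D a y) :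
    ∃ c : Matrix (Fin (s + 2)) (Fin (s + 2)) kb[X], (∀ i j, (c i j).natDegree ≤ D) ∧
      (∀ t : kb, t ^ Q = t → ∃ σ : E ≃+* E, Pres kb V σ ∧ σ ϖ = ϖ ∧
        (moore Q y).map σ = moore Q y * (c.map (eval t)).map (algebraMap kb E)) ∧
      (∃ w : Fin (s + 2) → kb, w ≠ 0 ∧ ∀ t, c.map (eval t) *ᵥ w = w) ∧
      ∃ i j, 0 < (c i j).natDegree := by
  obtain ⟨u, hu, hd⟩ := h.data p hQ
  obtain ⟨ϖ₂, h2⟩ := IsAlgClosed.exists_pow_nat_eq ϖ u.den_pos
  have h0 : ϖ₂ ≠ 0 := fun e => by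
    have h1 := h.unif
    rw [← h2, e, zero_pow u.den_pos.ne', QVal.ord_zero'] at h1
    exact zero_ne_one h1
  have hc : 0 < u.num.toNat := Int.lt_toNat.2 (by simpa using hu)
  obtain ⟨ξ, lam, a1, a2, a3, ⟨j0, a4, a5⟩, a6⟩ := hd (ϖ₂ ^ u.num.toNat) (pow_ne_zero _ h0) (by
    have h1 := h.unif
    rw [← h2, QVal.ord_pow] at h1
    rw [QVal.ord_pow, ← Int.cast_natCast, Int.toNat_of_nonneg (Rat.num_nonneg.2 hu.le),
      ← Rat.mul_den_eq_num, mul_assoc, h1, mul_one])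
  obtain ⟨n, hn, hg⟩ := h.group p hQ hkb u.den_pos hc h2
    (fun t => 1 + vecMulVec ξ (∑ j ∈ Finset.Icc 1 D, t ^ j • lam j)) a6
  obtain ⟨l0, b1⟩ := Function.ne_iff.1 a5
  obtain ⟨i0, b2⟩ := Function.ne_iff.1 a1
  obtain ⟨b3, b4⟩ := Finset.mem_Icc.1 a4
  obtain ⟨β, b5, b6⟩ := exists_beta p hQ b3 (b4.trans_lt (Nat.lt_of_succ_lt h.big)) hn b1
  obtain ⟨e, he⟩ : ∃ e : ℕ → Fin (s + 2) → kb, ∀ j l,
      e j l = ∑ i ∈ Finset.range n, (β ^ j * lam j l) ^ Q ^ i := ⟨_, fun _ _ => rfl⟩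
  have hev : ∀ t : kb, (1 + vecMulVec (fun i => C (ξ i))
      fun l => ∑ j ∈ Finset.Icc 1 D, monomial j (e j l) : Matrix _ _ kb[X]).map (eval t) =
      1 + vecMulVec ξ (∑ j ∈ Finset.Icc 1 D, t ^ j • e j) := fun t => by
    ext i l
    simp [vecMulVec_apply, Matrix.one_apply, apply_ite (eval t), eval_finsetSum, mul_comm]
  refine ⟨1 + vecMulVec (fun i => C (ξ i)) fun l => ∑ j ∈ Finset.Icc 1 D, monomial j (e j l),
    fun i l => ?_, fun t ht => ?_, ⟨ξ, a1, fun t => ?_⟩, i0, l0, ?_⟩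
  · rw [Matrix.add_apply, vecMulVec_apply]
    refine natDegree_add_le_of_degree_le ?_ ((natDegree_C_mul_le _ _).trans
      (natDegree_sum_le_of_forall_le _ _ fun j hj =>
        (natDegree_monomial_le _).trans (Finset.mem_Icc.1 hj).2))
    rw [Matrix.one_apply]
    split_ifs <;> simp
  · obtain ⟨Bb, R, σ, c1, c2, c3, c4, c5, c6⟩ := hg (t * β) (by rw [mul_pow, DLb_fix ht, b5])
    refine ⟨σ, c4, c5, ?_⟩
    have c7 := frob_iter p hQ a2 (by
      rw [sum_dotProduct]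
      exact Finset.sum_eq_zero fun j _ => by rw [smul_dotProduct, a3, smul_zero]) c2 n
    rw [c3] at c7
    have c8 := congrArg (· * Bb⁻¹) c7
    simp only [mul_nonsing_inv_cancel_right _ _ c1.isUnit] at c8
    rw [c6, c8, hev]
    congr 4
    ext l
    simp only [Finset.sum_apply, Pi.smul_apply, smul_eq_mul, he, Finset.mul_sum]
    rw [Finset.sum_comm]
    refine Finset.sum_congr rfl fun i _ => ?_
    obtain ⟨φ, hφ⟩ := DLb_frob (kb := kb) p hQ i
    rw [← hφ, map_sum]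
    refine Finset.sum_congr rfl fun j _ => ?_
    rw [hφ, mul_pow t, mul_assoc, mul_pow, ← pow_mul t, mul_comm j, pow_mul t, DLb_fix ht]
  · have c1 : (∑ j ∈ Finset.Icc 1 D, t ^ j • e j) ⬝ᵥ ξ = 0 := by
      rw [sum_dotProduct]
      refine Finset.sum_eq_zero fun j _ => ?_
      have c2 : e j = ∑ i ∈ Finset.range n, fun l => (β ^ j • lam j) l ^ Q ^ i := by
        ext l
        rw [he, Finset.sum_apply]
        rfl
      rw [smul_dotProduct, c2, sum_dotProduct, Finset.sum_eq_zero fun i _ =>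
        DLb_dot p hQ a2 (by rw [smul_dotProduct, a3, smul_zero]) i, smul_zero]
    rw [hev, add_mulVec, one_mulVec, vecMulVec_mulVec, c1, MulOpposite.op_zero, zero_smul, add_zero]
  · refine lt_of_lt_of_le b3 (le_natDegree_of_ne_zero ?_)
    have c1 : ((1 : Matrix (Fin (s + 2)) (Fin (s + 2)) kb[X]) i0 l0).coeff j0 = 0 := by
      rw [Matrix.one_apply]
      split_ifs
      · rw [coeff_one, if_neg (by omega)]
      · rfl
    rw [Matrix.add_apply, vecMulVec_apply, coeff_add, c1, zero_add, coeff_C_mul, finsetSum_coeff]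
    simp only [coeff_monomial, Finset.sum_ite_eq', a4, if_true, he]
    exact mul_ne_zero b2 b6

end Pool.Agent.Lib.MP_6adaea_nt.T
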