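import Pool.Agent.Lib.MP_6adaea_nt.T.Base

/-!
Valuations of torsion points.
-/

set_option linter.unusedSectionVars false

namespace Pool.Agent.Lib.MP_6adaea_nt.T
open Matrix Polynomial G U Module

section gen
variable {k Ω : Type} [Field k] [Finite k] [Field Ω] [Algebra k Ω]
  {θ : Ω} {r : ℕ} {g : ℕ → Ω} {φ : Ω →ₗ[k] Ω} {V : QVal Ω} {γ : ℚ}

/-- Lemma E. Put `g 0 = θ`, `f m = min (ord (g i) + q ^ i * m)` over `i ≤ r` with `g i ≠ 0`; `f`
is strictly increasing. Suppose that the first alternative fails for `x`. Then the minimum for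
`m = ord x` is attained only once (a tie gives `q ^ j * (q ^ (i - j) - 1) * m ∈ ℤ`), so `φ x ≠ 0`
has order `f m = ord (g i) + q ^ i * m`, and the first alternative fails for `φ x` as well. The
orbit of `x` is finite, so two of the `f^[n] m` agree; a strictly increasing map has monotone
orbits and is injective, hence `f m = m`. If the minimum is attained at `i ≥ 1` then
`(q ^ i - 1) * m ∈ ℤ`. So it is attained at `i = 0`, `ord θ = 0`, and comparing with the index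
of `Nm.eq` gives `-γ < m`. -/
theorem Nm.lemE (p : ℕ) [Fact p.Prime] [CharP k p] (h : Nm k V r g γ) (hφ : IsDr θ r g φ)
    (hθ : ∃ n : ℤ, V.ord θ = n) (hg : ∀ i, ∃ n : ℤ, V.ord (g i) = n) {W : Set Ω} (hW : W.Finite)
    (hs : ∀ x ∈ W, φ x ∈ W) {x : Ω} (hx : x ∈ W) (h0 : x ≠ 0) :
    (∃ i ∈ Finset.Icc 1 r, Zp p (((Nat.card k : ℚ) ^ i - 1) * V.ord x)) ∨ Dp V θ γ x := by
  classical
  by_contra hc
  obtain ⟨y, ⟨hy, y0, y1, y2⟩, hmin⟩ := Set.exists_min_image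
    {y ∈ W | y ≠ 0 ∧ (¬∃ i ∈ Finset.Icc 1 r, Zp p (((Nat.card k : ℚ) ^ i - 1) * V.ord y)) ∧
      ¬Dp V θ γ y} V.ord (hW.subset fun _ h => h.1) ⟨x, hx, h0, fun e => hc (Or.inl e),
      fun e => hc (Or.inr e)⟩
  obtain ⟨e, he⟩ : ∃ e : ℕ, (Nat.card k : ℚ) = p ^ e := by
    have := Fintype.ofFinite k
    obtain ⟨e, -, he⟩ := FiniteField.card k p
    exact ⟨e, by rw [Nat.card_eq_fintype_card, he, Nat.cast_pow]⟩
  have hZ : ∀ (j : ℕ) (a : ℚ), Zp p ((Nat.card k : ℚ) ^ j * a) → Zp p a := fun j a ha => by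
    rw [he, ← pow_mul] at ha
    exact ha.of_pow_mul
  set c : ℕ → Ω := fun i => if i = 0 then θ else g i with hcd
  have hci : ∀ i, ∃ n : ℤ, V.ord (c i) = n := fun i => by
    simp only [hcd]
    split_ifs
    exacts [hθ, hg i]
  have ho : ∀ i, c i ≠ 0 → V.ord (c i * y ^ Nat.card k ^ i) =
      V.ord (c i) + (Nat.card k : ℚ) ^ i * V.ord y := fun i hi => by
    rw [V.ord_mul hi (pow_ne_zero _ y0), V.ord_pow, Nat.cast_pow]
  obtain ⟨i0, hi0, g0, g1⟩ := h.eq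
  have hi0' := Finset.mem_Icc.mp hi0
  have c0 : c i0 = g i0 := if_neg (by omega)
  obtain ⟨j, hj, hjm⟩ := Finset.exists_min_image
    ((Finset.range (r + 1)).filter fun i => c i ≠ 0)
    (fun i => V.ord (c i) + (Nat.card k : ℚ) ^ i * V.ord y)
    ⟨i0, Finset.mem_filter.mpr ⟨Finset.mem_range.mpr (by omega), c0 ▸ g0⟩⟩
  obtain ⟨hj1, hj2⟩ := Finset.mem_filter.mp hj
  have tie : ∀ a b, a < b → b ≤ r → V.ord (c a) + (Nat.card k : ℚ) ^ a * V.ord y ≠
      V.ord (c b) + (Nat.card k : ℚ) ^ b * V.ord y := fun a b hab hb e => by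
    obtain ⟨d, rfl⟩ := Nat.exists_eq_add_of_lt hab
    obtain ⟨na, ha⟩ := hci a
    obtain ⟨nb, hb'⟩ := hci (a + d + 1)
    refine y1 ⟨d + 1, Finset.mem_Icc.mpr ⟨by omega, by omega⟩, hZ a _ ?_⟩
    have : (Nat.card k : ℚ) ^ a * (((Nat.card k : ℚ) ^ (d + 1) - 1) * V.ord y) =
        ((na - nb : ℤ) : ℚ) := by
      rw [ha, hb', add_assoc a, pow_add] at e
      push_cast
      linarith
    rw [this]
    exact Zp.int p _
  have hs' : φ y = ∑ i ∈ Finset.range (r + 1), c i * y ^ Nat.card k ^ i := by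
    rw [hφ y, Finset.range_eq_Ico, Finset.sum_eq_sum_Ico_succ_bot (by omega),
      Finset.Ico_add_one_right_eq_Icc]
    congr 1
    · simp [hcd]
    · refine Finset.sum_congr rfl fun i hi => ?_
      have := Finset.mem_Icc.mp hi
      rw [show c i = g i from if_neg (by omega)]
  obtain ⟨z0, z1⟩ := QVal.ord_sum_of_lt (V := V) (f := fun i => c i * y ^ Nat.card k ^ i) hj1
    (mul_ne_zero hj2 (pow_ne_zero _ y0)) fun i hi hij => by
      by_cases hi0 : c i = 0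
      · exact Or.inl (by rw [hi0, zero_mul])
      refine QVal.Gt.of_lt ?_
      rw [ho i hi0, ho j hj2]
      refine lt_of_le_of_ne (hjm i (Finset.mem_filter.mpr ⟨hi, hi0⟩)) ?_
      have := Finset.mem_range.mp hi
      have := Finset.mem_range.mp hj1
      rcases lt_or_gt_of_ne hij with e | e
      · exact (tie i j e (by omega)).symm
      · exact tie j i e (by omega)
  rw [← hs'] at z0 z1
  rw [ho j hj2] at z1
  have hlt : V.ord (φ y) < V.ord y ∧ ¬Dp V θ γ (φ y) := by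
    by_cases ht : V.Ge θ 0
    · have h1 : V.ord y ≤ -γ := (QVal.not_gt_iff.mp fun e => y2 ⟨ht, e⟩).2
      have h2 : V.ord y ≠ -γ := fun e => by
        obtain ⟨n, hn⟩ := hg i0
        refine y1 ⟨i0, hi0, ?_⟩
        rw [e, mul_neg, ← g1, hn]
        exact (Zp.int p n).neg
      have h3 := hjm i0 (Finset.mem_filter.mpr ⟨Finset.mem_range.mpr (by omega), c0 ▸ g0⟩)
      have h4 := mul_pos (base_pos (k := k) hi0) (sub_pos.mpr (lt_of_le_of_ne h1 h2))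
      rw [c0, g1] at h3
      have h5 : V.ord (φ y) < V.ord y := by rw [z1]; linarith
      exact ⟨h5, fun e => absurd (e.2.lt z0) (by linarith)⟩
    · obtain ⟨t0, t1⟩ := QVal.not_ge_iff.mp ht
      have h3 := hjm 0 (Finset.mem_filter.mpr ⟨Finset.mem_range.mpr (by omega), by simpa [hcd]⟩)
      rw [show c 0 = θ from if_pos rfl, pow_zero, one_mul] at h3
      exact ⟨by rw [z1]; linarith, fun e => ht e.1⟩
  refine absurd (hmin (φ y) ⟨hs y hy, z0, ?_, hlt.2⟩) (not_le.mpr hlt.1)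
  rintro ⟨i, hi, e⟩
  obtain ⟨n, hn⟩ := hci j
  refine y1 ⟨i, hi, hZ j _ ?_⟩
  have := e.add (Zp.int p (-(((Nat.card k : ℤ) ^ i - 1) * n)))
  convert this using 1
  rw [z1, hn]
  push_cast
  ring

/-- Good reduction. If `ord x < -γ` the term `g r * x ^ q ^ r` has strictly smallest order, which
is less than `ord x`; take `x ∈ W` of smallest order. -/
theorem Nm.good_ge (h : Nm k V r g γ) (hφ : IsDr θ r g φ) (hθ : V.Ge θ 0) (hr : 0 < r)
    (hg : g r ≠ 0) (hgr : V.ord (g r) = ((Nat.card k : ℚ) ^ r - 1) * γ) {W : Set Ω}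
    (hW : W.Finite) (hs : ∀ x ∈ W, φ x ∈ W) {x : Ω} (hx : x ∈ W) : V.Ge x (-γ) := by
  by_contra hc
  obtain ⟨y, ⟨hy, y1⟩, hmin⟩ := Set.exists_min_image {y ∈ W | ¬V.Ge y (-γ)} V.ord
    (hW.subset fun _ h => h.1) ⟨x, hx, hc⟩
  obtain ⟨y0, y2⟩ := QVal.not_ge_iff.mp y1
  have hrm : r ∈ Finset.Icc 1 r := Finset.mem_Icc.mpr ⟨hr, le_rfl⟩
  have hq : (1 : ℚ) < Nat.card k := by exact_mod_cast Finite.one_lt_card
  have ho : V.ord (g r * y ^ Nat.card k ^ r) =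
      V.ord y + ((Nat.card k : ℚ) ^ r - 1) * (V.ord y + γ) := by
    rw [V.ord_mul hg (pow_ne_zero _ y0), V.ord_pow, Nat.cast_pow, hgr]
    ring
  have hlt : V.ord (g r * y ^ Nat.card k ^ r) < V.ord y := by
    have := mul_pos (base_pos (k := k) hrm) (sub_pos.mpr y2)
    rw [ho]
    linarith
  obtain ⟨z0, z1⟩ := QVal.ord_sum_of_lt (V := V) (f := fun i => g i * y ^ Nat.card k ^ i) hrm
    (mul_ne_zero hg (pow_ne_zero _ y0)) fun i hi hir => by
      refine ((h.ge i hi).mul ((V.ge_ord y).pow (Nat.card k ^ i))).gt ?_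
      have h1 : (Nat.card k : ℚ) ^ i < (Nat.card k : ℚ) ^ r :=
        pow_lt_pow_right₀ hq (lt_of_le_of_ne (Finset.mem_Icc.mp hi).2 hir)
      have := mul_pos (sub_pos.mpr h1) (sub_pos.mpr y2)
      rw [ho, Nat.cast_pow]
      linarith
  obtain ⟨w0, w1⟩ := QVal.ord_add_of_gt z0 (g := θ * y)
    ((hθ.mul₀ (V.ge_ord y)).gt (z1 ▸ hlt))
  rw [add_comm, ← hφ y] at w0 w1
  have h5 : V.ord (φ y) < V.ord y := by rw [w1, z1]; exact hlt
  exact absurd (hmin (φ y) ⟨hs y hy, QVal.not_ge_iff.mpr ⟨w0, h5.trans y2⟩⟩) (not_le.mpr h5)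

end gen

section K
variable {k kb K Ω : Type} [Field k] [Finite k] [Field kb] [Field K] [Field Ω] [Algebra k kb]
  [Algebra k K] [Algebra k Ω] [Algebra kb K] [Algebra kb Ω] [Algebra K Ω]
  [IsScalarTower k kb K] [IsScalarTower k kb Ω] [IsScalarTower k K Ω] [IsScalarTower kb K Ω]
  [IsAlgClosed kb] [Algebra.IsAlgebraic k kb] [IsSepClosed Ω] [IsGalois K Ω] [IsFF kb K]
  {θ : K} {r : ℕ} {V : QVal Ω} {v : Place kb K} {γ : ℚ}

/-- the normalisation of a module over `K` -/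
abbrev NmD (D : DM k Ω θ r) (V : QVal Ω) (γ : ℚ) : Prop :=
  Nm k V r (fun i => algebraMap K Ω (D.g i)) γ

/-- the formal group of a module over `K` -/
abbrev DpD (V : QVal Ω) (θ : K) (γ : ℚ) (x : Ω) : Prop := Dp V (algebraMap K Ω θ) γ x

theorem dm_ne (D : DM k Ω θ r) : (fun i => algebraMap K Ω (D.g i)) r ≠ 0 :=
  (_root_.map_ne_zero _).mpr D.ne

theorem aut_tors (D : DM k Ω θ r) (σ : Ω ≃ₐ[K] Ω) {a : k[X]} {x : Ω} (hx : x ∈ tors D.φ a) :
    σ x ∈ tors D.φ a := by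
  rw [mem_tors, ← aut_comm D.dr, mem_tors.mp hx, map_zero]

/-- `Algebra.IsAlgebraic k kb` and transitivity, or `Transcendental.of_tower_top` -/
theorem tr_theta (hB : Base kb θ) : Transcendental k (algebraMap K Ω θ) := by
  exact (transcendental_algebraMap_iff (algebraMap K Ω).injective).2 (hB.tr.of_tower_top k)

/-- `exists_char`, `QVal.exists_ord_eq` -/
theorem all_ord (hV : V.Over v) (m : ℚ) : ∃ x, x ≠ 0 ∧ V.ord x = m := by
  obtain ⟨t, t0, t1⟩ := v.surj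
  have t2 : algebraMap K Ω t ≠ 0 := (_root_.map_ne_zero _).mpr t0
  have t3 : V.ord (algebraMap K Ω t) = 1 := by rw [hV t, t1, Int.cast_one]
  obtain ⟨p, hp⟩ := CharP.exists Ω
  rcases CharP.char_is_prime_or_zero Ω p with h | rfl
  · have := Fact.mk h
    exact V.exists_ord_eq p ⟨_, t2, t3⟩ m
  · have := CharP.charP_to_charZero Ω
    have : NeZero m.den := ⟨m.den_nz⟩
    obtain ⟨x, hx⟩ := IsSepClosed.exists_pow_nat_eq (algebraMap K Ω t ^ m.num) m.den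
    refine ⟨x, fun e => zpow_ne_zero m.num t2 (by rw [← hx, e, zero_pow m.den_nz]), ?_⟩
    have e := congrArg V.ord hx
    rw [V.ord_pow, V.ord_zpow, t3, mul_one, ← Rat.den_mul_eq_num] at e
    exact mul_left_cancel₀ (Nat.cast_ne_zero.mpr m.den_nz) e

/-- `Nm.lemE`, `tch_of_pow`, `tch_zsmul` -/
theorem tch_tors (D : DM k Ω θ r) (hr : 0 < r) (hV : V.Over v) (hN : NmD D V γ) {σ : Ω ≃ₐ[K] Ω}
    (hσ : σ ∈ V.stab K) {a : k[X]} (ha : a ≠ 0) {x : Ω} (hx : x ∈ tors D.φ a) (h0 : x ≠ 0)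
    (hD : ¬DpD V θ γ x) :
    ∃ i ∈ Finset.Icc 1 r, V.tch kb σ (V.ord x) ^ (Nat.card k ^ i - 1) = 1 := by
  obtain ⟨p, _, _, _, -⟩ := exists_char k kb
  obtain ⟨i, hi, b, n, e⟩ := (hN.lemE p D.dr ⟨_, hV θ⟩ (fun i => ⟨_, hV (D.g i)⟩)
    (tors_finite D.dr hr (dm_ne D) ha).1 (fun _ h => phi_mem_tors h) hx h0).resolve_right hD
  refine ⟨i, hi, ?_⟩
  have h1 := hV.hasRes.tch_of_pow p hV hσ e
  have h2 := hV.hasRes.tch_zsmul (all_ord hV) hσ ((Nat.card k ^ i - 1 : ℕ) : ℤ) (V.ord x)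
  rw [zpow_natCast] at h2
  rw [← h2, ← h1, Int.cast_natCast, Nat.cast_sub (Nat.one_le_pow _ _ Nat.card_pos), Nat.cast_pow,
    Nat.cast_one]

theorem tch_n0 (D : DM k Ω θ r) (hr : 0 < r) (hV : V.Over v) (hN : NmD D V γ) {σ : Ω ≃ₐ[K] Ω}
    (hσ : σ ∈ V.stab K) {a : k[X]} (ha : a ≠ 0) {x : Ω} (hx : x ∈ tors D.φ a) (h0 : x ≠ 0)
    (hD : ¬DpD V θ γ x) : V.tch kb σ (V.ord x) ^ n0 (Nat.card k) r = 1 := by
  obtain ⟨i, hi, e⟩ := tch_tors D hr hV hN hσ ha hx h0 hD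
  obtain ⟨c, hc⟩ := dvd_n0 (q := Nat.card k) hi
  rw [hc, pow_mul, e, one_pow]

/-- Take a primitive `M`-th root of unity `ω` and `σ` from `exists_tch`; `tch_zsmul` -/
theorem exists_gen (hV : V.Over v) {M : ℕ} (hM : (M : kb) ≠ 0) : ∃ σ ∈ V.stab K, ∃ ω : kb,
    IsPrimitiveRoot ω M ∧ ∀ n : ℤ, V.tch kb σ (n / M) = ω ^ n := by
  have : NeZero (M : kb) := ⟨hM⟩
  have hM0 : M ≠ 0 := by rintro rfl; simp at hM
  obtain ⟨ω, hω⟩ := HasEnoughRootsOfUnity.exists_primitiveRoot kb M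
  obtain ⟨σ, hσ, e⟩ := hV.exists_tch hM hω.pow_eq_one
  refine ⟨σ, hσ, ω, hω, fun n => ?_⟩
  rw [div_eq_mul_one_div, hV.hasRes.tch_zsmul (all_ord hV) hσ, e]

end K

end Pool.Agent.Lib.MP_6adaea_nt.T
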