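import Pool.Agent.Lib.MP_6adaea_nt.T.Frob
import Pool.Agent.Lib.MP_6adaea_nt.T.LemE

/-!
Eigenvalues of inertia on the torsion points of prime level.
-/

set_option linter.unusedSectionVars false

namespace Pool.Agent.Lib.MP_6adaea_nt.T
open Matrix Polynomial G U Module

variable {k kb K Ω : Type} [Field k] [Finite k] [Field kb] [Field K] [Field Ω] [Algebra k kb]
  [Algebra k K] [Algebra k Ω] [Algebra kb K] [Algebra kb Ω] [Algebra K Ω]
  [IsScalarTower k kb K] [IsScalarTower k kb Ω] [IsScalarTower k K Ω] [IsScalarTower kb K Ω]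
  [IsAlgClosed kb] [Algebra.IsAlgebraic k kb] [IsSepClosed Ω] [IsGalois K Ω] [IsFF kb K]
  {θ : K} {r : ℕ} {V : QVal Ω} {v : Place kb K} {γ : ℚ}

/-- the residue of `θ` -/
noncomputable abbrev rth (kb : Type) [Field kb] [Algebra kb Ω] (V : QVal Ω) (θ : K) : kb :=
  V.res kb (algebraMap K Ω θ)

theorem eig_res (hres : V.HasRes kb) {z : Ω} (hz : V.Ge z 0) (c : k[X]) :
    V.Gt (aeval z c - algebraMap kb Ω (aeval (V.res kb z) c)) 0 := by
  induction c using Polynomial.induction_on' with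
  | monomial i a =>
    rw [aeval_monomial, aeval_monomial, map_mul, ← IsScalarTower.algebraMap_apply, ← mul_sub,
      ← hres.res_pow hz]
    exact (QVal.Ge.of_le (ord_k V a).ge).mul_gt₀ (hres.gt_res (hz.pow₀ i))
  | add f g hf hg =>
    rw [map_add, map_add, map_add, add_sub_add_comm]
    exact hf.add hg

theorem eig_fin {P : k[X]} (hP : P ≠ 0) : Finite (AdjoinRoot P) :=
  have := (AdjoinRoot.powerBasis hP).finite
  Module.finite_of_finite k

theorem eig_mono (a b : kb) (s : Fin 2 →₀ ℕ) (c : k) :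
    MvPolynomial.aeval ![a, b] (MvPolynomial.monomial s c) = aeval a (C c * X ^ s 0) * b ^ s 1 := by
  rw [MvPolynomial.aeval_monomial, Finsupp.prod_fintype _ _ fun _ => pow_zero _, Fin.prod_univ_two]
  simp [mul_assoc]

/-- a left eigenvector gives a functional on the coordinates -/
theorem eig_fun {P : k[X]} {B : Matrix (Fin r) (Fin r) k[X]} {ζ ε : kb} (hζ : aeval ζ P = 0)
    (hε : (B.map (aeval ζ)).charpoly.IsRoot ε) : ∃ l : (Fin r → AdjoinRoot P) →+ kb,
      (∀ c u, l (AdjoinRoot.mk P c • u) = aeval ζ c * l u) ∧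
      (∀ u, l (B.map (AdjoinRoot.mk P) *ᵥ u) = ε * l u) ∧ ∃ u, l u ≠ 0 := by
  rw [IsRoot, Matrix.eval_charpoly] at hε
  obtain ⟨w, hw, e⟩ := Matrix.exists_vecMul_eq_zero_iff.2 hε
  let ι : AdjoinRoot P →+* kb := AdjoinRoot.lift (algebraMap k kb) ζ hζ
  have hι : ∀ c, ι (AdjoinRoot.mk P c) = aeval ζ c := fun c => AdjoinRoot.lift_mk _ c
  have e1 : w ᵥ* B.map (aeval ζ) = ε • w := by
    rw [vecMul_sub, sub_eq_zero] at e
    rw [← e]
    ext i
    simp [vecMul_diagonal, mul_comm]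
  refine ⟨{ toFun := fun u => w ⬝ᵥ (ι ∘ u)
            map_zero' := by simp [dotProduct]
            map_add' := fun a b => by simp [dotProduct, mul_add, Finset.sum_add_distrib] },
    fun c u => ?_, fun u => ?_, ?_⟩
  · simp [dotProduct, hι, Finset.mul_sum, mul_left_comm]
  · have h1 : ι ∘ (B.map (AdjoinRoot.mk P) *ᵥ u) = B.map (aeval ζ) *ᵥ (ι ∘ u) := by
      ext i
      simp [mulVec, dotProduct, hι]
    show w ⬝ᵥ (ι ∘ _) = ε * w ⬝ᵥ (ι ∘ u)
    rw [h1, dotProduct_mulVec, e1, smul_dotProduct, smul_eq_mul]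
  · obtain ⟨i, hi⟩ := Function.ne_iff.1 hw
    refine ⟨Pi.single i 1, ?_⟩
    show w ⬝ᵥ (ι ∘ Pi.single i 1) ≠ 0
    have h1 : ι ∘ (Pi.single i 1 : Fin r → AdjoinRoot P) = Pi.single i 1 := by
      ext j
      by_cases h : j = i <;> simp [h]
    rw [h1, dotProduct_single, mul_one]
    exact hi

theorem eig_surj {P : k[X]} (hP : Irreducible P) {B : Matrix (Fin r) (Fin r) k[X]} {ζ : kb}
    (hζ : aeval ζ P = 0) (h : ¬(B.map (aeval ζ)).charpoly.IsRoot 1) :
    Function.Surjective (1 - B.map (AdjoinRoot.mk P)).mulVec := by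
  have := Fact.mk hP
  rw [mulVec_surjective_iff_isUnit, isUnit_iff_isUnit_det, isUnit_iff_ne_zero]
  intro h1
  have h2 : 1 - B.map (AdjoinRoot.mk P) = (AdjoinRoot.mk P).mapMatrix (1 - B) := by
    rw [map_sub, map_one, RingHom.mapMatrix_apply]
  rw [h2, ← RingHom.map_det, AdjoinRoot.mk_eq_zero] at h1
  obtain ⟨c, hc⟩ := h1
  have h3 : 1 - B.map (aeval ζ) = (aeval ζ : k[X] →ₐ[k] kb).mapMatrix (1 - B) := by
    rw [map_sub, map_one, AlgHom.mapMatrix_apply]
  apply h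
  rw [IsRoot, Matrix.eval_charpoly, map_one, h3, ← AlgHom.map_det, hc, map_mul, hζ, zero_mul]

/-- first order action on the formal group: `Nm.lin`, `gt_tch`, `tch_pow`, and
`aeval θ c ≡ aeval (rth kb V θ) c` -/
theorem lin_aut (D : DM k Ω θ r) (hV : V.Over v) (hN : NmD D V γ) {σ : Ω ≃ₐ[K] Ω}
    (hσ : σ ∈ V.stab K) {x : Ω} (hD : DpD V θ γ x) (c : k[X]) (i : ℕ) :
    V.Gt (aeval D.φ c ((σ ^ i) x) -
      algebraMap kb Ω (aeval (rth kb V θ) c * V.tch kb σ (V.ord x) ^ i) * x) (V.ord x) := by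
  have hres : V.HasRes kb := hV.hasRes
  by_cases h0 : x = 0
  · simp [h0]
  have hs : σ ^ i ∈ V.stab K := pow_mem hσ i
  have hy : V.Ge ((σ ^ i) x) (V.ord x) := (QVal.ge_stab hs).2 (V.ge_ord x)
  have h1 := hN.lin D.dr hD.1 (hD.2.lt h0) hy c
  have h2 := hres.gt_tch hs x
  rw [hres.tch_pow hσ] at h2
  have h3 := (ge_aeval (k := k) hD.1 c).mul_gt₀ h2
  have h4 := (eig_res hres hD.1 c).mul_ge
    ((hres.ge_const (V.tch kb σ (V.ord x) ^ i)).mul₀ (V.ge_ord x))
  rw [zero_add] at h4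
  have h5 := (h1.add h3).add h4
  rw [map_mul]
  convert h5 using 1
  ring

theorem act_pow {φ : Ω →ₗ[k] Ω} {a : k[X]} {E : Coord φ a (Fin r)} {σ : Ω ≃ₐ[K] Ω}
    {B : Matrix (Fin r) (Fin r) k[X]} (hB : Act E σ B) (i : ℕ) : Act E (σ ^ i : Ω ≃ₐ[K] Ω) (B ^ i) := by
  induction i with
  | zero => intro u; simp
  | succ i ih =>
    intro u
    rw [pow_succ, AlgEquiv.mul_apply, hB u, ih, mulVec_mulVec, pow_succ, Matrix.map_mul]

/-- Take a left eigenvector `w ≠ 0`, `w ᵥ* B(ζ) = ε • w` (`Matrix.exists_vecMul_eq_zero_iff`,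
`eval_charpoly`), let `ι = AdjoinRoot.lift` at `ζ`, `l u = ∑ i, w i * ι (u i)`. Among the finitely
many `u` with `l u ≠ 0` take one with `ord (E.e u)` maximal, `x = E.e u`; then `l u' = 0` whenever
`V.Gt (E.e u') (ord x)`. If `t ^ n = 1` apply this to `σ ^ n x - x`. On the formal group apply it
to `∑ φ_(c i) (σ ^ i x)` for a polynomial `f = ∑ c i (T) * Y ^ i` that vanishes at
`(rth, t)` (`lin_aut`; linearity in `f : MvPolynomial (Fin 2) k`), and use `exists_frob`. -/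
theorem eig_core (D : DM k Ω θ r) (hV : V.Over v) (hN : NmD D V γ) {σ : Ω ≃ₐ[K] Ω}
    (hσ : σ ∈ V.stab K) {P : k[X]} (hP : P ≠ 0) (E : Coord D.φ P (Fin r))
    {B : Matrix (Fin r) (Fin r) k[X]} (hB : Act E σ B) {ζ ε : kb} (hζ : aeval ζ P = 0)
    (hε : (B.map (aeval ζ)).charpoly.IsRoot ε) : ∃ x ∈ tors D.φ P, x ≠ 0 ∧
      (∀ n : ℕ, V.tch kb σ (V.ord x) ^ n = 1 → ε ^ n = 1) ∧
      (DpD V θ γ x → ∃ b : ℕ, ζ = rth kb V θ ^ Nat.card k ^ b ∧
        ε = V.tch kb σ (V.ord x) ^ Nat.card k ^ b) := by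
  have hres : V.HasRes kb := hV.hasRes
  obtain ⟨l, l1, l2, u₀, l3⟩ := eig_fun hζ hε
  have := eig_fin hP
  obtain ⟨u, hu, hmax⟩ := Set.exists_max_image {u | l u ≠ 0} (fun u => V.ord (E.e u))
    (Set.toFinite _) ⟨u₀, l3⟩
  have hne : ∀ u', l u' ≠ 0 → E.e u' ≠ 0 := fun u' h1 h2 =>
    h1 (by rw [E.inj (h2.trans (map_zero E.e).symm), map_zero])
  have key : ∀ u', V.Gt (E.e u') (V.ord (E.e u)) → l u' = 0 := fun u' h1 => by
    by_contra h2
    exact absurd (h1.lt (hne u' h2)) (not_lt.2 (hmax u' h2))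
  have lp : ∀ i : ℕ, l ((B ^ i).map (AdjoinRoot.mk P) *ᵥ u) = ε ^ i * l u := by
    intro i
    induction i with
    | zero => simp
    | succ i ih => rw [pow_succ', Matrix.map_mul, ← mulVec_mulVec, l2, ih, pow_succ', mul_assoc]
  refine ⟨E.e u, (E.range _).2 ⟨u, rfl⟩, hne u hu, fun n hn => ?_, fun hD => ?_⟩
  · have h1 := hres.gt_tch (pow_mem hσ n) (E.e u)
    rw [hres.tch_pow hσ, hn, map_one, one_mul, act_pow hB n u, ← map_sub] at h1
    have h2 := key _ h1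
    rw [map_sub, lp, sub_eq_zero] at h2
    exact mul_right_cancel₀ hu (h2.trans (one_mul _).symm)
  · have h1 : ∀ f : MvPolynomial (Fin 2) k, ∃ u', V.Gt (E.e u' - algebraMap kb Ω
        (MvPolynomial.aeval ![rth kb V θ, V.tch kb σ (V.ord (E.e u))] f) * E.e u) (V.ord (E.e u)) ∧
        l u' = MvPolynomial.aeval ![ζ, ε] f * l u := by
      intro f
      induction f using MvPolynomial.induction_on' with
      | monomial s a =>
        refine ⟨AdjoinRoot.mk P (C a * X ^ s 0) • (B ^ s 1).map (AdjoinRoot.mk P) *ᵥ u, ?_, ?_⟩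
        · rw [E.smul, ← act_pow hB, eig_mono]
          exact lin_aut D hV hN hσ hD _ _
        · rw [l1, lp, eig_mono, mul_assoc]
      | add f g hf hg =>
        obtain ⟨a, a1, a2⟩ := hf
        obtain ⟨b, b1, b2⟩ := hg
        refine ⟨a + b, ?_, by rw [map_add, map_add, a2, b2, add_mul]⟩
        rw [map_add, map_add, map_add, add_mul, add_sub_add_comm]
        exact a1.add b1
    obtain ⟨b, hb⟩ := exists_frob (k := k) ![rth kb V θ, V.tch kb σ (V.ord (E.e u))] ![ζ, ε]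
      fun f hf => by
        obtain ⟨u', a1, a2⟩ := h1 f
        rw [hf, map_zero, zero_mul, sub_zero] at a1
        rw [key u' a1] at a2
        exact (mul_eq_zero.1 a2.symm).resolve_right hu
    exact ⟨b, hb 0, hb 1⟩

/-- Cayley-Hamilton for `B` over `k[X]` gives `∑ i, φ_(χ.coeff i) (σ ^ i x) = 0`; `lin_aut` -/
theorem eig_conv (D : DM k Ω θ r) (hV : V.Over v) (hN : NmD D V γ) {σ : Ω ≃ₐ[K] Ω}
    (hσ : σ ∈ V.stab K) {P : k[X]} (E : Coord D.φ P (Fin r))
    {B : Matrix (Fin r) (Fin r) k[X]} (hB : Act E σ B) {x : Ω} (hx : x ∈ tors D.φ P) (h0 : x ≠ 0)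
    (hD : DpD V θ γ x) :
    (B.map (aeval (rth kb V θ))).charpoly.IsRoot (V.tch kb σ (V.ord x)) := by
  have hres : V.HasRes kb := hV.hasRes
  obtain ⟨u, rfl⟩ := (E.range _).1 hx
  have h1 : ∀ χ : Polynomial k[X], V.Gt (E.e ((aeval B χ).map (AdjoinRoot.mk P) *ᵥ u) -
      algebraMap kb Ω ((χ.map (aeval (rth kb V θ) : k[X] →ₐ[k] kb).toRingHom).eval
        (V.tch kb σ (V.ord (E.e u)))) * E.e u) (V.ord (E.e u)) := by
    intro χ
    induction χ using Polynomial.induction_on' with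
    | monomial i c =>
      have h2 : (aeval B (monomial i c)).map (AdjoinRoot.mk P) =
          AdjoinRoot.mk P c • (B ^ i).map (AdjoinRoot.mk P) := by
        rw [aeval_monomial, ← Algebra.smul_def]
        ext a b
        simp
      rw [h2, smul_mulVec, E.smul, ← act_pow hB, Polynomial.map_monomial, eval_monomial]
      exact lin_aut D hV hN hσ hD _ _
    | add f g hf hg =>
      rw [map_add, Matrix.map_add _ (map_add _), add_mulVec, map_add, Polynomial.map_add, eval_add,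
        map_add, add_mul, add_sub_add_comm]
      exact hf.add hg
  have h2 := h1 B.charpoly
  rw [Matrix.aeval_self_charpoly, Matrix.map_zero _ (map_zero _), zero_mulVec, map_zero, zero_sub,
    ← Matrix.charpoly_map] at h2
  have h3 := h2.neg
  rw [neg_neg, QVal.gt_mul_iff h0, sub_self] at h3
  exact hV.const_eq_zero h3

/-- Otherwise `det (1 - B)` is a unit modulo `P`, so `y ↦ y - σ y` maps the torsion onto itself.
Take `x` of minimal order outside the formal group and write `x = y - σ y`. -/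
theorem eig_one (D : DM k Ω θ r) (hV : V.Over v) {σ : Ω ≃ₐ[K] Ω} (hσ : σ ∈ V.stab K) {P : k[X]}
    (hP : Irreducible P) (E : Coord D.φ P (Fin r)) {B : Matrix (Fin r) (Fin r) k[X]}
    (hB : Act E σ B) {ζ : kb} (hζ : aeval ζ P = 0)
    (h1 : ∀ y ∈ tors D.φ P, y ≠ 0 → ¬DpD V θ γ y → V.tch kb σ (V.ord y) = 1)
    (h2 : ∃ x ∈ tors D.φ P, x ≠ 0 ∧ ¬DpD V θ γ x) : (B.map (aeval ζ)).charpoly.IsRoot 1 := by
  have hres : V.HasRes kb := hV.hasRes
  by_contra hc
  have := eig_fin hP.ne_zero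
  have hfin : {x | x ∈ tors D.φ P ∧ x ≠ 0 ∧ ¬DpD V θ γ x}.Finite :=
    (Set.finite_range E.e).subset fun x hx => (E.range x).1 hx.1
  obtain ⟨x, ⟨x1, x2, x3⟩, hmin⟩ := Set.exists_min_image _ V.ord hfin h2
  obtain ⟨u, rfl⟩ := (E.range _).1 x1
  obtain ⟨u', rfl⟩ := eig_surj hP hζ hc u
  rw [sub_mulVec, one_mulVec, map_sub, ← hB u'] at x2 x3 hmin
  have y1 : E.e u' ∈ tors D.φ P := (E.range _).2 ⟨u', rfl⟩
  have y2 : E.e u' ≠ 0 := fun h => x2 (by rw [h, map_zero, sub_zero])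
  by_cases y3 : DpD V θ γ (E.e u')
  · exact x3 ⟨y3.1, y3.2.sub ((QVal.gt_stab hσ).2 y3.2)⟩
  · have h3 := (hres.gt_tch hσ (E.e u')).neg
    rw [h1 _ y1 y2 y3, map_one, one_mul, neg_sub] at h3
    exact absurd (h3.lt x2) (not_lt.2 (hmin _ ⟨y1, y2, y3⟩))

end Pool.Agent.Lib.MP_6adaea_nt.T
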