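import Pool.Agent.Lib.MP_6adaea_nt.T.Poly
import Pool.Agent.Lib.MP_6adaea_nt.Key

/-!
Rational torsion of large prime level bounds the height.
-/

set_option linter.unusedSectionVars false

namespace Pool.Agent.Lib.MP_6adaea_nt.T
open Matrix Polynomial G U Module

variable {k N : Type} [Field k] [Finite k] [Field N] [Algebra k N]

/-- the cyclic module generated by a point -/
noncomputable def line (φ : N →ₗ[k] N) (y : N) : Submodule k N :=
  LinearMap.range ((LinearMap.applyₗ y).comp (aeval φ : k[X] →ₐ[k] Module.End k N).toLinearMap)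

theorem mem_line {φ : N →ₗ[k] N} {y x : N} : x ∈ line φ y ↔ ∃ c : k[X], aeval φ c y = x := Iff.rfl

theorem exH_stab {φ : N →ₗ[k] N} {U : Submodule k N} (hU : ∀ x ∈ U, φ x ∈ U) (c : k[X]) {x : N}
    (hx : x ∈ U) : aeval φ c x ∈ U := by
  rw [aeval_eq_sum_range, LinearMap.sum_apply]
  exact U.sum_mem fun i _ => U.smul_mem _ (Module.End.pow_apply_mem_of_forall_mem i hU x hx)

theorem exH_gen {φ : N →ₗ[k] N} {P : k[X]} (hP : Irreducible P) {y : N} (hy : y ∈ tors φ P)
    {c : k[X]} (hc : ¬P ∣ c) : ∃ b : k[X], aeval φ b (aeval φ c y) = y := by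
  obtain ⟨a, b, e⟩ := hP.coprime_iff_not_dvd.2 hc
  refine ⟨b, ?_⟩
  have h := congrArg (fun z : k[X] => aeval φ z y) e
  simpa only [map_add, map_mul, map_one, LinearMap.add_apply, Module.End.mul_apply,
    mem_tors.mp hy, map_zero, zero_add, Module.End.one_apply] using h

theorem exH_var_nonneg (v : Place k N) (Y : Submodule k N) : 0 ≤ var v Y :=
  Finset.sum_nonneg fun _ _ => Finset.sum_nonneg fun _ _ => abs_nonneg _

theorem exH_var_flat {v : Place k N} {Y : Submodule k N} [FiniteDimensional k Y] (h : Flat v Y) :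
    var v Y = 0 := by
  classical
  refine Finset.sum_eq_zero fun y hy => Finset.sum_eq_zero fun y' hy' => ?_
  simp only [Finset.mem_erase, mem_els] at hy hy'
  rw [h y hy.2 y' hy'.2 hy.1 hy'.1, sub_self, abs_zero]

/-- the kernel of `c ↦ φ_c y` is the maximal ideal generated by `P` -/
theorem line_facts {φ : N →ₗ[k] N} {P : k[X]} (hP : Irreducible P) {y : N} (hy : y ∈ tors φ P)
    (h0 : y ≠ 0) : FiniteDimensional k (line φ y) ∧ finrank k (line φ y) = P.natDegree ∧
      y ∈ line φ y ∧ line φ y ≤ tors φ P ∧ (∀ x ∈ line φ y, φ x ∈ line φ y) ∧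
      ∀ U ≤ line φ y, (∀ x ∈ U, φ x ∈ U) → U ≤ ⊥ ∨ U = line φ y := by
  have hker : ∀ c : k[X], aeval φ c y = 0 ↔ P ∣ c := fun c => by
    constructor
    · intro h
      by_contra hc
      obtain ⟨b, e⟩ := exH_gen hP hy hc
      rw [h, map_zero] at e
      exact h0 e.symm
    · rintro ⟨a, rfl⟩
      rw [mul_comm, map_mul, Module.End.mul_apply, mem_tors.mp hy, map_zero]
  have hk : LinearMap.ker ((LinearMap.applyₗ y).comp
      (aeval φ : k[X] →ₐ[k] Module.End k N).toLinearMap) =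
      (Ideal.span {P} : Ideal k[X]).restrictScalars k := by
    ext c
    rw [Submodule.restrictScalars_mem, Ideal.mem_span_singleton]
    exact hker c
  have hrk : finrank k (line φ y) = P.natDegree := by
    rw [line, ← (LinearMap.quotKerEquivRange _).finrank_eq, hk,
      (Submodule.Quotient.restrictScalarsEquiv k _).finrank_eq]
    exact finrank_quotient_span_eq_natDegree
  have hy1 : y ∈ line φ y := ⟨1, by simp⟩
  refine ⟨Module.finite_of_finrank_pos (hrk ▸ hP.natDegree_pos), hrk, hy1, ?_, ?_, ?_⟩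
  · intro x hx
    obtain ⟨c, rfl⟩ := mem_line.1 hx
    exact aeval_mem_tors hy c
  · intro x hx
    obtain ⟨c, rfl⟩ := mem_line.1 hx
    exact mem_line.2 ⟨X * c, by rw [map_mul, aeval_X, Module.End.mul_apply]⟩
  · intro U hU hs
    refine or_iff_not_imp_left.2 fun h => le_antisymm hU fun z hz => ?_
    obtain ⟨x, hx, hx0⟩ := SetLike.not_le_iff_exists.1 h
    obtain ⟨c, rfl⟩ := mem_line.1 (hU hx)
    obtain ⟨b, e⟩ := exH_gen hP hy fun hc => hx0 ((hker c).2 hc)
    obtain ⟨c', rfl⟩ := mem_line.1 hz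
    exact exH_stab hs c' (e ▸ exH_stab hs b hx)

variable {kb : Type} [Field kb] [Algebra k kb] [Algebra kb N] [IsScalarTower k kb N]
  {θ : N} {r : ℕ} {g : ℕ → N} {φ : N →ₗ[k] N}

theorem exH_eval (hφ : IsDr θ r g φ) (x : N) : φ x = (drP k θ r g).eval x := by
  rw [drP_eval, hφ x]

theorem exH_pt (hφ : IsDr θ r g φ) {P : k[X]} (hP : Irreducible P) (hd : r < P.natDegree)
    (v : Place k N) {i : ℕ} (hi : i ∈ Finset.Icc 1 r) (hg : g i ≠ 0) {y : N} (h0 : y ≠ 0)
    (hy : aeval φ P y = 0) : -(2 * var v (line φ y) : ℚ) ≤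
      v.ord y + v.ord (g i) / ((Nat.card k : ℚ) ^ i - 1) := by
  classical
  obtain ⟨_, hrk, hy1, -, hst, -⟩ := line_facts hP (mem_tors.mpr hy) h0
  have hne : ((els (line φ y)).erase 0).Nonempty :=
    ⟨y, Finset.mem_erase.mpr ⟨h0, mem_els.mpr hy1⟩⟩
  obtain ⟨a, ha, hmax⟩ := Finset.exists_max_image _ v.ord hne
  obtain ⟨b, hb, hmin⟩ := Finset.exists_min_image _ v.ord hne
  simp only [Finset.mem_erase, mem_els] at ha hb hmax hmin
  have h1 := interp v (drP k θ r g) (by rw [← exH_eval hφ, map_zero]) (line φ y)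
    (by
      rw [card_els, hrk]
      exact (drP_natDegree θ r g).trans_lt (Nat.pow_lt_pow_right (two_le_card (K := k)) hd))
    1 (v.ord a) (v.ord b) (fun x hx hx0 => by simpa using hmax x ⟨hx0, hx⟩)
    (fun x hx hx0 => by
      rw [← exH_eval hφ] at hx0 ⊢
      simpa using hmin _ ⟨hx0, hst x hx⟩)
    (Nat.card k ^ i) (by rwa [drP_coeff θ r g hi])
  rw [drP_coeff θ r g hi] at h1
  have h2 := (le_abs_self _).trans (le_var v (line φ y) ha.2 hb.2 ha.1 hb.1)
  have h3 := hmin y ⟨h0, hy1⟩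
  have h4 := hmin a ha
  have hq : (1 : ℚ) ≤ (Nat.card k : ℚ) ^ i - 1 := by exact_mod_cast loca_pow_pos (K := k) hi
  have h1' : (v.ord b : ℚ) ≤ v.ord (g i) + (Nat.card k : ℚ) ^ i * v.ord a := by
    have : (v.ord b : ℚ) ≤ ((1 : ℕ) * v.ord (g i) + (Nat.card k ^ i : ℕ) * v.ord a : ℤ) := by
      exact_mod_cast h1
    simpa using this
  have h2' : (v.ord a : ℚ) - v.ord b ≤ var v (line φ y) := by exact_mod_cast h2
  have h3' : (v.ord b : ℚ) ≤ v.ord y := by exact_mod_cast h3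
  have h4' : (v.ord b : ℚ) ≤ v.ord a := by exact_mod_cast h4
  have h5 : v.ord b - 2 * (v.ord a : ℚ) ≤ v.ord (g i) / ((Nat.card k : ℚ) ^ i - 1) := by
    rw [le_div_iff₀ (by linarith)]
    nlinarith [mul_nonneg (sub_nonneg.2 h4') (sub_nonneg.2 hq)]
  linarith

open Classical in
/-- Let `γ` be the minimum of `ord (g i) / (q ^ i - 1)` (`exists_nm` for `w.toQ`), so
`lam = ord (g r) / (q ^ r - 1) - γ`. By `tors_prod`,
`(q ^ (r * d) - 1) * lam = ord (P θ) - ∑ y ∈ S, (ord y + γ)`. For `y ∈ S` let `s`, `t` be the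
largest and smallest order on the nonzero elements of the line; `s - t ≤ var` (`le_var`), and
`interp` (`N = 1`, `Φ = drP k θ r g`, `drP_coeff`) gives `t ≤ (q ^ i - 1) * γ + q ^ i * s` for the
index `i` of `Nm.eq`. Hence `ord y + γ ≥ t + γ ≥ - 2 * (s - t)`. -/
theorem lam_le (hφ : IsDr θ r g φ) (hr : 0 < r) (hg : g r ≠ 0) {P : k[X]} (hm : P.Monic)
    (hP : Irreducible P) (hd : r < P.natDegree) (hP0 : aeval θ P ≠ 0) (S : Finset N)
    (hS : ∀ y ∈ S, y ≠ 0 ∧ aeval φ P y = 0)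
    (hc : S.card + 1 = Nat.card k ^ (r * P.natDegree)) (w : Place kb N) :
    lam (Nat.card k) r g w ≤
      (max 0 (w.ord (aeval θ P)) + 2 * ∑ y ∈ S, var (w.restrict k) (line φ y) : ℤ) := by
  have hq := two_le_card (K := k)
  have hv : 0 ≤ ∑ y ∈ S, var (w.restrict k) (line φ y) :=
    Finset.sum_nonneg fun _ _ => exH_var_nonneg _ _
  have hR : (0 : ℚ) ≤
      (max 0 (w.ord (aeval θ P)) + 2 * ∑ y ∈ S, var (w.restrict k) (line φ y) : ℤ) := by
    exact_mod_cast add_nonneg (le_max_left _ _) (mul_nonneg zero_le_two hv)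
  rw [lam, Finset.fold_max_le]
  refine ⟨hR, fun i hi => ?_⟩
  split_ifs with hgi
  · exact hR
  obtain ⟨e, he1, he2⟩ := tors_prod hφ hr hg hm S hS hc
  have hS1 : 1 ≤ S.card := by
    have := Nat.one_lt_pow (n := r * P.natDegree) (a := Nat.card k)
      (Nat.mul_pos hr (by omega)).ne' hq
    omega
  have hqr : (1 : ℚ) ≤ (Nat.card k : ℚ) ^ r - 1 := by
    exact_mod_cast loca_pow_pos (K := k) (Finset.mem_Icc.mpr ⟨hr, le_rfl⟩)
  have h1 : (S.card : ℚ) = ((Nat.card k : ℚ) ^ r - 1) * e := by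
    have h2 : S.card = (Nat.card k ^ r - 1) * e := by omega
    rw [h2, Nat.cast_mul, Nat.cast_sub (Nat.one_le_pow _ _ (by omega)), Nat.cast_pow, Nat.cast_one]
  have h2 : (w.ord (aeval θ P) : ℚ) = e * w.ord (g r) + ∑ y ∈ S, (w.ord y : ℚ) := by
    rw [he2, w.ord_mul (pow_ne_zero _ hg)
      (Finset.prod_ne_zero_iff.mpr fun y hy => neg_ne_zero.mpr (hS y hy).1), w.ord_pow,
      w.ord_prod _ _ fun y hy => neg_ne_zero.mpr (hS y hy).1]
    simp
  have h3 := Finset.sum_le_sum fun y hy =>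
    exH_pt hφ hP hd (w.restrict k) hi hgi (hS y hy).1 (hS y hy).2
  simp only [Place.restrict_ord] at h3
  rw [Finset.sum_neg_distrib, ← Finset.mul_sum, Finset.sum_add_distrib, Finset.sum_const,
    nsmul_eq_mul] at h3
  have h4 : (S.card : ℚ) * (w.ord (g r) / ((Nat.card k : ℚ) ^ r - 1)) = e * w.ord (g r) := by
    have : (Nat.card k : ℚ) ^ r - 1 ≠ 0 := by linarith
    rw [h1]
    field_simp
  have h5 : (1 : ℚ) ≤ S.card := by exact_mod_cast hS1
  have h6 := le_max_right (0 : ℚ) (w.ord (aeval θ P))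
  push_cast at hR ⊢
  by_contra hc
  have h7 := mul_nonneg (sub_nonneg.2 h5) (hR.trans (not_le.1 hc).le)
  nlinarith [not_le.1 hc]

variable [IsAlgClosed kb] [IsFF kb N] {p : ℕ} [Fact p.Prime] [CharP kb p]

/-- Let `T` be the set of places where the line is not flat (`MSys.exists_nonflat` for
`F.toMSys k`); outside `T` the variation vanishes. `exists_not_pow` and `MSys.sum_var` bound the
sum over `T` by `q ^ (2 d) * (4 * p ^ m * (card T + kap))`. At most `β` places have `ord θ < 0` or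
`ord (P θ) > 0`; at the other places of `T` `local_var` (`U = ⊥`, `f = id`, `M = 8 * p ^ m`) gives
variation `≥ 8 * p ^ m * q ^ (2 d)`. So there are at most `β + kap` of them. -/
theorem line_var (F : FFD kb N p) (hφ : IsDr θ r g φ) (hr : 0 < r) (hg : g r ≠ 0) {m : ℕ}
    (hθ : ¬∃ z, θ = z ^ p ^ m) {P : k[X]} (hP : Irreducible P) (hd : 4 * r < P.natDegree)
    (hM : 32 * Nat.card k ^ (4 * r) * (8 * p ^ m) ≤ 2 ^ (P.natDegree / (2 * r)))
    (hP0 : aeval θ P ≠ 0) {β : ℕ}
    (hβ : ∀ T : Finset (Place kb N),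
      ∑ w ∈ T, (max 0 (-w.ord θ) + max 0 (w.ord (aeval θ P))) ≤ β)
    {y : N} (hy : y ∈ tors φ P) (h0 : y ≠ 0) (T : Finset (Place kb N)) :
    ∑ w ∈ T, var (w.restrict k) (line φ y) ≤
      Nat.card k ^ (2 * P.natDegree) * (8 * p ^ m) * (β + F.kap) := by
  classical
  have : CharP N p := charP_of_injective_algebraMap (algebraMap kb N).injective p
  obtain ⟨_, hrk, -, hle, hst, huni⟩ := line_facts hP hy h0
  have hY := exists_not_pow p m (drP k θ r g) (by rwa [drP_coeff_one]) (line φ y)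
    (fun x hx => exH_eval hφ x ▸ hst x hx) (by
      rw [card_els, hrk]
      exact (drP_natDegree θ r g).trans_lt
        (Nat.pow_lt_pow_right (two_le_card (K := k)) (by omega)))
  obtain ⟨T0, hT0⟩ : ∃ T0 : Finset (Place kb N), ∀ w, w ∈ T0 ↔ ¬Flat (w.restrict k) (line φ y) :=
    (F.toMSys k).exists_nonflat (line φ y)
  have e3 : ∑ w ∈ T0, ((1 : ℕ) : ℤ) * var (w.restrict k) (line φ y) ≤
      Nat.card k ^ (2 * finrank k (line φ y)) *
        (4 * p ^ m * (∑ _w ∈ T0, ((1 : ℕ) : ℤ) + (F.toMSys k).kap)) :=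
    (F.toMSys k).sum_var m (line φ y) hY T0 fun i hi => not_not.mp fun h => hi ((hT0 i).mpr h)
  rw [F.toMSys_kap, hrk] at e3
  simp only [Nat.cast_one, one_mul, Finset.sum_const, nsmul_eq_mul, mul_one] at e3
  have e0 : ∑ w ∈ T, var (w.restrict k) (line φ y) ≤ ∑ w ∈ T0, var (w.restrict k) (line φ y) :=
    (Finset.sum_le_sum_of_subset_of_nonneg Finset.subset_union_left
      fun _ _ _ => exH_var_nonneg _ _).trans (Finset.sum_subset Finset.subset_union_right
        fun w _ hw => exH_var_flat (not_not.mp fun h => hw ((hT0 w).mpr h))).ge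
  have e1 := Finset.card_filter_add_card_filter_not (s := T0)
    fun w => w.ord θ < 0 ∨ 0 < w.ord (aeval θ P)
  have e2 : ((T0.filter fun w => w.ord θ < 0 ∨ 0 < w.ord (aeval θ P)).card : ℤ) ≤ β := by
    refine le_trans ?_ (hβ (T0.filter fun w => w.ord θ < 0 ∨ 0 < w.ord (aeval θ P)))
    rw [Finset.card_eq_sum_ones, Nat.cast_sum]
    refine Finset.sum_le_sum fun w hw => ?_
    have := (Finset.mem_filter.mp hw).2
    omega
  have e4 : ((T0.filter fun w => ¬(w.ord θ < 0 ∨ 0 < w.ord (aeval θ P))).card : ℤ) *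
      (((8 * p ^ m : ℕ) : ℤ) * Nat.card k ^ (2 * P.natDegree)) ≤
      ∑ w ∈ T0, var (w.restrict k) (line φ y) := by
    rw [← nsmul_eq_mul]
    refine le_trans (Finset.card_nsmul_le_sum _ _ _ fun w hw => ?_)
      (Finset.sum_le_sum_of_subset_of_nonneg (Finset.filter_subset _ T0)
        fun w _ _ => exH_var_nonneg _ _)
    obtain ⟨b1, b2⟩ := Finset.mem_filter.mp hw
    push Not at b2
    have b3 := (key_ge_aeval (w.restrict k) θ P).le hP0
    rw [Place.restrict_ord, Place.restrict_ord, Int.toNat_eq_zero.mpr (neg_nonpos.mpr b2.1)] at b3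
    have hb : els (⊥ : Submodule k N) = {0} := by
      ext x
      simp
    have := local_var (w.restrict k) (exH_eval hφ) ⟨r, Finset.mem_Icc.mpr ⟨hr, le_rfl⟩, hg⟩
      (Place.Ge.of_le b2.1) hP0 (le_antisymm b2.2 (by simpa using b3)) (line φ y) ⊥ hst
      (fun x hx => by rw [(Submodule.mem_bot k).mp hx, map_zero]; exact Submodule.zero_mem _)
      bot_le hle LinearMap.id (fun x => by simp [hb]) P.natDegree
      (by rw [Submodule.map_id, hrk]) hd _ hM
      (fun U hU hs => (huni U hU hs).imp_right Or.inl)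
      (by rw [Submodule.map_id]; exact (hT0 w).mp b1)
    rwa [Submodule.map_id] at this
  have hp : 0 < p := (Fact.out : p.Prime).pos
  have hq : 0 < Nat.card k := Nat.card_pos
  have hA : (0 : ℤ) < Nat.card k ^ (2 * P.natDegree) * (4 * p ^ m) := by positivity
  rw [← e1] at e3
  push_cast at e3 e4
  generalize ((T0.filter fun w => ¬(w.ord θ < 0 ∨ 0 < w.ord (aeval θ P))).card : ℤ) = a at e3 e4
  generalize ((T0.filter fun w => w.ord θ < 0 ∨ 0 < w.ord (aeval θ P)).card : ℤ) = x at e2 e3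
  have e5 : 2 * a ≤ x + a + F.kap :=
    le_of_mul_le_mul_left (by linarith [e4.trans e3]) hA
  have e6 := mul_le_mul_of_nonneg_left
    (show x + a + F.kap ≤ 2 * (β + F.kap) by linarith) hA.le
  linarith

/-- `lam_le`, `line_var` -/
theorem ht_bound (F : FFD kb N p) (hφ : IsDr θ r g φ) (hr : 0 < r) (hg : g r ≠ 0) {m : ℕ}
    (hθ : ¬∃ z, θ = z ^ p ^ m) {P : k[X]} (hm : P.Monic) (hP : Irreducible P)
    (hd : 4 * r < P.natDegree)
    (hM : 32 * Nat.card k ^ (4 * r) * (8 * p ^ m) ≤ 2 ^ (P.natDegree / (2 * r)))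
    (hP0 : aeval θ P ≠ 0) (hc : Nat.card (tors φ P) = Nat.card k ^ (r * P.natDegree)) {β : ℕ}
    (hβ : ∀ T : Finset (Place kb N),
      ∑ w ∈ T, (max 0 (-w.ord θ) + max 0 (w.ord (aeval θ P))) ≤ β)
    (T : Finset (Place kb N)) : ∑ w ∈ T, lam (Nat.card k) r g w ≤
      (1 + 2 * Nat.card k ^ (r * P.natDegree) * (Nat.card k ^ (2 * P.natDegree) * (8 * p ^ m))) *
        (β + F.kap) := by
  classical
  have hq : 0 < Nat.card k := Nat.card_pos
  have hfin : (tors φ P : Set N).Finite :=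
    Set.finite_coe_iff.1 (Nat.finite_of_card_ne_zero (hc ▸ (pow_pos hq _).ne'))
  have hcard : (hfin.toFinset.erase 0).card + 1 = Nat.card k ^ (r * P.natDegree) := by
    rw [Finset.card_erase_add_one (hfin.mem_toFinset.mpr (Submodule.zero_mem _)), ← hc,
      ← Set.ncard_eq_toFinset_card _ hfin]
    rfl
  have hS : ∀ y ∈ hfin.toFinset.erase 0, y ≠ 0 ∧ aeval φ P y = 0 := fun y hy =>
    ⟨(Finset.mem_erase.mp hy).1, hfin.mem_toFinset.mp (Finset.mem_erase.mp hy).2⟩
  generalize hfin.toFinset.erase 0 = S at hcard hS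
  have h1 := Finset.sum_le_sum fun w (_ : w ∈ T) =>
    lam_le hφ hr hg hm hP (by omega) hP0 S hS hcard w
  have h2 : ∑ w ∈ T, max 0 (w.ord (aeval θ P)) ≤ β :=
    (Finset.sum_le_sum fun w _ => le_add_of_nonneg_left (le_max_left _ _)).trans (hβ T)
  have h3 := Finset.sum_le_card_nsmul S _ _ fun y hy =>
    line_var F hφ hr hg hθ hP hd hM hP0 hβ (hS y hy).2 (hS y hy).1 T
  have h4 : (S.card : ℤ) ≤ Nat.card k ^ (r * P.natDegree) := by
    exact_mod_cast (Nat.le_succ _).trans hcard.le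
  have h5 := mul_le_mul_of_nonneg_right h4 (show (0 : ℤ) ≤
    Nat.card k ^ (2 * P.natDegree) * (8 * p ^ m) * (β + F.kap) by positivity)
  rw [nsmul_eq_mul, Finset.sum_comm] at h3
  rw [← Int.cast_sum, Finset.sum_add_distrib, ← Finset.mul_sum] at h1
  refine h1.trans ?_
  have h6 : ∑ w ∈ T, max 0 (w.ord (aeval θ P)) +
      2 * ∑ w ∈ T, ∑ y ∈ S, var (w.restrict k) (line φ y) ≤
      (1 + 2 * Nat.card k ^ (r * P.natDegree) * (Nat.card k ^ (2 * P.natDegree) * (8 * p ^ m))) *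
        (β + F.kap) := by
    have := Int.natCast_nonneg F.kap
    linarith
  exact_mod_cast h6

end Pool.Agent.Lib.MP_6adaea_nt.T
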