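import Pool.Agent.Lib.MP_6adaea_nt.T.Eig

/-!
The field over which the twisted module has rational torsion.
-/

set_option linter.unusedSectionVars false

namespace Pool.Agent.Lib.MP_6adaea_nt.T
open Matrix Polynomial G U Module

variable {k kb K Ω : Type} [Field k] [Finite k] [Field kb] [Field K] [Field Ω] [Algebra k kb]
  [Algebra k K] [Algebra k Ω] [Algebra kb K] [Algebra kb Ω] [Algebra K Ω]
  [IsScalarTower k kb K] [IsScalarTower k kb Ω] [IsScalarTower k K Ω] [IsScalarTower kb K Ω]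
  [IsAlgClosed kb] [Algebra.IsAlgebraic k kb] [IsSepClosed Ω] [IsGalois K Ω] [IsFF kb K]
  {θ : K} {r : ℕ} {V : QVal Ω} {v : Place kb K}

/-- The fixed field `N` of a normal subgroup `G` that contains the pointwise stabiliser of a finite
stable set `W`. It lies in `adjoin K W` (`InfiniteGalois.fixedField_fixingSubgroup`), it is stable
under all automorphisms (`IntermediateField.normal_iff_forall_map_le'`), and its Galois group is a
quotient (`AlgEquiv.restrictNormalHom_surjective`) of the image of the Galois group in the maps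
`W → W`. -/
theorem fixed_facts (G : Subgroup (Ω ≃ₐ[K] Ω)) (hG : G.Normal) (W : Finset Ω)
    (hW : ∀ (σ : Ω ≃ₐ[K] Ω), ∀ y ∈ W, σ y ∈ W)
    (h : ∀ σ : Ω ≃ₐ[K] Ω, (∀ y ∈ W, σ y = y) → σ ∈ G) :
    FiniteDimensional K (IntermediateField.fixedField G) ∧
      IsGalois K (IntermediateField.fixedField G) ∧
      finrank K (IntermediateField.fixedField G) ≤ W.card ^ W.card := by
  classical
  have h1 : IntermediateField.fixedField G ≤ IntermediateField.adjoin K (W : Set Ω) := by
    rw [← InfiniteGalois.fixedField_fixingSubgroup (IntermediateField.adjoin K (W : Set Ω))]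
    intro x hx
    rw [IntermediateField.mem_fixedField_iff] at hx ⊢
    intro σ hσ
    rw [IntermediateField.mem_fixingSubgroup_iff] at hσ
    exact hx σ (h σ fun y hy => hσ y (IntermediateField.subset_adjoin K _ hy))
  have h2 : FiniteDimensional K (IntermediateField.adjoin K (W : Set Ω)) :=
    IntermediateField.finiteDimensional_adjoin fun x _ => Algebra.IsIntegral.isIntegral x
  have h3 : FiniteDimensional K (IntermediateField.fixedField G) :=
    Module.Finite.of_injective (IntermediateField.inclusion h1).toLinearMap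
      (IntermediateField.inclusion_injective h1)
  have h4 : Normal K (IntermediateField.fixedField G) := by
    rw [IntermediateField.normal_iff_forall_map_le']
    rintro τ _ ⟨x, hx, rfl⟩
    have hx' := (IntermediateField.mem_fixedField_iff G x).1 hx
    refine (IntermediateField.mem_fixedField_iff G _).2 fun σ hσ => ?_
    have h5 := hx' _ (hG.conj_mem' σ hσ τ)
    have h6 := congrArg τ h5
    rw [← AlgEquiv.mul_apply, ← mul_assoc, ← mul_assoc, mul_inv_cancel, one_mul] at h6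
    exact h6
  have h5 : IsGalois K (IntermediateField.fixedField G) := {}
  refine ⟨h3, h5, ?_⟩
  rw [← IsGalois.card_aut_eq_finrank]
  choose s hs using AlgEquiv.restrictNormalHom_surjective (F := K)
    (K₁ := IntermediateField.fixedField G) Ω
  have h6 : Function.Injective fun τ => fun y : W => (⟨s τ y, hW _ _ y.2⟩ : W) := by
    intro a b e
    have h7 : (s b)⁻¹ * s a ∈ G := h _ fun y hy => by
      have h8 : s a y = s b y := congrArg Subtype.val (congrFun e ⟨y, hy⟩)
      rw [AlgEquiv.mul_apply, h8, ← AlgEquiv.mul_apply, inv_mul_cancel, AlgEquiv.one_apply]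
    rw [← hs a, ← hs b]
    ext x
    rw [AlgEquiv.restrictNormalHom_apply, AlgEquiv.restrictNormalHom_apply]
    have h9 := congrArg (s b) ((IntermediateField.mem_fixedField_iff G x).1 x.2 _ h7)
    rwa [← AlgEquiv.mul_apply, mul_inv_cancel_left] at h9
  have h7 := Nat.card_le_card_of_injective _ h6
  rwa [Nat.card_fun, Nat.card_eq_finsetCard] at h7

theorem exn_smul (σ : Ω ≃ₐ[K] Ω) (t : k) (x : Ω) : σ (t • x) = t • σ x := by
  rw [Algebra.smul_def, Algebra.smul_def, map_mul, IsScalarTower.algebraMap_apply k K Ω,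
    AlgEquiv.commutes]

/-- the automorphisms that act on the torsion by a constant -/
def scalG (D : DM k Ω θ r) (P : k[X]) : Subgroup (Ω ≃ₐ[K] Ω) where
  carrier := {σ | ∃ c : kˣ, ∀ y ∈ tors D.φ P, σ y = (c : k) • y}
  one_mem' := ⟨1, by simp⟩
  mul_mem' := by
    rintro σ τ ⟨c, hc⟩ ⟨d, hd⟩
    refine ⟨d * c, fun y hy => ?_⟩
    rw [AlgEquiv.mul_apply, hd y hy, exn_smul, hc y hy, Units.val_mul, mul_smul]
  inv_mem' := by
    rintro σ ⟨c, hc⟩
    refine ⟨c⁻¹, fun y hy => σ.injective ?_⟩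
    rw [← AlgEquiv.mul_apply, mul_inv_cancel, AlgEquiv.one_apply, exn_smul, hc y hy, smul_smul,
      Units.inv_mul, one_smul]

theorem scalG_normal (D : DM k Ω θ r) (P : k[X]) : (scalG D P).Normal := by
  refine ⟨fun σ ⟨c, hc⟩ τ => ⟨c, fun y hy => ?_⟩⟩
  rw [AlgEquiv.mul_apply, AlgEquiv.mul_apply, hc _ (aut_tors D τ⁻¹ hy), exn_smul,
    ← AlgEquiv.mul_apply, mul_inv_cancel, AlgEquiv.one_apply]

theorem exn_pow (D : DM k Ω θ r) {P : k[X]} {σ : Ω ≃ₐ[K] Ω} {c : k[X]}
    (hc : ∀ y, aeval D.φ P y = 0 → σ y = aeval D.φ c y) {y : Ω} (hy : y ∈ tors D.φ P) (n : ℕ) :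
    (σ ^ n) y = aeval D.φ (c ^ n) y := by
  induction n with
  | zero => simp
  | succ n ih =>
    rw [pow_succ', AlgEquiv.mul_apply, ih, hc _ (aeval_mem_tors hy _), pow_succ', map_mul,
      Module.End.mul_apply]

theorem exn_congr {φ : Ω →ₗ[k] Ω} {P a b : k[X]} (h : AdjoinRoot.mk P a = AdjoinRoot.mk P b)
    {y : Ω} (hy : y ∈ tors φ P) : aeval φ a y = aeval φ b y := by
  obtain ⟨d, hd⟩ := AdjoinRoot.mk_eq_mk.1 h
  rw [← sub_eq_zero, ← LinearMap.sub_apply, ← map_sub, hd, mul_comm, map_mul,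
    Module.End.mul_apply, mem_tors.1 hy, map_zero]

theorem exn_dvd {φ : Ω →ₗ[k] Ω} {P a : k[X]} (hP : Irreducible P) {y : Ω} (hy : y ∈ tors φ P)
    (h0 : y ≠ 0) (ha : aeval φ a y = 0) : P ∣ a := by
  by_contra hd
  obtain ⟨u, w, e⟩ := hP.coprime_iff_not_dvd.2 hd
  have h1 := congrArg (fun b => aeval φ b y) e
  simp only [map_add, map_mul, LinearMap.add_apply, Module.End.mul_apply, mem_tors.1 hy, ha,
    map_zero, add_zero, map_one, Module.End.one_apply] at h1
  exact h0 h1.symm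

theorem exn_const {F : Type} [Field F] [Algebra k F] {x : F} (h : x ^ Nat.card k = x) :
    ∃ a : k, algebraMap k F a = x := by
  classical
  let _ := Fintype.ofFinite k
  have hq : 1 < Fintype.card k := Fintype.one_lt_card
  have hm : (X ^ Fintype.card k - X : k[X]).Monic :=
    monic_X_pow_sub (by rw [degree_X]; exact_mod_cast hq)
  have h1 := prod_multiset_X_sub_C_of_monic_of_roots_card_eq hm (by
    rw [FiniteField.roots_X_pow_card_sub_X, FiniteField.X_pow_card_sub_X_natDegree_eq k hq]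
    rfl)
  rw [FiniteField.roots_X_pow_card_sub_X] at h1
  have h2 := congrArg (aeval x) h1
  rw [map_sub, map_pow, aeval_X, ← Nat.card_eq_fintype_card, h, sub_self] at h2
  have h3 : aeval x (∏ a : k, (X - C a)) = 0 := h2
  rw [map_prod, Finset.prod_eq_zero_iff] at h3
  obtain ⟨a, -, ha⟩ := h3
  rw [map_sub, aeval_X, aeval_C, sub_eq_zero] at ha
  exact ⟨a, ha.symm⟩

theorem exn_nz (hB : Base kb θ) (hr : 0 < r) (D : DM k Ω θ r) {P : k[X]}
    (hP : 0 < P.natDegree) : ∃ x ∈ tors D.φ P, x ≠ 0 := by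
  have h1 := card_tors D.dr hr (dm_ne D) (tr_theta hB) (ne_zero_of_natDegree_gt hP)
  have h2 : 1 < Nat.card {y : Ω // aeval D.φ P y = 0} := by
    rw [h1]
    exact Nat.one_lt_pow (Nat.mul_pos hr hP).ne' Finite.one_lt_card
  by_contra h3
  push Not at h3
  have : Subsingleton {y : Ω // aeval D.φ P y = 0} :=
    ⟨fun a b => Subtype.ext ((h3 _ a.2).trans (h3 _ b.2).symm)⟩
  exact absurd h2 (not_lt.2 (Finite.card_le_one_iff_subsingleton.2 this))

/-- Take a nonzero torsion point `x` of maximal order (`card_tors`). It is not in the formal group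
(`Nm.eq_zero`), so by `tch_tors` and `gt_tch` `σ ^ (q ^ i - 1)` fixes `x`. Hence the class of `c`
in the field `AdjoinRoot P` satisfies `c ^ q ^ i = c` and `c ^ q ^ deg P = c`; as `i` and `deg P`
are coprime `c ^ q = c`, so it is a constant (count the roots of `X ^ q - X`). -/
theorem mem_scalG (hB : Base kb θ) (hr : 0 < r) (D : DM k Ω θ r) (hV : V.Over v) {P : k[X]}
    (hP : Irreducible P) (hco : P.natDegree.Coprime r.factorial)
    (hb : ¬V.Gt (aeval (algebraMap K Ω θ) P) 0) {σ : Ω ≃ₐ[K] Ω} (hσ : σ ∈ V.stab K) {c : k[X]}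
    (hc : ∀ y, aeval D.φ P y = 0 → σ y = aeval D.φ c y) : σ ∈ scalG D P := by
  obtain ⟨γ, hN⟩ := exists_nm k V (g := fun i => algebraMap K Ω (D.g i)) hr (dm_ne D)
  have hq : 1 < Nat.card k := Finite.one_lt_card
  have hf : (tors D.φ P \ {0} : Set Ω).Finite :=
    (tors_finite D.dr hr (dm_ne D) hP.ne_zero).1.sdiff
  obtain ⟨x, ⟨hx, h0⟩, hmax⟩ := Set.exists_max_image _ V.ord hf (by
    obtain ⟨x, hx, h0⟩ := exn_nz hB hr D hP.natDegree_pos
    exact ⟨x, hx, h0⟩)
  have h0 : x ≠ 0 := h0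
  obtain ⟨i, hi, e⟩ := tch_tors D hr hV hN hσ hP.ne_zero hx h0
    fun hD => h0 (hN.eq_zero D.dr hb hx hD)
  have hn : Nat.card k ^ i - 1 ≠ 0 := by
    have := Nat.one_lt_pow (by have := (Finset.mem_Icc.1 hi).1; omega : i ≠ 0) hq
    omega
  have h1 := hV.hasRes.gt_tch (pow_mem hσ (Nat.card k ^ i - 1)) x
  rw [hV.hasRes.tch_pow hσ, e, map_one, one_mul] at h1
  have h2 : (σ ^ (Nat.card k ^ i - 1)) x - x = 0 := by
    by_contra h3
    exact absurd (h1.lt h3) (not_lt.2 (hmax _ ⟨(tors D.φ P).sub_mem (aut_tors D _ hx) hx, h3⟩))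
  have h3 : P ∣ c ^ (Nat.card k ^ i - 1) - 1 := exn_dvd hP hx h0 (by
    rw [map_sub, LinearMap.sub_apply, ← exn_pow D hc hx, map_one, Module.End.one_apply, h2])
  have : Fact (Irreducible P) := ⟨hP⟩
  have := finite_adjoinRoot hP.ne_zero
  have h4 : AdjoinRoot.mk P c ^ (Nat.card k ^ i - 1) = 1 := by
    rw [← map_pow, ← map_one (AdjoinRoot.mk P), AdjoinRoot.mk_eq_mk]
    exact h3
  have h5 : Function.IsPeriodicPt (fun z : AdjoinRoot P => z ^ Nat.card k) i
      (AdjoinRoot.mk P c) := by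
    rw [Function.IsPeriodicPt, Function.IsFixedPt, pow_iterate]
    show AdjoinRoot.mk P c ^ Nat.card k ^ i = _
    rw [← Nat.sub_add_cancel (Nat.one_le_pow i _ (by omega) : 1 ≤ Nat.card k ^ i), pow_succ, h4,
      one_mul]
  have h6 : Function.IsPeriodicPt (fun z : AdjoinRoot P => z ^ Nat.card k) P.natDegree
      (AdjoinRoot.mk P c) := by
    rw [Function.IsPeriodicPt, Function.IsFixedPt, pow_iterate]
    show AdjoinRoot.mk P c ^ Nat.card k ^ P.natDegree = _
    let _ := Fintype.ofFinite (AdjoinRoot P)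
    rw [← card_adjoinRoot hP.ne_zero, Nat.card_eq_fintype_card, FiniteField.pow_card]
  have h7 := h6.gcd h5
  rw [Nat.Coprime.gcd_eq_one (hco.coprime_dvd_right
    (Nat.dvd_factorial (Finset.mem_Icc.1 hi).1 (Finset.mem_Icc.1 hi).2))] at h7
  obtain ⟨a, ha⟩ := exn_const (k := k) (x := AdjoinRoot.mk P c) h7
  have h8 : a ≠ 0 := by
    rintro rfl
    rw [← ha, map_zero, zero_pow hn] at h4
    exact zero_ne_one h4
  refine ⟨Units.mk0 a h8, fun y hy => ?_⟩
  rw [hc y hy, exn_congr (b := C a) (ha.symm.trans rfl) hy]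
  simp

/-- `σ ^ n y = φ_(c ^ n) y`, and `P ∣ c ^ (Q - 1) - 1` unless `P ∣ c`, in which case the torsion
is zero -/
theorem pow_fix (D : DM k Ω θ r) {P : k[X]} (hP : Irreducible P) {σ : Ω ≃ₐ[K] Ω} {c : k[X]}
    (hc : ∀ y, aeval D.φ P y = 0 → σ y = aeval D.φ c y) {y : Ω} (hy : y ∈ tors D.φ P) :
    (σ ^ (Nat.card k ^ P.natDegree - 1)) y = y := by
  have : Fact (Irreducible P) := ⟨hP⟩
  have := finite_adjoinRoot hP.ne_zero
  by_cases h0 : AdjoinRoot.mk P c = 0
  · have h1 : σ y = 0 := by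
      rw [hc y hy, exn_congr (b := 0) (by rw [h0, map_zero]) hy]
      simp
    rw [(map_eq_zero_iff σ σ.injective).1 h1, map_zero]
  · let _ := Fintype.ofFinite (AdjoinRoot P)
    have h1 := FiniteField.pow_card_sub_one_eq_one _ h0
    rw [← Nat.card_eq_fintype_card, card_adjoinRoot hP.ne_zero] at h1
    rw [exn_pow D hc hy, exn_congr (b := 1) (by rw [map_pow, h1, map_one]) hy]
    simp

/-- Suppose `V.Gt (σ z - z) (ord z)` for all `z ∈ N`. For `δ = σ x - x ≠ 0` one has
`0 = σ ^ n x - x = ∑ i < n, σ ^ i δ = n * δ + ∑ (σ ^ i δ - δ)`, impossible. So some `z` violates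
this; multiply it by a power of a uniformiser of `K`. -/
theorem tame_unit (hV : V.Over v) (N : IntermediateField K Ω) {σ : Ω ≃ₐ[K] Ω}
    (hσ : σ ∈ V.stab K) (hN : ∀ x ∈ N, σ x ∈ N) {n : ℕ} (hn : (n : kb) ≠ 0)
    (h1 : ∀ x ∈ N, (σ ^ n) x = x) (h2 : ∃ x ∈ N, σ x ≠ x) :
    ∃ u ∈ N, V.Ge u 0 ∧ ¬V.Gt (σ u - u) 1 := by
  have h3 : ∃ z ∈ N, ¬V.Gt (σ z - z) (V.ord z) := by
    by_contra h3
    push Not at h3
    obtain ⟨x, hx, hx'⟩ := h2
    have hδ : σ x - x ≠ 0 := sub_ne_zero.2 hx'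
    have h4 : ∀ i : ℕ, (σ ^ i) (σ x - x) ∈ N ∧
        V.Gt ((σ ^ i) (σ x - x) - (σ x - x)) (V.ord (σ x - x)) := fun i => by
      induction i with
      | zero => exact ⟨N.sub_mem (hN x hx) hx, by simp⟩
      | succ i ih =>
        rw [pow_succ', AlgEquiv.mul_apply]
        refine ⟨hN _ ih.1, ?_⟩
        have h5 := h3 _ ih.1
        rw [pow_mem hσ i] at h5
        simpa only [sub_add_sub_cancel] using h5.add ih.2
    have h5 : ∑ i ∈ Finset.range n, (σ ^ i) (σ x - x) = 0 := by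
      have h6 := Finset.sum_range_sub (fun i => (σ ^ i) x) n
      simp only [pow_zero, AlgEquiv.one_apply, h1 x hx, sub_self, pow_succ, AlgEquiv.mul_apply,
        ← map_sub] at h6
      exact h6
    have h6 := (QVal.Gt.sum (s := Finset.range n) fun i _ => (h4 i).2).neg
    rw [Finset.sum_sub_distrib, h5, zero_sub, neg_neg, Finset.sum_const, Finset.card_range,
      nsmul_eq_mul, ← map_natCast (algebraMap kb Ω)] at h6
    have h7 : algebraMap kb Ω n ≠ 0 := (_root_.map_ne_zero _).2 hn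
    have h8 := h6.lt (mul_ne_zero h7 hδ)
    rw [V.ord_mul h7 hδ, hV.ord_const, zero_add] at h8
    exact lt_irrefl _ h8
  obtain ⟨z, hz, h4⟩ := h3
  obtain ⟨h5, h6⟩ := QVal.not_gt_iff.1 h4
  have h7 : z ≠ 0 := fun e => h5 (by simp [e])
  obtain ⟨t, ht, e⟩ := v.exists_ord_eq (-⌊V.ord z⌋)
  have h8 : algebraMap K Ω t ≠ 0 := (_root_.map_ne_zero _).2 ht
  refine ⟨algebraMap K Ω t * z, N.mul_mem (N.algebraMap_mem t) hz, QVal.Ge.of_le ?_, ?_⟩
  · rw [V.ord_mul h8 h7, hV, e, Int.cast_neg]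
    linarith [Int.floor_le (V.ord z)]
  · rw [map_mul, σ.commutes, ← mul_sub, QVal.gt_iff (mul_ne_zero h8 h5), V.ord_mul h8 h5, hV, e,
      Int.cast_neg, not_lt]
    linarith [Int.lt_floor_add_one (V.ord z)]

theorem exn_geom {q : ℕ} (hq : 1 ≤ q) (i : ℕ) :
    (q - 1) * ∑ j ∈ Finset.range i, q ^ j + 1 = q ^ i := by
  obtain ⟨s, rfl⟩ := Nat.exists_eq_add_of_le' hq
  rw [Nat.add_sub_cancel, mul_comm]
  exact geom_sum_mul_add s i

/-- Take `x0 ≠ 0` in the torsion, `z = x0 ^ (q - 1)`, and define `φ'` by the formula of `IsDr`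
(`frob`). Then `x0 * φ' y = φ (x0 * y)`, the same for `aeval`, and `y ↦ x0 * y` is a bijection
between the torsion modules; `card_tors`. -/
theorem exists_twist (hB : Base kb θ) (hr : 0 < r) (D : DM k Ω θ r) {P : k[X]}
    (hP : 0 < P.natDegree) (N : IntermediateField K Ω)
    (hN : ∀ x : Ω, (∀ σ ∈ scalG D P, σ x = x) → x ∈ N) :
    ∃ (z : N) (φ : N →ₗ[k] N), z ≠ 0 ∧ IsDr (algebraMap K N θ) r
      (fun i => algebraMap K N (D.g i) * z ^ ∑ j ∈ Finset.range i, Nat.card k ^ j) φ ∧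
      Nat.card (tors φ P) = Nat.card k ^ (r * P.natDegree) := by
  obtain ⟨x, hx, h0⟩ := exn_nz hB hr D hP
  have hq : 1 < Nat.card k := Finite.one_lt_card
  have hz : x ^ (Nat.card k - 1) ∈ N := hN _ fun σ ⟨c, hc⟩ => by
    let _ := Fintype.ofFinite k
    rw [map_pow, hc x hx, _root_.smul_pow, Nat.card_eq_fintype_card,
      FiniteField.pow_card_sub_one_eq_one _ c.ne_zero, one_smul]
  let z : N := ⟨_, hz⟩
  let φ : N →ₗ[k] N := algebraMap K N θ • LinearMap.id + ∑ i ∈ Finset.Icc 1 r,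
    (algebraMap K N (D.g i) * z ^ ∑ j ∈ Finset.range i, Nat.card k ^ j) •
      (frob k N ^ i).toLinearMap
  have h1 : IsDr (algebraMap K N θ) r
      (fun i => algebraMap K N (D.g i) * z ^ ∑ j ∈ Finset.range i, Nat.card k ^ j) φ := fun y => by
    simp only [φ, LinearMap.add_apply, LinearMap.sum_apply, LinearMap.smul_apply, LinearMap.id_apply,
      AlgHom.toLinearMap_apply, frob_pow_apply, smul_eq_mul]
  have h2 : ∀ y : N, D.φ (x * algebraMap N Ω y) = x * algebraMap N Ω (φ y) := fun y => by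
    rw [h1 y, D.dr, map_add, map_mul, map_sum, mul_add, Finset.mul_sum,
      ← IsScalarTower.algebraMap_apply, mul_left_comm]
    congr 1
    refine Finset.sum_congr rfl fun i _ => ?_
    have h3 : algebraMap N Ω z = x ^ (Nat.card k - 1) := rfl
    rw [map_mul, map_mul, map_pow, map_pow, ← IsScalarTower.algebraMap_apply, h3, ← pow_mul,
      mul_pow, ← exn_geom hq.le i, pow_succ x]
    ring
  have h3 : ∀ (a : k[X]) (y : N),
      aeval D.φ a (x * algebraMap N Ω y) = x * algebraMap N Ω (aeval φ a y) := fun a => by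
    induction a using Polynomial.induction_on with
    | C t =>
      intro y
      have h3 : algebraMap N Ω (algebraMap k N t) = algebraMap k Ω t := rfl
      simp only [aeval_C, Module.algebraMap_end_apply, Algebra.smul_def, map_mul, h3]
      ring
    | add a b ha hb =>
      intro y
      simp only [map_add, LinearMap.add_apply, ha, hb, mul_add]
    | monomial m t ih =>
      intro y
      rw [pow_succ, ← mul_assoc, map_mul (aeval D.φ), map_mul (aeval φ), aeval_X, aeval_X,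
        Module.End.mul_apply, Module.End.mul_apply, h2, ih]
  refine ⟨z, φ, fun e => pow_ne_zero _ h0 (congrArg Subtype.val e), h1, ?_⟩
  rw [← card_tors D.dr hr (dm_ne D) (tr_theta hB) (ne_zero_of_natDegree_gt hP)]
  refine Nat.card_eq_of_bijective (fun y : tors φ P =>
    (⟨x * algebraMap N Ω y, by rw [h3, mem_tors.1 y.2, map_zero, mul_zero]⟩ :
      {y : Ω // aeval D.φ P y = 0})) ⟨fun a b e => ?_, fun w => ?_⟩
  · exact Subtype.ext ((algebraMap N Ω).injective (mul_left_cancel₀ h0 (congrArg Subtype.val e)))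
  · have h4 : w.1 / x ∈ N := hN _ fun σ ⟨c, hc⟩ => by
      rw [map_div₀, hc x hx, hc w.1 w.2, Algebra.smul_def, Algebra.smul_def,
        mul_div_mul_left _ _ ((_root_.map_ne_zero _).2 c.ne_zero)]
    have h5 : x * algebraMap N Ω ⟨_, h4⟩ = w.1 := mul_div_cancel₀ _ h0
    refine ⟨⟨⟨_, h4⟩, ?_⟩, Subtype.ext h5⟩
    have h6 := h3 P ⟨_, h4⟩
    rw [h5, w.2, eq_comm, mul_eq_zero, map_eq_zero] at h6
    exact h6.resolve_left h0

/-- the local height is multiplied by the ramification index;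
`(q - 1) * ∑ j < i, q ^ j = q ^ i - 1` -/
theorem lam_twist {N : Type} [Field N] [Algebra kb N] [Algebra K N] {w : Place kb N} {e q : ℕ}
    (h : w.Over v e) (hq : 1 < q) (g : ℕ → K) (hg : g r ≠ 0) {z : N} (hz : z ≠ 0) :
    lam q r g v ≤ lam q r (fun i => algebraMap K N (g i) * z ^ ∑ j ∈ Finset.range i, q ^ j) w := by
  have h1 : ∀ i, 1 ≤ i → g i ≠ 0 →
      (w.ord (algebraMap K N (g i) * z ^ ∑ j ∈ Finset.range i, q ^ j) : ℚ) / (q ^ i - 1) =
        e * ((v.ord (g i) : ℚ) / (q ^ i - 1)) + w.ord z / (q - 1) := fun i hi h0 => by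
    have h2 : (1 : ℚ) < q := by exact_mod_cast hq
    have h3 : (q : ℚ) - 1 ≠ 0 := by linarith
    have h4 : (q : ℚ) ^ i - 1 ≠ 0 := by
      have := one_lt_pow₀ h2 (by omega : i ≠ 0)
      linarith
    rw [w.ord_mul ((_root_.map_ne_zero _).2 h0) (pow_ne_zero _ hz), h.2, w.ord_pow]
    push_cast
    rw [geom_sum_eq h2.ne']
    field_simp
  rw [lam, lam, Finset.fold_max_le]
  refine ⟨(Finset.le_fold_max _).2 (Or.inl le_rfl), fun i hi => ?_⟩
  obtain ⟨h2, h3⟩ := Finset.mem_Icc.1 hi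
  split_ifs with h0
  · exact (Finset.le_fold_max _).2 (Or.inl le_rfl)
  refine (Finset.le_fold_max _).2 ((le_total _ 0).imp_right fun h4 => ⟨i, hi, ?_⟩)
  rw [if_neg (mul_ne_zero ((_root_.map_ne_zero _).2 h0) (pow_ne_zero _ hz)), h1 i h2 h0,
    h1 r (h2.trans h3) hg, add_sub_add_right_eq_sub, ← mul_sub]
  exact le_mul_of_one_le_left h4 (by exact_mod_cast h.1)

theorem lam_nonneg (q r : ℕ) (g : ℕ → K) (v : Place kb K) : 0 ≤ lam q r g v := by
  rw [lam]
  exact (Finset.le_fold_max _).2 (Or.inl le_rfl)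

/-- if the support is infinite the finite sum is zero -/
theorem hJ_le {q : ℕ} {g : ℕ → K} {B : ℚ} (h : ∀ T : Finset (Place kb K), ∑ v ∈ T, lam q r g v ≤ B) :
    hJ kb q r g ≤ B := by
  rw [hJ]
  by_cases hf : (Function.support fun v : Place kb K => lam q r g v).Finite
  · rw [finsum_eq_sum _ hf]
    exact h _
  · rw [finsum_of_infinite_support hf]
    simpa using h ∅

end Pool.Agent.Lib.MP_6adaea_nt.T
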