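import Pool.Agent.Lib.MP_6adaea_nt.T.Base

/-!
Conjugates over a finite field.
-/

set_option linter.unusedSectionVars false

namespace Pool.Agent.Lib.MP_6adaea_nt.T
open Matrix Polynomial G U Module

section frob
variable {k kb : Type} [Field k] [Finite k] [Field kb] [Algebra k kb] [Algebra.IsAlgebraic k kb]

/-- the image of a finite field consists of all roots of `X ^ card L - X` -/
theorem frob_range {L E : Type} [Field L] [Finite L] [Field E] (f : L →+* E) {t : E}
    (ht : t ^ Nat.card L = t) : ∃ z, f z = t := by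
  classical
  let _ := Fintype.ofFinite L
  rw [Nat.card_eq_fintype_card] at ht
  have h1 : 1 < Fintype.card L := Fintype.one_lt_card
  by_contra h
  have h2 : t ∉ Finset.univ.image f := fun h3 => by
    obtain ⟨z, -, hz⟩ := Finset.mem_image.1 h3
    exact h ⟨z, hz⟩
  have h4 := card_le_degree_of_subset_roots (p := (X ^ Fintype.card L - X : E[X]))
    (Z := insert t (Finset.univ.image f)) fun u hu => by
      rw [mem_roots (FiniteField.X_pow_card_sub_X_ne_zero E h1), IsRoot.def, eval_sub, eval_pow,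
        eval_X, sub_eq_zero]
      rcases Finset.mem_insert.1 hu with rfl | hu
      · exact ht
      · obtain ⟨z, -, rfl⟩ := Finset.mem_image.1 hu
        rw [← map_pow, FiniteField.pow_card]
  rw [Finset.card_insert_of_notMem h2, Finset.card_image_of_injective _ f.injective,
    Finset.card_univ, FiniteField.X_pow_card_sub_X_natDegree_eq E h1] at h4
  omega

theorem frob_pow_card {L : Type} [Field L] [Finite L] (z : L) : z ^ Nat.card L = z := by
  let _ := Fintype.ofFinite L
  rw [Nat.card_eq_fintype_card, FiniteField.pow_card]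

/-- two embeddings of a finite field differ by a power of Frobenius -/
theorem frob_hom {L : Type} [Field L] [Algebra k L] [Finite L] (f g : L →ₐ[k] kb) :
    ∃ b : ℕ, ∀ z, g z = f z ^ Nat.card k ^ b := by
  let _ := Fintype.ofFinite k
  have h1 : ∀ z, g z ∈ f.range := fun z =>
    frob_range (f : L →+* kb) (by rw [← map_pow, frob_pow_card])
  obtain ⟨b, hb⟩ := (FiniteField.bijective_frobeniusAlgHom_pow k L).2
    (((AlgEquiv.ofInjectiveField f).symm : f.range →ₐ[k] L).comp (g.codRestrict f.range h1))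
  refine ⟨b, fun z => ?_⟩
  have h2 : (frob k L ^ (b : ℕ)) z = (AlgEquiv.ofInjectiveField f).symm ⟨g z, h1 z⟩ :=
    DFunLike.congr_fun hb z
  rw [← map_pow, ← frob_pow_apply, h2]
  exact (congrArg Subtype.val ((AlgEquiv.ofInjectiveField f).apply_symm_apply ⟨g z, h1 z⟩)).symm

theorem frob_rank {P : k[X]} (hP : P ≠ 0) : finrank k (AdjoinRoot P) = P.natDegree :=
  (AdjoinRoot.powerBasis hP).finrank

theorem frob_card {P : k[X]} [Fact (Irreducible P)] (hP : P ≠ 0) :
    Finite (AdjoinRoot P) ∧ Nat.card (AdjoinRoot P) = Nat.card k ^ P.natDegree := by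
  have := (AdjoinRoot.powerBasis hP).finite
  exact ⟨Module.finite_of_finite k, by rw [Module.natCard_eq_pow_finrank (K := k), frob_rank hP]⟩

theorem frob_lift {P : k[X]} {ζ : kb} (h : aeval ζ P = 0) :
    ∃ f : AdjoinRoot P →ₐ[k] kb, f (AdjoinRoot.root P) = ζ :=
  ⟨AdjoinRoot.liftAlgHom P (Algebra.ofId k kb) ζ h, AdjoinRoot.liftAlgHom_root _ _ _ _⟩

/-- The subfield `L` generated by the `x i` is finite and equal to the range of `aeval x`; the
hypothesis gives a `k`-homomorphism `ψ : L → kb` with `ψ (x i) = y i`. For a generator `ω` of the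
cyclic group `Lˣ` the image `ψ ω` is a root of the minimal polynomial of `ω`, which divides
`∏ b < n, (X - C (ω ^ q ^ b))` (or use `FiniteField.bijective_frobeniusAlgHom_pow` after showing
`ψ L ⊆ L`: the elements of `L` are all roots of `X ^ card L - X`). -/
theorem exists_frob {ι : Type} [Finite ι] (x y : ι → kb)
    (h : ∀ f : MvPolynomial ι k, MvPolynomial.aeval x f = 0 → MvPolynomial.aeval y f = 0) :
    ∃ b : ℕ, ∀ i, y i = x i ^ Nat.card k ^ b := by
  have := IntermediateField.finiteDimensional_adjoin (K := k) (S := Set.range x)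
    fun z _ => Algebra.IsIntegral.isIntegral z
  have : Finite (IntermediateField.adjoin k (Set.range x)) := Module.finite_of_finite k
  let x1 : ι → IntermediateField.adjoin k (Set.range x) := fun i =>
    ⟨x i, IntermediateField.subset_adjoin k _ ⟨i, rfl⟩⟩
  have h1 : ∀ f : MvPolynomial ι k,
      (IntermediateField.adjoin k (Set.range x)).val (MvPolynomial.aeval x1 f) =
        MvPolynomial.aeval x f := fun f => by
    rw [← AlgHom.comp_apply, MvPolynomial.comp_aeval]
    rfl
  have h2 : Function.Surjective (MvPolynomial.aeval (R := k) x1) := fun z => by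
    have h3 : z.1 ∈ (IntermediateField.adjoin k (Set.range x)).toSubalgebra := z.2
    rw [IntermediateField.adjoin_toSubalgebra, Algebra.adjoin_range_eq_range_aeval] at h3
    obtain ⟨f, hf⟩ := h3
    exact ⟨f, Subtype.ext ((h1 f).trans hf)⟩
  have h4 : RingHom.ker (MvPolynomial.aeval (R := k) x1).toRingHom ≤
      RingHom.ker (MvPolynomial.aeval (R := k) y).toRingHom := fun f hf =>
    h f (by rw [← h1, show MvPolynomial.aeval x1 f = 0 from hf, map_zero])
  obtain ⟨b, hb⟩ := frob_hom (IntermediateField.adjoin k (Set.range x)).val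
    (AlgHom.liftOfSurjective _ h2 _ h4)
  refine ⟨b, fun i => ?_⟩
  have h5 := AlgHom.liftOfSurjective_apply _ h2 _ h4 (MvPolynomial.X i)
  rw [hb, MvPolynomial.aeval_X, MvPolynomial.aeval_X] at h5
  exact h5.symm

/-- `Matrix.charpoly_map` for the homomorphism `frob k kb ^ b` -/
theorem root_frob {n : Type} [Fintype n] [DecidableEq n] (B : Matrix n n k[X]) {ζ ε : kb}
    (h : (B.map (aeval ζ)).charpoly.IsRoot ε) (b : ℕ) :
    (B.map (aeval (ζ ^ Nat.card k ^ b))).charpoly.IsRoot (ε ^ Nat.card k ^ b) := by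
  have h1 : B.map (aeval (ζ ^ Nat.card k ^ b)) =
      (B.map (aeval ζ)).map ((frob k kb ^ b : kb →ₐ[k] kb) : kb →+* kb) := by
    ext i j
    rw [← frob_pow_apply, map_apply, map_apply, map_apply, aeval_algHom_apply]
    rfl
  rw [h1, charpoly_map, ← frob_pow_apply]
  exact h.map

/-- `k[X] / P` is a field with `q ^ deg P` elements -/
theorem root_pow {P : k[X]} (hP : Irreducible P) {ζ : kb} (h : aeval ζ P = 0) :
    ζ ^ Nat.card k ^ P.natDegree = ζ := by
  have := Fact.mk hP
  obtain ⟨_, h1⟩ := frob_card hP.ne_zero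
  obtain ⟨f, hf⟩ := frob_lift h
  rw [← hf, ← map_pow, ← h1, frob_pow_card]

/-- if `ζ ^ q ^ b = ζ` then all elements of the field `k[X] / P` are roots of `X ^ q ^ b - X` -/
theorem root_pow_ne {P : k[X]} (hP : Irreducible P) {ζ : kb} (h : aeval ζ P = 0) {b : ℕ}
    (hb : b < P.natDegree) (e : ζ ^ Nat.card k ^ b = ζ) : b = 0 := by
  have := Fact.mk hP
  obtain ⟨_, -⟩ := frob_card hP.ne_zero
  let _ := Fintype.ofFinite k
  obtain ⟨f, hf⟩ := frob_lift h
  rw [← hf, ← map_pow] at e
  have h1 : frob k (AdjoinRoot P) ^ b = 1 :=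
    AdjoinRoot.algHom_ext ((frob_pow_apply _ _).trans (f.injective e))
  have h2 : orderOf (frob k (AdjoinRoot P)) = P.natDegree :=
    (FiniteField.orderOf_frobeniusAlgHom k (AdjoinRoot P)).trans (frob_rank hP.ne_zero)
  exact Nat.eq_zero_of_dvd_of_lt (h2 ▸ orderOf_dvd_of_pow_eq_one h1) hb

/-- the image of `k[X] / P` consists of all roots of `X ^ q ^ deg P - X` -/
theorem exists_aeval_eq {P : k[X]} (hP : Irreducible P) {ζ : kb} (h : aeval ζ P = 0) {t : kb}
    (ht : t ^ Nat.card k ^ P.natDegree = t) : ∃ c : k[X], aeval ζ c = t := by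
  have := Fact.mk hP
  obtain ⟨_, h1⟩ := frob_card hP.ne_zero
  obtain ⟨f, hf⟩ := frob_lift h
  obtain ⟨z, hz⟩ := frob_range (f : AdjoinRoot P →+* kb) (h1.symm ▸ ht)
  obtain ⟨c, rfl⟩ := AdjoinRoot.mk_surjective z
  exact ⟨c, by rw [← hf, aeval_algHom_apply, AdjoinRoot.aeval_eq]; exact hz⟩

end frob

end Pool.Agent.Lib.MP_6adaea_nt.T
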