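import Pool.Agent.Lib.MP_6adaea_nt.T.Ten

/-!
Hilbert 90 with bounded poles.
-/

set_option linter.unusedSectionVars false

namespace Pool.Agent.Lib.MP_6adaea_nt.T
open Matrix Polynomial G U Module
open scoped TensorProduct

variable {kb K Ω S : Type} [Field kb] [Field K] [Field Ω] [Algebra kb K] [Algebra kb Ω]
  [Algebra K Ω] [IsScalarTower kb K Ω] [CommRing S] [Algebra kb S] {V : Val kb Ω}

/-- the finite quotient through which `I` acts on `Y` -/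
theorem h90_quot (I : Subgroup (Ω ≃ₐ[K] Ω)) (Y : Finset Ω) (hY : ∀ σ ∈ I, ∀ y ∈ Y, σ y ∈ Y) :
    ∃ (Γ : Type) (_ : Group Γ) (_ : Fintype Γ) (π : I →* Γ), Function.Surjective π ∧
      (∀ σ : I, π σ = 1 ↔ ∀ y ∈ Y, σ.1 y = y) ∧ Fintype.card Γ ≤ Y.card ^ Y.card := by
  classical
  let _ : MulAction I Y :=
    { smul := fun σ y => ⟨σ.1 y, hY σ σ.2 y y.2⟩
      one_smul := fun _ => rfl
      mul_smul := fun _ _ _ => rfl }
  refine ⟨(MulAction.toPermHom I Y).range, inferInstance, inferInstance,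
    (MulAction.toPermHom I Y).rangeRestrict, MonoidHom.rangeRestrict_surjective _, fun σ => ?_, ?_⟩
  · rw [Subtype.ext_iff, Equiv.ext_iff]
    exact ⟨fun h y hy => congrArg Subtype.val (h ⟨y, hy⟩), fun h y => Subtype.ext (h y y.2)⟩
  · rw [← Nat.card_eq_fintype_card]
    refine (Subgroup.card_le_card_group _).trans ?_
    rw [Nat.card_eq_fintype_card, Fintype.card_perm, Fintype.card_coe]
    exact Nat.factorial_le_pow _

/-- a sum over the representatives of the conjugates of an invariant element is invariant -/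
theorem h90_sum {G M Γ : Type} [Group G] [AddCommMonoid M] [Fintype Γ] (f : G → M →+ M)
    (hf : ∀ σ τ x, f (σ * τ) x = f σ (f τ x)) (s : Γ → G) {τ : G} {x : M} (e : Equiv.Perm Γ)
    (h : ∀ c, ∃ h, f h x = x ∧ τ * s c = s (e c) * h) :
    f τ (∑ c, f (s c) x) = ∑ c, f (s c) x := by
  rw [map_sum, ← Equiv.sum_comp e fun c => f (s c) x]
  refine Finset.sum_congr rfl fun c _ => ?_
  obtain ⟨h, h1, h2⟩ := h c
  rw [← hf, h2, hf, h1]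

/-- An element of trace one. Let `H ≤ I` be the subgroup that fixes `Y` pointwise, `Γ = I ⧸ H`
(it embeds into the maps `Y → Y`), `s = Quotient.out`. For `c ≠ 1` in `Γ` choose `y c ∈ Y` with
`s c (y c) ≠ y c`. Then `e ρ = ∏ c ≠ 1, (s c (y c) - ρ (y c)) / (s c (y c) - y c)` is `1` for the
class of `1` and `0` for the other classes. Expand (`Finset.prod_add`): `e ρ = ∑ A, a A * ρ (b A)`
with `b A = ∏ c ∈ A, - y c`; `ord (a A) + ord (b A) ≥ - card Γ * β`. Summing over `ρ` gives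
`1 = ∑ A, a A * Tr (b A)`, so `ord (a A * Tr (b A)) ≤ 0` for some `A`; `t = b A / Tr (b A)`. -/
theorem exists_trace_one (I : Subgroup (Ω ≃ₐ[K] Ω)) (hI : I ≤ V.inert K) (Y : Finset Ω)
    (hY : ∀ σ ∈ I, ∀ y ∈ Y, σ y ∈ Y) {β : ℚ} (hβ : 0 ≤ β)
    (hb : ∀ σ ∈ I, ∀ y ∈ Y, σ y ≠ y → V.ord (σ y - y) ≤ V.ord y + β) :
    ∃ (Γ : Type) (_ : Fintype Γ) (s : Γ → Ω ≃ₐ[K] Ω) (t : Ω), (∀ c, s c ∈ I) ∧
      (∀ τ ∈ I, ∃ e : Equiv.Perm Γ, ∀ c, ∃ h ∈ I, (∀ y ∈ Y, h y = y) ∧ τ * s c = s (e c) * h) ∧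
      (∀ h ∈ I, (∀ y ∈ Y, h y = y) → h t = t) ∧ ∑ c, s c t = 1 ∧
      V.Ge t (-((Y.card ^ Y.card : ℕ) * β)) := by
  classical
  obtain ⟨Γ, _, _, π, hπ, hk, hc⟩ := h90_quot I Y hY
  choose s hs using hπ
  have hE : ∀ τ ∈ I, ∃ e : Equiv.Perm Γ, ∀ c, ∃ h ∈ I, (∀ y ∈ Y, h y = y) ∧
      τ * (s c).1 = (s (e c)).1 * h := fun τ hτ => by
    refine ⟨Equiv.mulLeft (π ⟨τ, hτ⟩), fun c => ⟨((s (π ⟨τ, hτ⟩ * c))⁻¹ * ⟨τ, hτ⟩ * s c : I),
      Subtype.prop _, (hk _).1 ?_, ?_⟩⟩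
    · rw [map_mul, map_mul, map_inv, hs, hs]
      group
    · simp [mul_assoc]
  have hy : ∀ c : Γ, c ≠ 1 → ∃ y ∈ Y, (s c).1 y ≠ y := fun c hc => by
    by_contra! h
    exact hc ((hs c).symm.trans ((hk _).2 h))
  choose! y hy1 hy2 using hy
  set P : Finset Γ := Finset.univ.erase 1 with hP
  have hP1 : ∀ c ∈ P, c ≠ 1 := fun c hc => Finset.ne_of_mem_erase hc
  set d : Γ → Ω := fun c => ((s c).1 (y c) - y c)⁻¹ with hd
  set a : Finset Γ → Ω := fun A => (∏ c ∈ A, d c) * ∏ c ∈ P \ A, (s c).1 (y c) * d c with ha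
  set b : Finset Γ → Ω := fun A => ∏ c ∈ A, -y c with hbA
  have h1 : ∑ ρ : Γ, ∏ c ∈ P, ((s ρ).1 (-y c) * d c + (s c).1 (y c) * d c) = 1 := by
    rw [Finset.sum_eq_single 1 (fun ρ _ hρ => ?_) (by simp)]
    · refine Finset.prod_eq_one fun c hc => ?_
      rw [map_neg, (hk _).1 (hs 1) _ (hy1 c (hP1 c hc)), ← add_mul, neg_add_eq_sub]
      exact mul_inv_cancel₀ (sub_ne_zero.2 (hy2 c (hP1 c hc)))
    · exact Finset.prod_eq_zero (Finset.mem_erase.2 ⟨hρ, Finset.mem_univ _⟩) (by simp)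
  have h2 : ∑ A ∈ P.powerset, a A * ∑ ρ : Γ, (s ρ).1 (b A) = 1 := by
    rw [← h1]
    simp only [Finset.prod_add, Finset.mul_sum]
    rw [Finset.sum_comm]
    refine Finset.sum_congr rfl fun ρ _ => Finset.sum_congr rfl fun A _ => ?_
    rw [ha, hbA, Finset.prod_mul_distrib, map_prod]
    ring
  obtain ⟨A, hA, h3⟩ : ∃ A ∈ P.powerset, ¬V.toQ.Gt (a A * ∑ ρ : Γ, (s ρ).1 (b A)) 0 := by
    by_contra! h
    have := QVal.Gt.sum h
    rw [h2] at this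
    exact absurd (this.lt one_ne_zero) (by rw [QVal.ord_one]; exact lt_irrefl _)
  obtain ⟨h4, h5⟩ := QVal.not_gt_iff.1 h3
  have hA' := Finset.mem_powerset.1 hA
  have hbf : ∀ h ∈ I, (∀ y ∈ Y, h y = y) → h (b A) = b A := fun h _ hh => by
    rw [hbA, map_prod]
    exact Finset.prod_congr rfl fun c hc => by rw [map_neg, hh _ (hy1 c (hP1 c (hA' hc)))]
  have hT : ∀ τ ∈ I, τ (∑ ρ : Γ, (s ρ).1 (b A)) = ∑ ρ : Γ, (s ρ).1 (b A) := fun τ hτ => by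
    obtain ⟨e, he⟩ := hE τ hτ
    exact h90_sum (fun σ : Ω ≃ₐ[K] Ω => (σ : Ω →+ Ω)) (fun _ _ _ => rfl) (fun c => (s c).1) e
      fun c => (he c).imp fun h hh => ⟨hbf h hh.1 hh.2.1, hh.2.2⟩
  have hyd : ∀ c ∈ P, V.toQ.Ge (y c * d c) (-β) := fun c hc => by
    have := hb _ (s c).2 _ (hy1 c (hP1 c hc)) (hy2 c (hP1 c hc))
    rw [hd, ← div_eq_mul_inv, QVal.ge_div_iff (sub_ne_zero.2 (hy2 c (hP1 c hc)))]
    exact QVal.Ge.of_le (by simp only [Val.toQ_ord]; linarith)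
  have hsd : ∀ c ∈ P, V.toQ.Ge ((s c).1 (y c) * d c) (-β) := fun c hc => by
    have := hyd c hc
    have h0 : d c ≠ 0 := inv_ne_zero (sub_ne_zero.2 (hy2 c (hP1 c hc)))
    rw [QVal.ge_mul_iff h0] at this ⊢
    exact (QVal.ge_stab (hI (s c).2)).2 this
  have hab : V.toQ.Ge (a A * b A) (-((Y.card ^ Y.card : ℕ) * β)) := by
    have h6 := (QVal.Ge.prod (s := A) (m := fun _ => -β) fun c hc => (hyd c (hA' hc)).neg).mul
      (QVal.Ge.prod (s := P \ A) (m := fun _ => -β) fun c hc => hsd c (Finset.sdiff_subset hc))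
    have h7 : (A.card : ℚ) + (P \ A).card ≤ (Y.card ^ Y.card : ℕ) := by
      have := Finset.card_sdiff_add_card_eq_card hA'
      have h8 := Finset.card_le_univ P
      exact_mod_cast (by omega : A.card + (P \ A).card ≤ Y.card ^ Y.card)
    convert h6.mono (m' := -((Y.card ^ Y.card : ℕ) * β)) ?_ using 1
    · simp only [ha, hbA, ← neg_mul, Finset.prod_mul_distrib]
      ring
    · simp only [Finset.sum_const, nsmul_eq_mul]
      nlinarith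
  have hT0 := right_ne_zero_of_mul h4
  refine ⟨Γ, inferInstance, fun c => (s c).1, b A / ∑ ρ : Γ, (s ρ).1 (b A), fun c => (s c).2, hE,
    fun h hI hh => by rw [map_div₀, hbf h hI hh, hT h hI], ?_, ?_⟩
  · simp only [map_div₀, hT _ (s _).2]
    rw [← Finset.sum_div, div_self hT0]
  · rw [← mul_div_mul_left _ _ (left_ne_zero_of_mul h4), ← Val.toQ_ge, QVal.ge_div_iff h4]
    exact hab.mono (by linarith)

/-- the map `id ⊗ x0` -/
noncomputable def h90_ev (Ω : Type) [Field Ω] [Algebra kb Ω] (x0 : S →ₐ[kb] kb) :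
    Ω ⊗[kb] S →ₐ[kb] Ω :=
  Algebra.TensorProduct.lift (AlgHom.id kb Ω) ((Algebra.ofId kb Ω).comp x0)
    fun _ _ => Commute.all _ _

theorem h90_ev_tmul (x0 : S →ₐ[kb] kb) (y : Ω) (s : S) :
    h90_ev Ω x0 (y ⊗ₜ s) = y * algebraMap kb Ω (x0 s) := rfl

theorem h90_ev_gal (x0 : S →ₐ[kb] kb) (σ : Ω ≃ₐ[K] Ω) (x : Ω ⊗[kb] S) :
    h90_ev Ω x0 (gal kb S σ x) = σ (h90_ev Ω x0 x) := by
  induction x using TensorProduct.induction_on with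
  | zero => simp
  | add x y hx hy => simp [hx, hy]
  | tmul y s =>
    rw [gal_tmul, h90_ev_tmul, h90_ev_tmul, map_mul, IsScalarTower.algebraMap_apply kb K Ω,
      AlgEquiv.commutes]

/-- normalisation of the cocycle -/
theorem h90_norm (x0 : S →ₐ[kb] kb) {z : Ω ⊗[kb] S} (h0 : h90_ev Ω x0 z ≠ 0) {σ : Ω ≃ₐ[K] Ω}
    {χ : S} (h : gal kb S σ z = (1 ⊗ₜ χ) * z) :
    x0 χ ≠ 0 ∧ gal kb S σ (z * (h90_ev Ω x0 z)⁻¹ ⊗ₜ 1) =
      (1 ⊗ₜ ((x0 χ)⁻¹ • χ)) * (z * (h90_ev Ω x0 z)⁻¹ ⊗ₜ 1) := by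
  have h1 := congrArg (h90_ev Ω x0) h
  rw [h90_ev_gal, map_mul, h90_ev_tmul, one_mul] at h1
  refine ⟨fun h2 => h0 (by simpa [h2] using h1), ?_⟩
  rw [map_mul, h, gal_tmul, map_inv₀, h1, mul_inv, ← map_inv₀, ← Algebra.smul_def,
    ← TensorProduct.smul_tmul', TensorProduct.tmul_smul, mul_smul_comm, smul_mul_assoc, mul_assoc]

variable [Module.Finite kb S]

/-- The map `id ⊗ x0`. Put `z0 = (id ⊗ x0) z ≠ 0`, `z1 = z * (z0⁻¹ ⊗ 1)`; then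
`gal σ z1 = (1 ⊗ χ1 σ) * z1` where `χ1 σ ∈ S` is unique, multiplicative, `x0 (χ1 σ) = 1`, and
`χ1 h = 1` if `h` fixes `Y`. Put `b = ∑ c, s c t ⊗ χ1 (s c)⁻¹`; `gal τ b = (1 ⊗ χ1 τ) * b`,
`1 - b = ∑ c, s c t ⊗ (1 - χ1 (s c)⁻¹)` has `m`-th power zero (it lies in the extension of the
ideal `ker x0`), `b' = ∑ j < m, (1 - b) ^ j`, `a = ord z0`. -/
theorem h90 (x0 : S →ₐ[kb] kb) {m : ℕ} (hm : RingHom.ker x0 ^ m = ⊥)
    (I : Subgroup (Ω ≃ₐ[K] Ω)) (hI : I ≤ V.inert K) (Y : Finset Ω)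
    (hY : ∀ σ ∈ I, ∀ y ∈ Y, σ y ∈ Y) {β : ℚ} (hβ : 0 ≤ β)
    (hb : ∀ σ ∈ I, ∀ y ∈ Y, σ y ≠ y → V.ord (σ y - y) ≤ V.ord y + β) {z z' : Ω ⊗[kb] S}
    (h : z * z' = 1) (hz : ∀ σ ∈ I, ∃ χ : S, gal kb S σ z = (1 ⊗ₜ χ) * z ∧
      ((∀ y ∈ Y, σ y = y) → ∃ c : kb, χ = algebraMap kb S c)) :
    ∃ (b b' : Ω ⊗[kb] S) (a : ℚ), b * b' = 1 ∧ (∀ σ ∈ I, gal kb S σ (z * b') = z * b') ∧
      V.GGe b (a - m * ((Y.card ^ Y.card : ℕ) * β)) ∧
      V.GGe b' (-a - m * ((Y.card ^ Y.card : ℕ) * β)) := by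
  obtain ⟨Γ, _, s, t, hs, hE, ht, ht1, htv⟩ := exists_trace_one I hI Y hY hβ hb
  set N : ℚ := (Y.card ^ Y.card : ℕ) * β with hN
  have hN0 : 0 ≤ N := mul_nonneg (Nat.cast_nonneg _) hβ
  have hm0 : (1 : ℚ) ≤ m := by
    rcases m with _ | m
    · have : (1 : S) ∈ RingHom.ker x0 ^ 0 := by simp
      rw [hm, Ideal.mem_bot] at this
      simpa using congrArg x0 this
    · simp
  have h0 : h90_ev Ω x0 z ≠ 0 := fun h1 => by simpa [h1] using congrArg (h90_ev Ω x0) h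
  set z0 := h90_ev Ω x0 z with hz0
  have hχ : ∀ c, ∃ χ : S, x0 χ = 1 ∧
      gal kb S (s c) (z * z0⁻¹ ⊗ₜ 1) = (1 ⊗ₜ χ) * (z * z0⁻¹ ⊗ₜ 1) := fun c => by
    obtain ⟨χ, h1, -⟩ := hz _ (hs c)
    obtain ⟨h2, h3⟩ := h90_norm x0 h0 h1
    exact ⟨_, by simp [h2], h3⟩
  choose χ hχ1 hχ2 using hχ
  have hfix : ∀ σ ∈ I, (∀ y ∈ Y, σ y = y) → gal kb S σ (t ⊗ₜ 1 * (z * z0⁻¹ ⊗ₜ 1)) =
      t ⊗ₜ 1 * (z * z0⁻¹ ⊗ₜ 1) := fun σ hσ hf => by
    obtain ⟨ψ, h1, h2⟩ := hz σ hσ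
    obtain ⟨c, rfl⟩ := h2 hf
    obtain ⟨h2, h3⟩ := h90_norm x0 h0 h1
    rw [AlgHom.commutes, Algebra.algebraMap_self, RingHom.id_apply] at h2 h3
    rw [map_mul, h3, gal_tmul, ht σ hσ hf, Algebra.smul_def, ← map_mul, inv_mul_cancel₀ h2, map_one,
      ← Algebra.TensorProduct.one_def, one_mul]
  set B : Ω ⊗[kb] S := ∑ c, s c t ⊗ₜ χ c with hB
  have hBv : V.GGe B (-N) := gge_sum fun c _ =>
    gge_tmul ((QVal.ge_stab (V := V.toQ) (hI (hs c))).2 htv) _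
  have hBz : z * (z0⁻¹ ⊗ₜ 1 * B) = ∑ c, gal kb S (s c) (t ⊗ₜ 1 * (z * z0⁻¹ ⊗ₜ 1)) := by
    rw [← mul_assoc, hB, Finset.mul_sum]
    refine Finset.sum_congr rfl fun c _ => ?_
    rw [map_mul, hχ2, gal_tmul, ← mul_assoc, Algebra.TensorProduct.tmul_mul_tmul, mul_one, one_mul,
      mul_comm]
  have hnil : (1 - B) ^ m = 0 := by
    have h1 : 1 - B ∈ (RingHom.ker x0).map
        (Algebra.TensorProduct.includeRight : S →ₐ[kb] Ω ⊗[kb] S) := by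
      rw [Algebra.TensorProduct.one_def, ← ht1, TensorProduct.sum_tmul, hB, ← Finset.sum_sub_distrib]
      refine Ideal.sum_mem _ fun c _ => ?_
      have : s c t ⊗ₜ[kb] (1 : S) - s c t ⊗ₜ χ c =
          s c t ⊗ₜ 1 * Algebra.TensorProduct.includeRight (R := kb) (1 - χ c) := by
        rw [Algebra.TensorProduct.includeRight_apply, Algebra.TensorProduct.tmul_mul_tmul, mul_one,
          one_mul, TensorProduct.tmul_sub]
      rw [this]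
      exact Ideal.mul_mem_left _ _ (Ideal.mem_map_of_mem _ (by simp [RingHom.mem_ker, hχ1]))
    have h2 := Ideal.pow_mem_pow h1 m
    rwa [← Ideal.map_pow, hm, Ideal.map_bot, Ideal.mem_bot] at h2
  refine ⟨z0 ⊗ₜ 1 * ∑ j ∈ Finset.range m, (1 - B) ^ j, z0⁻¹ ⊗ₜ 1 * B, V.ord z0, ?_,
    fun σ hσ => ?_, ?_, ?_⟩
  · have h1 := mul_neg_geom_sum (1 - B) m
    rw [hnil, sub_zero, sub_sub_cancel, mul_comm] at h1
    rw [mul_mul_mul_comm, h1, Algebra.TensorProduct.tmul_mul_tmul, mul_inv_cancel₀ h0, mul_one,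
      mul_one, Algebra.TensorProduct.one_def]
  · obtain ⟨e, he⟩ := hE σ hσ
    rw [hBz]
    exact h90_sum (fun σ : Ω ≃ₐ[K] Ω => (gal kb S σ : Ω ⊗[kb] S →+ Ω ⊗[kb] S)) gal_mul s e
      fun c => (he c).imp fun h hh => ⟨hfix h hh.1 hh.2.1, hh.2.2⟩
  · rw [sub_eq_add_neg (V.ord z0)]
    refine gge_mul (gge_tmul (Val.ge_ord z0) 1) (gge_sum fun j hj => gge_mono
      (gge_pow (gge_sub (gge_mono gge_one (neg_nonpos.2 hN0)) hBv) j) ?_)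
    have : (j : ℚ) ≤ m := by exact_mod_cast (Finset.mem_range.1 hj).le
    nlinarith
  · refine gge_mono (gge_mul (gge_tmul (Val.ge_ord z0⁻¹) 1) hBv) ?_
    rw [Val.ord_inv]
    nlinarith

end Pool.Agent.Lib.MP_6adaea_nt.T
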