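import Pool.Agent.Lib.MP_6adaea_nt.T.QU1
import Pool.Agent.Lib.MP_6adaea_nt.T.LemE

/-!
Uniform quasi-unipotence of inertia, second part.
-/

set_option linter.unusedSectionVars false

namespace Pool.Agent.Lib.MP_6adaea_nt.T
open Matrix Polynomial G U Module

section gen
variable {k Ω : Type} [Field k] [Finite k] [Field Ω] [Algebra k Ω]
  {θ : Ω} {r : ℕ} {g : ℕ → Ω} {φ : Ω →ₗ[k] Ω} {V : QVal Ω} {γ : ℚ}

theorem QU_rank (φ : Ω →ₗ[k] Ω) (A : Submodule k Ω) [FiniteDimensional k A] :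
    finrank k (A.map φ) + finrank k (A ⊓ LinearMap.ker φ : Submodule k Ω) = finrank k A := by
  have h := (φ.domRestrict A).finrank_range_add_finrank_ker
  rw [LinearMap.range_domRestrict, LinearMap.ker_domRestrict,
    ← Submodule.finrank_map_subtype_eq A, Submodule.map_comap_subtype] at h
  exact h

theorem QU_dim (φ : Ω →ₗ[k] Ω) (A D : Submodule k Ω) [FiniteDimensional k A]
    [FiniteDimensional k D] : finrank k A + finrank k D =
      finrank k (A ⊓ D.comap φ : Submodule k Ω) + finrank k (A.map φ ⊔ D : Submodule k Ω) := by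
  have : FiniteDimensional k (A ⊓ D.comap φ : Submodule k Ω) :=
    Submodule.finiteDimensional_of_le inf_le_left
  have h1 := QU_rank φ A
  have h2 := QU_rank φ (A ⊓ D.comap φ)
  have h3 := Submodule.finrank_sup_add_finrank_inf_eq (A.map φ) D
  have e1 : (A ⊓ D.comap φ).map φ = A.map φ ⊓ D := by
    refine le_antisymm ?_ ?_
    · rintro _ ⟨x, hx, rfl⟩
      exact ⟨⟨x, hx.1, rfl⟩, hx.2⟩
    · rintro _ ⟨⟨x, hx, rfl⟩, h⟩
      exact ⟨x, ⟨hx, h⟩, rfl⟩
  have e2 : A ⊓ D.comap φ ⊓ LinearMap.ker φ = A ⊓ LinearMap.ker φ := by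
    refine le_antisymm (inf_le_inf_right _ inf_le_left) fun x hx => ⟨⟨hx.1, ?_⟩, hx.2⟩
    change φ x ∈ D
    rw [LinearMap.mem_ker.1 hx.2]
    exact D.zero_mem
  rw [e1, e2] at h2
  omega

theorem QU_mem_uG {ν : ℚ} {x : Ω} :
    x ∈ uG k V θ r g ν ↔ ∀ i ∈ Finset.range (r + 1), V.Ge (trm k θ g i x) ν := by
  simp only [uG, Submodule.mem_iInf, Submodule.mem_comap, mem_dG]

theorem QU_mem_uS {ν : ℚ} {x : Ω} :
    x ∈ uS k V θ r g ν ↔ ∀ i ∈ Finset.range (r + 1), V.Gt (trm k θ g i x) ν := by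
  simp only [uS, Submodule.mem_iInf, Submodule.mem_comap, mem_dS]

theorem QU_phi_ge (hφ : IsDr θ r g φ) {ν : ℚ} {x : Ω} (h : x ∈ uG k V θ r g ν) : V.Ge (φ x) ν := by
  rw [phi_eq hφ]
  exact QVal.Ge.sum (QU_mem_uG.1 h)

theorem QU_pow_mem {W : Submodule k Ω} {N : Ω →ₗ[k] Ω} (hNW : ∀ x ∈ W, N x ∈ W) (m : ℕ) :
    ∀ x ∈ W, (N ^ m) x ∈ W := by
  induction m with
  | zero => exact fun x hx => hx
  | succ m ih => exact fun x hx => by rw [pow_succ', Module.End.mul_apply]; exact hNW _ (ih x hx)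

theorem QU_pow_comm {N : Ω →ₗ[k] Ω} (hc : ∀ x, N (φ x) = φ (N x)) (m : ℕ) (x : Ω) :
    (N ^ m) (φ x) = φ ((N ^ m) x) := by
  induction m with
  | zero => rfl
  | succ m ih => rw [pow_succ', Module.End.mul_apply, Module.End.mul_apply, ih, hc]

/-- the inequality on one layer -/
theorem QU_layer (hφ : IsDr θ r g φ) (W : Submodule k Ω) [FiniteDimensional k W]
    (hW : ∀ x ∈ W, φ x ∈ W) (ν : ℚ) (c : ℕ)
    (h : finrank k (W ⊓ uG k V θ r g ν ⊓ (dS k V ν).comap φ : Submodule k Ω) ≤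
      finrank k (W ⊓ uS k V θ r g ν : Submodule k Ω) + c) :
    finrank k (W ⊓ uG k V θ r g ν : Submodule k Ω) + finrank k (W ⊓ dS k V ν : Submodule k Ω) ≤
      finrank k (W ⊓ uS k V θ r g ν : Submodule k Ω) + c +
        finrank k (W ⊓ dG k V ν : Submodule k Ω) ∧
    (W ⊓ dG k V ν ≤ (W ⊓ uG k V θ r g ν).map φ ⊔ W ⊓ dS k V ν ∨
      finrank k (W ⊓ uG k V θ r g ν : Submodule k Ω) + finrank k (W ⊓ dS k V ν : Submodule k Ω) + 1 ≤
      finrank k (W ⊓ uS k V θ r g ν : Submodule k Ω) + c +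
        finrank k (W ⊓ dG k V ν : Submodule k Ω)) := by
  have i1 : ∀ A : Submodule k Ω, FiniteDimensional k (W ⊓ A : Submodule k Ω) := fun A =>
    Submodule.finiteDimensional_of_le inf_le_left
  have h1 := QU_dim φ (W ⊓ uG k V θ r g ν) (W ⊓ dS k V ν)
  have e1 : W ⊓ uG k V θ r g ν ⊓ (W ⊓ dS k V ν).comap φ =
      W ⊓ uG k V θ r g ν ⊓ (dS k V ν).comap φ :=
    le_antisymm (fun x hx => ⟨hx.1, hx.2.2⟩) fun x hx => ⟨hx.1, hW x hx.1.1, hx.2⟩
  rw [e1] at h1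
  have h2 : (W ⊓ uG k V θ r g ν).map φ ⊔ W ⊓ dS k V ν ≤ W ⊓ dG k V ν := by
    refine sup_le ?_ fun x hx => ⟨hx.1, QVal.Gt.ge hx.2⟩
    rintro _ ⟨x, hx, rfl⟩
    exact ⟨hW x hx.1, QU_phi_ge hφ hx.2⟩
  have h3 := Submodule.finrank_mono h2
  refine ⟨by omega, ?_⟩
  rcases h2.eq_or_lt with e | e
  · exact Or.inl e.ge
  · have := Submodule.finrank_lt_finrank_of_lt e
    exact Or.inr (by omega)

/-- The abstract induction. Put `n ν = dim (W ⊓ dG ν) - dim (W ⊓ uG ν) + r * #{b ∈ B | ν ≤ b < ν0}`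
and `n' ν = dim (W ⊓ dS ν) - dim (W ⊓ uS ν) + r * #{b ∈ B | ν < b < ν0}` (integers). `φ` induces a
map `(W ⊓ uG ν) / (W ⊓ uS ν) → (W ⊓ dG ν) / (W ⊓ dS ν)` whose kernel has dimension `≤ r`, and zero
if `ν ∉ B`. So `n' ν ≤ n ν`, and `n' ν + 1 ≤ n ν` unless `W ⊓ dG ν ≤ map φ (W ⊓ uG ν) ⊔ W ⊓ dS ν`.
Let `T` be a finite set that contains `B`, `ν0`, the orders of the elements of `W` and of their
terms. Show by induction on `#{t ∈ T | ν < t ≤ ν0}` that for `ν ≤ ν0`: `0 ≤ n ν` and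
`N ^ m` maps `W ⊓ dG ν` to `dG ν0` whenever `n ν ≤ m`. In the step let `ν'` be the least element
of `T` above `ν`; then `W ⊓ dS ν = W ⊓ dG ν'`, `W ⊓ uS ν = W ⊓ uG ν'`, `n' ν = n ν'`. For small `ν`
one has `W ≤ dG ν`, `W ≤ uG ν`. -/
theorem qu_ind {kb : Type} [Field kb] [Algebra kb Ω] (hres : V.HasRes kb) (hφ : IsDr θ r g φ)
    (W : Submodule k Ω) [FiniteDimensional k W] (hW : ∀ x ∈ W, φ x ∈ W) (N : Ω →ₗ[k] Ω)
    (hNW : ∀ x ∈ W, N x ∈ W) (hc : ∀ x, N (φ x) = φ (N x)) (ν0 : ℚ)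
    (h1 : W ⊓ uG k V θ r g ν0 = W ⊓ dG k V ν0)
    (h2 : ∀ ν < ν0, uG k V θ r g ν ≤ dS k V ν)
    (h3 : ∀ ν ≤ ν0, ∀ x ∈ W, V.Ge x ν → V.Gt (N x) ν) :
    ∀ x ∈ W, V.Gt ((N ^ (r * (r + 1) ^ 2 + 1)) x) ν0 := by
  classical
  obtain ⟨B, hB, hB'⟩ := exists_breaks V hφ
  have : Finite W := Module.finite_of_finite k
  have hf : (W : Set Ω).Finite := Set.toFinite _
  obtain ⟨T, t0, t1, t2, t3⟩ : ∃ T : Finset ℚ, ν0 ∈ T ∧ (∀ b ∈ B, b ∈ T) ∧
      (∀ x ∈ W, V.ord x ∈ T) ∧ ∀ x ∈ W, ∀ i ∈ Finset.range (r + 1), V.ord (trm k θ g i x) ∈ T := by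
    refine ⟨insert ν0 (B ∪ (hf.toFinset.image V.ord ∪
      (hf.toFinset ×ˢ Finset.range (r + 1)).image fun z => V.ord (trm k θ g z.2 z.1))),
      Finset.mem_insert_self _ _, fun b hb => ?_, fun x hx => ?_, fun x hx i hi => ?_⟩
    · exact Finset.mem_insert_of_mem (Finset.mem_union_left _ hb)
    · exact Finset.mem_insert_of_mem (Finset.mem_union_right _ (Finset.mem_union_left _
        (Finset.mem_image_of_mem _ (hf.mem_toFinset.2 hx))))
    · exact Finset.mem_insert_of_mem (Finset.mem_union_right _ (Finset.mem_union_right _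
        (Finset.mem_image.2 ⟨(x, i), Finset.mem_product.2 ⟨hf.mem_toFinset.2 hx, hi⟩, rfl⟩)))
  have top : ∀ m : ℕ, ∀ x ∈ W, V.Ge x ν0 → V.Ge ((N ^ m) x) ν0 := fun m x hx h => by
    induction m with
    | zero => exact h
    | succ m ih =>
      rw [pow_succ', Module.End.mul_apply]
      exact (h3 ν0 le_rfl _ (QU_pow_mem hNW m x hx) ih).ge
  have main : ∀ (c : ℕ) (ν : ℚ), ν ≤ ν0 → (T.filter fun t => ν < t).card = c →
      finrank k (W ⊓ uG k V θ r g ν : Submodule k Ω) ≤ finrank k (W ⊓ dG k V ν : Submodule k Ω) +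
        r * (B.filter fun b => ν ≤ b ∧ b < ν0).card ∧
      ∀ m : ℕ, finrank k (W ⊓ dG k V ν : Submodule k Ω) +
        r * (B.filter fun b => ν ≤ b ∧ b < ν0).card ≤
        finrank k (W ⊓ uG k V θ r g ν : Submodule k Ω) + m →
        ∀ x ∈ W, V.Ge x ν → V.Ge ((N ^ m) x) ν0 := by
    intro c
    induction c using Nat.strong_induction_on with
    | _ c ih =>
    intro ν hν hcard
    rcases hν.eq_or_lt with rfl | hlt
    · exact ⟨by rw [h1]; omega, fun m _ => top m⟩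
    have hne : (T.filter fun t => ν < t).Nonempty := ⟨ν0, Finset.mem_filter.2 ⟨t0, hlt⟩⟩
    obtain ⟨ν', n1, n2⟩ := Finset.exists_min_image _ id hne
    obtain ⟨n0, n1⟩ := Finset.mem_filter.1 n1
    have n3 : ∀ t ∈ T, ν < t → ν' ≤ t := fun t ht h => n2 t (Finset.mem_filter.2 ⟨ht, h⟩)
    have n4 : ∀ y : Ω, V.ord y ∈ T → (V.Gt y ν ↔ V.Ge y ν') := fun y hy =>
      ⟨fun h => h.imp id (n3 _ hy), fun h => h.gt n1⟩
    have e1 : W ⊓ dS k V ν = W ⊓ dG k V ν' := by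
      ext x
      exact and_congr_right fun hx => n4 x (t2 x hx)
    have e2 : W ⊓ uS k V θ r g ν = W ⊓ uG k V θ r g ν' := by
      ext x
      refine and_congr_right fun hx => ?_
      change x ∈ uS k V θ r g ν ↔ x ∈ uG k V θ r g ν'
      rw [QU_mem_uS, QU_mem_uG]
      exact forall₂_congr fun i hi => n4 _ (t3 x hx i hi)
    obtain ⟨i1, i2⟩ := ih (T.filter fun t => ν' < t).card (by
      rw [← hcard]
      refine Finset.card_lt_card ⟨fun t ht => ?_, fun h => ?_⟩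
      · exact Finset.mem_filter.2 ⟨(Finset.mem_filter.1 ht).1, n1.trans (Finset.mem_filter.1 ht).2⟩
      · exact lt_irrefl _ (Finset.mem_filter.1 (h (Finset.mem_filter.2 ⟨n0, n1⟩))).2)
      ν' (n3 _ t0 hlt) rfl
    obtain ⟨c', c1, c2⟩ : ∃ c' : ℕ,
        finrank k (W ⊓ uG k V θ r g ν ⊓ (dS k V ν).comap φ : Submodule k Ω) ≤
          finrank k (W ⊓ uS k V θ r g ν : Submodule k Ω) + c' ∧
        r * (B.filter fun b => ν' ≤ b ∧ b < ν0).card + c' ≤
          r * (B.filter fun b => ν ≤ b ∧ b < ν0).card := by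
      have hs : (B.filter fun b => ν' ≤ b ∧ b < ν0) ⊆ B.filter fun b => ν ≤ b ∧ b < ν0 :=
        fun b hb => by
          obtain ⟨k1, k2, k3⟩ := Finset.mem_filter.1 hb
          exact Finset.mem_filter.2 ⟨k1, n1.le.trans k2, k3⟩
      by_cases hb : ν ∈ B
      · refine ⟨r, ker_le hres hφ W ν, ?_⟩
        rw [← Nat.mul_succ]
        refine Nat.mul_le_mul_left _ (Finset.card_lt_card ⟨hs, fun h => ?_⟩)
        exact absurd (Finset.mem_filter.1 (h (Finset.mem_filter.2 ⟨hb, le_rfl, hlt⟩))).2.1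
          (not_le.2 n1)
      · refine ⟨0, ?_, Nat.mul_le_mul_left _ (Finset.card_le_card hs)⟩
        have : FiniteDimensional k (W ⊓ uS k V θ r g ν : Submodule k Ω) :=
          Submodule.finiteDimensional_of_le inf_le_left
        exact Submodule.finrank_mono fun x hx => ⟨hx.1.1, hB' ν hb x hx.1.2 hx.2⟩
    obtain ⟨l1, l2⟩ := QU_layer hφ W hW ν c' c1
    rw [e1, e2] at l1 l2
    refine ⟨by omega, fun m hm x hx hx' => ?_⟩
    rcases l2 with l2 | l2
    · obtain ⟨_, ⟨u, hu, rfl⟩, d, hd, rfl⟩ := Submodule.mem_sup.1 (l2 ⟨hx, hx'⟩)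
      have k1 : u ∈ W ⊓ dG k V ν' := e1 ▸ ⟨hu.1, h2 ν hlt hu.2⟩
      have k2 : (N ^ m) u ∈ W ⊓ uG k V θ r g ν0 :=
        h1 ▸ ⟨QU_pow_mem hNW m u hu.1, i2 m (by omega) u k1.1 k1.2⟩
      rw [map_add, QU_pow_comm hc]
      exact (QU_phi_ge hφ k2.2).add (i2 m (by omega) d hd.1 hd.2)
    · obtain ⟨m, rfl⟩ : ∃ m', m = m' + 1 := ⟨m - 1, by omega⟩
      have k1 : N x ∈ W ⊓ dG k V ν' := e1 ▸ ⟨hNW x hx, h3 ν hν x hx hx'⟩
      rw [pow_succ, Module.End.mul_apply]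
      exact i2 m (by omega) _ k1.1 k1.2
  intro x hx
  obtain ⟨ν, -, hν⟩ := Finset.exists_min_image T id ⟨ν0, t0⟩
  have e1 : W ⊓ dG k V ν = W := inf_eq_left.2 fun y hy => QVal.Ge.of_le (hν _ (t2 y hy))
  have e2 : W ⊓ uG k V θ r g ν = W := inf_eq_left.2 fun y hy =>
    QU_mem_uG.2 fun i hi => QVal.Ge.of_le (hν _ (t3 y hy i hi))
  have h4 := (main _ ν (hν _ t0) rfl).2 (r * (r + 1) ^ 2) (by
    rw [e1, e2]
    exact Nat.add_le_add_left (Nat.mul_le_mul_left _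
      ((Finset.card_filter_le _ _).trans hB)) _) x hx (QVal.Ge.of_le (hν _ (t2 x hx)))
  rw [pow_succ', Module.End.mul_apply]
  exact h3 ν0 le_rfl _ (QU_pow_mem hNW _ x hx) h4

/-- If `θ` is integral take `ν0 = -γ`; otherwise take `ν0` larger than the orders of all elements
of `W` and of `θ * x`, `x ∈ W`. -/
theorem qu_core {kb : Type} [Field kb] [Algebra kb Ω] (hres : V.HasRes kb) (h : Nm k V r g γ)
    (hφ : IsDr θ r g φ) (W : Submodule k Ω) [FiniteDimensional k W] (hW : ∀ x ∈ W, φ x ∈ W)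
    (N : Ω →ₗ[k] Ω) (hNW : ∀ x ∈ W, N x ∈ W) (hc : ∀ x, N (φ x) = φ (N x))
    (h1 : ∀ x ∈ W, V.Ge (N x) (V.ord x)) (h2 : ∀ x ∈ W, ¬Dp V θ γ x → V.Gt (N x) (V.ord x))
    {x : Ω} (hx : x ∈ W) :
    (N ^ (r * (r + 1) ^ 2 + 1)) x = 0 ∨ Dp V θ γ ((N ^ (r * (r + 1) ^ 2 + 1)) x) := by
  classical
  have h3 : ∀ ν : ℚ, (V.Ge θ 0 → ν ≤ -γ) → ∀ x ∈ W, V.Ge x ν → V.Gt (N x) ν := fun ν hν x hx h0 => by
    by_cases e : x = 0
    · rw [e, map_zero]; exact V.gt_zero _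
    by_cases hD : Dp V θ γ x
    · exact (h1 x hx).gt ((hν hD.1).trans_lt (hD.2.lt e))
    · exact (h2 x hx hD).mono (h0.le e)
  have t0 : ∀ x, trm k θ g 0 x = θ * x := fun x => by simp [trm_apply]
  have t1 : ∀ i ∈ Finset.Icc 1 r, ∀ x, trm k θ g i x = g i * x ^ Nat.card k ^ i := fun i hi x => by
    rw [trm_apply, if_neg (by have := (Finset.mem_Icc.1 hi).1; omega)]
  by_cases hθ : V.Ge θ 0
  · obtain ⟨j, j1, j2, j3⟩ := h.eq
    have hq : 1 < Nat.card k ^ j :=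
      Nat.one_lt_pow (by have := (Finset.mem_Icc.1 j1).1; omega) Finite.one_lt_card
    have hq' : (1 : ℚ) < (Nat.card k : ℚ) ^ j := by exact_mod_cast hq
    have key : ∀ {ν : ℚ} {y : Ω}, y ∈ uG k V θ r g ν → y ≠ 0 →
        ν + γ ≤ (Nat.card k : ℚ) ^ j * (V.ord y + γ) := fun {ν y} hy e => by
      have k1 := QU_mem_uG.1 hy j (Finset.mem_range.2 (by have := (Finset.mem_Icc.1 j1).2; omega))
      rw [t1 j j1] at k1
      have k2 := k1.le (mul_ne_zero j2 (pow_ne_zero _ e))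
      rw [V.ord_mul j2 (pow_ne_zero _ e), V.ord_pow, j3] at k2
      push_cast at k2
      linarith
    refine Or.inr ⟨hθ, qu_ind hres hφ W hW N hNW hc (-γ) ?_ (fun ν hν y hy => ?_)
      (fun ν hν => h3 ν fun _ => hν) x hx⟩
    · ext y
      refine and_congr_right fun _ => ⟨fun hy => ?_, fun hy => QU_mem_uG.2 fun i hi => ?_⟩
      · by_cases e : y = 0
        · exact Or.inl e
        · have := key hy e
          exact Or.inr (by nlinarith)
      · by_cases e : i = 0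
        · rw [e, t0]; exact hθ.mul₀ hy
        · have k1 : i ∈ Finset.Icc 1 r :=
            Finset.mem_Icc.2 ⟨by omega, by have := Finset.mem_range.1 hi; omega⟩
          rw [t1 i k1]
          refine ((h.ge i k1).mul (QVal.Ge.pow hy _)).mono (le_of_eq ?_)
          push_cast
          ring
    · by_cases e : y = 0
      · exact Or.inl e
      · have := key hy e
        refine Or.inr (lt_of_not_ge fun k1 => ?_)
        nlinarith
  · obtain ⟨k0, k1⟩ := QVal.not_ge_iff.1 hθ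
    have : Finite W := Module.finite_of_finite k
    obtain ⟨ν0, hν0⟩ := (((Set.toFinite (W : Set Ω)).image V.ord).bddAbove)
    have k2 : ∀ y ∈ W, V.Ge y (ν0 + 1) → y = 0 := fun y hy e =>
      e.resolve_right fun e' => by linarith [hν0 ⟨y, hy, rfl⟩]
    have k3 : ∀ (ν : ℚ) (y : Ω), y ∈ uG k V θ r g ν → V.Gt y ν := fun ν y hy => by
      have k4 := QU_mem_uG.1 hy 0 (Finset.mem_range.2 (by omega))
      rw [t0, mul_comm, QVal.ge_mul_iff k0] at k4
      exact k4.gt (by linarith)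
    refine Or.inl (k2 _ (QU_pow_mem hNW _ x hx) (qu_ind hres hφ W hW N hNW hc (ν0 + 1) ?_
      (fun ν _ y hy => k3 ν y hy) (fun ν _ => h3 ν fun e => absurd e hθ) x hx).ge)
    ext y
    refine and_congr_right fun hy => ⟨fun e => (k3 _ y e).ge, fun e => ?_⟩
    rw [k2 y hy e]
    exact Submodule.zero_mem _

end gen

variable {k kb K Ω : Type} [Field k] [Finite k] [Field kb] [Field K] [Field Ω] [Algebra k kb]
  [Algebra k K] [Algebra k Ω] [Algebra kb K] [Algebra kb Ω] [Algebra K Ω]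
  [IsScalarTower k kb K] [IsScalarTower k kb Ω] [IsScalarTower k K Ω] [IsScalarTower kb K Ω]
  [IsAlgClosed kb] [Algebra.IsAlgebraic k kb] [IsSepClosed Ω] [IsGalois K Ω] [IsFF kb K]
  {θ : K} {r : ℕ} {V : QVal Ω} {v : Place kb K} {γ : ℚ}

/-- `qu_core` for `N = σ ^ n0 - 1` (`tch_n0`, `tch_pow`, `gt_tch`); one more application of `N`
kills the result, and `N ^ p ^ e = σ ^ (n0 * p ^ e) - 1` (`sub_pow_char_pow_of_commute` in
`Module.End k Ω`, which has characteristic `p`). -/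
theorem qu_fix (D : DM k Ω θ r) (hr : 0 < r) (hV : V.Over v) (hN : NmD D V γ) {σ : Ω ≃ₐ[K] Ω}
    (hσ : σ ∈ V.stab K) {a : k[X]} (ha : a ≠ 0)
    (hfix : ∀ y ∈ tors D.φ a, DpD V θ γ y → σ y = y) {e : ℕ}
    (he : r * (r + 1) ^ 2 + 2 ≤ ringChar k ^ e) {y : Ω} (hy : y ∈ tors D.φ a) :
    (σ ^ (n0 (Nat.card k) r * ringChar k ^ e)) y = y := by
  have hres : V.HasRes kb := hV.hasRes
  have hτ : σ ^ n0 (Nat.card k) r ∈ V.stab K := pow_mem hσ _
  have hfix' : ∀ (n : ℕ), ∀ y ∈ tors D.φ a, DpD V θ γ y → (σ ^ n) y = y := fun n y h1 h2 => by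
    induction n with
    | zero => rfl
    | succ n ih => rw [pow_succ, AlgEquiv.mul_apply, hfix y h1 h2, ih]
  have htch : ∀ x ∈ tors D.φ a, x ≠ 0 → ¬DpD V θ γ x →
      V.tch kb (σ ^ n0 (Nat.card k) r : Ω ≃ₐ[K] Ω) (V.ord x) = 1 := fun x h1 h2 h3 => by
    rw [hres.tch_pow hσ]
    exact tch_n0 D hr hV hN hσ ha h1 h2 h3
  rw [pow_mul]
  have hfix'' := hfix' (n0 (Nat.card k) r)
  generalize σ ^ n0 (Nat.card k) r = τ at hτ htch hfix''
  let L : Module.End k Ω := (τ.restrictScalars k).toLinearMap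
  have hL : ∀ (n : ℕ) x, (L ^ n) x = (τ ^ n) x := fun n x => by
    induction n with
    | zero => rfl
    | succ n ih => rw [pow_succ', pow_succ', Module.End.mul_apply, AlgEquiv.mul_apply, ih]; rfl
  have hN1 : ∀ x, (L - 1) x = τ x - x := fun x => rfl
  have : Finite (tors D.φ a) := (tors_finite D.dr hr (dm_ne D) ha).1
  have : FiniteDimensional k (tors D.φ a) := Module.Finite.of_finite
  have hNW : ∀ x ∈ tors D.φ a, (L - 1) x ∈ tors D.φ a := fun x hx =>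
    Submodule.sub_mem _ (aut_tors D τ hx) hx
  have h1 := qu_core hres hN D.dr (tors D.φ a) (fun x hx => phi_mem_tors hx) (L - 1) hNW
    (fun x => by
      have := aut_comm D.dr τ X x
      rw [aeval_X] at this
      rw [hN1, hN1, map_sub, this])
    (fun x _ => by
      rw [hN1]
      exact ((QVal.ge_stab hτ).2 (V.ge_ord x)).sub (V.ge_ord x))
    (fun x hx hD => by
      by_cases e : x = 0
      · rw [e, map_zero]; exact V.gt_zero _
      · have := hres.gt_tch hτ x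
        rwa [htch x hx e hD, map_one, one_mul] at this) hy
  have h2 : ((L - 1) ^ (r * (r + 1) ^ 2 + 2) : Module.End k Ω) y = 0 := by
    rw [pow_succ', Module.End.mul_apply]
    rcases h1 with e | e
    · rw [e, map_zero]
    · rw [hN1, hfix'' _ (QU_pow_mem hNW _ y hy) e, sub_self]
  have h3 : ((L - 1) ^ (ringChar k ^ e) : Module.End k Ω) y = 0 := by
    obtain ⟨c, hc⟩ := Nat.exists_eq_add_of_le' he
    rw [hc, pow_add, Module.End.mul_apply, h2, map_zero]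
  have : Fact (ringChar k).Prime := ⟨CharP.char_is_prime k _⟩
  have : CharP (Module.End k Ω) (ringChar k) :=
    charP_of_injective_algebraMap (algebraMap k (Module.End k Ω)).injective _
  rw [sub_pow_char_pow_of_commute _ _ (Commute.one_right L), one_pow, LinearMap.sub_apply, hL,
    Module.End.one_apply, sub_eq_zero] at h3
  exact h3

end Pool.Agent.Lib.MP_6adaea_nt.T
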