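import Pool.Agent.Lib.MP_6adaea_nt.T.Lay
import Pool.Agent.Lib.MP_6adaea_nt.T.QU

/-!
The tame case at a large prime.
-/

set_option linter.unusedSectionVars false

namespace Pool.Agent.Lib.MP_6adaea_nt.T
open Matrix Polynomial G U Module

theorem ltor_geo {Q h c : ℕ} (hc : c < h) (w m : ℕ) :
    Q ^ h * ∑ j ∈ Finset.range (h * m), (if j % h = c then w else 0) * Q ^ j + w * Q ^ c =
      ∑ j ∈ Finset.range (h * m), (if j % h = c then w else 0) * Q ^ j +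
        w * Q ^ c * Q ^ (h * m) := by
  induction m with
  | zero => simp
  | succ m ih =>
    have e : ∑ i ∈ Finset.range h, (if (h * m + i) % h = c then w else 0) * Q ^ (h * m + i) =
        w * Q ^ c * Q ^ (h * m) := by
      rw [Finset.sum_eq_single c]
      · rw [Nat.mul_add_mod, Nat.mod_eq_of_lt hc, if_pos rfl]
        ring
      · intro i hi hne
        rw [Nat.mul_add_mod, Nat.mod_eq_of_lt (Finset.mem_range.1 hi), if_neg hne, zero_mul]
      · intro h1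
        exact absurd (Finset.mem_range.2 hc) h1
    rw [Nat.mul_succ, Finset.sum_range_add, e, pow_add]
    nlinarith [ih]

/-- geometric sums -/
theorem geo_digits {Q u h c : ℕ} (hQ : 1 ≤ Q) (hu : h ∣ u) (hc : c < h) (w : ℕ) :
    (Q ^ h - 1) * ∑ j : Fin u, (if (j : ℕ) % h = c then w else 0) * Q ^ (j : ℕ) =
      w * Q ^ c * (Q ^ u - 1) := by
  obtain ⟨m, rfl⟩ := hu
  rw [Fin.sum_univ_eq_sum_range (fun j => (if j % h = c then w else 0) * Q ^ j)]
  have h1 := ltor_geo (Q := Q) hc w m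
  have h2 : 1 ≤ Q ^ h := Nat.one_le_pow _ _ hQ
  have h3 : 1 ≤ Q ^ (h * m) := Nat.one_le_pow _ _ hQ
  zify [h2, h3] at h1 ⊢
  linarith

/-- the quotient of two geometric numbers -/
theorem ltor_div {Q h u w c S : ℕ} (hQ : 1 < Q) (hh : 0 < h) (hu : 0 < u)
    (e : (Q ^ h - 1) * S = w * Q ^ c * (Q ^ u - 1)) :
    (w : ℚ) * (Q : ℚ) ^ c / ((Q : ℚ) ^ h - 1) = ((S : ℤ) : ℚ) / ((Q ^ u - 1 : ℕ) : ℚ) := by
  have h2 : 1 < Q ^ h := Nat.one_lt_pow hh.ne' hQ
  have h3 : 1 < Q ^ u := Nat.one_lt_pow hu.ne' hQ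
  have h4 : (1 : ℚ) < (Q : ℚ) ^ h := by exact_mod_cast h2
  have h5 : (1 : ℚ) < (Q : ℚ) ^ u := by exact_mod_cast h3
  have e' : ((Q : ℚ) ^ h - 1) * S = w * (Q : ℚ) ^ c * ((Q : ℚ) ^ u - 1) := by
    have := congrArg (Nat.cast : ℕ → ℚ) e
    push_cast [h2.le, h3.le] at this
    exact this
  rw [Nat.cast_sub h3.le, div_eq_div_iff (by linarith) (by push_cast; linarith)]
  push_cast
  linarith

/-- a small multiple is not divisible -/
theorem ltor_ne {F : Type} [Field F] {ω : F} {L a A n : ℕ} (hω : IsPrimitiveRoot ω L)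
    (hL : a * A = L) (hL0 : 0 < L) (h0 : 0 < n) (hn : n < a) : ω ^ (n * A) ≠ 1 := by
  intro e
  have h1 := (hω.pow_eq_one_iff_dvd _).1 e
  have hA : 0 < A := Nat.pos_of_ne_zero fun e => by simp [← hL, e] at hL0
  rw [← hL] at h1
  exact absurd (Nat.le_of_dvd h0 (Nat.dvd_of_mul_dvd_mul_right hA h1)) (not_le.2 hn)

variable {k kb K Ω : Type} [Field k] [Finite k] [Field kb] [Field K] [Field Ω] [Algebra k kb]
  [Algebra k K] [Algebra k Ω] [Algebra kb K] [Algebra kb Ω] [Algebra K Ω]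
  [IsScalarTower k kb K] [IsScalarTower k kb Ω] [IsScalarTower k K Ω] [IsScalarTower kb K Ω]
  [IsAlgClosed kb] [Algebra.IsAlgebraic k kb] [IsSepClosed Ω] [IsGalois K Ω] [IsFF kb K]
  {θ : K} {r : ℕ} {V : QVal Ω} {v : Place kb K} {γ : ℚ}

/-- a generator of tame inertia whose `n0`-th power fixes the `b`-torsion -/
theorem ltor_gen (hr : 0 < r) (D : DM k Ω θ r) (hV : V.Over v) (hN : NmD D V γ) {b : k[X]}
    (hb : ¬V.Gt (aeval (algebraMap K Ω θ) b) 0) {n : ℕ} (hn : 0 < n) :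
    ∃ σ ∈ V.stab K, ∃ ω : kb, IsPrimitiveRoot ω (Nat.card k ^ n - 1) ∧
      (∀ m : ℤ, V.tch kb σ (m / (Nat.card k ^ n - 1 : ℕ)) = ω ^ m) ∧
      ∀ y ∈ tors D.φ b, (σ ^ n0 (Nat.card k) r : Ω ≃ₐ[K] Ω) y = y := by
  obtain ⟨p, hp, hk, hkb, f, hf, hq⟩ := exists_char k kb
  have h1 : 1 ≤ Nat.card k ^ n := Nat.one_le_pow _ _ Nat.card_pos
  have hM : ((Nat.card k ^ n - 1 : ℕ) : kb) ≠ 0 := by
    rw [Nat.cast_sub h1, hq]
    push_cast
    rw [CharP.cast_eq_zero kb p, zero_pow hf.ne', zero_pow hn.ne']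
    simp
  have hcop : p.Coprime (Nat.card k ^ n - 1) :=
    (Nat.Prime.coprime_iff_not_dvd hp.out).2 fun h => hM ((CharP.cast_eq_zero_iff kb p _).2 h)
  obtain ⟨σ, hσ, ω, hω, ht⟩ := exists_gen hV hM
  have hrc : ringChar k = p := ringChar.eq k p
  have hb0 : b ≠ 0 := fun e => hb (by simp [e])
  set e := r * (r + 1) ^ 2 + 2
  have he : e ≤ ringChar k ^ e := by
    rw [hrc]
    exact (Nat.lt_pow_self hp.out.one_lt).le
  refine ⟨σ ^ p ^ e, pow_mem hσ _, ω ^ p ^ e, hω.pow_of_coprime _ (hcop.pow_left e),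
    fun m => ?_, fun y hy => ?_⟩
  · rw [hV.hasRes.tch_pow hσ, ht, ← _root_.zpow_natCast, ← _root_.zpow_natCast (n := p ^ e),
      ← _root_.zpow_mul, ← _root_.zpow_mul, mul_comm]
  · rw [← pow_mul, mul_comm, ← hrc]
    refine qu_fix D hr hV hN hσ hb0 (fun z hz hD => ?_) he hy
    rw [hN.eq_zero D.dr hb hz hD, map_zero]

/-- the tame character at a point of the formal group -/
theorem ltor_tch (D : DM k Ω θ r) (hV : V.Over v) (hN : NmD D V γ) {σ : Ω ≃ₐ[K] Ω}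
    (hσ : σ ∈ V.stab K) (m : ℚ) :
    V.tch kb (σ ^ n0 (Nat.card k) r : Ω ≃ₐ[K] Ω) m =
      V.tch kb σ (n0 (Nat.card k) r * (m + γ)) := by
  obtain ⟨n, hn⟩ := hN.int fun i => ⟨_, hV (D.g i)⟩
  rw [mul_add, hn, hV.hasRes.tch_add (all_ord hV) hσ, hV.hasRes.tch_int hV hσ, mul_one,
    hV.hasRes.tch_pow hσ, ← zpow_natCast, ← hV.hasRes.tch_zsmul (all_ord hV) hσ, Int.cast_natCast]

/-- Let `Q = q ^ deg P`, `L = Q ^ r ! - 1`, `σ₀`, `ω₀` from `exists_gen`, `σ₁ = σ₀ ^ p ^ e` with `e`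
as in `qu_fix`, `ω = ω₀ ^ p ^ e`, `σ = σ₁ ^ n0`. It fixes the `b`-torsion by `qu_fix` and
`Nm.eq_zero`. The eigenvalues come from `ts` (`m = n0`, `n = 1`), `root_pow_ne`, `geo_digits`,
`ord_aeval_root`. For `x` apply `layer_val`; `j = 0` since `x` has maximal order. So
`t = tch σ (ord x) = ω ^ (w * L / (Q ^ h - 1))` is an eigenvalue (`eig_conv`), `0 < w ≤ D0`. If
`h ≥ 2` then `t ^ Q ≠ t` is another one (`root_frob`, `root_pow`) because `Q ^ h - 1` does not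
divide `w * (Q - 1)`. If `h = 1` then `t ≠ 1` and `1` is an eigenvalue (`eig_one`, `tch_n0`). -/
theorem tor_data (hB : Base kb θ) (hr : 0 < r) (D : DM k Ω θ r) (hV : V.Over v)
    (hN : NmD D V γ) {P b : k[X]} (hP : Irreducible P) (E : Coord D.φ P (Fin r))
    (hζ : aeval (rth kb V θ) P = 0) (hb : ¬V.Gt (aeval (algebraMap K Ω θ) b) 0) {x : Ω}
    (hx : x ∈ tors D.φ P) (h0 : x ≠ 0) (hxD : DpD V θ γ x)
    (htop : ∀ y ∈ tors D.φ P, y ≠ 0 → V.ord y ≤ V.ord x)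
    (hnw : ¬((∀ y ∈ tors D.φ P, DpD V θ γ y) ∧
      Nat.card (tors D.φ P ⊓ dG k V (V.ord x) : Submodule k Ω) = Nat.card k ^ P.natDegree))
    {D0 : ℕ} (hD : n0 (Nat.card k) r * V.ord (aeval (algebraMap K Ω θ) P) ≤ D0)
    (hQ : D0 + 1 < Nat.card k ^ P.natDegree) :
    ∃ (σ : Ω ≃ₐ[K] Ω) (ω : kb), (∀ y ∈ tors D.φ b, σ y = y) ∧
      IsPrimitiveRoot ω ((Nat.card k ^ P.natDegree) ^ r.factorial - 1) ∧ ∀ B, Act E σ B →
        (∀ ε, (B.map (aeval (rth kb V θ))).charpoly.IsRoot ε → ∃ e : Fin r.factorial → ℕ,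
          (∀ j, e j ≤ D0) ∧ ε = ω ^ (∑ j, e j * (Nat.card k ^ P.natDegree) ^ (j : ℕ))) ∧
        ∃ ε ε', ε ≠ ε' ∧ (B.map (aeval (rth kb V θ))).charpoly.IsRoot ε ∧
          (B.map (aeval (rth kb V θ))).charpoly.IsRoot ε' := by
  have hd : 0 < P.natDegree := hP.natDegree_pos
  have hR : 0 < r.factorial := r.factorial_pos
  obtain ⟨σ, hσ, ω, hω, ht, hfix⟩ := ltor_gen hr D hV hN hb (Nat.mul_pos hd hR)
  rw [pow_mul] at hω ht
  set Q := Nat.card k ^ P.natDegree with hQdef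
  have hQ1 : 1 < Q := by omega
  have hQc : (Nat.card k : ℚ) ^ P.natDegree = Q := by rw [hQdef]; push_cast; rfl
  have hL : 0 < Q ^ r.factorial - 1 := Nat.sub_pos_of_lt (Nat.one_lt_pow hR.ne' hQ1)
  refine ⟨σ ^ n0 (Nat.card k) r, ω, hfix, hω, fun B hA => ⟨fun ε hε => ?_, ?_⟩⟩
  · rcases ts hB D hr hV hσ (mul_one _) hP E hA hζ hε with h1 | ⟨w, h, c, ρ, h1, h2, h3, h4, h5, h6, h7⟩
    · exact ⟨0, fun _ => Nat.zero_le _, by simpa using h1⟩
    · obtain rfl := root_pow_ne hP hζ h4 h5.symm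
      have hw : w ≤ D0 := by
        rw [ord_aeval_root hV hxD.1 hP hζ] at hD
        have h8 : (w : ℚ) ≤ n0 (Nat.card k) r * (v.ord (θ - algebraMap kb K (rth kb V θ)) : ℚ) := by
          exact_mod_cast h6
        exact_mod_cast h8.trans hD
      refine ⟨fun j => if (j : ℕ) % h = c then w else 0, fun j => ?_, ?_⟩
      · dsimp only
        split_ifs
        · exact hw
        · exact Nat.zero_le _
      · rw [pow_one, add_zero, pow_mul, hQc,
          ltor_div hQ1 h1 hR (geo_digits hQ1.le (Nat.dvd_factorial h1 h2) h3 w), ht,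
          zpow_natCast] at h7
        exact h7
  · obtain ⟨j, h, w, h1, h2, h3, h4, h5, h6, h7⟩ := layer_val hB D hV hN hP E hx h0 hxD
    have hbot : (tors D.φ P ⊓ dS k V (V.ord x) : Submodule k Ω) = ⊥ := by
      rw [eq_bot_iff]
      intro y hy
      by_contra hy0
      exact absurd (QVal.Gt.lt hy.2 hy0) (not_lt.2 (htop y hy.1 hy0))
    have hj : j = 0 := by
      rw [hbot, Nat.card_unique] at h7
      exact (Nat.pow_eq_one.1 h7.symm).resolve_left hQ1.ne'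
    subst hj
    have hw : w ≤ D0 := by exact_mod_cast h4.trans hD
    obtain ⟨A, hA'⟩ : Q ^ h - 1 ∣ Q ^ r.factorial - 1 :=
      Nat.pow_sub_one_dvd_pow_sub_one Q (Nat.dvd_factorial h1 (by omega))
    have hh1 : (1 : ℚ) < (Q : ℚ) ^ h := by exact_mod_cast Nat.one_lt_pow h1.ne' hQ1
    have htv : V.tch kb (σ ^ n0 (Nat.card k) r : Ω ≃ₐ[K] Ω) (V.ord x) = ω ^ (w * A) := by
      have e1 : (n0 (Nat.card k) r : ℚ) * (V.ord x + γ) = w * (Q : ℚ) ^ 0 / ((Q : ℚ) ^ h - 1) := by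
        rw [hQc] at h5
        rw [eq_div_iff (by linarith), ← h5]
        ring
      rw [ltor_tch D hV hN hσ, e1, ltor_div (S := w * A) hQ1 h1 hR (by rw [hA']; ring), ht,
        zpow_natCast]
    have hroot := eig_conv D hV hN (pow_mem hσ _) E hA hx h0 hxD
    rw [htv] at hroot
    rcases Nat.lt_or_ge 1 h with hh | hh
    · have hroot' := root_frob B hroot P.natDegree
      rw [root_pow hP hζ] at hroot'
      refine ⟨_, _, fun e => ?_, hroot', hroot⟩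
      have hlt : w * (Q - 1) < Q ^ h - 1 := by
        have h8 : Q ^ 2 ≤ Q ^ h := Nat.pow_le_pow_right hQ1.le hh
        obtain ⟨a, ha⟩ : ∃ a, Q = a + 1 := ⟨Q - 1, by omega⟩
        have h9 : w * a ≤ a * a := Nat.mul_le_mul_right a (by omega)
        rw [ha] at h8 ⊢
        rw [Nat.add_sub_cancel]
        have : 0 < a := by omega
        have h10 : (a + 1) ^ 2 = a * a + 2 * a + 1 := by ring
        omega
      refine ltor_ne hω hA'.symm hL (Nat.mul_pos h3 (by omega)) hlt ?_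
      have hne : ω ^ (w * A) ≠ 0 := pow_ne_zero _ (hω.ne_zero hL.ne')
      refine mul_right_cancel₀ hne ?_
      rw [one_mul, ← pow_add]
      refine Eq.trans ?_ e
      rw [← hQdef, ← pow_mul]
      congr 1
      obtain ⟨a, ha⟩ : ∃ a, Q = a + 1 := ⟨Q - 1, by omega⟩
      rw [ha, Nat.add_sub_cancel]
      ring
    · obtain rfl : h = 1 := by omega
      refine ⟨_, 1, ltor_ne hω hA'.symm hL h3 (by rw [pow_one]; omega), hroot, ?_⟩
      refine eig_one (γ := γ) D hV (pow_mem hσ _) hP E hA hζ (fun y hy y0 hyD => ?_) ?_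
      · rw [hV.hasRes.tch_pow hσ]
        exact tch_n0 D hr hV hN hσ hP.ne_zero hy y0 hyD
      · by_contra hc
        refine hnw ⟨fun y hy => ?_, by simpa using h6⟩
        by_contra hyD
        exact hc ⟨y, hy, fun e => hyD ⟨hxD.1, by simp [e]⟩, hyD⟩

end Pool.Agent.Lib.MP_6adaea_nt.T
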