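import Pool.Agent.Lib.MP_6adaea_nt.T.Poly

/-!
The normalised division polynomials.
-/

set_option linter.unusedSectionVars false

namespace Pool.Agent.Lib.MP_6adaea_nt.T
open Matrix Polynomial G U Module

variable {k Ω : Type} [Field k] [Finite k] [Field Ω] [Algebra k Ω]
  {θ : Ω} {r : ℕ} {g : ℕ → Ω} {φ : Ω →ₗ[k] Ω} {V : QVal Ω} {γ : ℚ}

variable {kb : Type} [Field kb] [Algebra kb Ω]

theorem poly2_coeff_one {R : Type} [CommRing R] (p : R[X]) {F : R[X]} (h : F.coeff 0 = 0) :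
    (p.comp F).coeff 1 = p.coeff 1 * F.coeff 1 := by
  have e : ∀ q : R[X], q.coeff 1 = (derivative q).eval 0 := fun q => by
    rw [← coeff_zero_eq_eval_zero, coeff_derivative]
    simp
  rw [e, e, e F, derivative_comp, eval_mul, eval_comp, ← coeff_zero_eq_eval_zero F, h, mul_comm]

theorem poly2_dvd {R ι : Type} [CommRing R] [IsDomain R] (S : Finset ι) (f : ι → R)
    (hf : Set.InjOn f S) {p : R[X]} (hp : ∀ i ∈ S, p.eval (f i) = 0) :
    ∏ i ∈ S, (X - C (f i)) ∣ p := by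
  by_cases h0 : p = 0
  · rw [h0]
    exact dvd_zero _
  have h1 := (Multiset.prod_X_sub_C_dvd_iff_le_roots h0 (S.val.map f)).2
    ((Multiset.le_iff_subset (S.nodup.map_on hf)).2 fun x hx => by
      obtain ⟨i, hi, rfl⟩ := Multiset.mem_map.1 hx
      exact (mem_roots h0).2 (hp i hi))
  rwa [Multiset.map_map] at h1

theorem poly2_eq {R ι : Type} [CommRing R] [IsDomain R] (S : Finset ι) (f : ι → R)
    (hf : Set.InjOn f S) {p : R[X]} (hp : ∀ i ∈ S, p.eval (f i) = 0) (hd : p.natDegree = S.card) :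
    p = C p.leadingCoeff * ∏ i ∈ S, (X - C (f i)) :=
  eq_leadingCoeff_mul_of_monic_of_dvd_of_natDegree_le (monic_prod_X_sub_C f S)
    (poly2_dvd S f hf hp) (by rw [hd, natDegree_finsetProd_X_sub_C_eq_card])

theorem poly2_base (hres : V.HasRes kb) (h : Nm k V r g γ) (hφ : IsDr θ r g φ)
    (hθ : V.Ge θ 0) {u : Ω} (hu : u ≠ 0) (hu' : V.ord u = -γ) :
    ∃ i ∈ Finset.Icc 1 r, g i ≠ 0 ∧ V.ord (g i) = ((Nat.card k : ℚ) ^ i - 1) * γ ∧
      ∃ F : Polynomial V.O, (∀ z, (F.map V.O.subtype).eval z = u⁻¹ * φ (u * z)) ∧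
        F.coeff 0 = 0 ∧ (F.coeff 1 : Ω) = θ ∧
        (F.map hres.resHom).natDegree = Nat.card k ^ i := by
  classical
  have hq : 1 < Nat.card k := Finite.one_lt_card
  have h1 : ∀ j, V.ord (u ^ (Nat.card k ^ j - 1)) = -(((Nat.card k : ℚ) ^ j - 1) * γ) := fun j => by
    rw [V.ord_pow, hu', Nat.cast_sub (Nat.one_le_pow _ _ (by omega))]
    push_cast
    ring
  have h2 : ∀ j, ∃ c : V.O, j ∈ Finset.Icc 1 r → (c : Ω) = g j * u ^ (Nat.card k ^ j - 1) :=
    fun j => by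
      by_cases hj : j ∈ Finset.Icc 1 r
      · refine ⟨⟨_, ?_⟩, fun _ => rfl⟩
        rw [QVal.mem_O, QVal.ge_mul_iff (pow_ne_zero _ hu), h1, zero_sub, neg_neg]
        exact h.ge j hj
      · exact ⟨0, fun e => (hj e).elim⟩
  choose c hc using h2
  obtain ⟨i, hi, hmax⟩ := Finset.exists_max_image ((Finset.Icc 1 r).filter fun j =>
    g j ≠ 0 ∧ V.ord (g j) = ((Nat.card k : ℚ) ^ j - 1) * γ) id
    (h.eq.imp fun j hj => Finset.mem_filter.2 hj)
  obtain ⟨hi1, hi2, hi3⟩ := Finset.mem_filter.1 hi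
  have h3 : ∀ j ∈ Finset.Icc 1 r, 1 < Nat.card k ^ j := fun j hj =>
    Nat.one_lt_pow (by have := (Finset.mem_Icc.1 hj).1; omega) hq
  refine ⟨i, hi1, hi2, hi3, C ⟨θ, hθ⟩ * X + ∑ j ∈ Finset.Icc 1 r, C (c j) * X ^ (Nat.card k ^ j),
    fun z => ?_, ?_, ?_, ?_⟩
  · rw [hφ, mul_add, Finset.mul_sum]
    simp only [Polynomial.map_add, Polynomial.map_mul, Polynomial.map_sum, Polynomial.map_pow, map_C,
      map_X, eval_add, eval_mul, eval_finsetSum, eval_pow, eval_C, eval_X, Subring.subtype_apply]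
    congr 1
    · field_simp
    · refine Finset.sum_congr rfl fun j hj => ?_
      obtain ⟨n, hn⟩ : ∃ n, Nat.card k ^ j = n + 1 := ⟨_, (Nat.sub_add_cancel (h3 j hj).le).symm⟩
      rw [hc j hj, hn, Nat.add_sub_cancel, mul_pow, pow_succ u]
      field_simp
  · rw [coeff_add, finsetSum_coeff, Finset.sum_eq_zero fun j hj => by
      rw [coeff_C_mul_X_pow, if_neg (by have := h3 j hj; omega)]]
    simp
  · rw [coeff_add, finsetSum_coeff, Finset.sum_eq_zero fun j hj => by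
      rw [coeff_C_mul_X_pow, if_neg (by have := h3 j hj; omega)]]
    simp
  · simp only [Polynomial.map_add, Polynomial.map_mul, Polynomial.map_sum, Polynomial.map_pow, map_C,
      map_X]
    refine natDegree_eq_of_le_of_coeff_ne_zero (natDegree_add_le_of_degree_le
      (((natDegree_C_mul_le _ _).trans natDegree_X_le).trans (h3 i hi1).le)
      (natDegree_sum_le_of_forall_le _ _ fun j hj => ?_)) ?_
    · rcases le_or_gt j i with hji | hji
      · exact (natDegree_C_mul_X_pow_le _ _).trans (Nat.pow_le_pow_right hq.le hji)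
      · have e : hres.resHom (c j) = 0 := by
          rw [hres.resHom_apply, hres.res_eq_zero (c j).2, hc j hj,
            QVal.gt_mul_iff (pow_ne_zero _ hu), h1, zero_sub, neg_neg]
          by_contra e
          obtain ⟨e1, e2⟩ := QVal.not_gt_iff.1 e
          exact absurd (hmax j (Finset.mem_filter.2
            ⟨hj, e1, le_antisymm e2 ((h.ge j hj).le e1)⟩)) (not_le.2 hji)
        rw [e, C_0, zero_mul, natDegree_zero]
        exact Nat.zero_le _
    · rw [coeff_add, finsetSum_coeff, Finset.sum_eq_single_of_mem i hi1 fun j _ hji => by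
        rw [coeff_C_mul_X_pow, if_neg fun e => hji (Nat.pow_right_injective hq e).symm],
        coeff_C_mul_X_pow, if_pos rfl, coeff_C_mul_X, if_neg (h3 i hi1).ne', zero_add,
        hres.resHom_apply, hc i hi1]
      refine hres.res_ne_zero (mul_ne_zero hi2 (pow_ne_zero _ hu)) ?_
      rw [V.ord_mul hi2 (pow_ne_zero _ hu), h1, hi3, add_neg_cancel]

/-- The normalised division polynomial. `F = C θ * X + ∑ C (g i * u ^ (q ^ i - 1)) * X ^ q ^ i`
has coefficients in `V.O`, and its reduction has degree `q ^ i` for the largest `i` with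
`g i * u ^ (q ^ i - 1)` a unit. Induction on the degree of `a` as in `exists_poly`
(`natDegree_comp` over `kb`); all polynomials have constant coefficient zero. -/
theorem exists_int_poly (hres : V.HasRes kb) (h : Nm k V r g γ) (hφ : IsDr θ r g φ)
    (hθ : V.Ge θ 0) {u : Ω} (hu : u ≠ 0) (hu' : V.ord u = -γ) :
    ∃ i ∈ Finset.Icc 1 r, g i ≠ 0 ∧ V.ord (g i) = ((Nat.card k : ℚ) ^ i - 1) * γ ∧
      ∀ a : k[X], a ≠ 0 → ∃ Φ : Polynomial V.O,
        (∀ z, (Φ.map V.O.subtype).eval z = u⁻¹ * aeval φ a (u * z)) ∧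
        (Φ.coeff 1 : Ω) = aeval θ a ∧
        (Φ.map hres.resHom).natDegree = Nat.card k ^ (i * a.natDegree) := by
  obtain ⟨i, hi1, hi2, hi3, F, hF1, hF2, hF3, hF4⟩ := poly2_base hres h hφ hθ hu hu'
  refine ⟨i, hi1, hi2, hi3, fun a ha => ?_⟩
  have hq : 1 < Nat.card k := Finite.one_lt_card
  have hk : ∀ c : k, algebraMap k Ω c ∈ V.O := fun c => QVal.Ge.of_le (ord_k V c).ge
  induction hn : a.natDegree generalizing a with
  | zero =>
    obtain ⟨c, rfl⟩ := natDegree_eq_zero.1 hn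
    have hc : algebraMap k Ω c ≠ 0 := (_root_.map_ne_zero _).2 (C_ne_zero.1 ha)
    refine ⟨C ⟨_, hk c⟩ * X, fun y => ?_, ?_, ?_⟩
    · simp only [Polynomial.map_mul, map_C, map_X, eval_mul, eval_C, eval_X, Subring.subtype_apply,
        aeval_C, Module.algebraMap_end_apply, Algebra.smul_def]
      field_simp
    · simp
    · rw [Polynomial.map_mul, map_C, map_X, mul_zero, pow_zero]
      exact natDegree_C_mul_X _ (hres.res_ne_zero hc (ord_k V c))
  | succ n ih =>
    have hb : a.divX ≠ 0 := fun h => by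
      rw [divX_eq_zero_iff.1 h, natDegree_C] at hn
      omega
    obtain ⟨Φ, h1, h2, h3⟩ := ih _ hb (by rw [natDegree_divX_eq_natDegree_tsub_one, hn]; rfl)
    have he := a.divX_mul_X_add
    generalize a.divX = b at *
    generalize a.coeff 0 = c at he
    subst he
    have hd : ((Φ.comp F).map hres.resHom).natDegree = Nat.card k ^ (i * (n + 1)) := by
      rw [map_comp, natDegree_comp, h3, hF4, mul_add, mul_one, pow_add]
    refine ⟨Φ.comp F + C ⟨_, hk c⟩ * X, fun y => ?_, ?_, ?_⟩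
    · simp only [Polynomial.map_add, map_comp, eval_add, eval_comp, h1, hF1, Polynomial.map_mul, map_C,
        map_X, eval_mul, eval_C, eval_X, Subring.subtype_apply, map_add, map_mul, aeval_X, aeval_C,
        LinearMap.add_apply, Module.End.mul_apply, Module.algebraMap_end_apply, Algebra.smul_def,
        mul_inv_cancel_left₀ hu]
      field_simp
    · rw [coeff_add, poly2_coeff_one _ hF2, coeff_C_mul_X, if_pos rfl, map_add, map_mul, aeval_X,
        aeval_C, ← h2, ← hF3]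
      rfl
    · rw [Polynomial.map_add, natDegree_add_eq_left_of_natDegree_lt, hd]
      rw [hd, Polynomial.map_mul, map_C, map_X]
      exact ((natDegree_C_mul_le _ _).trans natDegree_X_le).trans_lt
        (Nat.one_lt_pow (mul_pos (Finset.mem_Icc.1 hi1).1 n.succ_pos).ne' hq)

theorem poly2_lift (V : QVal Ω) : ∃ f : Ω → V.O, ∀ y, V.Ge y 0 → (f y : Ω) = y := by
  have : ∀ y, ∃ c : V.O, V.Ge y 0 → (c : Ω) = y := fun y => by
    by_cases hy : V.Ge y 0
    · exact ⟨⟨y, hy⟩, fun _ => rfl⟩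
    · exact ⟨0, fun e => (hy e).elim⟩
  exact Classical.skolem.1 this

theorem poly2_root {Φ : Polynomial V.O} {x : V.O} (h : (Φ.map V.O.subtype).eval (x : Ω) = 0) :
    Φ.eval x = 0 := by
  apply Subtype.val_injective
  rw [← Subring.subtype_apply, eval_map, eval₂_hom] at h
  exact h

/-- The points `0` and `y / u`, `y ∈ S`, are distinct roots of `Φ` in the domain `V.O`, so
`X * ∏ (X - C (y / u))` divides `Φ` in `V.O[X]`
(`Multiset.prod_X_sub_C_dvd_iff_le_roots`); compare the coefficients of `X`. -/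
theorem Nm.sum_le (hres : V.HasRes kb) (h : Nm k V r g γ) (hφ : IsDr θ r g φ) (hθ : V.Ge θ 0)
    (hu : ∃ u, u ≠ 0 ∧ V.ord u = -γ) {a : k[X]} (ha : a ≠ 0) (S : Finset Ω)
    (hS : ∀ y ∈ S, y ≠ 0 ∧ aeval φ a y = 0 ∧ V.Ge y (-γ)) :
    V.Ge (aeval θ a) (∑ y ∈ S, (V.ord y + γ)) := by
  obtain ⟨u, hu, hu'⟩ := hu
  obtain ⟨i, -, -, -, h1⟩ := exists_int_poly hres h hφ hθ hu hu'
  obtain ⟨Φ, h1, h2, -⟩ := h1 a ha
  obtain ⟨f, hf⟩ := poly2_lift V
  have h3 : ∀ y ∈ S, (f (y / u) : Ω) = y / u := fun y hy => hf _ (by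
    rw [QVal.ge_div_iff hu, hu', zero_add]
    exact (hS y hy).2.2)
  obtain ⟨Ψ, rfl⟩ : X ∣ Φ := by
    rw [X_dvd_iff, coeff_zero_eq_eval_zero]
    refine poly2_root ?_
    rw [h1, ZeroMemClass.coe_zero, mul_zero, map_zero, mul_zero]
  obtain ⟨W, hW⟩ := poly2_dvd S (fun y => f (y / u)) (fun x hx y hy e => by
    have e1 := congrArg Subtype.val e
    simp only [h3 x hx, h3 y hy] at e1
    exact (div_left_inj' hu).1 e1) (p := Ψ) fun y hy => by
      have e1 : (X * Ψ).eval (f (y / u)) = 0 := poly2_root (by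
        rw [h1, h3 y hy, mul_div_cancel₀ _ hu, (hS y hy).2.1, mul_zero])
      rw [eval_mul, eval_X] at e1
      refine (mul_eq_zero.1 e1).resolve_left fun e2 => div_ne_zero (hS y hy).1 hu ?_
      rw [← h3 y hy, e2, ZeroMemClass.coe_zero]
  rw [← h2, coeff_X_mul, hW, mul_coeff_zero, coeff_zero_prod, MulMemClass.coe_mul,
    SubmonoidClass.coe_finsetProd, mul_comm]
  refine QVal.Ge.mul₀ (W.coeff 0).2 (QVal.Ge.prod fun y hy => ?_)
  rw [coeff_sub, coeff_X_zero, coeff_C_zero, zero_sub, NegMemClass.coe_neg, h3 y hy]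
  refine QVal.Ge.neg (QVal.Ge.of_le ?_)
  rw [V.ord_div (hS y hy).1 hu, hu', sub_neg_eq_add]

theorem poly2_tors [IsSepClosed Ω] (hφ : IsDr θ r g φ) (hr : 0 < r) (hg : g r ≠ 0)
    (ht : Transcendental k θ) {u : Ω} (hu : u ≠ 0) {a : k[X]} (ha : a ≠ 0) {P : Polynomial Ω}
    (hP : ∀ z, P.eval z = u⁻¹ * aeval φ a (u * z)) :
    ∃ T : Finset Ω, (∀ z, z ∈ T ↔ aeval φ a (u * z) = 0) ∧
      T.card = Nat.card k ^ (r * a.natDegree) ∧ P.natDegree = T.card := by
  have _ := ht.infinite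
  have hc := card_tors hφ hr hg ht ha
  rw [← Nat.card_congr (Equiv.subtypeEquiv (p := fun z => aeval φ a (u * z) = 0)
    (Equiv.mulLeft₀ u hu) fun _ => Iff.rfl)] at hc
  have hf : {z | aeval φ a (u * z) = 0}.Finite :=
    Nat.finite_of_card_ne_zero (hc.trans_ne (pow_pos Nat.card_pos _).ne')
  have h1 : hf.toFinset.card = Nat.card k ^ (r * a.natDegree) := by
    rw [← hc, ← Nat.card_eq_card_finite_toFinset]
    rfl
  refine ⟨hf.toFinset, fun z => hf.mem_toFinset, h1, ?_⟩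
  obtain ⟨Φ, h2, h3, -⟩ := exists_poly hφ hr hg ha
  have h4 : P = C u⁻¹ * Φ.comp (C u * X) := Polynomial.funext fun z => by simp [hP, h2]
  rw [h1, h4, natDegree_C_mul (inv_ne_zero hu), natDegree_comp, natDegree_C_mul_X _ hu, mul_one, h3]

/-- `Φ.map subtype` agrees with `z ↦ u⁻¹ * Φ₀ (u * z)` for `Φ₀` from `exists_poly` (`Ω` is
infinite), so it has degree `q ^ (r * deg a)` and by `card_tors` it is
`C c * X * ∏ (X - C (y / u))`, `y ≠ 0` torsion. If all `y / u` have order `≤ 0`, `np_coeff` shows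
that every coefficient has order at least that of the coefficient of `X`, so the reduction
vanishes; but its degree is positive. -/
theorem Nm.exists_small [IsSepClosed Ω] (hres : V.HasRes kb) (h : Nm k V r g γ)
    (hφ : IsDr θ r g φ) (hg : g r ≠ 0) (ht : Transcendental k θ) (hθ : V.Ge θ 0)
    (hu : ∃ u, u ≠ 0 ∧ V.ord u = -γ) {a : k[X]} (ha : a ≠ 0) (h0 : V.Gt (aeval θ a) 0) :
    ∃ x ∈ tors φ a, x ≠ 0 ∧ V.Gt x (-γ) := by
  classical
  obtain ⟨u, hu, hu'⟩ := hu
  obtain ⟨i, hi, -, -, h1⟩ := exists_int_poly hres h hφ hθ hu hu'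
  obtain ⟨Φ, h1, h2, h3⟩ := h1 a ha
  have hr : 0 < r := (Finset.mem_Icc.1 hi).1.trans (Finset.mem_Icc.1 hi).2
  obtain ⟨T, hT, -, h4⟩ := poly2_tors hφ hr hg ht hu ha h1
  by_contra hne
  have h5 : ∀ y ∈ T.erase 0, y ≠ 0 ∧ V.ord y ≤ 0 := fun y hy => by
    obtain ⟨e1, e2⟩ := Finset.mem_erase.1 hy
    refine ⟨e1, not_lt.1 fun e => hne ⟨u * y, (hT y).1 e2, mul_ne_zero hu e1, QVal.Gt.of_lt ?_⟩⟩
    rw [V.ord_mul hu e1, hu']
    linarith
  have h6 := poly2_eq T id (Set.injOn_id _) (fun z hz => by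
    rw [id, h1, (hT z).1 hz, mul_zero]) h4
  generalize (Φ.map V.O.subtype).leadingCoeff = c at h6
  rw [← Finset.mul_prod_erase T _ ((hT 0).2 (by rw [mul_zero, map_zero]))] at h6
  simp only [id, C_0, sub_zero] at h6
  have h7 : ∀ n, (Φ.coeff (n + 1) : Ω) = c * (∏ y ∈ T.erase 0, (X - C y)).coeff n := fun n => by
    rw [← coeff_X_mul (∏ y ∈ T.erase 0, (X - C y)), ← coeff_C_mul, ← h6, coeff_map,
      Subring.subtype_apply]
  have hθ0 : aeval θ a ≠ 0 := fun e => ha (transcendental_iff.1 ht a e)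
  have h8 : aeval θ a = c * ∏ y ∈ T.erase 0, (-y) := by
    rw [← h2, h7 0, coeff_zero_prod]
    simp
  have hc : c ≠ 0 := left_ne_zero_of_mul (h8 ▸ hθ0)
  have h9 : 0 < V.ord c + ∑ y ∈ T.erase 0, V.ord y := by
    have e := h0.lt hθ0
    rw [h8, V.ord_mul hc (right_ne_zero_of_mul (h8 ▸ hθ0)),
      V.ord_prod _ _ fun y hy => neg_ne_zero.2 (h5 y hy).1] at e
    simpa using e
  obtain ⟨n, hn⟩ : ∃ n, Nat.card k ^ (i * a.natDegree) = n + 1 :=
    ⟨_, (Nat.sub_add_cancel (pow_pos Nat.card_pos _)).symm⟩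
  have h10 : (Φ.map hres.resHom).leadingCoeff = 0 := by
    rw [leadingCoeff, h3, hn, coeff_map, hres.resHom_apply, hres.res_eq_zero (Φ.coeff _).2, h7]
    refine ((V.ge_ord c).mul (np_coeff _ h5 n)).gt ?_
    rwa [mul_zero, sub_zero]
  rw [leadingCoeff_eq_zero.1 h10, natDegree_zero] at h3
  omega

/-- If all roots reduce to zero the reduction is `C c * X ^ q ^ (r * deg a)`; it has degree
`q ^ (i * deg a) > 0`, so `i = r`. -/
theorem Nm.good [IsSepClosed Ω] (hres : V.HasRes kb) (h : Nm k V r g γ)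
    (hφ : IsDr θ r g φ) (hg : g r ≠ 0) (ht : Transcendental k θ) (hθ : V.Ge θ 0)
    (hu : ∃ u, u ≠ 0 ∧ V.ord u = -γ) {a : k[X]} (ha : 0 < a.natDegree)
    (h0 : ∀ x ∈ tors φ a, V.Gt x (-γ)) : V.ord (g r) = ((Nat.card k : ℚ) ^ r - 1) * γ := by
  obtain ⟨u, hu, hu'⟩ := hu
  have ha0 : a ≠ 0 := ne_zero_of_natDegree_gt ha
  obtain ⟨i, hi, -, hi', h1⟩ := exists_int_poly hres h hφ hθ hu hu'
  obtain ⟨Φ, h1, -, h3⟩ := h1 a ha0
  have hr : 0 < r := (Finset.mem_Icc.1 hi).1.trans (Finset.mem_Icc.1 hi).2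
  obtain ⟨T, hT, h2, h4⟩ := poly2_tors hφ hr hg ht hu ha0 h1
  obtain ⟨f, hf⟩ := poly2_lift V
  have h5 : ∀ y ∈ T, V.Gt y 0 := fun y hy => by
    have e := h0 _ ((hT y).1 hy)
    rwa [mul_comm, QVal.gt_mul_iff hu, hu', sub_self] at e
  rw [natDegree_map_eq_of_injective V.O.subtype_injective] at h4
  have h6 := poly2_eq T f (fun x hx y hy e => by rw [← hf x (h5 x hx).ge, e, hf y (h5 y hy).ge])
    (fun z hz => poly2_root (by rw [h1, hf z (h5 z hz).ge, (hT z).1 hz, mul_zero])) h4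
  have h7 : Φ.map hres.resHom = C (hres.resHom Φ.leadingCoeff) * X ^ T.card := by
    conv_lhs => rw [h6, Polynomial.map_mul, map_C, Polynomial.map_prod]
    rw [Finset.prod_congr rfl (g := fun _ => X) fun y hy => by
      rw [Polynomial.map_sub, map_X, map_C, hres.resHom_apply, hf y (h5 y hy).ge,
        (hres.res_eq_zero (h5 y hy).ge).2 (h5 y hy), C_0, sub_zero], Finset.prod_const]
  by_cases hc : hres.resHom Φ.leadingCoeff = 0
  · rw [h7, hc, C_0, zero_mul, natDegree_zero] at h3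
    exact absurd h3 (pow_pos Nat.card_pos _).ne
  · rw [h7, natDegree_C_mul_X_pow _ _ hc, h2] at h3
    rw [Nat.eq_of_mul_eq_mul_right ha (Nat.pow_right_injective (Finite.one_lt_card (α := k)) h3)]
    exact hi'

end Pool.Agent.Lib.MP_6adaea_nt.T
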