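import Pool.Agent.Lib.MP_6adaea_nt.T.Eig
import Pool.Agent.Lib.MP_6adaea_nt.T.Poly2

/-!
The layers of the torsion in the formal group.
-/

set_option linter.unusedSectionVars false

namespace Pool.Agent.Lib.MP_6adaea_nt.T
open Matrix Polynomial G U Module

section gen
variable {k Ω : Type} [Field k] [Finite k] [Field Ω] [Algebra k Ω] {φ : Ω →ₗ[k] Ω} {r : ℕ}

/-- the preimage under `E.e` is a subspace over the field `AdjoinRoot P` -/
theorem card_stable {P : k[X]} (hP : Irreducible P) (E : Coord φ P (Fin r)) (U : Submodule k Ω)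
    (hU : U ≤ tors φ P) (hs : ∀ x ∈ U, φ x ∈ U) :
    ∃ j ≤ r, Nat.card U = (Nat.card k ^ P.natDegree) ^ j := by
  have := Fact.mk hP
  have := finite_adjoinRoot (k := k) hP.ne_zero
  let W : Submodule (AdjoinRoot P) (Fin r → AdjoinRoot P) :=
    { carrier := {u | E.e u ∈ U}
      add_mem' := fun {a b} ha hb => by
        show E.e (a + b) ∈ U
        rw [map_add]; exact U.add_mem ha hb
      zero_mem' := by
        show E.e 0 ∈ U
        rw [map_zero]; exact U.zero_mem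
      smul_mem' := fun c u hu => by
        obtain ⟨c, rfl⟩ := AdjoinRoot.mk_surjective c
        show E.e (AdjoinRoot.mk P c • u) ∈ U
        rw [E.smul]
        exact aeval_apply_smul_mem_of_le_comap hu c φ fun x hx => hs x hx }
  have e : Nat.card W = Nat.card U := Nat.card_eq_of_bijective
    (fun u : W => (⟨E.e u.1, u.2⟩ : U))
    ⟨fun a b h => Subtype.ext (E.inj (congrArg Subtype.val h)), fun y => by
      obtain ⟨u, hu⟩ := (E.range y.1).1 (hU y.2)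
      exact ⟨⟨u, show E.e u ∈ U from hu ▸ y.2⟩, Subtype.ext hu⟩⟩
  refine ⟨finrank (AdjoinRoot P) W, ?_, ?_⟩
  · simpa using W.finrank_le
  · rw [← e, Module.natCard_eq_pow_finrank (K := AdjoinRoot P), card_adjoinRoot hP.ne_zero]

end gen

variable {k kb K Ω : Type} [Field k] [Finite k] [Field kb] [Field K] [Field Ω] [Algebra k kb]
  [Algebra k K] [Algebra k Ω] [Algebra kb K] [Algebra kb Ω] [Algebra K Ω]
  [IsScalarTower k kb K] [IsScalarTower k kb Ω] [IsScalarTower k K Ω] [IsScalarTower kb K Ω]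
  [IsAlgClosed kb] [Algebra.IsAlgebraic k kb] [IsSepClosed Ω] [IsGalois K Ω] [IsFF kb K]
  {θ : K} {r : ℕ} {V : QVal Ω} {v : Place kb K} {γ : ℚ}

theorem lay_ge_aeval (hres : V.HasRes kb) {y : Ω} (hy : V.Ge y 0) (S : kb[X]) :
    V.Ge (aeval y S) 0 := by
  rw [aeval_eq_sum_range]
  refine QVal.Ge.sum fun i _ => ?_
  rw [Algebra.smul_def]
  exact (hres.ge_const _).mul₀ (hy.pow₀ i)

variable (k) in
include k in
theorem lay_all (hV : V.Over v) (m : ℚ) : ∃ x, x ≠ 0 ∧ V.ord x = m := by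
  obtain ⟨p, _, _, _, -⟩ := exists_char k Ω
  obtain ⟨t, ht, h1⟩ := v.surj
  exact V.exists_ord_eq p ⟨algebraMap K Ω t, (_root_.map_ne_zero _).2 ht, by
    rw [hV, h1, Int.cast_one]⟩ m

theorem lay_dvd (Q : ℤ) {h a b : ℕ} (e : a ≡ b [MOD h]) : Q ^ h - 1 ∣ Q ^ a - Q ^ b := by
  have h1 : ∀ a : ℕ, Q ^ a ≡ Q ^ (a % h) [ZMOD Q ^ h - 1] := fun a => by
    have h2 : Q ^ h ≡ 1 [ZMOD Q ^ h - 1] := (Int.modEq_iff_dvd.2 dvd_rfl).symm
    have h3 := (h2.pow (a / h)).mul_right (Q ^ (a % h))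
    rwa [← pow_mul, ← pow_add, Nat.div_add_mod, one_pow, one_mul] at h3
  exact Int.modEq_iff_dvd.1 ((h1 b).trans (e ▸ (h1 a).symm))

theorem lay_root {P : k[X]} {y : kb} {b : ℕ} (h : aeval (y ^ Nat.card k ^ b) P = 0) :
    aeval y P = 0 := by
  let _ := Fintype.ofFinite k
  have h1 : ∀ z : kb, (FiniteField.frobeniusAlgHom k kb ^ b) z = z ^ Nat.card k ^ b := fun z => by
    rw [AlgHom.coe_pow, FiniteField.coe_frobeniusAlgHom, pow_iterate, Nat.card_eq_fintype_card]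
  rw [← h1, aeval_algHom_apply, map_eq_zero] at h
  exact h

theorem lay_iter {y : kb} {Q : ℕ} (h : y ^ Q = y) (i : ℕ) : y ^ Q ^ i = y := by
  induction i with
  | zero => rw [pow_zero, pow_one]
  | succ i ih => rw [pow_succ, pow_mul, ih, h]

/-- `P = (X - C ζ) * R` over `kb` with `R ζ ≠ 0` (`P` is separable) -/
theorem ord_aeval_root (hV : V.Over v) (hθ : V.Ge (algebraMap K Ω θ) 0) {P : k[X]}
    (hP : Irreducible P) (h : aeval (rth kb V θ) P = 0) :
    V.ord (aeval (algebraMap K Ω θ) P) = v.ord (θ - algebraMap kb K (rth kb V θ)) := by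
  have hres : V.HasRes kb := hV.hasRes
  have h1 : (P.map (algebraMap k kb)).IsRoot (rth kb V θ) := by
    rw [IsRoot.def, eval_map_algebraMap, h]
  obtain ⟨R, hR⟩ := dvd_iff_isRoot.2 h1
  have h2 : R.eval (rth kb V θ) ≠ 0 := by
    have h3 := (PerfectField.separable_of_irreducible hP).aeval_derivative_ne_zero h
    rw [← eval_map_algebraMap, ← derivative_map, hR] at h3
    simpa using h3
  have h4 : V.Gt (algebraMap K Ω θ - algebraMap kb Ω (rth kb V θ)) 0 := hres.gt_res hθ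
  obtain ⟨S, hS⟩ := X_sub_C_dvd_sub_C_eval (a := rth kb V θ) (p := R)
  have h5 : V.Gt (aeval (algebraMap K Ω θ) R - algebraMap kb Ω (R.eval (rth kb V θ)))
      (V.ord (algebraMap kb Ω (R.eval (rth kb V θ)))) := by
    have h6 := congrArg (aeval (algebraMap K Ω θ)) hS
    rw [map_sub, aeval_C, map_mul, map_sub, aeval_X, aeval_C] at h6
    rw [h6, hres.const]
    simpa using h4.mul_ge (lay_ge_aeval hres hθ S)
  obtain ⟨h6, h7⟩ := QVal.ord_eq_of_sub ((_root_.map_ne_zero _).2 h2) h5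
  rw [hres.const] at h7
  rw [← hV, ← aeval_map_algebraMap kb, hR, map_mul, map_sub, aeval_X, aeval_C, map_sub,
    ← IsScalarTower.algebraMap_apply]
  by_cases h8 : algebraMap K Ω θ - algebraMap kb Ω (rth kb V θ) = 0
  · rw [h8, zero_mul]
  · rw [V.ord_mul h8 h6, h7, add_zero]

/-- `U = tors ⊓ dG (ord x)` and `U' = tors ⊓ dS (ord x)` are stable under `φ` (`card_stable`) and
under inertia. The product of the elements of `U` outside `U'` is fixed by inertia, so its order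
`(Q ^ (j + h) - Q ^ j) * ord x` is an integer (`int_of_fix`); `Nm.int`; the bound is `Nm.sum_le`
for this set. -/
theorem layer_val (hB : Base kb θ) (D : DM k Ω θ r) (hV : V.Over v) (hN : NmD D V γ) {P : k[X]}
    (hP : Irreducible P) (E : Coord D.φ P (Fin r)) {x : Ω} (hx : x ∈ tors D.φ P) (h0 : x ≠ 0)
    (hD : DpD V θ γ x) : ∃ j h w : ℕ, 0 < h ∧ j + h ≤ r ∧ 0 < w ∧
      (w : ℚ) ≤ n0 (Nat.card k) r * V.ord (aeval (algebraMap K Ω θ) P) ∧
      n0 (Nat.card k) r * ((Nat.card k : ℚ) ^ P.natDegree) ^ j *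
        (((Nat.card k : ℚ) ^ P.natDegree) ^ h - 1) * (V.ord x + γ) = w ∧
      Nat.card (tors D.φ P ⊓ dG k V (V.ord x) : Submodule k Ω) =
        (Nat.card k ^ P.natDegree) ^ (j + h) ∧
      Nat.card (tors D.φ P ⊓ dS k V (V.ord x) : Submodule k Ω) =
        (Nat.card k ^ P.natDegree) ^ j := by
  classical
  obtain ⟨p, _, _, _, -⟩ := exists_char k kb
  have hres : V.HasRes kb := hV.hasRes
  have hm : -γ < V.ord x := hD.2.lt h0
  have hq : 1 < Nat.card k := Finite.one_lt_card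
  have hQ : 1 < Nat.card k ^ P.natDegree := Nat.one_lt_pow hP.natDegree_pos.ne' hq
  obtain ⟨J, hJ, c1⟩ := card_stable hP E (tors D.φ P ⊓ dG k V (V.ord x)) inf_le_left
    fun y hy => ⟨phi_mem_tors hy.1, hN.phi_ge D.dr hD.1 hm.le hy.2⟩
  obtain ⟨j, -, c2⟩ := card_stable hP E (tors D.φ P ⊓ dS k V (V.ord x)) inf_le_left
    fun y hy => ⟨phi_mem_tors hy.1, by
      have h1 := hN.aeval_gt D.dr hD.1 hm.le hy.2 X
      rwa [aeval_X] at h1⟩
  have f1 : ((tors D.φ P ⊓ dG k V (V.ord x) : Submodule k Ω) : Set Ω).Finite :=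
    Nat.finite_of_card_ne_zero (by rw [SetLike.coe_sort_coe, c1]; positivity)
  have f2 : ((tors D.φ P ⊓ dS k V (V.ord x) : Submodule k Ω) : Set Ω).Finite :=
    Nat.finite_of_card_ne_zero (by rw [SetLike.coe_sort_coe, c2]; positivity)
  obtain ⟨S, hS⟩ : ∃ S, S = f1.toFinset \ f2.toFinset := ⟨_, rfl⟩
  have mS : ∀ y, y ∈ S ↔ y ∈ tors D.φ P ∧ y ≠ 0 ∧ V.ord y = V.ord x := fun y => by
    rw [hS, Finset.mem_sdiff, Set.Finite.mem_toFinset, Set.Finite.mem_toFinset]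
    refine ⟨fun h => ?_, fun h => ⟨⟨h.1, QVal.Ge.of_le h.2.2.ge⟩, fun h' => ?_⟩⟩
    · obtain ⟨h1, h2⟩ := QVal.not_gt_iff.1 fun h' : V.Gt y (V.ord x) => h.2 ⟨h.1.1, h'⟩
      exact ⟨h.1.1, h1, le_antisymm h2 (QVal.Ge.le h.1.2 h1)⟩
    · exact (QVal.Gt.lt h'.2 h.2.1).ne' h.2.2
  have cS : S.card + (Nat.card k ^ P.natDegree) ^ j = (Nat.card k ^ P.natDegree) ^ J := by
    have h1 : f2.toFinset ⊆ f1.toFinset := fun y hy => by
      rw [Set.Finite.mem_toFinset] at hy ⊢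
      exact ⟨hy.1, QVal.Gt.ge hy.2⟩
    rw [← c1, ← c2, hS]
    exact (congrArg _ (Nat.card_eq_card_finite_toFinset f2)).trans
      ((Finset.card_sdiff_add_card_eq_card h1).trans (Nat.card_eq_card_finite_toFinset f1).symm)
  have pS : 0 < S.card := Finset.card_pos.2 ⟨x, (mS x).2 ⟨hx, h0, rfl⟩⟩
  obtain ⟨h, rfl⟩ := Nat.exists_eq_add_of_lt ((Nat.pow_lt_pow_iff_right hQ).1
    (by omega : (Nat.card k ^ P.natDegree) ^ j < (Nat.card k ^ P.natDegree) ^ J))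
  have qS : (S.card : ℚ) = ((Nat.card k : ℚ) ^ P.natDegree) ^ j *
      (((Nat.card k : ℚ) ^ P.natDegree) ^ (h + 1) - 1) := by
    have h1 := congrArg (Nat.cast : ℕ → ℚ) cS
    push_cast at h1
    rw [mul_sub, mul_one, ← pow_add, ← add_assoc, ← h1, add_sub_cancel_right]
  obtain ⟨n, hn⟩ := hV.int_of_fix p (x := ∏ y ∈ S, y) fun σ hσ => by
    rw [map_prod]
    refine Finset.prod_nbij' σ σ.symm (fun y hy => ?_) (fun y hy => ?_)
      (fun y _ => σ.symm_apply_apply y) (fun y _ => σ.apply_symm_apply y) fun _ _ => rfl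
    · rw [mS] at hy ⊢
      exact ⟨aut_tors D σ hy.1, (_root_.map_ne_zero _).2 hy.2.1,
        (QVal.mem_stab.1 hσ y).trans hy.2.2⟩
    · rw [mS] at hy ⊢
      exact ⟨aut_tors D σ.symm hy.1, (_root_.map_ne_zero _).2 hy.2.1,
        (QVal.mem_stab.1 (inv_mem hσ) y).trans hy.2.2⟩
  rw [V.ord_prod _ _ fun y hy => ((mS y).1 hy).2.1,
    Finset.sum_congr rfl fun y hy => ((mS y).1 hy).2.2, Finset.sum_const, nsmul_eq_mul] at hn
  obtain ⟨n', hn'⟩ := hN.int fun i => ⟨_, hV (D.g i)⟩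
  have hn0 : (0 : ℚ) < n0 (Nat.card k) r := Nat.cast_pos.2 (n0_pos hq r)
  have hw : (n0 (Nat.card k) r : ℚ) * (S.card * (V.ord x + γ)) =
      ((n0 (Nat.card k) r * n + S.card * n' : ℤ) : ℚ) := by
    push_cast
    rw [← hn, ← hn']; ring
  have hw0 : (0 : ℚ) < n0 (Nat.card k) r * (S.card * (V.ord x + γ)) :=
    mul_pos hn0 (mul_pos (Nat.cast_pos.2 pS) (by linarith))
  rw [hw] at hw0
  obtain ⟨w, hw1⟩ := Int.eq_ofNat_of_zero_le (Int.cast_pos.1 hw0).le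
  rw [hw1, Int.cast_natCast] at hw hw0
  have hb := hN.sum_le hres D.dr hD.1 (lay_all k hV (-γ)) hP.ne_zero S fun y hy =>
    ⟨((mS y).1 hy).2.1, ((mS y).1 hy).1, QVal.Ge.of_le (((mS y).1 hy).2.2 ▸ hm.le)⟩
  rw [Finset.sum_congr rfl fun y hy => congrArg (· + γ) ((mS y).1 hy).2.2, Finset.sum_const,
    nsmul_eq_mul] at hb
  refine ⟨j, h + 1, w, h.succ_pos, hJ, Nat.cast_pos.1 hw0, ?_, ?_, c1, c2⟩
  · rw [← hw]
    exact mul_le_mul_of_nonneg_left (hb.le fun h1 => tr_theta hB ⟨P, hP.ne_zero, h1⟩) hn0.le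
  · rw [← hw, qS]; ring

/-- Arithmetic of the tame character. Let `N = d * h`, choose `b' < N` with
`b' + d * j ≡ b` modulo `N` and write `b' = d * c + ρ`. For exponents `s ≡ s'` modulo `N` the
numbers `w * q ^ s / (q ^ N - 1)` and `w * q ^ s' / (q ^ N - 1)` differ by an integer. So after
multiplication with a power of `q` both sides agree; powers of `p` are injective on `kb`. -/
theorem tch_red (hV : V.Over v) {σ : Ω ≃ₐ[K] Ω} (hσ : σ ∈ V.stab K) {d j h w : ℕ} (hd : 0 < d)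
    (hh : 0 < h) {m : ℚ}
    (hm : ((Nat.card k : ℚ) ^ d) ^ j * (((Nat.card k : ℚ) ^ d) ^ h - 1) * m = w) (b : ℕ) :
    ∃ c < h, V.tch kb σ m ^ Nat.card k ^ b =
      V.tch kb σ (w * (Nat.card k : ℚ) ^ (d * c + b % d) / (((Nat.card k : ℚ) ^ d) ^ h - 1)) := by
  obtain ⟨p, _, _, _, f, -, hf⟩ := exists_char k kb
  have hres : V.HasRes kb := hV.hasRes
  have hs := lay_all k hV
  have hq : 1 < Nat.card k := Finite.one_lt_card
  refine ⟨(b / d + (h - 1) * j) % h, Nat.mod_lt _ hh, ?_⟩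
  obtain ⟨c, hc⟩ : ∃ c, c = (b / d + (h - 1) * j) % h := ⟨_, rfl⟩
  rw [← hc]
  have h1 : b / d ≡ c + j [MOD h] := by
    obtain ⟨h, rfl⟩ := Nat.exists_eq_succ_of_ne_zero hh.ne'
    rw [hc]
    refine Nat.ModEq.symm (((Nat.mod_modEq _ _).add_right j).trans ?_)
    rw [Nat.succ_sub_one, add_assoc, ← Nat.succ_mul]
    exact Nat.add_mul_mod_self_left _ _ _
  obtain ⟨t, ht⟩ := lay_dvd ((Nat.card k : ℤ) ^ d) h1
  have ht' := congrArg (Int.cast : ℤ → ℚ) ht
  push_cast at ht'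
  have hM : ((Nat.card k : ℚ) ^ d) ^ h - 1 ≠ 0 :=
    (sub_pos.2 (one_lt_pow₀ (one_lt_pow₀ (Nat.one_lt_cast.2 hq) hd.ne') hh.ne')).ne'
  have hb : (Nat.card k : ℚ) ^ b = ((Nat.card k : ℚ) ^ d) ^ (b / d) * (Nat.card k : ℚ) ^ (b % d) := by
    rw [← pow_mul, ← pow_add, Nat.div_add_mod]
  have hp : (p : ℚ) ^ (f * (d * j)) = ((Nat.card k : ℚ) ^ d) ^ j := by
    rw [hf, Nat.cast_pow, ← pow_mul, ← pow_mul]
  have h2 : V.tch kb σ (((Nat.card k ^ b : ℕ) : ℤ) * m - w * (Nat.card k : ℚ) ^ (d * c + b % d) /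
      (((Nat.card k : ℚ) ^ d) ^ h - 1)) = 1 := by
    refine hres.tch_of_pow p hV hσ (a := f * (d * j)) (n := w * (Nat.card k : ℤ) ^ (b % d) * t) ?_
    refine mul_left_cancel₀ hM ?_
    push_cast
    rw [hp, hb, pow_add, pow_mul]
    rw [pow_add] at ht'
    field_simp
    linear_combination (((Nat.card k : ℚ) ^ d) ^ (b / d)) * hm + w * ht'
  rw [← zpow_natCast, ← hres.tch_zsmul hs hσ, ← sub_add_cancel (_ * m)
    (w * (Nat.card k : ℚ) ^ (d * c + b % d) / (((Nat.card k : ℚ) ^ d) ^ h - 1)),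
    hres.tch_add hs hσ, h2, one_mul]

/-- TS. `eig_core` for `σ ^ m`; outside the formal group `tch_n0`; on it `layer_val`, `Nm.int`
(so `tch σ (n0 * ord x) = tch σ (n0 * (ord x + γ))`), `tch_red`, `root_pow`, `ord_aeval_root`
(the residue of `θ` is a root of `P` since `ζ` is a Frobenius power of it). -/
theorem ts (hB : Base kb θ) (D : DM k Ω θ r) (hr : 0 < r) (hV : V.Over v) {σ : Ω ≃ₐ[K] Ω}
    (hσ : σ ∈ V.stab K) {m n : ℕ} (hmn : m * n = n0 (Nat.card k) r) {P : k[X]}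
    (hP : Irreducible P) (E : Coord D.φ P (Fin r)) {B : Matrix (Fin r) (Fin r) k[X]}
    (hA : Act E (σ ^ m : Ω ≃ₐ[K] Ω) B) {ζ ε : kb} (hζ : aeval ζ P = 0)
    (hε : (B.map (aeval ζ)).charpoly.IsRoot ε) : ε ^ n = 1 ∨
      ∃ w h c ρ : ℕ, 0 < h ∧ h ≤ r ∧ c < h ∧ ρ < P.natDegree ∧
        ζ = rth kb V θ ^ Nat.card k ^ ρ ∧
        (w : ℤ) ≤ n0 (Nat.card k) r * v.ord (θ - algebraMap kb K (rth kb V θ)) ∧
        ε ^ n = V.tch kb σ (w * (Nat.card k : ℚ) ^ (P.natDegree * c + ρ) /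
          (((Nat.card k : ℚ) ^ P.natDegree) ^ h - 1)) := by
  have hres : V.HasRes kb := hV.hasRes
  have hs := lay_all k hV
  obtain ⟨γ, hN⟩ : ∃ γ, NmD D V γ := exists_nm k V hr (dm_ne D)
  obtain ⟨x, hx, h0, h1, h2⟩ := eig_core D hV hN (pow_mem hσ m) hP.ne_zero E hA hζ hε
  rw [hres.tch_pow hσ] at h1 h2
  by_cases hD : DpD V θ γ x
  swap
  · exact Or.inl (h1 n (by rw [← pow_mul, hmn]; exact tch_n0 D hr hV hN hσ hP.ne_zero hx h0 hD))
  obtain ⟨b, hb1, hb2⟩ := h2 hD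
  obtain ⟨j, h, w, hh, hjh, -, hw1, hw2, -, -⟩ := layer_val hB D hV hN hP E hx h0 hD
  have hroot : aeval (rth kb V θ) P = 0 := lay_root (hb1 ▸ hζ)
  obtain ⟨n', hn'⟩ := hN.int fun i => ⟨_, hV (D.g i)⟩
  obtain ⟨c, hc, e⟩ := tch_red (k := k) hV hσ (j := j) (w := w) hP.natDegree_pos hh
    (m := n0 (Nat.card k) r * (V.ord x + γ)) (by rw [← hw2]; ring) b
  refine Or.inr ⟨w, h, c, b % P.natDegree, hh, by omega, hc, Nat.mod_lt _ hP.natDegree_pos, ?_,
    ?_, ?_⟩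
  · rw [hb1]
    conv_lhs => rw [← Nat.div_add_mod b P.natDegree, pow_add, pow_mul, pow_mul,
      lay_iter (root_pow hP hroot)]
  · rw [ord_aeval_root hV hD.1 hP hroot] at hw1
    exact_mod_cast hw1
  · rw [← e, mul_add, hn', hres.tch_add hs hσ, hres.tch_int hV hσ, mul_one, ← Int.cast_natCast,
      hres.tch_zsmul hs hσ, zpow_natCast, hb2, ← hmn, pow_mul, pow_right_comm]

end Pool.Agent.Lib.MP_6adaea_nt.T
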