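import Pool.Agent.Lib.MP_6adaea_nt.T.Moore
import Pool.Agent.Lib.MP_6adaea_nt.T.Lay

/-!
Eigenfunctions on the formal group, good reduction.
-/

set_option linter.unusedSectionVars false

namespace Pool.Agent.Lib.MP_6adaea_nt.T
open Matrix Polynomial G U Module

variable {k kb K Ω : Type} [Field k] [Finite k] [Field kb] [Field K] [Field Ω] [Algebra k kb]
  [Algebra k K] [Algebra k Ω] [Algebra kb K] [Algebra kb Ω] [Algebra K Ω]
  [IsScalarTower k kb K] [IsScalarTower k kb Ω] [IsScalarTower k K Ω] [IsScalarTower kb K Ω]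
  [IsAlgClosed kb] [Algebra.IsAlgebraic k kb] [IsSepClosed Ω] [IsGalois K Ω] [IsFF kb K]
  {θ : K} {r : ℕ} {V : QVal Ω} {v : Place kb K} {γ : ℚ}

/-- the eigenfunction of `φ` for the eigenvalue `ζ` -/
noncomputable def y0 (φ : Ω →ₗ[k] Ω) (P : k[X]) (ζ : kb) (x : Ω) : Ω :=
  (gen φ P x).eval (algebraMap kb Ω ζ)

theorem sum_divX (P : k[X]) :
    ∑ i ∈ Finset.range P.natDegree, X ^ i * divX^[i + 1] P = derivative P := by
  have h1 : ∀ (i n : ℕ) (p : k[X]), (divX^[i] p).coeff n = p.coeff (n + i) := fun i => by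
    induction i with
    | zero => simp
    | succ i ih =>
      intro n p
      rw [Function.iterate_succ_apply', coeff_divX, ih]
      congr 1
      omega
  ext n
  rw [finsetSum_coeff, coeff_derivative]
  simp only [coeff_X_pow_mul', h1]
  by_cases hn : n < P.natDegree
  · rw [← Finset.sum_filter, Finset.sum_congr (s₂ := Finset.range (n + 1))
      (g := fun _ => P.coeff (n + 1)) (by ext i; simp; omega) fun i hi => by
        congr 1; have := Finset.mem_range.mp hi; omega]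
    simp [mul_comm]
  · rw [coeff_eq_zero_of_natDegree_lt (by omega : P.natDegree < n + 1), zero_mul]
    refine Finset.sum_eq_zero fun i hi => ?_
    split_ifs with h
    · exact coeff_eq_zero_of_natDegree_lt (by omega)
    · rfl

/-- `gen_map`, `aut_comm` -/
theorem y0_aut (D : DM k Ω θ r) (P : k[X]) (ζ : kb) (σ : Ω ≃ₐ[K] Ω) (x : Ω) :
    σ (y0 D.φ P ζ x) = y0 D.φ P ζ (σ x) := by
  have h := gen_map (ψ := (σ : Ω →+* Ω)) (fun c y => aut_comm D.dr σ c y) P x
  have h2 : (σ : Ω →+* Ω) (algebraMap kb Ω ζ) = algebraMap kb Ω ζ := by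
    rw [IsScalarTower.algebraMap_apply kb K Ω]; exact σ.commutes _
  rw [y0, y0, ← show (gen D.φ P x).map (σ : Ω →+* Ω) = gen D.φ P (σ x) from h]
  conv_rhs => rw [← h2, eval_map, eval₂_at_apply]
  rfl

/-- `gen_add`, `gen_aeval`, `E.smul` -/
theorem y0_coord {φ : Ω →ₗ[k] Ω} {P : k[X]} [Fact (Irreducible P)] [Fintype (AdjoinRoot P)]
    (E : Coord φ P (Fin r)) (ι : AdjoinRoot P →ₐ[k] kb) (w : Fin r → AdjoinRoot P) :
    y0 φ P (ι (AdjoinRoot.root P)) (E.e w) =
      pnt ((algebraMap kb Ω).comp (ι : AdjoinRoot P →+* kb))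
        (fun j => y0 φ P (ι (AdjoinRoot.root P)) (E.e (Pi.single j 1))) w := by
  set ζ := ι (AdjoinRoot.root P) with hζ
  have hι : ∀ c : k[X], algebraMap kb Ω (ι (AdjoinRoot.mk P c)) =
      (c.map (algebraMap k Ω)).eval (algebraMap kb Ω ζ) := fun c => by
    rw [← AdjoinRoot.aeval_eq, ← aeval_algHom_apply, eval_map_algebraMap, aeval_algebraMap_apply]
  let Y : Ω →+ Ω := AddMonoidHom.mk' (y0 φ P ζ) fun a b => by rw [y0, gen_add, eval_add]; rfl
  have hw : w = ∑ j, w j • (Pi.single j 1 : Fin r → AdjoinRoot P) := by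
    ext i; simp [Pi.single_apply]
  change Y (E.e w) = _
  conv_lhs => rw [hw]
  rw [map_sum, map_sum, pnt]
  refine Finset.sum_congr rfl fun j _ => ?_
  obtain ⟨c, hc⟩ := AdjoinRoot.mk_surjective (w j)
  rw [← hc, E.smul]
  obtain ⟨z, hz⟩ := gen_aeval ((E.range _).mpr ⟨Pi.single j 1, rfl⟩) c
  have := congrArg (eval (algebraMap kb Ω ζ)) hz
  rw [eval_mul, ← hι, AdjoinRoot.mk_self, map_zero, map_zero, zero_mul, eval_sub, eval_mul,
    sub_eq_zero, ← hι] at this
  exact this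

/-- `Nm.lin`, `sum_divX`: to first order `y0 x = P' (ζ) * x`, and `P` is separable -/
theorem y0_ord (D : DM k Ω θ r) (hV : V.Over v) (hN : NmD D V γ) {P : k[X]} (hP : Irreducible P)
    (hζ : aeval (rth kb V θ) P = 0) {x : Ω} (h0 : x ≠ 0) (hD : DpD V θ γ x) :
    y0 D.φ P (rth kb V θ) x ≠ 0 ∧ V.ord (y0 D.φ P (rth kb V θ) x) = V.ord x := by
  have hres := hV.hasRes
  set ζ := rth kb V θ
  have hs : aeval ζ (derivative P) ≠ 0 :=
    (PerfectField.separable_of_irreducible hP).aeval_derivative_ne_zero hζ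
  have h1 : algebraMap kb Ω (aeval ζ (derivative P)) * x ≠ 0 :=
    mul_ne_zero ((_root_.map_ne_zero _).mpr hs) h0
  have h2 : V.ord (algebraMap kb Ω (aeval ζ (derivative P)) * x) = V.ord x := by
    rw [V.ord_mul ((_root_.map_ne_zero _).mpr hs) h0, hres.const, zero_add]
  rw [← h2]
  refine QVal.ord_eq_of_sub h1 ?_
  rw [h2, ← sum_divX, y0, gen, eval_finsetSum, map_sum, map_sum, Finset.sum_mul,
    ← Finset.sum_sub_distrib]
  refine QVal.Gt.sum fun i _ => ?_
  have h3 := lin_aut D hV hN (V.stab K).one_mem hD (divX^[i + 1] P) 0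
  have h4 := ((hres.ge_const ζ).pow₀ i).mul_gt₀ h3
  convert h4 using 1
  simp only [eval_monomial, pow_zero, AlgEquiv.one_apply, mul_one, map_mul, map_pow, aeval_X]
  ring

/-- `Nm.good`, `Nm.good_ge`, `Nm.eq_zero`: a nonzero `b`-torsion point has order `-γ`, and
`σ y - y` is a `b`-torsion point of larger order -/
theorem good_fix (hB : Base kb θ) (hr : 0 < r) (D : DM k Ω θ r) (hV : V.Over v) (hN : NmD D V γ)
    {P b : k[X]} (hP : 0 < P.natDegree) (hall : ∀ x ∈ tors D.φ P, DpD V θ γ x)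
    (hb : ¬V.Gt (aeval (algebraMap K Ω θ) b) 0) {σ : Ω ≃ₐ[K] Ω} (hσ : σ ∈ V.stab K)
    (h1 : V.tch kb σ (-γ) = 1) {y : Ω} (hy : y ∈ tors D.φ b) : σ y = y := by
  have hθ := (hall 0 (zero_mem _)).1
  have hb0 : b ≠ 0 := fun h => hb (by simp [h])
  have hg := Nm.good hV.hasRes hN D.dr (dm_ne D) (tr_theta hB) hθ (all_ord hV _) hP
    fun x hx => (hall x hx).2
  by_cases h0 : y = 0
  · rw [h0, map_zero]
  have h2 := Nm.good_ge hN D.dr hθ hr (dm_ne D) hg (tors_finite D.dr hr (dm_ne D) hb0).1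
    (fun x hx => phi_mem_tors hx) hy
  have h3 : V.ord y = -γ := le_antisymm (not_lt.mp fun h =>
    h0 (Nm.eq_zero hN D.dr hb hy ⟨hθ, QVal.Gt.of_lt h⟩)) (h2.le h0)
  have h4 := hV.hasRes.gt_tch hσ y
  rw [h3, h1, map_one, one_mul] at h4
  exact sub_eq_zero.mp (Nm.eq_zero hN D.dr hb (sub_mem (aut_tors D σ hy) hy) ⟨hθ, h4⟩)

end Pool.Agent.Lib.MP_6adaea_nt.T
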