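import Pool.Agent.Lib.MP_6adaea_nt.T.DLb
import Pool.Agent.Lib.MP_6adaea_nt.T.Y0

/-!
The wild case at a large prime.
-/

set_option linter.unusedSectionVars false

namespace Pool.Agent.Lib.MP_6adaea_nt.T
open Matrix Polynomial G U Module

variable {k kb K Ω : Type} [Field k] [Finite k] [Field kb] [Field K] [Field Ω] [Algebra k kb]
  [Algebra k K] [Algebra k Ω] [Algebra kb K] [Algebra kb Ω] [Algebra K Ω]
  [IsScalarTower k kb K] [IsScalarTower k kb Ω] [IsScalarTower k K Ω] [IsScalarTower kb K Ω]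
  [IsAlgClosed kb] [Algebra.IsAlgebraic k kb] [IsSepClosed Ω] [IsGalois K Ω] [IsFF kb K]
  {θ : K} {r : ℕ} {V : QVal Ω} {v : Place kb K} {γ : ℚ}

theorem lwild_per (k : Type) [Field k] [Finite k] [Algebra k kb] [Algebra.IsAlgebraic k kb]
    (d : ℕ) (c : kb) : ∃ n, 0 < n ∧ c ^ (Nat.card k ^ d) ^ n = c := by
  have hc : IsIntegral k c := Algebra.IsIntegral.isIntegral c
  have h1 := root_pow (minpoly.irreducible hc) (minpoly.aeval k c)
  refine ⟨_, minpoly.natDegree_pos hc, ?_⟩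
  rw [← pow_mul, mul_comm, pow_mul]
  induction d with
  | zero => simp
  | succ d ih => rw [pow_succ, pow_mul, ih, h1]

theorem lwild_single {F E : Type} [Field F] [Field E] (ι : F →+* E) (y : Fin r → E) (j : Fin r) :
    pnt ι y (Pi.single j 1) = y j := by
  rw [pnt, Finset.sum_eq_single j (fun i _ hi => by simp [hi]) (by simp)]
  simp

theorem lwild_div {F E : Type} [Field F] [Field E] (ι : F →+* E) (y : Fin r → E) (u : E)
    (w : Fin r → F) : pnt ι (fun j => y j / u) w = pnt ι y w / u := by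
  simp only [pnt, Finset.sum_div, mul_div_assoc]

/-- the coefficients of the additive equation of a Galois stable span lie in `K` -/
theorem lwild_fix {F : Type} [Field F] [Fintype F] (ι : F →+* Ω) (y : Fin r → Ω)
    (h : Function.Injective (pnt ι y))
    (hs : ∀ (σ : Ω ≃ₐ[K] Ω) j, ∃ w, σ (y j) = pnt ι y w) :
    ∃ b : Fin r → K, Rel (Nat.card F) (fun l => algebraMap K Ω (b l)) y := by
  obtain ⟨a, h1, h2⟩ := exists_rel ι y h
  have h3 : ∀ (σ : Ω ≃ₐ[K] Ω) l, σ (a l) = a l := fun σ l => by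
    have h4 : Rel (Nat.card F) a fun j => (σ : Ω →+* Ω) (y j) := fun j => by
      obtain ⟨w, hw⟩ := hs σ j
      have h5 := congrArg (eval (pnt ι y w)) h2
      rw [eval_prod, Finset.prod_eq_zero (Finset.mem_univ w) (by simp)] at h5
      simp only [eval_add, eval_pow, eval_X, eval_finsetSum, eval_mul, eval_C] at h5
      simpa only [RingHom.coe_coe, hw] using h5.symm
    refine congrFun ((h1.map (σ : Ω →+* Ω)).unique h4 ?_) l
    rw [← moore_map, ← RingHom.mapMatrix_apply, ← RingHom.map_det]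
    exact (_root_.map_ne_zero _).mpr (moore_ne ι y h)
  have h6 : ∀ l, ∃ b : K, algebraMap K Ω b = a l := fun l =>
    (InfiniteGalois.mem_range_algebraMap_iff_fixed (a l)).mpr fun σ => h3 σ l
  choose b hb using h6
  exact ⟨b, by simpa only [hb] using h1⟩

/-- `Wild.curve` in an algebraically closed extension -/
theorem lwild_ext (E : Type) [Field E] [Algebra kb E] [Algebra K E] [Algebra Ω E]
    [IsScalarTower kb K E] [IsScalarTower kb Ω E] [IsScalarTower K Ω E] [IsAlgClosed E]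
    [Algebra.IsAlgebraic Ω E] (p : ℕ) [Fact p.Prime] [CharP kb p] {f Q D s n : ℕ} (hQ : Q = p ^ f)
    (hkb : ∀ c : kb, ∃ n, 0 < n ∧ c ^ Q ^ n = c) (hV : V.Over v) {π : K} (hπ : v.ord π = 1)
    (hn : 0 < n) {ϖ : Ω} (hϖ : ϖ ^ n = algebraMap K Ω π) {a y : Fin (s + 2) → Ω} (h1 : Rel Q a y)
    (h2 : (moore Q y).det ≠ 0) (h3 : ∀ j, V.Ge (y j) 0)
    (h4 : ∀ l, ∃ (b : K) (e : ℤ), a l = algebraMap K Ω b * ϖ ^ e) (h5 : ∀ l, V.Gt (a l) 0)
    (h6 : a 0 ≠ 0) (h7 : a 1 ≠ 0) (h8 : V.ord (a 1) < V.ord (a 0)) (h9 : n * V.ord (a 0) ≤ D)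
    (h10 : D + 1 < Q) :
    ∃ c : Matrix (Fin (s + 2)) (Fin (s + 2)) kb[X], (∀ i j, (c i j).natDegree ≤ D) ∧
      (∀ t : kb, t ^ Q = t → ∃ σ ∈ V.stab K, σ ϖ = ϖ ∧
        (moore Q y).map σ = moore Q y * (c.map (eval t)).map (algebraMap kb Ω)) ∧
      (∃ w : Fin (s + 2) → kb, w ≠ 0 ∧ ∀ t, c.map (eval t) *ᵥ w = w) ∧
      ∃ i j, 0 < (c i j).natDegree := by
  have : Algebra.IsAlgebraic K E := Algebra.IsAlgebraic.trans K Ω E
  have : CharP E p := charP_of_injective_algebraMap (algebraMap kb E).injective p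
  obtain ⟨V', hV'⟩ := V.exists_ext (E := E)
  have hO : V'.Over v := fun x => by rw [IsScalarTower.algebraMap_apply K Ω E, hV', hV]
  have hn' : (0 : ℚ) < n := by exact_mod_cast hn
  have hϖ' : algebraMap Ω E ϖ ^ n = algebraMap K E π := by
    rw [← map_pow, hϖ, ← IsScalarTower.algebraMap_apply]
  have hu : (V'.scale n (Nat.cast_nonneg n)).ord (algebraMap Ω E ϖ) = 1 := by
    rw [QVal.scale_ord, ← QVal.ord_pow, hϖ', hO, hπ, Int.cast_one]
  have := alg_of_pow (kb := kb) hπ hϖ'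
  have hW : Wild kb (V'.scale n (Nat.cast_nonneg n)) (algebraMap Ω E ϖ) Q D
      (fun l => algebraMap Ω E (a l)) fun j => algebraMap Ω E (y j) :=
    { res := hasRes_scale hO.hasRes hn'
      unif := hu
      rel := h1.map _
      det := by
        rw [← moore_map, ← RingHom.mapMatrix_apply, ← RingHom.map_det]
        exact (_root_.map_ne_zero _).mpr h2
      int := fun j => (h3 j).imp (fun e => by rw [e, map_zero]) fun e => by
        rw [QVal.scale_ord, hV']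
        positivity
      ap := fun l => by
        obtain ⟨b, e, hb⟩ := h4 l
        rw [hb, map_mul, map_zpow₀, ← IsScalarTower.algebraMap_apply]
        exact (ap_of_over hO hπ hn hϖ' b).mul_zpow hu e
      pos := fun l => (h5 l).imp (fun e => by rw [e, map_zero]) fun e => by
        rw [QVal.scale_ord, hV']
        positivity
      ne0 := (_root_.map_ne_zero _).mpr h6
      ne1 := (_root_.map_ne_zero _).mpr h7
      lt := by
        rw [QVal.scale_ord, QVal.scale_ord, hV', hV']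
        exact mul_lt_mul_of_pos_left h8 hn'
      le := by rwa [QVal.scale_ord, hV']
      big := h10 }
  obtain ⟨c, hc1, hc2, hc3⟩ := hW.curve p hQ hkb
  refine ⟨c, hc1, fun t ht => ?_, hc3⟩
  obtain ⟨σ, ⟨g1, g2⟩, g3, g4⟩ := hc2 t ht
  have g5 : ∀ z, V'.ord (σ z) = V'.ord z := fun z => mul_left_cancel₀ hn'.ne' (g2 z)
  have g6 := hO.fix hπ ((σ : E →+* E).comp (algebraMap K E))
    (by rw [RingHom.comp_apply, ← hϖ', map_pow, RingHom.coe_coe, g3])
    (fun c => by rw [RingHom.comp_apply, ← IsScalarTower.algebraMap_apply, g1])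
    fun x => by rw [RingHom.comp_apply, RingHom.coe_coe, g5, hO]
  obtain ⟨τ, hτ⟩ := restrict_aut (Ω := Ω) σ g6
  refine ⟨τ, fun x => by rw [← hV', hτ, g5, hV'], (algebraMap Ω E).injective (by rw [hτ, g3]), ?_⟩
  rw [← moore_map] at g4
  ext i j
  apply (algebraMap Ω E).injective
  have g7 := congrFun (congrFun g4 i) j
  simp only [Matrix.map_apply, Matrix.mul_apply] at g7 ⊢
  rw [hτ, g7, map_sum]
  simp only [map_mul, ← IsScalarTower.algebraMap_apply]

/-- Let `y j = y0 (E.e (single j 1))`; `pnt` is injective (`y0_ord`). The polynomial of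
`exists_rel` is fixed by the Galois group, which permutes its roots (`y0_aut`, `aut_tors`,
`E.range`), so the coefficients `a l` come from `K`. Let `π` be a uniformiser, `ϖ ^ n0 = π` in
`Ω`, `u = ϖ ^ (- n0 * γ)` (`Nm.int`). Pass to `E' = AlgebraicClosure Ω` with an extension `V'` of
`V` (`QVal.exists_ext`, `Over.hasRes`), scaled by `n0`. The data `a l * u ^ Q ^ l / u ^ Q ^ r`,
`y j / u` satisfy `Wild` (`Rel.div`, `Rel.map`, `Rel.unique`, `coeff_facts` for `y j / u`,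
`ap_of_over`, `Ap.mul_zpow`, `Nm.sum_le`). An automorphism from `Wild.curve` fixes `K`
(`QVal.Over.fix`), restricts to `Ω` (`restrict_aut`), fixes `u`, and `moore_mul` identifies its
matrix. -/
theorem wild_curve (hB : Base kb θ) (hr : 2 ≤ r) (D : DM k Ω θ r) (hV : V.Over v)
    (hN : NmD D V γ) {P : k[X]} (hP : Irreducible P) (E : Coord D.φ P (Fin r))
    (hζ : aeval (rth kb V θ) P = 0) (hall : ∀ x ∈ tors D.φ P, DpD V θ γ x) {μ : ℚ}
    (htop : ∀ x ∈ tors D.φ P, x ≠ 0 → V.ord x ≤ μ)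
    (hc : Nat.card (tors D.φ P ⊓ dG k V μ : Submodule k Ω) = Nat.card k ^ P.natDegree) {D0 : ℕ}
    (hD : n0 (Nat.card k) r * V.ord (aeval (algebraMap K Ω θ) P) ≤ D0)
    (hQ : D0 + 1 < Nat.card k ^ P.natDegree) :
    ∃ c : Matrix (Fin r) (Fin r) kb[X], (∀ i j, (c i j).natDegree ≤ D0) ∧
      (∀ t : kb, t ^ Nat.card k ^ P.natDegree = t → ∃ σ ∈ V.stab K, V.tch kb σ (-γ) = 1 ∧
        ∀ B, Act E σ B → B.map (aeval (rth kb V θ)) = c.map (eval t)) ∧
      (∃ w : Fin r → kb, w ≠ 0 ∧ ∀ t, c.map (eval t) *ᵥ w = w) ∧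
      ∃ i j, 0 < (c i j).natDegree := by
  obtain ⟨s, rfl⟩ : ∃ s, r = s + 2 := ⟨r - 2, by omega⟩
  have : Fact (Irreducible P) := ⟨hP⟩
  have := finite_adjoinRoot hP.ne_zero
  let _ := Fintype.ofFinite (AdjoinRoot P)
  obtain ⟨p, _, _, _, f, -, hf⟩ := exists_char k kb
  obtain ⟨ι, hι⟩ : ∃ ι : AdjoinRoot P →ₐ[k] kb, ∀ b, ι (AdjoinRoot.mk P b) = aeval (rth kb V θ) b :=
    ⟨AdjoinRoot.liftAlgHom P (Algebra.ofId k kb) (rth kb V θ) hζ, fun b =>
      AdjoinRoot.liftAlgHom_mk ..⟩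
  have hr : ι (AdjoinRoot.root P) = rth kb V θ := by rw [← AdjoinRoot.mk_X, hι, aeval_X]
  obtain ⟨ι', hι'⟩ : ∃ ι', ι' = (algebraMap kb Ω).comp (ι : AdjoinRoot P →+* kb) := ⟨_, rfl⟩
  obtain ⟨y, hy⟩ : ∃ y : Fin (s + 2) → Ω,
      y = fun j => y0 D.φ P (rth kb V θ) (E.e (Pi.single j 1)) := ⟨_, rfl⟩
  have h1 : ∀ w, y0 D.φ P (rth kb V θ) (E.e w) = pnt ι' y w := fun w => by
    simpa only [hr, hι', hy] using y0_coord E ι w
  have ht : ∀ w, E.e w ∈ tors D.φ P := fun w => (E.range _).mpr ⟨w, rfl⟩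
  have hne : ∀ w, w ≠ 0 → E.e w ≠ 0 := fun w hw e => hw (E.inj (by rw [e, map_zero]))
  have h2 : ∀ w, w ≠ 0 → pnt ι' y w ≠ 0 ∧ V.ord (pnt ι' y w) = V.ord (E.e w) := fun w hw =>
    h1 w ▸ y0_ord D hV hN hP hζ (hne w hw) (hall _ (ht w))
  have h0 : pnt ι' y 0 = 0 := by simp [pnt]
  have h3 : Function.Injective (pnt ι' y) := fun w w' e => by
    by_contra hw
    refine (h2 _ (sub_ne_zero.mpr hw)).1 ?_
    rw [← sub_eq_zero] at e
    rw [← e]
    simp only [pnt, Pi.sub_apply, map_sub, sub_mul, Finset.sum_sub_distrib]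
  obtain ⟨b, hb⟩ := lwild_fix (K := K) ι' y h3 fun σ j => by
    obtain ⟨w, hw⟩ := (E.range _).mp (aut_tors D σ (ht (Pi.single j 1)))
    exact ⟨w, by rw [← h1, hw, ← y0_aut, hy]⟩
  obtain ⟨π, hπ0, hπ⟩ := v.surj
  have hq : 1 < Nat.card k := Finite.one_lt_card
  have hn := n0_pos hq (s + 2)
  have hn' : (0 : ℚ) < n0 (Nat.card k) (s + 2) := by exact_mod_cast hn
  have : NeZero ((n0 (Nat.card k) (s + 2) : ℕ) : Ω) := ⟨n0_ne k Ω _⟩
  obtain ⟨ϖ, hϖ⟩ := IsSepClosed.exists_pow_nat_eq (algebraMap K Ω π) (n0 (Nat.card k) (s + 2))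
  have hϖ0 : ϖ ≠ 0 := fun e => by
    rw [e, zero_pow hn.ne'] at hϖ
    exact (_root_.map_ne_zero _).mpr hπ0 hϖ.symm
  obtain ⟨m, hm⟩ := hN.int fun i => ⟨_, hV _⟩
  have hu0 : ϖ ^ (-m) ≠ 0 := zpow_ne_zero _ hϖ0
  have hu : V.ord (ϖ ^ (-m)) = -γ := by
    have h4 := V.ord_pow ϖ (n0 (Nat.card k) (s + 2))
    rw [hϖ, hV, hπ, Int.cast_one] at h4
    rw [V.ord_zpow, Int.cast_neg, ← hm]
    linear_combination γ * h4
  have h4 : Function.Injective (pnt ι' fun j => y j / ϖ ^ (-m)) := fun w w' e => by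
    rw [lwild_div, lwild_div, div_left_inj' hu0] at e
    exact h3 e
  have h5 : ∀ w, w ≠ 0 → V.ord (pnt ι' (fun j => y j / ϖ ^ (-m)) w) = V.ord (E.e w) + γ :=
    fun w hw => by rw [lwild_div, V.ord_div (h2 w hw).1 hu0, (h2 w hw).2, hu, sub_neg_eq_add]
  have h6 : ∀ w, V.Gt (pnt ι' (fun j => y j / ϖ ^ (-m)) w) 0 := fun w => by
    by_cases hw : w = 0
    · rw [lwild_div, hw, h0, zero_div]
      exact V.gt_zero 0
    · refine QVal.Gt.of_lt ?_
      have := (hall _ (ht w)).2.lt (hne w hw)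
      rw [h5 w hw]
      linarith
  have h7 : ∀ w, V.Ge (pnt ι' (fun j => y j / ϖ ^ (-m)) w) (μ + γ) ↔ V.Ge (E.e w) μ := fun w => by
    by_cases hw : w = 0
    · rw [lwild_div, hw, h0, zero_div, map_zero]
      simp
    · rw [QVal.ge_iff (hne w hw), QVal.ge_iff
        (by rw [lwild_div]; exact div_ne_zero (h2 w hw).1 hu0), h5 w hw, add_le_add_iff_right]
  have hcard := card_adjoinRoot (k := k) hP.ne_zero
  have h8 : Nat.card {w // V.Ge (pnt ι' (fun j => y j / ϖ ^ (-m)) w) (μ + γ)} =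
      Nat.card (AdjoinRoot P) := by
    rw [hcard, ← hc]
    refine Nat.card_eq_of_bijective (fun w => ⟨E.e w.1, ht _, (h7 _).mp w.2⟩)
      ⟨fun w w' e => Subtype.ext (E.inj (congrArg Subtype.val e)), fun x => ?_⟩
    obtain ⟨w, hw⟩ := (E.range _).mp x.2.1
    exact ⟨⟨w, (h7 _).mpr (hw ▸ x.2.2)⟩, Subtype.ext hw⟩
  obtain ⟨a, ha1, ha2⟩ := exists_rel ι' _ h4
  have hd := moore_ne ι' _ h4
  obtain ⟨g1, g2, g3, g4, g5⟩ := coeff_facts ι' V h4 ha2 h6 (μ := μ + γ) (fun w hw => by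
    rw [h5 w hw, add_le_add_iff_right]
    exact htop _ (ht w) (hne w hw)) h8
  have g6 : V.ord (a 0) ≤ V.ord (aeval (algebraMap K Ω θ) P) := by
    classical
    obtain ⟨x, hx⟩ : ∃ x, x ∈ tors D.φ P := ⟨0, zero_mem _⟩
    have := (hN.sum_le hV.hasRes D.dr (hall x hx).1 ⟨_, hu0, hu⟩ hP.ne_zero
      ((Finset.univ.erase 0).image E.e) fun z hz => by
        obtain ⟨w, hw, rfl⟩ := Finset.mem_image.mp hz
        exact ⟨hne w (Finset.ne_of_mem_erase hw), ht w, (hall _ (ht w)).2.ge⟩).le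
      fun e => tr_theta hB ⟨P, hP.ne_zero, e⟩
    rw [Finset.sum_image fun _ _ _ _ e => E.inj e] at this
    rw [g3]
    convert this using 1
    refine Finset.sum_congr (by congr) fun w hw => h5 w (Finset.ne_of_mem_erase hw)
  obtain ⟨c, hc1, hc2, hc3⟩ := lwild_ext (AlgebraicClosure Ω) p (f := f * P.natDegree)
    (Q := Nat.card (AdjoinRoot P)) (D := D0) (by rw [hcard, hf, pow_mul])
    (hcard ▸ lwild_per k P.natDegree) hV hπ hn hϖ ha1 hd
    (fun j => by simpa only [lwild_single] using (h6 (Pi.single j 1)).ge) (fun l => by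
      refine ⟨b l, -m * (Nat.card (AdjoinRoot P) ^ (l : ℕ) : ℕ) -
        -m * (Nat.card (AdjoinRoot P) ^ (s + 2) : ℕ), ?_⟩
      rw [ha1.unique (hb.div hu0) hd, zpow_sub₀ hϖ0, _root_.zpow_mul, _root_.zpow_mul,
        zpow_natCast, zpow_natCast, ← mul_div_assoc]) g1 g2 g4 g5 ((mul_le_mul_of_nonneg_left g6 hn'.le).trans hD)
    (hcard ▸ hQ)
  refine ⟨c, hc1, fun t ht' => ?_, hc3⟩
  obtain ⟨σ, hσ, e1, e2⟩ := hc2 t (hcard ▸ ht')
  have e3 : σ (ϖ ^ (-m)) = ϖ ^ (-m) := by rw [map_zpow₀, e1]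
  refine ⟨σ, hσ, hu ▸ hV.hasRes.tch_eq hσ hu0 (by
    rw [e3, map_one, one_mul, sub_self]
    exact V.gt_zero _), fun B hB' => ?_⟩
  have e4 := moore_mul ι' (fun j => y j / ϖ ^ (-m)) (B.map (AdjoinRoot.mk P))
  have e5 : (fun j => pnt ι' (fun j => y j / ϖ ^ (-m)) fun i => B.map (AdjoinRoot.mk P) i j) =
      fun j => (σ : Ω →+* Ω) (y j / ϖ ^ (-m)) := by
    funext j
    rw [lwild_div, RingHom.coe_coe, map_div₀, e3, ← h1, hy, y0_aut, hB', mulVec_single_one]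
    rfl
  rw [e5, ← moore_map, RingHom.coe_coe, e2] at e4
  have e6 := (isUnit_iff_isUnit_det _).mpr (isUnit_iff_ne_zero.mpr hd) |>.mul_left_cancel e4
  ext i j
  apply (algebraMap kb Ω).injective
  have e7 := congrFun (congrFun e6 i) j
  simp only [Matrix.map_apply, hι', RingHom.comp_apply, RingHom.coe_coe, hι] at e7 ⊢
  exact e7

end Pool.Agent.Lib.MP_6adaea_nt.T
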