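import Pool.Agent.Lib.MP_6adaea_nt.T.Poly

/-!
Moore matrices.
-/

set_option linter.unusedSectionVars false

namespace Pool.Agent.Lib.MP_6adaea_nt.T
open Matrix Polynomial G U Module

variable {E : Type} [Field E] {r Q : ℕ}

/-- the Moore matrix -/
def moore (Q : ℕ) (y : Fin r → E) : Matrix (Fin r) (Fin r) E :=
  Matrix.of fun l j => y j ^ Q ^ (l : ℕ)

/-- the additive equation -/
def Rel (Q : ℕ) (a y : Fin r → E) : Prop :=
  ∀ j, y j ^ Q ^ r + ∑ l : Fin r, a l * y j ^ Q ^ (l : ℕ) = 0

theorem moore_vecMul (a y : Fin r → E) (j : Fin r) :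
    (a ᵥ* moore Q y) j = ∑ l : Fin r, a l * y j ^ Q ^ (l : ℕ) := rfl

theorem Rel.unique {a a' y : Fin r → E} (h : Rel Q a y) (h' : Rel Q a' y)
    (hd : (moore Q y).det ≠ 0) : a = a' := by
  refine vecMul_injective_of_isUnit ((isUnit_iff_isUnit_det _).2 (isUnit_iff_ne_zero.2 hd)) ?_
  funext j
  exact add_left_cancel ((h j).trans (h' j).symm)

theorem Rel.map {E' : Type} [Field E'] (f : E →+* E') {a y : Fin r → E} (h : Rel Q a y) :
    Rel Q (fun l => f (a l)) fun j => f (y j) := by
  intro j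
  simpa only [map_add, map_sum, map_mul, map_pow, map_zero] using congrArg f (h j)

theorem Rel.div {a y : Fin r → E} (h : Rel Q a y) {u : E} (hu : u ≠ 0) :
    Rel Q (fun l => a l * u ^ Q ^ (l : ℕ) / u ^ Q ^ r) fun j => y j / u := by
  intro j
  have h1 := congrArg (· / u ^ Q ^ r) (h j)
  simp only [add_div, Finset.sum_div, zero_div] at h1
  rw [← h1, div_pow]
  refine congrArg _ (Finset.sum_congr rfl fun l _ => ?_)
  rw [div_pow]
  field_simp

theorem moore_map {E' : Type} [Field E'] (f : E →+* E') (y : Fin r → E) :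
    (moore Q y).map f = moore Q fun j => f (y j) := by
  ext l j
  simp [moore]

section fin
variable {k : Type} [Field k] [Fintype k] (ι : k →+* E) (y : Fin r → E)

/-- the points of the span -/
def pnt (w : Fin r → k) : E := ∑ j, ι (w j) * y j

theorem moore_pnt_pow (w : Fin r → k) (l : ℕ) :
    pnt ι y w ^ Nat.card k ^ l = ∑ j, ι (w j) * y j ^ Nat.card k ^ l := by
  let _ : Algebra k E := ι.toAlgebra
  rw [← frob_pow_apply (k := k), pnt, map_sum]
  refine Finset.sum_congr rfl fun j _ => ?_
  rw [map_mul, frob_pow_apply l (y j)]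
  exact congrArg (· * _) ((frob k E ^ l).commutes (w j))

theorem moore_deg (a : Fin r → E) :
    (∑ l : Fin r, C (a l) * X ^ Nat.card k ^ (l : ℕ)).natDegree < Nat.card k ^ r := by
  have hq : 1 < Nat.card k := Finite.one_lt_card
  refine lt_of_le_of_lt (natDegree_sum_le_of_forall_le _ _ fun l _ => ?_)
    (Nat.sub_lt (pow_pos (zero_lt_one.trans hq) r) one_pos)
  exact (natDegree_C_mul_X_pow_le _ _).trans (Nat.le_sub_one_of_lt (Nat.pow_lt_pow_right hq l.2))

theorem moore_eval (a : Fin r → E) (w : Fin r → k) :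
    (∑ l : Fin r, C (a l) * X ^ Nat.card k ^ (l : ℕ)).eval (pnt ι y w) =
      ∑ j, ι (w j) * ∑ l : Fin r, a l * y j ^ Nat.card k ^ (l : ℕ) := by
  simp only [eval_finsetSum, eval_mul, eval_C, eval_pow, eval_X, moore_pnt_pow, Finset.mul_sum]
  rw [Finset.sum_comm]
  exact Finset.sum_congr rfl fun j _ => Finset.sum_congr rfl fun l _ => mul_left_comm _ _ _

/-- a left kernel vector gives a nonzero additive polynomial of degree `< Q ^ r` with `Q ^ r`
roots; `x ↦ x ^ card k` is additive and fixes the image of `ι` -/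
theorem moore_ne (h : Function.Injective (pnt ι y)) : (moore (Nat.card k) y).det ≠ 0 := by
  intro h0
  obtain ⟨v, hv, hv'⟩ := exists_vecMul_eq_zero_iff.2 h0
  have h1 := eq_zero_of_natDegree_lt_card_of_eval_eq_zero
    (∑ l : Fin r, C (v l) * X ^ Nat.card k ^ (l : ℕ)) h (fun w => by
      rw [moore_eval]
      exact Finset.sum_eq_zero fun j _ => by rw [← moore_vecMul, hv', Pi.zero_apply, mul_zero])
    (by simpa only [Fintype.card_fun, Fintype.card_fin, Nat.card_eq_fintype_card]
      using moore_deg (k := k) v)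
  refine hv (funext fun l => ?_)
  have h2 := congrArg (coeff · (Nat.card k ^ (l : ℕ))) h1
  simp only [finsetSum_coeff, coeff_C_mul_X_pow, coeff_zero] at h2
  rw [Finset.sum_eq_single l (fun m _ hm => if_neg fun e => hm
    (Fin.ext (Nat.pow_right_injective (Finite.one_lt_card (α := k)) e).symm)) (by simp),
    if_pos rfl] at h2
  exact h2

/-- solve for `a` with `moore_ne`; both sides are monic of the same degree with the same roots -/
theorem exists_rel (h : Function.Injective (pnt ι y)) : ∃ a, Rel (Nat.card k) a y ∧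
    ∏ w : Fin r → k, (X - C (pnt ι y w)) =
      X ^ Nat.card k ^ r + ∑ l : Fin r, C (a l) * X ^ Nat.card k ^ (l : ℕ) := by
  have hd := isUnit_iff_ne_zero.2 (moore_ne ι y h)
  obtain ⟨a, ha⟩ : ∃ a, Rel (Nat.card k) a y := by
    refine ⟨(fun j => -y j ^ Nat.card k ^ r) ᵥ* (moore (Nat.card k) y)⁻¹, fun j => ?_⟩
    rw [← moore_vecMul, vecMul_vecMul, nonsing_inv_mul _ hd, vecMul_one, add_neg_cancel]
  have h1 := moore_deg (k := k) a
  refine ⟨a, ha, (eq_of_monic_of_dvd_of_natDegree_le
    (monic_prod_of_monic _ _ fun w _ => monic_X_sub_C _)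
    (monic_X_pow_add ((degree_le_natDegree).trans_lt (Nat.cast_lt.2 h1)))
    (Fintype.prod_dvd_of_coprime (pairwise_coprime_X_sub_C h) fun w => dvd_iff_isRoot.2 ?_)
    ?_).symm⟩
  · rw [IsRoot.def, eval_add, moore_eval, eval_pow, eval_X, moore_pnt_pow, ← Finset.sum_add_distrib]
    exact Finset.sum_eq_zero fun j _ => by rw [← mul_add, ha j, mul_zero]
  · rw [natDegree_finsetProd_X_sub_C_eq_card, Finset.card_univ, Fintype.card_fun, Fintype.card_fin,
      ← Nat.card_eq_fintype_card]
    exact (natDegree_add_le _ _).trans (max_le (natDegree_X_pow_le _) h1.le)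

theorem moore_mul (R : Matrix (Fin r) (Fin r) k) :
    moore (Nat.card k) y * R.map ι = moore (Nat.card k) fun j => pnt ι y fun i => R i j := by
  ext l j
  simp only [moore, mul_apply, of_apply, map_apply, moore_pnt_pow]
  exact Finset.sum_congr rfl fun i _ => mul_comm _ _

end fin

end Pool.Agent.Lib.MP_6adaea_nt.T
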