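import Pool.Agent.Lib.MP_6adaea_nt.T.Moore

/-!
Moore matrices, second part.
-/

set_option linter.unusedSectionVars false

namespace Pool.Agent.Lib.MP_6adaea_nt.T
open Matrix Polynomial G U Module

variable {E : Type} [Field E] {r Q : ℕ}

theorem moore2_coeff_ge {V : QVal E} {n : Type} (S : Finset n) (z : n → E) {m : ℚ}
    (h : ∀ w ∈ S, V.Ge (z w) m) (i : ℕ) :
    V.Ge ((∏ w ∈ S, (X - C (z w))).coeff i) ((S.card - i) * m) := by
  classical
  induction S using Finset.induction_on generalizing i with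
  | empty =>
    cases i with
    | zero => simpa using V.ge_one
    | succ i => simp [coeff_one]
  | insert b S hb ih =>
    have h1 := h b (by simp)
    have h2 := ih fun w hw => h w (by simp [hw])
    rw [Finset.prod_insert hb, Finset.card_insert_of_notMem hb, sub_mul, coeff_sub, coeff_C_mul]
    refine QVal.Ge.sub ?_ ((h1.mul (h2 i)).mono (le_of_eq (by push_cast; ring)))
    cases i with
    | zero => simp
    | succ i =>
      rw [coeff_X_mul]
      exact (h2 i).mono (le_of_eq (by push_cast; ring))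

theorem moore2_pos {V : QVal E} {n : Type} (S : Finset n) (z : n → E)
    (h : ∀ w ∈ S, V.Gt (z w) 0) : ∃ m : ℚ, 0 < m ∧ ∀ w ∈ S, V.Ge (z w) m := by
  classical
  induction S using Finset.induction_on with
  | empty => exact ⟨1, one_pos, by simp⟩
  | insert b S hb ih =>
    obtain ⟨m, hm, h1⟩ := ih fun w hw => h w (by simp [hw])
    obtain ⟨m', hm', h2⟩ := (h b (by simp)).exists_ge
    refine ⟨min m m', lt_min hm hm', fun w hw => ?_⟩
    rcases Finset.mem_insert.mp hw with rfl | hw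
    · exact h2.mono (min_le_right _ _)
    · exact (h1 w hw).mono (min_le_left _ _)

theorem moore2_coeff {q : ℕ} (hq : 1 < q) (a : Fin r → E) (l : Fin r) :
    (X ^ q ^ r + ∑ l : Fin r, C (a l) * X ^ q ^ (l : ℕ) : E[X]).coeff (q ^ (l : ℕ)) = a l := by
  have h1 : q ^ (l : ℕ) ≠ q ^ r := (Nat.pow_lt_pow_right hq l.2).ne
  rw [coeff_add, coeff_X_pow, if_neg h1, zero_add, finsetSum_coeff, Finset.sum_eq_single l]
  · simp
  · intro b _ hb
    rw [coeff_C_mul, coeff_X_pow, if_neg, mul_zero]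
    exact fun e => hb (Fin.ext (Nat.pow_right_injective hq e).symm)
  · simp

theorem moore2_split {V : QVal E} {n : Type} (T U : Finset n) {z : n → E}
    (hz : Function.Injective z) {μ : ℚ} (hT : ∀ w ∈ T, V.Ge (z w) μ)
    (hU : ∀ w ∈ U, ¬V.Ge (z w) μ) :
    ((∏ w ∈ T, (X - C (z w))) * ∏ w ∈ U, (X - C (z w))).coeff T.card ≠ 0 ∧
      V.ord (((∏ w ∈ T, (X - C (z w))) * ∏ w ∈ U, (X - C (z w))).coeff T.card) =
        ∑ w ∈ U, V.ord (z w) := by
  classical
  have hU' := fun w hw => QVal.not_ge_iff.mp (hU w hw)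
  have h1 : (∏ w ∈ T, (X - C (z w))).coeff T.card = 1 := by
    have h2 : (∏ w ∈ T, (X - C (z w))).natDegree = T.card := natDegree_finsetProd_X_sub_C_eq_card _ _
    rw [← h2]
    exact (monic_prod_X_sub_C z T).coeff_natDegree
  have h2 : (∏ w ∈ U, (X - C (z w))).coeff 0 = ∏ w ∈ U, -z w := by
    simp [coeff_zero_eq_eval_zero, eval_prod]
  have h3 : ∀ w ∈ U, -z w ≠ 0 := fun w hw => neg_ne_zero.mpr (hU' w hw).1
  have h4 : V.ord (∏ w ∈ U, -z w) = ∑ w ∈ U, V.ord (z w) := by
    rw [V.ord_prod _ _ h3]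
    simp
  have h5 : ∀ j : ℕ, j ≠ 0 → V.Gt ((∏ w ∈ U, (X - C (z w))).coeff j)
      (∑ w ∈ U, V.ord (z w) - j * μ) := fun j hj => by
    have := np_coeff_gt (V := V) (U.image z) (μ := μ) (fun x hx => by
      obtain ⟨w, hw, rfl⟩ := Finset.mem_image.mp hx
      exact hU' w hw) hj
    rwa [Finset.prod_image hz.injOn, Finset.sum_image hz.injOn] at this
  rw [coeff_mul]
  have h6 := QVal.ord_sum_of_lt (V := V) (s := Finset.HasAntidiagonal.antidiagonal T.card)
    (f := fun x : ℕ × ℕ => (∏ w ∈ T, (X - C (z w))).coeff x.1 *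
      (∏ w ∈ U, (X - C (z w))).coeff x.2) (i₀ := (T.card, 0)) (by simp)
    (by
      simp only [h1, h2, one_mul]
      exact Finset.prod_ne_zero_iff.mpr h3)
    (by
      rintro ⟨i, j⟩ hij hne
      have e : i + j = T.card := Finset.HasAntidiagonal.mem_antidiagonal.mp hij
      have hj : j ≠ 0 := fun e' => hne (by rw [← e, e', add_zero])
      simp only [h1, h2, one_mul, h4]
      refine ((moore2_coeff_ge T z hT i).mul_gt (h5 j hj)).mono (le_of_eq ?_)
      rw [← e]
      push_cast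
      ring)
  simpa only [h1, h2, one_mul, h4] using h6

/-- the companion matrix -/
def moore2Comp {s : ℕ} (a : Fin (s + 2) → E) : Matrix (Fin (s + 2)) (Fin (s + 2)) E :=
  Matrix.of fun l m => if l = Fin.last (s + 1) then -a m else if (m : ℕ) = l + 1 then 1 else 0

theorem moore2_comp_mul {s : ℕ} {a y : Fin (s + 2) → E} (h : Rel Q a y) :
    moore2Comp a * moore Q y = (moore Q y).map (· ^ Q) := by
  ext l j
  simp only [moore2Comp, moore, mul_apply, of_apply, map_apply, ← pow_mul, ← pow_succ]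
  induction l using Fin.lastCases with
  | last =>
    simp only [if_true, neg_mul, Finset.sum_neg_distrib, Fin.val_last]
    linear_combination -h j
  | cast l =>
    simp only [if_neg (Fin.castSucc_lt_last l).ne, Fin.val_castSucc]
    rw [Finset.sum_eq_single l.succ]
    · simp
    · intro b _ hb
      rw [if_neg fun e => hb (Fin.ext (by simpa using e)), zero_mul]
    · simp

theorem moore2_comp_det {s : ℕ} (a : Fin (s + 2) → E) :
    (moore2Comp a).det = (-1) ^ (s + 2) * a 0 := by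
  rw [det_succ_column_zero, Finset.sum_eq_single (Fin.last (s + 1))]
  · have : (moore2Comp a).submatrix (Fin.last (s + 1)).succAbove Fin.succ = 1 := by
      ext i j
      rw [submatrix_apply, Fin.succAbove_last, moore2Comp, of_apply,
        if_neg (Fin.castSucc_lt_last i).ne]
      simp only [Fin.val_succ, Fin.val_castSucc, one_apply, add_left_inj, Fin.ext_iff, eq_comm]
    rw [this]
    simp [moore2Comp, pow_succ]
  · intro b _ hb
    simp [moore2Comp, hb]
  · simp

section two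
variable {s : ℕ} {a y : Fin (s + 2) → E}

open Classical in
/-- Split the product as `f * G` with `f` over the `w` with `V.Ge (pnt w) μ`. The coefficient `n`
of `f` has order `≥ (Q - n) * μ`; by `np_coeff_gt` the coefficient `m ≥ 1` of `G` has order more
than `ord (G.coeff 0) - m * μ`. So the coefficient of `X ^ Q` in the product has the order of
`G.coeff 0`, and `a 0 = ∏ w ≠ 0, - pnt w` has order `ord (G.coeff 0) + (Q - 1) * μ`. -/
theorem coeff_facts {k : Type} [Field k] [Fintype k] (ι : k →+* E) (V : QVal E)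
    (h : Function.Injective (pnt ι y))
    (ha : ∏ w : Fin (s + 2) → k, (X - C (pnt ι y w)) = X ^ Nat.card k ^ (s + 2) +
      ∑ l : Fin (s + 2), C (a l) * X ^ Nat.card k ^ (l : ℕ))
    (hpos : ∀ w, V.Gt (pnt ι y w) 0) {μ : ℚ} (htop : ∀ w, w ≠ 0 → V.ord (pnt ι y w) ≤ μ)
    (hc : Nat.card {w // V.Ge (pnt ι y w) μ} = Nat.card k) :
    (∀ l, V.Gt (a l) 0) ∧ a 0 ≠ 0 ∧
      V.ord (a 0) = ∑ w ∈ Finset.univ.erase 0, V.ord (pnt ι y w) ∧ a 1 ≠ 0 ∧
      V.ord (a 1) < V.ord (a 0) := by
  have _ := htop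
  have hq : 1 < Nat.card k := Finite.one_lt_card
  have h0 : pnt ι y 0 = 0 := by simp [pnt]
  have hne : ∀ w, w ≠ 0 → pnt ι y w ≠ 0 := fun w hw e => hw (h (e.trans h0.symm))
  have hco : ∀ l : Fin (s + 2), (∏ w : Fin (s + 2) → k, (X - C (pnt ι y w))).coeff
      (Nat.card k ^ (l : ℕ)) = a l := fun l => by rw [ha, moore2_coeff hq]
  have ha0 : a 0 = ∏ w ∈ Finset.univ.erase 0, -pnt ι y w := by
    rw [← hco 0, ← Finset.mul_prod_erase _ _ (Finset.mem_univ 0), h0]
    rw [C_0, sub_zero, Fin.val_zero, pow_zero, ← zero_add 1, coeff_X_mul]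
    simp [coeff_zero_eq_eval_zero, eval_prod]
  have hne' : ∀ w ∈ Finset.univ.erase (0 : Fin (s + 2) → k), -pnt ι y w ≠ 0 := fun w hw =>
    neg_ne_zero.mpr (hne w (Finset.ne_of_mem_erase hw))
  have ho0 : V.ord (a 0) = ∑ w ∈ Finset.univ.erase 0, V.ord (pnt ι y w) := by
    rw [ha0, V.ord_prod _ _ hne']
    simp
  set T := Finset.univ.filter fun w => V.Ge (pnt ι y w) μ with hT
  set U := Finset.univ.filter fun w => ¬V.Ge (pnt ι y w) μ with hU
  have hcT : T.card = Nat.card k := by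
    rw [← hc, Nat.card_eq_fintype_card, Fintype.card_subtype]
  obtain ⟨h1, h2⟩ := moore2_split (V := V) T U h (μ := μ)
    (fun w hw => (Finset.mem_filter.mp hw).2) fun w hw => (Finset.mem_filter.mp hw).2
  have h3 := hco 1
  rw [Fin.val_one, pow_one] at h3
  rw [Finset.prod_filter_mul_prod_filter_not, hcT, h3] at h1 h2
  refine ⟨fun l => ?_, ha0 ▸ Finset.prod_ne_zero_iff.mpr hne', ho0, h1, ?_⟩
  · obtain ⟨m, hm, h4⟩ := moore2_pos Finset.univ (pnt ι y) fun w _ => hpos w
    rw [← hco l]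
    refine (moore2_coeff_ge _ _ h4 _).gt (mul_pos (sub_pos.mpr ?_) hm)
    rw [Finset.card_univ, Fintype.card_fun, Fintype.card_fin, ← Nat.card_eq_fintype_card]
    exact_mod_cast Nat.pow_lt_pow_right hq l.2
  · obtain ⟨w, hw, hw0⟩ := Finset.exists_mem_ne (s := T) (by omega) 0
    rw [h2, ho0]
    refine Finset.sum_lt_sum_of_subset (i := w) (fun u hu => ?_) (by simp [hw0]) ?_
      ((hpos w).lt (hne w hw0)) fun u hu _ => ((hpos u).lt (hne u (Finset.ne_of_mem_erase hu))).le
    · refine Finset.mem_erase.mpr ⟨fun e => ?_, Finset.mem_univ _⟩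
      exact (Finset.mem_filter.mp hu).2 (by rw [e, h0]; exact V.ge_zero μ)
    · exact fun e => (Finset.mem_filter.mp e).2 (Finset.mem_filter.mp hw).2

variable (p : ℕ) [Fact p.Prime] [CharP E p] {f : ℕ} (hQ : Q = p ^ f)
include hQ

theorem moore2_map_mul {n : Type} [Fintype n] (A B : Matrix n n E) :
    (A * B).map (· ^ Q) = A.map (· ^ Q) * B.map (· ^ Q) := by
  subst hQ
  exact Matrix.map_mul (f := iterateFrobenius E p f)

theorem moore2_inv (h : Rel Q a y) (hd : (moore Q y).det ≠ 0) :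
    ((moore Q y)⁻¹).map (· ^ Q) * moore2Comp a = (moore Q y)⁻¹ := by
  have hu : IsUnit (moore Q y).det := hd.isUnit
  have h1 : (1 : Matrix (Fin (s + 2)) (Fin (s + 2)) E).map (· ^ Q) = 1 :=
    Matrix.map_one _ (zero_pow (hQ ▸ (pow_pos (Fact.out : p.Prime).pos f).ne')) (one_pow _)
  have h2 := moore2_map_mul p hQ (moore Q y)⁻¹ (moore Q y)
  rw [nonsing_inv_mul _ hu, h1, ← moore2_comp_mul h, ← Matrix.mul_assoc] at h2
  exact (inv_eq_left_inv h2.symm).symm

theorem moore2_last (h : Rel Q a y) (hd : (moore Q y).det ≠ 0) (j : Fin (s + 2)) :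
    -((moore Q y)⁻¹ j (Fin.last (s + 1)) ^ Q * a 0) = (moore Q y)⁻¹ j 0 := by
  rw [← congrFun (congrFun (moore2_inv p hQ h hd) j) 0, mul_apply,
    Finset.sum_eq_single (Fin.last (s + 1))]
  · simp [moore2Comp]
  · intro b _ hb
    simp [moore2Comp, hb]
  · simp

/-- the Frobenius twist of the Moore matrix is the companion matrix times the Moore matrix -/
theorem moore_det (h : Rel Q a y) :
    (moore Q y).det ^ Q = (-1) ^ (s + 2) * a 0 * (moore Q y).det := by
  rw [← moore2_comp_det, ← det_mul, moore2_comp_mul h]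
  subst hQ
  exact (iterateFrobenius E p f).map_det _

/-- For a vector `w` put `⟨l, w⟩ = ∑ j, y j ^ Q ^ l * w j`; then `⟨l + 1, w ^ Q⟩ = ⟨l, w⟩ ^ Q` and
`⟨r, w⟩ = - ∑ a l * ⟨l, w⟩`. Multiply both sides by the Moore matrix. -/
theorem moore_xi (h : Rel Q a y) (hd : (moore Q y).det ≠ 0) (h0 : a 0 ≠ 0) (j : Fin (s + 2)) :
    (moore Q y)⁻¹ j 0 ^ Q = (moore Q y)⁻¹ j 1 - a 1 / a 0 * (moore Q y)⁻¹ j 0 := by
  have h1 := moore2_last p hQ h hd j
  have h2 := congrFun (congrFun (moore2_inv p hQ h hd) j) 1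
  have h3 : (0 : Fin (s + 2)) ≠ Fin.last (s + 1) := (Fin.last_pos).ne
  rw [mul_apply, Finset.sum_eq_add 0 (Fin.last (s + 1)) h3 ?_ (by simp) (by simp)] at h2
  · simp only [moore2Comp, map_apply, of_apply, if_neg h3, if_true, Fin.val_one, Fin.val_zero,
      zero_add, mul_one] at h2
    rw [← h2]
    conv_rhs => enter [2]; rw [← h1]
    field_simp
    ring
  · intro b _ hb
    have : ¬1 = (b : ℕ) + 1 := fun e => hb.1 (Fin.ext (by simpa using e.symm))
    rw [moore2Comp, of_apply, if_neg hb.2, Fin.val_one, if_neg this, mul_zero]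

/-- the equation of the deformation -/
theorem moore_def (h : Rel Q a y) (hd : (moore Q y).det ≠ 0) (h0 : a 0 ≠ 0) (ι : E →+* E) :
    ((moore Q y)⁻¹ * (moore Q y).map ι).map (· ^ Q) = (moore Q y)⁻¹ * (moore Q y).map ι +
      vecMulVec (fun j => (moore Q y)⁻¹ j 0)
        ((fun l => (ι (a l) - a l) / a 0) ᵥ* moore Q y) * ((moore Q y)⁻¹ * (moore Q y).map ι) := by
  have hu : IsUnit (moore Q y).det := hd.isUnit
  have h1 : ((moore Q y)⁻¹).map (· ^ Q) * moore2Comp (fun l => ι (a l)) = (moore Q y)⁻¹ +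
      vecMulVec (fun j => (moore Q y)⁻¹ j 0) fun l => (ι (a l) - a l) / a 0 := by
    have h2 : moore2Comp (fun l => ι (a l)) = moore2Comp a +
        vecMulVec (Pi.single (Fin.last (s + 1)) 1) fun l => a l - ι (a l) := by
      ext l m
      by_cases e : l = Fin.last (s + 1) <;> simp [moore2Comp, vecMulVec_apply, e, sub_eq_add_neg]
    rw [h2, Matrix.mul_add, moore2_inv p hQ h hd, mul_vecMulVec, mulVec_single_one]
    congr 1
    ext j m
    rw [vecMulVec_apply, vecMulVec_apply, ← moore2_last p hQ h hd j]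
    simp only [col_apply, map_apply]
    field_simp
    ring
  rw [moore2_map_mul p hQ, moore_map, ← moore2_comp_mul (h.map ι), ← Matrix.mul_assoc, h1,
    Matrix.add_mul, vecMulVec_mul, vecMulVec_mul, vecMul_vecMul, ← Matrix.mul_assoc,
    mul_nonsing_inv _ hu, Matrix.one_mul]

end two

/-- look at an entry of minimal order -/
theorem int_of_frob {V : QVal E} (hQ : 1 < Q) {n : Type} [Fintype n] {B M : Matrix n n E}
    (h : B.map (· ^ Q) = B + M * B) (hM : ∀ i j, V.Ge (M i j) 0) (i j : n) : V.Ge (B i j) 0 := by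
  classical
  by_contra hc
  obtain ⟨x, hx, hmin⟩ := Finset.exists_min_image (Finset.univ.filter fun x : n × n => B x.1 x.2 ≠ 0)
    (fun x => V.ord (B x.1 x.2)) ⟨(i, j), by simpa using (QVal.not_ge_iff.mp hc).1⟩
  have hx0 : B x.1 x.2 ≠ 0 := (Finset.mem_filter.mp hx).2
  have hge : ∀ u v, V.Ge (B u v) (V.ord (B x.1 x.2)) := fun u v =>
    (em (B u v = 0)).imp id fun h0 => hmin (u, v) (by simpa using h0)
  have h1 : V.Ge (B x.1 x.2 ^ Q) (V.ord (B x.1 x.2)) := by
    have e := congrFun (congrFun h x.1) x.2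
    rw [map_apply, Matrix.add_apply, mul_apply] at e
    rw [e]
    exact (hge _ _).add (QVal.Ge.sum fun l _ => (hM _ _).mul₀ (hge _ _))
  have h2 := h1.le (pow_ne_zero _ hx0)
  rw [V.ord_pow] at h2
  have h3 : (1 : ℚ) < Q := by exact_mod_cast hQ
  exact hc ((hge i j).mono (by nlinarith))

end Pool.Agent.Lib.MP_6adaea_nt.T
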