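import Pool.Agent.Lib.MP_6adaea_nt.T.Base

/-!
The division polynomials over a valuation ring.
-/

set_option linter.unusedSectionVars false

namespace Pool.Agent.Lib.MP_6adaea_nt.T
open Matrix Polynomial G U

variable {k Ω : Type} [Field k] [Finite k] [Field Ω] [Algebra k Ω]
  {θ : Ω} {r : ℕ} {g : ℕ → Ω} {φ : Ω →ₗ[k] Ω} {V : QVal Ω} {γ : ℚ}

/-- induction on `S`, `coeff_X_sub_C_mul`-type formula -/
theorem np_coeff (S : Finset Ω) {μ : ℚ} (h : ∀ y ∈ S, y ≠ 0 ∧ V.ord y ≤ μ) (n : ℕ) :
    V.Ge ((∏ y ∈ S, (X - C y)).coeff n) (∑ y ∈ S, V.ord y - n * μ) := by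
  classical
  induction S using Finset.induction_on generalizing n with
  | empty =>
    cases n with
    | zero => simpa using V.ge_one
    | succ n => simp [coeff_one]
  | insert y S hy ih =>
    have ih' := ih fun z hz => h z (Finset.mem_insert_of_mem hz)
    obtain ⟨h0, h1⟩ := h y (Finset.mem_insert_self _ _)
    rw [Finset.prod_insert hy, Finset.sum_insert hy, mul_comm]
    cases n with
    | zero =>
      rw [mul_coeff_zero]
      simpa [add_comm] using (ih' 0).mul (V.ge_ord y).neg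
    | succ n =>
      rw [coeff_mul_X_sub_C]
      refine QVal.Ge.sub ((ih' n).mono ?_) (((ih' (n + 1)).mul (V.ge_ord y)).mono ?_)
      · push_cast
        linarith
      · linarith

/-- the same with a strict inequality (take the maximum of the orders) -/
theorem np_coeff_gt (S : Finset Ω) {μ : ℚ} (h : ∀ y ∈ S, y ≠ 0 ∧ V.ord y < μ) {n : ℕ}
    (hn : n ≠ 0) : V.Gt ((∏ y ∈ S, (X - C y)).coeff n) (∑ y ∈ S, V.ord y - n * μ) := by
  rcases S.eq_empty_or_nonempty with rfl | hS
  · simp [coeff_one, hn]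
  obtain ⟨y, hy, hm⟩ := S.exists_max_image (fun y => V.ord y) hS
  refine (np_coeff S (μ := V.ord y) (fun z hz => ⟨(h z hz).1, hm z hz⟩) n).gt ?_
  have h1 : (0 : ℚ) < n := by exact_mod_cast Nat.pos_of_ne_zero hn
  have h2 := mul_lt_mul_of_pos_left (h y hy).2 h1
  linarith

theorem poly_base (hφ : IsDr θ r g φ) (hr : 0 < r) (hg : g r ≠ 0) :
    ∃ F : Polynomial Ω, (∀ y, F.eval y = φ y) ∧ F.natDegree = Nat.card k ^ r ∧
      derivative F = C θ ∧ F.leadingCoeff = g r := by
  have hq : 1 < Nat.card k := Finite.one_lt_card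
  have h0 : (Nat.card k : Ω) = 0 := by
    have := Fintype.ofFinite k
    rw [← map_natCast (algebraMap k Ω), Nat.card_eq_fintype_card, FiniteField.cast_card_eq_zero,
      map_zero]
  obtain ⟨r, rfl⟩ : ∃ s, r = s + 1 := ⟨r - 1, by omega⟩
  have hlt : (C θ * X + ∑ i ∈ Finset.Icc 1 r, C (g i) * X ^ (Nat.card k ^ i)).natDegree <
      (C (g (r + 1)) * X ^ (Nat.card k ^ (r + 1))).natDegree := by
    rw [natDegree_C_mul_X_pow _ _ hg]
    refine lt_of_le_of_lt (natDegree_add_le_of_degree_le ?_ ?_)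
      (Nat.pow_lt_pow_right hq r.lt_succ_self)
    · exact ((natDegree_C_mul_le _ _).trans natDegree_X_le).trans (Nat.one_le_pow _ _ (by omega))
    · exact natDegree_sum_le_of_forall_le _ _ fun i hi => (natDegree_C_mul_X_pow_le _ _).trans
        (Nat.pow_le_pow_right hq.le (Finset.mem_Icc.1 hi).2)
  refine ⟨C θ * X + ∑ i ∈ Finset.Icc 1 (r + 1), C (g i) * X ^ (Nat.card k ^ i), fun y => ?_, ?_, ?_,
    ?_⟩
  · rw [hφ y]
    simp [eval_finsetSum]
  · rw [Finset.sum_Icc_succ_top (by omega), ← add_assoc, natDegree_add_eq_right_of_natDegree_lt hlt,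
      natDegree_C_mul_X_pow _ _ hg]
  · rw [derivative_add, derivative_C_mul_X, derivative_sum, Finset.sum_eq_zero, add_zero]
    intro i hi
    rw [derivative_C_mul_X_pow, Nat.cast_pow, h0,
      zero_pow (by have := (Finset.mem_Icc.1 hi).1; omega), mul_zero, C_0, zero_mul]
  · rw [Finset.sum_Icc_succ_top (by omega), ← add_assoc,
      leadingCoeff_add_of_degree_lt (degree_lt_degree hlt), leadingCoeff_C_mul_X_pow]

/-- copy the proof of `exists_poly` and carry the leading coefficient along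
(`leadingCoeff_comp`) -/
theorem exists_poly_lead (hφ : IsDr θ r g φ) (hr : 0 < r) (hg : g r ≠ 0) {a : k[X]}
    (ha : a.Monic) : ∃ (Φ : Polynomial Ω) (e : ℕ), (∀ y, Φ.eval y = aeval φ a y) ∧
      Φ.natDegree = Nat.card k ^ (r * a.natDegree) ∧ derivative Φ = C (aeval θ a) ∧
      Φ.leadingCoeff = g r ^ e ∧
      (Nat.card k ^ r - 1) * e + 1 = Nat.card k ^ (r * a.natDegree) := by
  obtain ⟨F, hF1, hF2, hF3, hF4⟩ := poly_base hφ hr hg
  have hq : 1 < Nat.card k := Finite.one_lt_card
  have hq' : 1 < Nat.card k ^ r := Nat.one_lt_pow hr.ne' hq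
  induction hn : a.natDegree generalizing a with
  | zero =>
    obtain rfl := ha.natDegree_eq_zero.1 hn
    exact ⟨X, 0, fun y => by simp, by simp, by simp, by simp, by simp⟩
  | succ n ih =>
    have hd0 : a.divX.natDegree = n := by rw [natDegree_divX_eq_natDegree_tsub_one, hn]; rfl
    have hb : a.divX.Monic := by
      rw [Monic, leadingCoeff, hd0, coeff_divX, ← hn]
      exact ha
    obtain ⟨Φ, e, h1, h2, h3, h4, h5⟩ := ih hb hd0
    have he := a.divX_mul_X_add
    generalize a.divX = b at *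
    generalize a.coeff 0 = c at he
    subst he
    have hd : (Φ.comp F).natDegree = Nat.card k ^ (r * (n + 1)) := by
      rw [natDegree_comp, h2, hF2, mul_add, mul_one, pow_add]
    have hlt : (C (algebraMap k Ω c) * X).natDegree < (Φ.comp F).natDegree := by
      rw [hd]
      exact ((natDegree_C_mul_le _ _).trans natDegree_X_le).trans_lt
        (Nat.one_lt_pow (by positivity) hq)
    refine ⟨Φ.comp F + C (algebraMap k Ω c) * X, e + Nat.card k ^ (r * n), fun y => ?_, ?_, ?_, ?_,
      ?_⟩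
    · simp [h1, hF1, Algebra.smul_def]
    · rw [natDegree_add_eq_left_of_natDegree_lt hlt, hd]
    · rw [derivative_add, derivative_comp, h3, hF3]
      rw [C_comp, derivative_C_mul_X, map_add, map_mul, aeval_X, aeval_C, C_add, C_mul, mul_comm]
    · rw [leadingCoeff_add_of_degree_lt' (degree_lt_degree hlt),
        leadingCoeff_comp (by rw [hF2]; omega), h4, hF4, h2, pow_add]
    · rw [mul_add, add_right_comm, h5, mul_add r, mul_one, pow_add]
      obtain ⟨u, hu⟩ : ∃ u, Nat.card k ^ r = u + 1 := ⟨Nat.card k ^ r - 1, by omega⟩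
      rw [hu, Nat.add_sub_cancel]
      ring

/-- `Φ = C (g r ^ e) * ∏ y ∈ W, (X - C y)` (both sides have the same degree and leading
coefficient and agree on `W`); compare the derivatives at `0` -/
theorem tors_prod (hφ : IsDr θ r g φ) (hr : 0 < r) (hg : g r ≠ 0) {a : k[X]} (ha : a.Monic)
    (S : Finset Ω) (hS : ∀ y ∈ S, y ≠ 0 ∧ aeval φ a y = 0)
    (hc : S.card + 1 = Nat.card k ^ (r * a.natDegree)) :
    ∃ e : ℕ, (Nat.card k ^ r - 1) * e + 1 = Nat.card k ^ (r * a.natDegree) ∧
      aeval θ a = g r ^ e * ∏ y ∈ S, (-y) := by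
  classical
  obtain ⟨Φ, e, h1, h2, h3, h4, h5⟩ := exists_poly_lead hφ hr hg ha
  refine ⟨e, h5, ?_⟩
  have h0 : (0 : Ω) ∉ S := fun h => (hS 0 h).1 rfl
  have hm : (∏ y ∈ insert 0 S, (X - C y) : Polynomial Ω).Monic :=
    monic_prod_of_monic _ _ fun y _ => monic_X_sub_C y
  have hd : (∏ y ∈ insert 0 S, (X - C y) : Polynomial Ω).natDegree = S.card + 1 := by
    rw [natDegree_finsetProd_X_sub_C_eq_card, Finset.card_insert_of_notMem h0]
  have hdvd : (∏ y ∈ insert 0 S, (X - C y) : Polynomial Ω) ∣ Φ := by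
    refine Finset.prod_dvd_of_coprime (fun y _ z _ hne => isCoprime_X_sub_C_of_isUnit_sub
      (sub_ne_zero.2 hne).isUnit) fun y hy => dvd_iff_isRoot.2 ?_
    rw [IsRoot, h1]
    rcases Finset.mem_insert.1 hy with rfl | hy
    · exact map_zero _
    · exact (hS y hy).2
  have he := eq_leadingCoeff_mul_of_monic_of_dvd_of_natDegree_le hm hdvd (by rw [hd, hc, h2])
  have h6 := congrArg (eval 0) h3
  rw [he, h4, Finset.prod_insert h0] at h6
  rw [eval_C] at h6
  rw [← h6]
  simp [eval_prod]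

end Pool.Agent.Lib.MP_6adaea_nt.T
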