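import Pool.Agent.Lib.MP_6adaea_nt.T.Base

/-!
Uniform quasi-unipotence of inertia.
-/

set_option linter.unusedSectionVars false

namespace Pool.Agent.Lib.MP_6adaea_nt.T
open Matrix Polynomial G U Module

section gen
variable {k Ω : Type} [Field k] [Finite k] [Field Ω] [Algebra k Ω]
  {θ : Ω} {r : ℕ} {g : ℕ → Ω} {φ : Ω →ₗ[k] Ω} {V : QVal Ω} {γ : ℚ}

variable (k) in
/-- the terms of `φ x` as linear maps -/
noncomputable def trm (θ : Ω) (g : ℕ → Ω) (i : ℕ) : Ω →ₗ[k] Ω :=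
  (if i = 0 then θ else g i) • (frob k Ω ^ i).toLinearMap

theorem trm_apply (i : ℕ) (x : Ω) :
    trm k θ g i x = (if i = 0 then θ else g i) * x ^ Nat.card k ^ i := by
  rw [trm, LinearMap.smul_apply, AlgHom.toLinearMap_apply, frob_pow_apply, smul_eq_mul]

theorem phi_eq (hφ : IsDr θ r g φ) (x : Ω) :
    φ x = ∑ i ∈ Finset.range (r + 1), trm k θ g i x := by
  rw [hφ x, Finset.range_eq_Ico, Finset.sum_eq_sum_Ico_succ_bot (Nat.succ_pos r), trm_apply,
    if_pos rfl, pow_zero, pow_one]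
  congr 1
  refine Finset.sum_congr rfl fun i hi => ?_
  rw [trm_apply, if_neg (by have := (Finset.mem_Icc.1 hi).1; omega)]

variable (k) in
/-- all terms have order at least `ν` -/
noncomputable def uG (V : QVal Ω) (θ : Ω) (r : ℕ) (g : ℕ → Ω) (ν : ℚ) : Submodule k Ω :=
  ⨅ i ∈ Finset.range (r + 1), (dG k V ν).comap (trm k θ g i)

variable (k) in
/-- all terms have order more than `ν` -/
noncomputable def uS (V : QVal Ω) (θ : Ω) (r : ℕ) (g : ℕ → Ω) (ν : ℚ) : Submodule k Ω :=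
  ⨅ i ∈ Finset.range (r + 1), (dS k V ν).comap (trm k θ g i)

theorem qu1_mem_uG {ν : ℚ} {x : Ω} : x ∈ uG k V θ r g ν ↔
    ∀ i ∈ Finset.range (r + 1), V.Ge (trm k θ g i x) ν := by
  simp only [uG, Submodule.mem_iInf, Submodule.mem_comap, mem_dG]

theorem qu1_mem_uS {ν : ℚ} {x : Ω} : x ∈ uS k V θ r g ν ↔
    ∀ i ∈ Finset.range (r + 1), V.Gt (trm k θ g i x) ν := by
  simp only [uS, Submodule.mem_iInf, Submodule.mem_comap, mem_dS]

theorem qu1_pos (i : ℕ) : Nat.card k ^ i ≠ 0 := pow_ne_zero _ Nat.card_pos.ne'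

theorem qu1_div (i : ℕ) {x0 : Ω} (h0 : x0 ≠ 0) (x : Ω) :
    trm k θ g i x = trm k θ g i x0 * (x / x0) ^ Nat.card k ^ i := by
  rw [trm_apply, trm_apply, div_pow]
  field_simp

theorem qu1_ge {ν : ℚ} {x y : Ω} {i : ℕ} (h1 : trm k θ g i x ≠ 0) (h2 : V.ord (trm k θ g i x) ≤ ν)
    (h3 : V.Ge (trm k θ g i y) ν) : x ≠ 0 ∧ V.Ge (y / x) 0 := by
  have h0 : x ≠ 0 := fun e => h1 (by rw [e, map_zero])
  refine ⟨h0, ?_⟩
  rw [qu1_div i h0, mul_comm, QVal.ge_mul_iff h1] at h3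
  rw [← QVal.ge_pow_iff (qu1_pos (k := k) i), mul_zero]
  exact h3.mono (by linarith)

theorem qu1_gt {ν : ℚ} {x y : Ω} (h0 : x ≠ 0) (hx : x ∈ uG k V θ r g ν) (hy : V.Gt (y / x) 0) :
    y ∈ uS k V θ r g ν := by
  refine qu1_mem_uS.2 fun i hi => ?_
  rw [qu1_div i h0]
  simpa using (qu1_mem_uG.1 hx i hi).mul_gt (hy.pow (qu1_pos (k := k) i))

theorem qu1_res_sum {kb : Type} [Field kb] [Algebra kb Ω] (hres : V.HasRes kb) {ι : Type*}
    (s : Finset ι) (f : ι → Ω) (h : ∀ i ∈ s, V.Ge (f i) 0) :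
    V.res kb (∑ i ∈ s, f i) = ∑ i ∈ s, V.res kb (f i) := by
  classical
  induction s using Finset.induction_on with
  | empty => simpa using hres.res_zero
  | insert a s ha ih =>
    have h1 : ∀ i ∈ s, V.Ge (f i) 0 := fun i hi => h i (Finset.mem_insert_of_mem hi)
    rw [Finset.sum_insert ha, Finset.sum_insert ha,
      hres.res_add (h a (Finset.mem_insert_self _ _)) (QVal.Ge.sum h1), ih h1]

theorem qu1_roots {kb : Type} [Field kb] [Algebra kb Ω] (hres : V.HasRes kb) (hφ : IsDr θ r g φ)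
    {ν : ℚ} {x0 : Ω} (hx : x0 ∈ uG k V θ r g ν) {j : ℕ} (hj : j ∈ Finset.range (r + 1))
    (h1 : trm k θ g j x0 ≠ 0) (h2 : V.ord (trm k θ g j x0) ≤ ν) :
    ∃ T : Finset kb, T.card ≤ Nat.card k ^ r ∧
      ∀ x ∈ uG k V θ r g ν, V.Gt (φ x) ν → V.res kb (x / x0) ∈ T := by
  classical
  have hq : 1 < Nat.card k := Finite.one_lt_card
  set P : kb[X] := ∑ i ∈ Finset.range (r + 1),
    monomial (Nat.card k ^ i) (V.res kb (trm k θ g i x0 / trm k θ g j x0)) with hP
  have hP0 : P ≠ 0 := by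
    intro e
    have : P.coeff (Nat.card k ^ j) = 1 := by
      rw [hP, finsetSum_coeff, Finset.sum_eq_single j]
      · rw [coeff_monomial, if_pos rfl, div_self h1, hres.res_one]
      · intro i _ hi
        rw [coeff_monomial, if_neg fun e => hi (Nat.pow_right_injective hq e)]
      · exact fun h => absurd hj h
    rw [e, coeff_zero] at this
    exact zero_ne_one this
  have hd : P.natDegree ≤ Nat.card k ^ r := by
    refine natDegree_sum_le_of_forall_le _ _ fun i hi => (natDegree_monomial_le _).trans ?_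
    exact Nat.pow_le_pow_right hq.le (Nat.lt_succ_iff.1 (Finset.mem_range.1 hi))
  refine ⟨P.roots.toFinset, (Multiset.toFinset_card_le _).trans ((card_roots' P).trans hd),
    fun x hx1 hx2 => ?_⟩
  obtain ⟨h0, h3⟩ := qu1_ge h1 h2 (qu1_mem_uG.1 hx1 j hj)
  have h4 : ∀ i ∈ Finset.range (r + 1), V.Ge (trm k θ g i x0 / trm k θ g j x0) 0 := fun i hi =>
    (QVal.ge_div_iff h1).2 ((qu1_mem_uG.1 hx i hi).mono (by linarith))
  have h5 : V.Gt (φ x / trm k θ g j x0) 0 := (QVal.gt_div_iff h1).2 (hx2.mono (by linarith))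
  have h6 : φ x / trm k θ g j x0 = ∑ i ∈ Finset.range (r + 1),
      trm k θ g i x0 / trm k θ g j x0 * (x / x0) ^ Nat.card k ^ i := by
    rw [phi_eq hφ, Finset.sum_div]
    exact Finset.sum_congr rfl fun i _ => by rw [qu1_div i h0 x, mul_div_right_comm]
  rw [Multiset.mem_toFinset, mem_roots hP0, IsRoot, hP, eval_finsetSum,
    ← (hres.res_eq_zero h5.ge).2 h5, h6,
    qu1_res_sum hres _ _ fun i hi => (h4 i hi).mul₀ (h3.pow₀ _)]
  refine Finset.sum_congr rfl fun i hi => ?_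
  rw [eval_monomial, hres.res_mul (h4 i hi) (h3.pow₀ _), hres.res_pow h3]

/-- The kernel on a layer. Let `G = W ⊓ uG ν ⊓ comap φ (dS ν)`. All elements of `uG ν` outside
`uS ν` have the same order `μ` (the minimum of the orders of the terms is a strictly increasing
function of the order). Fix such an `x0` and a term `y0` of order `ν`. The residues of `x / x0`,
`x` in a complement of `W ⊓ uS ν` in `G`, are distinct roots of the nonzero polynomial
`∑ i, C (res (trm i x0 / y0)) * X ^ q ^ i`, so the complement has at most `q ^ r` elements. -/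
theorem ker_le {kb : Type} [Field kb] [Algebra kb Ω] (hres : V.HasRes kb) (hφ : IsDr θ r g φ)
    (W : Submodule k Ω) [FiniteDimensional k W] (ν : ℚ) :
    finrank k (W ⊓ uG k V θ r g ν ⊓ (dS k V ν).comap φ : Submodule k Ω) ≤
      finrank k (W ⊓ uS k V θ r g ν : Submodule k Ω) + r := by
  classical
  set G : Submodule k Ω := W ⊓ uG k V θ r g ν ⊓ (dS k V ν).comap φ with hG
  set S : Submodule k Ω := W ⊓ uS k V θ r g ν with hS
  have hfS : FiniteDimensional k S := Submodule.finiteDimensional_of_le inf_le_left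
  have hfG : FiniteDimensional k G :=
    Submodule.finiteDimensional_of_le (inf_le_left.trans inf_le_left)
  by_cases hle : G ≤ uS k V θ r g ν
  · exact (Submodule.finrank_mono (le_inf (inf_le_left.trans inf_le_left) hle)).trans
      (Nat.le_add_right _ _)
  obtain ⟨x0, hx0, hx1⟩ := SetLike.not_le_iff_exists.1 hle
  rw [qu1_mem_uS] at hx1
  push Not at hx1
  obtain ⟨j, hj, hx1⟩ := hx1
  obtain ⟨h1, h2⟩ := QVal.not_gt_iff.1 hx1
  obtain ⟨T, hT, hT1⟩ := qu1_roots hres hφ hx0.1.2 hj h1 h2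
  obtain ⟨C, hC⟩ := (S.comap G.subtype).exists_isCompl
  have h3 := Submodule.finrank_add_eq_of_isCompl hC
  have h4 : finrank k (S.comap G.subtype) ≤ finrank k S := by
    rw [← Submodule.finrank_map_subtype_eq]
    exact Submodule.finrank_mono (Submodule.map_comap_le _ _)
  have h5 : Nat.card C ≤ Nat.card T := by
    refine Nat.card_le_card_of_injective
      (fun x : C => (⟨V.res kb (x.1.1 / x0), hT1 _ x.1.2.1.2 x.1.2.2⟩ : T)) fun x y e => ?_
    obtain ⟨h0, h6⟩ := qu1_ge h1 h2 (qu1_mem_uG.1 x.1.2.1.2 j hj)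
    obtain ⟨-, h7⟩ := qu1_ge h1 h2 (qu1_mem_uG.1 y.1.2.1.2 j hj)
    have h8 := (hres.res_eq_iff h6 h7).1 (congrArg Subtype.val e)
    rw [← sub_div] at h8
    have h9 : x.1 - y.1 ∈ S.comap G.subtype :=
      ⟨W.sub_mem x.1.2.1.1 y.1.2.1.1, qu1_gt h0 hx0.1.2 h8⟩
    exact Subtype.ext (sub_eq_zero.1
      (Submodule.disjoint_def.1 hC.disjoint _ h9 (C.sub_mem x.2 y.2)))
  rw [Module.natCard_eq_pow_finrank (K := k)] at h5
  have h6 : finrank k C ≤ r := by
    refine (Nat.pow_le_pow_iff_right (Finite.one_lt_card (α := k))).1 (h5.trans ?_)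
    simpa using hT
  omega

/-- The breaks: the values `ν = ord (c i) + q ^ i * μ = ord (c j) + q ^ j * μ`, `i ≠ j`; take the
image of `range (r + 1) ×ˢ range (r + 1)` under the explicit formula. For other `ν` an element of
`uG ν` outside `uS ν` has exactly one term of order `ν` (`ord_sum_of_lt`). -/
theorem exists_breaks (V : QVal Ω) (hφ : IsDr θ r g φ) : ∃ B : Finset ℚ, B.card ≤ (r + 1) ^ 2 ∧
    ∀ ν ∉ B, ∀ x ∈ uG k V θ r g ν, V.Gt (φ x) ν → x ∈ uS k V θ r g ν := by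
  classical
  have hq : (1 : ℚ) < Nat.card k := by exact_mod_cast (Finite.one_lt_card : 1 < Nat.card k)
  let a : ℕ → ℚ := fun i => V.ord (if i = 0 then θ else g i)
  refine ⟨(Finset.range (r + 1) ×ˢ Finset.range (r + 1)).image fun p => a p.1 +
    (Nat.card k : ℚ) ^ p.1 * ((a p.1 - a p.2) / ((Nat.card k : ℚ) ^ p.2 - (Nat.card k : ℚ) ^ p.1)),
    Finset.card_image_le.trans (by simp [sq]), fun ν hν x hx h => ?_⟩
  have ho : ∀ i, trm k θ g i x ≠ 0 →
      V.ord (trm k θ g i x) = a i + (Nat.card k : ℚ) ^ i * V.ord x := by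
    intro i hi
    rw [trm_apply] at hi ⊢
    rw [V.ord_mul (left_ne_zero_of_mul hi) (right_ne_zero_of_mul hi), QVal.ord_pow, Nat.cast_pow]
  have hn : ∀ i ∈ Finset.range (r + 1), ¬ V.Gt (trm k θ g i x) ν →
      trm k θ g i x ≠ 0 ∧ V.ord (trm k θ g i x) = ν := fun i hi h1 => by
    obtain ⟨h2, h3⟩ := QVal.not_gt_iff.1 h1
    exact ⟨h2, le_antisymm h3 ((qu1_mem_uG.1 hx i hi).le h2)⟩
  refine qu1_mem_uS.2 fun i hi => by_contra fun h1 => ?_
  obtain ⟨h2, h3⟩ := hn i hi h1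
  have h4 : ∀ j ∈ Finset.range (r + 1), j ≠ i →
      V.Gt (trm k θ g j x) (V.ord (trm k θ g i x)) := by
    intro j hj hji
    rw [h3]
    by_contra h5
    obtain ⟨h6, h7⟩ := hn j hj h5
    refine hν (Finset.mem_image.2 ⟨(i, j), Finset.mem_product.2 ⟨hi, hj⟩, ?_⟩)
    have h8 : (Nat.card k : ℚ) ^ j - (Nat.card k : ℚ) ^ i ≠ 0 :=
      sub_ne_zero.2 fun e => hji (pow_right_injective₀ (by linarith) hq.ne' e)
    rw [ho i h2] at h3
    rw [ho j h6] at h7
    have h9 : (a i - a j) / ((Nat.card k : ℚ) ^ j - (Nat.card k : ℚ) ^ i) = V.ord x := by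
      rw [div_eq_iff h8]
      linarith
    simp only [h9, h3]
  obtain ⟨h5, h6⟩ := QVal.ord_sum_of_lt (f := fun j => trm k θ g j x) hi h2 h4
  rw [← phi_eq hφ] at h5 h6
  have := h.lt h5
  linarith

end gen

end Pool.Agent.Lib.MP_6adaea_nt.T
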