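import Pool.Agent.Lib.MP_6adaea_nt.T.Base

/-!
Lattices in `Ω ⊗ S`.
-/

set_option linter.unusedSectionVars false

namespace Pool.Agent.Lib.MP_6adaea_nt.T
open Matrix Polynomial G U Module
open scoped TensorProduct

variable {kb K Ω S : Type} [Field kb] [Field K] [Field Ω] [Algebra kb K] [Algebra kb Ω]
  [Algebra K Ω] [IsScalarTower kb K Ω] [CommRing S] [Algebra kb S] {V : Val kb Ω}

theorem cf_tmul (A : Type) [Field A] [Algebra kb A] (l : S →ₗ[kb] kb) (y : A) (s : S) :
    cf A l (y ⊗ₜ s) = algebraMap kb A (l s) * y := by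
  simp [cf, Algebra.smul_def]

theorem cf_act {A A' : Type} [Field A] [Field A'] [Algebra kb A] [Algebra kb A']
    (f : A →ₐ[kb] A') (l : S →ₗ[kb] kb) (x : A ⊗[kb] S) : cf A' l (act S f x) = f (cf A l x) := by
  induction x using TensorProduct.induction_on with
  | zero => simp
  | tmul x s =>
    change cf A' l (f x ⊗ₜ s) = _
    rw [cf_tmul, cf_tmul, map_mul, AlgHom.commutes]
  | add x y hx hy => simp only [map_add, hx, hy]

/-- expansion in a basis -/
theorem eq_sum_cf (A : Type) [Field A] [Algebra kb A] {ι : Type} [Fintype ι] (b : Basis ι kb S)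
    (x : A ⊗[kb] S) : x = ∑ i, cf A (b.coord i) x ⊗ₜ b i := by
  induction x using TensorProduct.induction_on with
  | zero => simp
  | tmul x s =>
    simp only [cf_tmul, ← Algebra.smul_def, TensorProduct.smul_tmul, Module.Basis.coord_apply]
    rw [← TensorProduct.tmul_sum, b.sum_repr]
  | add x y hx hy =>
    simp only [map_add, TensorProduct.add_tmul, Finset.sum_add_distrib]
    rw [← hx, ← hy]

theorem gal_tmul (σ : Ω ≃ₐ[K] Ω) (y : Ω) (s : S) : gal kb S σ (y ⊗ₜ s) = σ y ⊗ₜ s := by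
  rfl

theorem gal_inc (σ : Ω ≃ₐ[K] Ω) (u : K ⊗[kb] S) : gal kb S σ (inc S K Ω u) = inc S K Ω u := by
  induction u using TensorProduct.induction_on with
  | zero => simp
  | tmul x s =>
    change gal kb S σ (algebraMap K Ω x ⊗ₜ s) = algebraMap K Ω x ⊗ₜ s
    rw [gal_tmul, AlgEquiv.commutes]
  | add x y hx hy => simp only [map_add, hx, hy]

theorem gal_mul (σ τ : Ω ≃ₐ[K] Ω) (x : Ω ⊗[kb] S) :
    gal kb S (σ * τ) x = gal kb S σ (gal kb S τ x) := by
  induction x using TensorProduct.induction_on with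
  | zero => simp
  | tmul x s => rw [gal_tmul, gal_tmul, gal_tmul, AlgEquiv.mul_apply]
  | add x y hx hy => simp only [map_add, hx, hy]

theorem gge_tmul {y : Ω} {a : ℚ} (h : V.Ge y a) (s : S) : V.GGe (y ⊗ₜ[kb] s) a := by
  intro l
  rw [cf_tmul]
  simpa using (Val.ge_const (V := V) (l s)).mul h

theorem gge_zero (a : ℚ) : V.GGe (0 : Ω ⊗[kb] S) a := by
  intro l
  exact Or.inl (map_zero _)

theorem gge_one : V.GGe (1 : Ω ⊗[kb] S) 0 := by
  exact gge_tmul (Or.inr Val.ord_one.ge) 1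

theorem gge_mono {x : Ω ⊗[kb] S} {a b : ℚ} (h : V.GGe x a) (hb : b ≤ a) : V.GGe x b :=
  fun l => (h l).mono hb

theorem gge_add {x y : Ω ⊗[kb] S} {a : ℚ} (hx : V.GGe x a) (hy : V.GGe y a) :
    V.GGe (x + y) a := by
  intro l
  rw [map_add]
  exact (hx l).add (hy l)

theorem gge_sub {x y : Ω ⊗[kb] S} {a : ℚ} (hx : V.GGe x a) (hy : V.GGe y a) :
    V.GGe (x - y) a := by
  intro l
  rw [map_sub]
  exact (hx l).sub (hy l)

theorem gge_sum {ι : Type} {s : Finset ι} {f : ι → Ω ⊗[kb] S} {a : ℚ}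
    (h : ∀ i ∈ s, V.GGe (f i) a) : V.GGe (∑ i ∈ s, f i) a := by
  exact Finset.sum_induction f (fun x => V.GGe x a) (fun _ _ => gge_add) (gge_zero a) h

theorem gge_gal {V' : Val kb Ω} {σ : Ω ≃ₐ[K] Ω} (h : ∀ x, V'.ord (σ x) = V.ord x)
    {x : Ω ⊗[kb] S} {a : ℚ} (hx : V.GGe x a) : V'.GGe (gal kb S σ x) a := by
  intro l
  rw [gal, cf_act]
  rcases hx l with e | e
  · exact Or.inl (by rw [e, map_zero])
  · exact Or.inr (e.trans_eq (h _).symm)

variable [Module.Finite kb S]

/-- expand both factors in a basis -/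
theorem gge_mul {x y : Ω ⊗[kb] S} {a b : ℚ} (hx : V.GGe x a) (hy : V.GGe y b) :
    V.GGe (x * y) (a + b) := by
  let e := Module.finBasis kb S
  rw [eq_sum_cf Ω e x, eq_sum_cf Ω e y, Finset.sum_mul_sum]
  refine gge_sum fun i _ => gge_sum fun j _ => ?_
  rw [Algebra.TensorProduct.tmul_mul_tmul]
  exact gge_tmul ((hx _).mul (hy _)) _

theorem gge_pow {x : Ω ⊗[kb] S} {a : ℚ} (hx : V.GGe x a) (n : ℕ) : V.GGe (x ^ n) (n * a) := by
  induction n with
  | zero => simpa using gge_one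
  | succ n ih =>
    rw [pow_succ, Nat.cast_succ, add_mul, one_mul]
    exact gge_mul ih hx

variable (V) in
theorem exists_gge (x : Ω ⊗[kb] S) : ∃ a, V.GGe x a := by
  induction x using TensorProduct.induction_on with
  | zero => exact ⟨0, gge_zero 0⟩
  | tmul y s => exact ⟨_, gge_tmul (Val.ge_ord y) s⟩
  | add x y hx hy =>
    obtain ⟨a, ha⟩ := hx
    obtain ⟨b, hb⟩ := hy
    exact ⟨min a b, gge_add (gge_mono ha (min_le_left _ _)) (gge_mono hb (min_le_right _ _))⟩

theorem eq_zero_of_gge {x : Ω ⊗[kb] S} (h : ∀ n : ℕ, V.GGe x n) : x = 0 := by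
  rw [eq_sum_cf Ω (Module.finBasis kb S) x]
  refine Finset.sum_eq_zero fun i _ => ?_
  rw [QVal.eq_zero_of_ge (V := V.toQ) fun n => h n _, TensorProduct.zero_tmul]

theorem inc_injective : Function.Injective (inc S K Ω (kb := kb)) := by
  refine (injective_iff_map_eq_zero _).mpr fun x hx => ?_
  rw [eq_sum_cf K (Module.finBasis kb S) x]
  refine Finset.sum_eq_zero fun i _ => ?_
  have h := cf_act (IsScalarTower.toAlgHom kb K Ω) ((Module.finBasis kb S).coord i) x
  rw [show act S (IsScalarTower.toAlgHom kb K Ω) x = 0 from hx, map_zero] at h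
  rw [(map_eq_zero _).mp h.symm, TensorProduct.zero_tmul]

theorem ten_fix {ε w : Ω ⊗[kb] S} (hε : V.GGe ε 1) (h : w = ε * w) : w = 0 := by
  obtain ⟨a, ha⟩ := exists_gge V w
  have h1 : ∀ n : ℕ, V.GGe w (a + n) := fun n => by
    induction n with
    | zero => simpa using ha
    | succ n ih => exact h ▸ gge_mono (gge_mul hε ih) (by push_cast; linarith)
  obtain ⟨m, hm⟩ := exists_nat_ge (-a)
  exact eq_zero_of_gge (V := V) fun n => gge_mono (h1 (m + n)) (by push_cast; linarith)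

theorem ten_int {ε w : Ω ⊗[kb] S} (hε : V.GGe ε 1) (h : w = 1 + ε * w) : V.GGe w 0 := by
  obtain ⟨a, ha⟩ := exists_gge V w
  have h1 : ∀ n : ℕ, V.GGe w (min 0 (a + n)) := fun n => by
    induction n with
    | zero => exact gge_mono ha (by simp)
    | succ n ih =>
      rw [h]
      refine gge_add (gge_mono gge_one (min_le_left _ _)) (gge_mono (gge_mul hε ih) ?_)
      rw [← min_add_add_left]
      exact min_le_min (by norm_num) (by push_cast; linarith)
  obtain ⟨m, hm⟩ := exists_nat_ge (-a)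
  exact gge_mono (h1 m) (le_min le_rfl (by linarith))

variable [IsAlgClosed kb] [IsFF kb K] [IsGalois K Ω] (p : ℕ) [Fact p.Prime] [CharP kb p]
include p

/-- The coefficients of `z` are fixed by inertia; approximate them by `QVal.Over.approx` so well
that `z' * inc u = 1 - ε` with `V.GGe ε 1`. If `(1 - ε) * w = 0` then `w = ε ^ n * w`, so `w = 0`;
hence multiplication by `u` is injective on the finite dimensional `K`-algebra `K ⊗ S` and `u` is
a unit. Finally `w = z * inc u'` satisfies `w = 1 + ε * w`, which improves `V.GGe w a` to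
`V.GGe w (min 0 (a + 1))`. -/
theorem approx_unit {v : Place kb K} (hV : V.Over v) {z z' : Ω ⊗[kb] S} (h : z * z' = 1)
    (hz : ∀ σ ∈ V.inert K, gal kb S σ z = z) : ∃ u u' : K ⊗[kb] S, u * u' = 1 ∧
      V.GGe (z * inc S K Ω u') 0 ∧ V.GGe (z' * inc S K Ω u) 0 := by
  let b := Module.finBasis kb S
  obtain ⟨a, ha⟩ := exists_gge V z'
  have hy : ∀ i, ∃ y : K, V.Ge (cf Ω (b.coord i) z - algebraMap K Ω y) (1 - a) := fun i =>
    QVal.Over.approx p (V := V.toQ) hV (fun σ hσ => by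
      have h1 := cf_act ((σ : Ω →ₐ[K] Ω).restrictScalars kb) (b.coord i) z
      rw [show act S ((σ : Ω →ₐ[K] Ω).restrictScalars kb) z = z from hz σ hσ] at h1
      exact h1.symm) _
  choose y hy using hy
  obtain ⟨u, hu⟩ : ∃ u : K ⊗[kb] S, V.GGe (z - inc S K Ω u) (1 - a) := by
    refine ⟨∑ i, y i ⊗ₜ b i, ?_⟩
    rw [map_sum]
    conv => enter [2, 1]; rw [eq_sum_cf Ω b z]
    rw [← Finset.sum_sub_distrib]
    refine gge_sum fun i _ => ?_
    change V.GGe (_ - algebraMap K Ω (y i) ⊗ₜ b i) _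
    rw [← TensorProduct.sub_tmul]
    exact gge_tmul (hy i) _
  obtain ⟨ε, hε, e⟩ : ∃ ε, V.GGe ε 1 ∧ z' * inc S K Ω u = 1 - ε :=
    ⟨z' * (z - inc S K Ω u), gge_mono (gge_mul ha hu) (by linarith), by linear_combination h⟩
  have : IsArtinianRing (K ⊗[kb] S) := IsArtinianRing.of_finite K _
  have h1 : IsUnit u := by
    refine IsArtinianRing.isUnit_of_mem_nonZeroDivisors
      (mem_nonZeroDivisors_iff_left.mpr fun w hw => inc_injective (Ω := Ω) ?_)
    have h2 : inc S K Ω u * inc S K Ω w = 0 := by rw [← map_mul, hw, map_zero]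
    rw [map_zero]
    exact ten_fix hε (by linear_combination (-inc S K Ω w) * e + z' * h2)
  obtain ⟨u', hu'⟩ := h1.exists_right_inv
  have h2 : inc S K Ω u * inc S K Ω u' = 1 := by rw [← map_mul, hu', map_one]
  refine ⟨u, u', hu', ten_int hε ?_, e ▸ gge_sub gge_one (gge_mono hε zero_le_one)⟩
  linear_combination (-(z * inc S K Ω u')) * e + (z * z') * h2 + h

end Pool.Agent.Lib.MP_6adaea_nt.T
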