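import Pool.Agent.Lib.MP_6adaea_nt.T.Base

/-!
Zeros and poles.
-/

set_option linter.unusedSectionVars false

namespace Pool.Agent.Lib.MP_6adaea_nt.T
open Matrix Polynomial G U Module

variable {kb K : Type} [Field kb] [Field K] [Algebra kb K] [IsAlgClosed kb] [IsFF kb K]
  (p : ℕ) [Fact p.Prime] [CharP kb p]
include p

/-- `IsFF.fin` -/
theorem exists_zdiv (x : K) : ∃ Z : Place kb K →₀ ℕ, ∀ v, (Z v : ℤ) = max 0 (v.ord x) := by
  refine ⟨Finsupp.ofSupportFinite (fun v => (v.ord x).toNat) ((IsFF.fin p x).subset fun v hv h =>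
    hv (by simp [h])), fun v => ?_⟩
  rw [Finsupp.ofSupportFinite_coe]
  simp only [Int.toNat_eq_max, max_comm]

/-- the zeros of `θ - c` have the same total order as its poles (`IsFF.prod`), and these are the
poles of `θ` -/
theorem exists_zero_bound (θ : K) : ∃ h : ℕ, ∀ c : kb, ∃ Z : Place kb K →₀ ℕ,
    (∀ v, (Z v : ℤ) = max 0 (v.ord (θ - algebraMap kb K c))) ∧ tot Z ≤ h := by
  classical
  obtain ⟨Z0, h0⟩ := exists_zdiv (kb := kb) p θ⁻¹
  refine ⟨tot Z0, fun c => ?_⟩
  obtain ⟨Z, hZ⟩ := exists_zdiv (kb := kb) p (θ - algebraMap kb K c)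
  refine ⟨Z, hZ, ?_⟩
  let S := Z.support ∪ Z0.support ∪ (IsFF.fin p (θ - algebraMap kb K c)).toFinset
  have h1 := IsFF.prod p (θ - algebraMap kb K c) S fun v hv =>
    Finset.mem_union_right _ ((Set.Finite.mem_toFinset _).mpr hv)
  have h2 : tot Z = ∑ v ∈ S, Z v := Finsupp.sum_of_support_subset _
    (Finset.subset_union_left.trans Finset.subset_union_left) _ (by simp)
  have h3 : tot Z0 = ∑ v ∈ S, Z0 v := Finsupp.sum_of_support_subset _
    (Finset.subset_union_right.trans Finset.subset_union_left) _ (by simp)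
  rw [h2, h3]
  zify
  rw [← sub_zero (∑ v ∈ S, (Z v : ℤ)), ← h1, ← Finset.sum_sub_distrib]
  refine Finset.sum_le_sum fun v _ => ?_
  rw [hZ, h0, Place.ord_inv]
  have h4 : v.Ge (θ - algebraMap kb K c) (min 0 (v.ord θ)) :=
    ((v.ge_ord θ).mono (min_le_right _ _)).sub ((v.ge_const c).mono (min_le_left _ _))
  rcases h4 with h4 | h4
  · rw [h4]; simp
  · omega

/-- `IsFF.pole` for `(θ - c)⁻¹` -/
theorem exists_zero {θ : K} (hθ : Transcendental kb θ) (c : kb) :
    ∃ v : Place kb K, 0 < v.ord (θ - algebraMap kb K c) := by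
  by_contra h
  push Not at h
  obtain ⟨d, hd⟩ := IsFF.pole p (x := (θ - algebraMap kb K c)⁻¹) (k := kb) fun v =>
    Place.Ge.of_le (by rw [Place.ord_inv]; have := h v; omega)
  refine hθ ?_
  have : θ = algebraMap kb K (c + d⁻¹) := by
    rw [map_add, map_inv₀, ← hd, inv_inv, add_sub_cancel]
  rw [this]
  exact isAlgebraic_algebraMap _

/-- a pole of order `t` excludes `p ^ m`-th roots for `p ^ m > t`; a root in a Galois extension is
fixed by the Galois group since Frobenius is injective -/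
theorem exists_not_root {θ : K} (hθ : Transcendental kb θ) : ∃ m : ℕ, ∀ (N : Type) [Field N]
    [Algebra K N] [IsGalois K N], ¬∃ y : N, algebraMap K N θ = y ^ p ^ m := by
  obtain ⟨v, hv⟩ := exists_zero p hθ 0
  rw [map_zero, sub_zero] at hv
  refine ⟨(v.ord θ).toNat, fun N _ _ _ ⟨y, hy⟩ => ?_⟩
  have : CharP K p := charP_of_injective_algebraMap (algebraMap kb K).injective p
  have : CharP N p := charP_of_injective_algebraMap (algebraMap K N).injective p
  obtain ⟨z, rfl⟩ : y ∈ (⊥ : IntermediateField K N) := by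
    rw [InfiniteGalois.mem_bot_iff_fixed]
    intro σ
    apply (iterateFrobenius N p (v.ord θ).toNat).injective
    rw [iterateFrobenius_def, iterateFrobenius_def, ← map_pow, ← hy, AlgEquiv.commutes]
  have h1 : θ = z ^ p ^ (v.ord θ).toNat := (algebraMap K N).injective (by rw [map_pow]; exact hy)
  have h2 := congrArg v.ord h1
  rw [Place.ord_pow] at h2
  have h3 : (v.ord θ).toNat < p ^ (v.ord θ).toNat := Nat.lt_pow_self (Fact.out : p.Prime).one_lt
  have h4 : (0 : ℤ) < v.ord z := by
    by_contra h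
    have := mul_nonpos_of_nonneg_of_nonpos (Int.natCast_nonneg (p ^ (v.ord θ).toNat)) (not_lt.mp h)
    omega
  have h5 : ((p ^ (v.ord θ).toNat : ℕ) : ℤ) * 1 ≤ (p ^ (v.ord θ).toNat : ℕ) * v.ord z :=
    mul_le_mul_of_nonneg_left h4 (Int.natCast_nonneg _)
  omega

variable {N : Type} [Field N] [Algebra kb N] [Algebra K N] [IsScalarTower kb K N]
  [FiniteDimensional K N] [IsGalois K N]

/-- Every `w` lies over a unique `v` (`Place.exists_under`, `unique_under`); sum fibrewise with
`Place.exists_fibre`, `Place.card_fibre`. -/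
theorem sum_up (Z : Place kb K →₀ ℕ) (S : Finset (Place kb N)) (f : Place kb N → ℤ)
    (h : ∀ w ∈ S, ∀ v e, w.Over v e → f w ≤ e * Z v) :
    ∑ w ∈ S, f w ≤ finrank K N * tot Z := by
  classical
  choose u e hu using fun w : Place kb N => Place.exists_under (L := K) w
  choose F hF using fun v : Place kb K => Place.exists_fibre N v
  have h1 : ∑ w ∈ S, f w ≤ ∑ w ∈ S, (e w * Z (u w) : ℤ) :=
    Finset.sum_le_sum fun w hw => h w hw _ _ (hu w)
  refine h1.trans ?_
  rw [← Finset.sum_fiberwise_of_maps_to (g := u) (t := S.image u ∪ Z.support)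
    fun w hw => Finset.mem_union_left _ (Finset.mem_image_of_mem u hw),
    show tot Z = ∑ v ∈ S.image u ∪ Z.support, Z v from
      Finsupp.sum_of_support_subset _ Finset.subset_union_right _ (by simp),
    Nat.cast_sum, Finset.mul_sum]
  refine Finset.sum_le_sum fun v _ => ?_
  rcases (S.filter fun w => u w = v).eq_empty_or_nonempty with h0 | ⟨w0, hw0⟩
  · rw [h0, Finset.sum_empty]; positivity
  have h2 : w0.Over v (e w0) := (Finset.mem_filter.mp hw0).2 ▸ hu w0
  have h3 := Place.card_fibre p (hF v) h2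
  have h4 : ∀ w ∈ S.filter fun w => u w = v, (e w * Z (u w) : ℤ) = e w0 * Z v := fun w hw => by
    have h5 : w.Over v (e w) := (Finset.mem_filter.mp hw).2 ▸ hu w
    have h6 := Place.card_fibre p (hF v) h5
    have h7 : 0 < (F v).card := Finset.card_pos.mpr ⟨w, (hF v w).mpr ⟨_, h5⟩⟩
    rw [(Finset.mem_filter.mp hw).2, Nat.eq_of_mul_eq_mul_left h7 (h6.trans h3.symm)]
  rw [Finset.sum_congr rfl h4, Finset.sum_const, nsmul_eq_mul, ← h3, Nat.cast_mul, mul_assoc]
  refine mul_le_mul_of_nonneg_right (Nat.cast_le.mpr (Finset.card_le_card fun w hw => ?_))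
    (by positivity)
  exact (hF v w).mpr ⟨_, (Finset.mem_filter.mp hw).2 ▸ hu w⟩

variable (N) in
/-- choose a place above each place (`exists_over`); the choice is injective -/
theorem exists_section : ∃ (s : Place kb K → Place kb N) (e : Place kb K → ℕ),
    Function.Injective s ∧ ∀ v, (s v).Over v (e v) := by
  choose s e h using fun v : Place kb K => exists_over (K := N) v
  exact ⟨s, e, fun v v' hv => (h v).unique_under (hv ▸ h v'), h⟩

end Pool.Agent.Lib.MP_6adaea_nt.T
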